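import Pool.Agent.ArcK.Tree

/-!
# Monotonicity of the safety conditions
-/

set_option linter.unusedSectionVars false

namespace ArcK

open Vx Cr

variable {Γ Θ : Type} [DecidableEq Γ] [DecidableEq Θ] {X : Tree Γ Θ} {S S' : Finset (Vx Γ Θ)}

/-! ### Indicators -/

theorem n1_pos {x : Vx Γ Θ} (h : x ∈ S) : n1 S x = 1 := if_pos h

theorem n1_zero {x : Vx Γ Θ} (h : x ∉ S) : n1 S x = 0 := if_neg h

theorem n1_le_one (x : Vx Γ Θ) : n1 S x ≤ 1 := by
  unfold n1; split_ifs <;> omega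

theorem n1_mono {x : Vx Γ Θ} (h : x ∈ S → x ∈ S') : n1 S x ≤ n1 S' x := by
  by_cases hx : x ∈ S
  · rw [n1_pos hx, n1_pos (h hx)]
  · rw [n1_zero hx]; omega

theorem one_le_n1 {x : Vx Γ Θ} : 1 ≤ n1 S x ↔ x ∈ S := by
  unfold n1; split_ifs <;> simp_all

theorem tau_mono {c : Γ} (h : ∀ b, t c b ∈ S → t c b ∈ S') : tau S c ≤ tau S' c :=
  Nat.add_le_add (n1_mono (h _)) (n1_mono (h _))

theorem one_le_tau {c : Γ} : 1 ≤ tau S c ↔ ∃ b, t c b ∈ S := by
  unfold tau
  constructor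
  · intro h
    by_cases h1 : t c false ∈ S
    · exact ⟨_, h1⟩
    · rw [n1_zero h1] at h
      exact ⟨true, one_le_n1.1 (by omega)⟩
  · rintro ⟨b, hb⟩
    have := n1_pos hb
    cases b <;> omega

theorem tau_eq {c : Γ} (h : t c true ∉ S) : tau S c = n1 S (t c false) := by
  unfold tau; rw [n1_zero h]; omega

/-! ### The core of a gadget -/

/-- the core of `e` in `S'` is at least as good for the defender as in `S` -/
structure CoreLe (S S' : Finset (Vx Γ Θ)) (e : Γ) : Prop where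
  hu : ∀ k, cr e (u k) ∈ S' → cr e (u k) ∈ S
  hw : cr e w ∈ S' → cr e w ∈ S
  hO : cr e Om ∈ S' → cr e Om ∈ S
  hp' : ∀ k, cr e (p k) ∈ S' → cr e (p k) ∈ S
  hp : ∀ k, cr e (p k) ∈ S → cr e (p k) ∈ S' ∨ (cr e (u k) ∉ S' ∧ cr e w ∉ S')
  hT : ∀ k, cr e (T k) ∈ S → cr e (T k) ∈ S' ∨ cr e (u k) ∉ S' ∨
    (cr e w ∉ S' ∧ cr e (p k) ∈ S')

theorem CoreLe.of_sub3 {e : Γ} (hs : S' ⊆ S)
    (hp : ∀ k, cr e (p k) ∈ S → cr e (p k) ∈ S' ∨ (cr e (u k) ∉ S' ∧ cr e w ∉ S'))
    (hT : ∀ k, cr e (T k) ∈ S → cr e (T k) ∈ S' ∨ cr e (u k) ∉ S' ∨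
      (cr e w ∉ S' ∧ cr e (p k) ∈ S')) : CoreLe S S' e :=
  ⟨fun _ h => hs h, fun h => hs h, fun h => hs h, fun _ h => hs h, hp, hT⟩

theorem CoreLe.of_sub {e : Γ} (hs : S' ⊆ S)
    (hp : ∀ k, cr e (p k) ∈ S → cr e (p k) ∈ S' ∨ (cr e (u k) ∉ S' ∧ cr e w ∉ S'))
    (hT : ∀ k, cr e (T k) ∈ S → cr e (T k) ∈ S' ∨ cr e (u k) ∉ S') : CoreLe S S' e :=
  CoreLe.of_sub3 hs hp (fun k h => (hT k h).imp id Or.inl)

theorem CoreLe.refl (e : Γ) : CoreLe S S e :=
  CoreLe.of_sub (fun _ h => h) (fun _ h => Or.inl h) (fun _ h => Or.inl h)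

theorem NR_mono {e : Γ} (h : CoreLe S S' e) (hN : NR S e) : NR S' e := by
  intro k hk
  rcases h.hp k (hN k (h.hu k hk)) with h1 | h1
  · exact h1
  · exact absurd hk h1.1

theorem Dn_mono {e : Γ} (h : CoreLe S S' e) (hD : Dn S e) : Dn S' e :=
  ⟨fun hw => hD.1 (h.hw hw), NR_mono h hD.2⟩

/-- general form of the safety conditions -/
def okg (S : Finset (Vx Γ Θ)) (c : Γ) (E : ℕ) (C D : Prop) : Prop :=
  Dn S c ∨ (Wa S c ∧ NR S c ∧ ((Sp S c ∧ 1 ≤ E) ∨ (F2 S c ∧ C))) ∨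
  ∃ k, Rk S c k ∧ (D ∨ (cr c (T k) ∈ S ∧ (1 ≤ E ∨ cr c Om ∉ S)))

theorem okg_mono {e : Γ} {E E' : ℕ} {C C' D D' : Prop} (h : CoreLe S S' e) (hE : E ≤ E')
    (hC : C → C') (hCE : C → 1 ≤ E) (hD : D → D') (hok : okg S e E C D) : okg S' e E' C' D' := by
  rcases hok with hd | ⟨hW, hN, hc⟩ | ⟨k, ⟨hW, hu, hpk, hl⟩, hk⟩
  · exact Or.inl (Dn_mono h hd)
  · by_cases hW' : Wa S' e
    · have hN' := NR_mono h hN
      refine Or.inr (Or.inl ⟨hW', hN', ?_⟩)
      rcases hc with ⟨⟨k, hk1, hk2⟩, hE1⟩ | ⟨⟨k, l, hkl, hk, hl⟩, hCC⟩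
      · refine Or.inl ⟨⟨k, fun hh => hk1 (h.hu k hh), ?_⟩, hE1.trans hE⟩
        rcases h.hp k hk2 with h2 | h2
        · exact h2
        · exact absurd hW' h2.2
      · have key : ∀ k, Fl S e k → Fl S' e k ∨ Sp S' e := by
          rintro k ⟨h1, h2, h3⟩
          have h2' : cr e (p k) ∈ S' := by
            rcases h.hp k h2 with h4 | h4
            · exact h4
            · exact absurd hW' h4.2
          by_cases h5 : cr e (u k) ∈ S'
          · rcases h.hT k h3 with h6 | h6 | h6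
            · exact Or.inl ⟨h5, h2', h6⟩
            · exact absurd h5 h6
            · exact absurd hW' h6.1
          · exact Or.inr ⟨k, h5, h2'⟩
        rcases key k hk with h1 | h1
        · rcases key l hl with h2 | h2
          · exact Or.inr ⟨⟨k, l, hkl, h1, h2⟩, hC hCC⟩
          · exact Or.inl ⟨h2, (hCE hCC).trans hE⟩
        · exact Or.inl ⟨h1, (hCE hCC).trans hE⟩
    · exact Or.inl ⟨hW', NR_mono h hN⟩
  · have hW' : ¬ Wa S' e := fun hh => hW (h.hw hh)
    by_cases hu' : cr e (u k) ∈ S'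
    · refine Or.inr (Or.inr ⟨k, ⟨hW', hu', fun hh => hpk (h.hp' k hh), ?_⟩, ?_⟩)
      · intro l hlk hul
        rcases h.hp l (hl l hlk (h.hu l hul)) with h1 | h1
        · exact h1
        · exact absurd hul h1.1
      · rcases hk with h1 | ⟨h1, h2⟩
        · exact Or.inl (hD h1)
        · refine Or.inr ⟨?_, ?_⟩
          · rcases h.hT k h1 with h3 | h3 | h3
            · exact h3
            · exact absurd hu' h3
            · exact absurd (h.hp' k h3.2) hpk
          · rcases h2 with h2 | h2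
            · exact Or.inl (h2.trans hE)
            · exact Or.inr fun hh => h2 (h.hO hh)
    · refine Or.inl ⟨hW', ?_⟩
      intro l hl'
      have hlk : l ≠ k := by rintro rfl; exact hu' hl'
      rcases h.hp l (hl l hlk (h.hu l hl')) with h1 | h1
      · exact h1
      · exact absurd hl' h1.1

theorem okg_congr_self {e : Γ} {E E' : ℕ} {C C' D D' : Prop} (hE : E ≤ E')
    (hC : C → C') (hCE : C → 1 ≤ E) (hD : D → D') (hok : okg S e E C D) : okg S e E' C' D' :=
  okg_mono (CoreLe.refl e) hE hC hCE hD hok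

/-! ### Ordinary gadgets -/

theorem okc_iff (c : Γ) : okc X S c ↔ okg S c (exc X S c)
    ((z c ∈ S ∧ (¬ wpar X S c ∨ 1 ≤ gam X S c + tau S c)) ∨ (dpar X S c ∧ 2 ≤ exc X S c))
    (z c ∈ S ∧ 1 ≤ tau S c) := Iff.rfl

theorem exc_ge_z {c : Γ} (h : z c ∈ S) : 1 ≤ exc X S c := by
  unfold exc; rw [n1_pos h]; omega

theorem exc_ge (c : Γ) : n1 S (z c) + tau S c ≤ exc X S c := by
  unfold exc; omega

theorem exc_of_dpar {c : Γ} (h : dpar X S c) : exc X S c = n1 S (z c) + tau S c + gam X S c := by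
  unfold exc; rw [if_pos h]

theorem exc_of_not_dpar {c : Γ} (h : ¬ dpar X S c) : exc X S c = n1 S (z c) + tau S c := by
  unfold exc; rw [if_neg h]; rfl

theorem gam_eq {c q : Γ} (h : X.par c = some q) : gam X S c = tau S q := by
  unfold gam; rw [h]

theorem gam_none {c : Γ} (h : X.par c = none) : gam X S c = 0 := by
  unfold gam; rw [h]

theorem dpar_iff {c q : Γ} (h : X.par c = some q) : dpar X S c ↔ Dn S q := by
  unfold dpar; rw [h]
  constructor
  · rintro ⟨q', h1, h2⟩; cases h1; exact h2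
  · intro h2; exact ⟨q, rfl, h2⟩

theorem wpar_iff {c q : Γ} (h : X.par c = some q) : wpar X S c ↔ Wa S q := by
  unfold wpar; rw [h]
  constructor
  · rintro ⟨q', h1, h2⟩; cases h1; exact h2
  · intro h2; exact ⟨q, rfl, h2⟩

theorem not_dpar_none {c : Γ} (h : X.par c = none) : ¬ dpar X S c := by
  rintro ⟨q, h1, -⟩; rw [h] at h1; cases h1

theorem condc_exc {c : Γ}
    (h : (z c ∈ S ∧ (¬ wpar X S c ∨ 1 ≤ gam X S c + tau S c)) ∨ (dpar X S c ∧ 2 ≤ exc X S c)) :
    1 ≤ exc X S c := by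
  rcases h with h | h
  · exact exc_ge_z h.1
  · omega

/-- transfer conditions for an ordinary gadget `e`: its core and links are at least as good, and
either its parent's trigger vertices are still there and the parent has not become worse, or the
gadget did not rely on its parent -/
structure Tr (X : Tree Γ Θ) (S S' : Finset (Vx Γ Θ)) (e : Γ) : Prop where
  core : CoreLe S S' e
  zz : z e ∈ S → z e ∈ S'
  tt : ∀ b, t e b ∈ S → t e b ∈ S'
  pa : ∀ q, X.par e = some q →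
    ((∀ b, t q b ∈ S → t q b ∈ S') ∧ (Wa S' q → Wa S q) ∧ (Dn S q → Dn S' q)) ∨
    (¬ Dn S q ∧ ¬ Wa S' q)

theorem Tr.okc {e : Γ} (h : Tr X S S' e) (hok : okc X S e) : okc X S' e := by
  rw [okc_iff] at hok ⊢
  rcases hq : X.par e with _ | q
  · have h1 : ¬ dpar X S e := not_dpar_none hq
    refine okg_mono h.core ?_ ?_ condc_exc ?_ hok
    · rw [exc_of_not_dpar h1]
      exact (Nat.add_le_add (n1_mono h.zz) (tau_mono h.tt)).trans (exc_ge e)
    · rintro (⟨h2, -⟩ | ⟨h2, -⟩)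
      · refine Or.inl ⟨h.zz h2, Or.inl ?_⟩
        rintro ⟨q, h3, -⟩; rw [hq] at h3; cases h3
      · exact absurd h2 h1
    · rintro ⟨h2, h3⟩
      exact ⟨h.zz h2, h3.trans (tau_mono h.tt)⟩
  · rcases h.pa q hq with ⟨hg, hW, hD⟩ | ⟨hD, hW⟩
    · have hexc : exc X S e ≤ exc X S' e := by
        by_cases h1 : dpar X S e
        · have h2 : dpar X S' e := (dpar_iff hq).2 (hD ((dpar_iff hq).1 h1))
          rw [exc_of_dpar h1, exc_of_dpar h2, gam_eq hq, gam_eq hq]
          exact Nat.add_le_add (Nat.add_le_add (n1_mono h.zz) (tau_mono h.tt)) (tau_mono hg)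
        · rw [exc_of_not_dpar h1]
          exact (Nat.add_le_add (n1_mono h.zz) (tau_mono h.tt)).trans (exc_ge e)
      refine okg_mono h.core hexc ?_ condc_exc ?_ hok
      · rintro (⟨h2, h3⟩ | ⟨h2, h3⟩)
        · refine Or.inl ⟨h.zz h2, ?_⟩
          rcases h3 with h3 | h3
          · left; rw [wpar_iff hq] at h3 ⊢; exact fun h4 => h3 (hW h4)
          · right
            rw [gam_eq hq] at h3 ⊢
            exact h3.trans (Nat.add_le_add (tau_mono hg) (tau_mono h.tt))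
        · exact Or.inr ⟨(dpar_iff hq).2 (hD ((dpar_iff hq).1 h2)), h3.trans hexc⟩
      · rintro ⟨h2, h3⟩
        exact ⟨h.zz h2, h3.trans (tau_mono h.tt)⟩
    · have h1 : ¬ dpar X S e := fun h2 => hD ((dpar_iff hq).1 h2)
      refine okg_mono h.core ?_ ?_ condc_exc ?_ hok
      · rw [exc_of_not_dpar h1]
        exact (Nat.add_le_add (n1_mono h.zz) (tau_mono h.tt)).trans (exc_ge e)
      · rintro (⟨h2, -⟩ | ⟨h2, -⟩)
        · refine Or.inl ⟨h.zz h2, Or.inl ?_⟩
          rw [wpar_iff hq]; exact hW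
        · exact absurd h2 h1
      · rintro ⟨h2, h3⟩
        exact ⟨h.zz h2, h3.trans (tau_mono h.tt)⟩

/-! ### Erasing the same link on both sides -/

/-- `x` is a link -/
def isLk : Vx Γ Θ → Bool
  | .z _ => true
  | .t _ _ => true
  | _ => false

theorem cr_mem_erase {e : Γ} {y : Cr} {x : Vx Γ Θ} (hx : isLk x = true) :
    cr e y ∈ S.erase x ↔ cr e y ∈ S := by
  rw [Finset.mem_erase]
  constructor
  · exact fun h => h.2
  · refine fun h => ⟨?_, h⟩
    rintro rfl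
    simp [isLk] at hx

theorem CoreLe.erase {e : Γ} {x : Vx Γ Θ} (hx : isLk x = true) (h : CoreLe S S' e) :
    CoreLe (S.erase x) (S'.erase x) e := by
  constructor <;> simp only [cr_mem_erase hx]
  · exact h.hu
  · exact h.hw
  · exact h.hO
  · exact h.hp'
  · exact h.hp
  · exact h.hT

theorem CoreLe.erase_right {e : Γ} {x : Vx Γ Θ} (hx : isLk x = true) (h : CoreLe S S' e) :
    CoreLe S (S'.erase x) e := by
  constructor <;> simp only [cr_mem_erase hx]
  · exact h.hu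
  · exact h.hw
  · exact h.hO
  · exact h.hp'
  · exact h.hp
  · exact h.hT

theorem CoreLe.erase_left {e : Γ} {x : Vx Γ Θ} (hx : isLk x = true) (h : CoreLe S S' e) :
    CoreLe (S.erase x) S' e := by
  constructor <;> simp only [cr_mem_erase hx]
  · exact h.hu
  · exact h.hw
  · exact h.hO
  · exact h.hp'
  · exact h.hp
  · exact h.hT

theorem Wa_erase {e : Γ} {x : Vx Γ Θ} (hx : isLk x = true) : Wa (S.erase x) e ↔ Wa S e :=
  cr_mem_erase hx

theorem NR_erase {e : Γ} {x : Vx Γ Θ} (hx : isLk x = true) : NR (S.erase x) e ↔ NR S e := by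
  unfold NR; simp only [cr_mem_erase hx]

theorem Dn_erase {e : Γ} {x : Vx Γ Θ} (hx : isLk x = true) : Dn (S.erase x) e ↔ Dn S e := by
  unfold Dn; rw [Wa_erase hx, NR_erase hx]

theorem Sp_erase {e : Γ} {x : Vx Γ Θ} (hx : isLk x = true) : Sp (S.erase x) e ↔ Sp S e := by
  unfold Sp; simp only [cr_mem_erase hx]

theorem F2_erase {e : Γ} {x : Vx Γ Θ} (hx : isLk x = true) : F2 (S.erase x) e ↔ F2 S e := by
  unfold F2 Fl; simp only [cr_mem_erase hx]

theorem Rk_erase {e : Γ} {x : Vx Γ Θ} {k : Fin 5} (hx : isLk x = true) :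
    Rk (S.erase x) e k ↔ Rk S e k := by
  unfold Rk; rw [Wa_erase hx]; simp only [cr_mem_erase hx]

theorem mem_erase_both {x y : Vx Γ Θ} (h : y ∈ S → y ∈ S') : y ∈ S.erase x → y ∈ S'.erase x := by
  intro hy
  rw [Finset.mem_erase] at hy ⊢
  exact ⟨hy.1, h hy.2⟩

theorem Tr.erase {e : Γ} {x : Vx Γ Θ} (hx : isLk x = true) (h : Tr X S S' e) :
    Tr X (S.erase x) (S'.erase x) e := by
  refine ⟨h.core.erase hx, mem_erase_both h.zz, fun b => mem_erase_both (h.tt b), ?_⟩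
  intro q hq
  rcases h.pa q hq with ⟨h1, h2, h3⟩ | ⟨h1, h2⟩
  · left
    refine ⟨fun b => mem_erase_both (h1 b), ?_, ?_⟩
    · rw [Wa_erase hx, Wa_erase hx]; exact h2
    · rw [Dn_erase hx, Dn_erase hx]; exact h3
  · right
    rw [Wa_erase hx, Dn_erase hx]
    exact ⟨h1, h2⟩

theorem Tr.okc_erase {e : Γ} {x : Vx Γ Θ} (hx : isLk x = true) (h : Tr X S S' e)
    (hok : ArcK.okc X (S.erase x) e) : ArcK.okc X (S'.erase x) e :=
  (h.erase hx).okc hok

/-- done gadgets are safe -/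
theorem okc_of_Dn {c : Γ} (h : Dn S c) : okc X S c := Or.inl h

theorem okm_of_Dn {c : Γ} (h : Dn S c) : okm X S c := Or.inl h

theorem okc_erase_of_Dn {c : Γ} {x : Vx Γ Θ} (hx : isLk x = true) (h : Dn S c) :
    okc X (S.erase x) c := Or.inl ((Dn_erase hx).2 h)

/-! ### Merge gadgets -/

theorem okm_iff (c : Γ) : okm X S c ↔ okg S c (exm X S c)
    (2 ≤ exm X S c ∨ (1 ≤ exm X S c ∧ M3 X S c)) (2 ≤ tau S c) := Iff.rfl

theorem condm_exm {c : Γ} (h : 2 ≤ exm X S c ∨ (1 ≤ exm X S c ∧ M3 X S c)) : 1 ≤ exm X S c := by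
  rcases h with h | h
  · omega
  · exact h.1

theorem exm_ge (c : Γ) : tau S c ≤ exm X S c := by
  unfold exm; omega

theorem Qp_iff {c q : Γ} (h : X.par c = some q) : Qp X S c ↔ okc X (S.erase (t q false)) q := by
  unfold Qp; rw [h]
  constructor
  · rintro ⟨q', h1, h2⟩; cases h1; exact h2
  · intro h2; exact ⟨q, rfl, h2⟩

theorem exm_of_Qp {c : Γ} (h : Qp X S c) : exm X S c = tau S c + gam X S c := by
  unfold exm; rw [if_pos h]

theorem exm_of_not_Qp {c : Γ} (h : ¬ Qp X S c) : exm X S c = tau S c := by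
  unfold exm; rw [if_neg h]; rfl

/-- transfer of the safety of a merge gadget -/
theorem okm_transfer {c : Γ} (hcore : CoreLe S S' c)
    (ht : ∀ b, t c b ∈ S → t c b ∈ S')
    (hQ : Qp X S c → gam X S c = 0 ∨ (gam X S c ≤ gam X S' c ∧ Qp X S' c))
    (hM3 : Wa S c → M3 X S c → M3 X S' c) (hok : okm X S c) : okm X S' c := by
  have hexm : exm X S c ≤ exm X S' c := by
    by_cases h1 : Qp X S c
    · rcases hQ h1 with h2 | ⟨h2, h3⟩
      · rw [exm_of_Qp h1, h2]
        exact (tau_mono ht).trans (exm_ge c)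
      · rw [exm_of_Qp h1, exm_of_Qp h3]
        exact Nat.add_le_add (tau_mono ht) h2
    · rw [exm_of_not_Qp h1]
      exact (tau_mono ht).trans (exm_ge c)
  by_cases hW : Wa S c
  · rw [okm_iff] at hok ⊢
    refine okg_mono hcore hexm ?_ condm_exm (fun h => h.trans (tau_mono ht)) hok
    rintro (h | ⟨h1, h2⟩)
    · exact Or.inl (h.trans hexm)
    · exact Or.inr ⟨h1.trans hexm, hM3 hW h2⟩
  · have hok' : okg S c (exm X S c) False (2 ≤ tau S c) := by
      rcases hok with h | h | h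
      · exact Or.inl h
      · exact absurd h.1 hW
      · exact Or.inr (Or.inr h)
    rw [okm_iff]
    exact okg_mono hcore hexm (fun h => h.elim) (fun h => h.elim)
      (fun h => h.trans (tau_mono ht)) hok'

/-- the usual way to transfer `M3` -/
theorem M3_transfer {c : Γ} (h : ∀ f, X.par f = some c → z f ∈ S → okc X (S.erase (z f)) f →
    z f ∈ S' ∧ okc X (S'.erase (z f)) f) (hM : M3 X S c) : M3 X S' c := by
  obtain ⟨f, h1, h2, h3⟩ := hM
  exact ⟨f, h1, (h f h1 h2 h3).1, (h f h1 h2 h3).2⟩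

end ArcK
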