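import Pool.Agent.ArcK.RespM

/-!
# Closure of the invariant: the case where the attack was harmless
-/

set_option linter.unusedSectionVars false

namespace ArcK

open Vx Cr

variable {Γ Θ : Type} [DecidableEq Γ] [DecidableEq Θ] {X : Tree Γ Θ} {S : Finset (Vx Γ Θ)}

namespace HH

/-- a reply which removes no link and nothing which matters -/
theorem good_le (hI : Inv X S) {a b : Vx Γ Θ} (ha : a ∈ S) (hb : b ∈ S) (hab : Ad X a b)
    (hla : isLk a = false) (hlb : isLk b = false) (hcore : ∀ e, CoreLe S (del S a b) e) :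
    Good X S := by
  refine ⟨a, b, ha, hb, hab, hI.le (del_subset a b) hcore ?_ ?_ ((Lf.of_inv hI).del hab)⟩
  · intro e h
    rw [mem_del]
    refine ⟨?_, ?_, h⟩
    · rintro rfl; cases hlb
    · rintro rfl; cases hla
  · intro e b' h
    rw [mem_del]
    refine ⟨?_, ?_, h⟩
    · rintro rfl; cases hlb
    · rintro rfl; cases hla

/-- the reply `u k, T k` -/
theorem good_uT (hI : Inv X S) {c : Γ} {k : Fin 5} (hu : cr c (u k) ∈ S)
    (hT : cr c (T k) ∈ S) : Good X S := by
  refine good_le hI hu hT (Ad.uT c k) rfl rfl fun e => CoreLe.of_sub (del_subset _ _) ?_ ?_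
  · intro l hl
    left
    rw [mem_del]
    exact ⟨by simp, by simp, hl⟩
  · intro l hl
    by_cases h : e = c ∧ l = k
    · right
      obtain ⟨rfl, rfl⟩ := h
      rw [mem_del]
      rintro ⟨-, h, -⟩
      exact h rfl
    · left
      rw [mem_del]
      refine ⟨?_, by simp, hl⟩
      intro h'
      cases h'
      exact h ⟨rfl, rfl⟩

/-- the reply `u k, p k` when `w` is gone -/
theorem good_up' (hI : Inv X S) {c : Γ} {k : Fin 5} (hW : ¬ Wa S c) (hu : cr c (u k) ∈ S)
    (hp : cr c (p k) ∈ S) : Good X S := by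
  refine good_le hI hu hp (Ad.up c k) rfl rfl fun e => CoreLe.of_sub (del_subset _ _) ?_ ?_
  · intro l hl
    by_cases h : e = c ∧ l = k
    · right
      obtain ⟨rfl, rfl⟩ := h
      refine ⟨?_, fun h => hW (del_subset _ _ h)⟩
      rw [mem_del]
      rintro ⟨-, h, -⟩
      exact h rfl
    · left
      rw [mem_del]
      refine ⟨?_, by simp, hl⟩
      intro h'
      cases h'
      exact h ⟨rfl, rfl⟩
  · intro l hl
    left
    rw [mem_del]
    exact ⟨by simp, by simp, hl⟩

/-- a vertex of side `A` of a gadget (other than `Om`) is left -/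
theorem good_gadget (hI : Inv X S) {c : Γ} (h : Wa S c ∨ ∃ k, cr c (u k) ∈ S) : Good X S := by
  have hC : X.mg c = false → ¬ Dn S c → AtC X S S c := fun hmg hD =>
    ⟨hI, hmg, hD, fun _ h => h, fun x hx hx' => absurd hx hx', Lf.of_inv hI⟩
  have hM : X.mg c = true → ¬ Dn S c → AtM X S S c := fun hmg hD =>
    ⟨hI, hmg, hD, fun _ h => h, fun x hx hx' => absurd hx hx', Lf.of_inv hI⟩
  have hHM : HM X S S c := Or.inl fun _ _ h => h
  have hHP : HP X S S c := Or.inl fun _ _ _ _ h _ => h
  by_cases hW : Wa S c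
  · have hF : F2 S c → Good X S := by
      rintro ⟨k, l, -, hk, -⟩
      exact good_uT hI hk.1 hk.2.2
    cases hmg : X.mg c with
    | false =>
      obtain ⟨hN, h2⟩ := (hI.okc' c hmg).alive hW
      rcases h2 with h2 | h2
      · exact good_spare (hC hmg hW.not_Dn) hHM hHP hW hN h2.1
      · exact hF h2.1
    | true =>
      obtain ⟨hN, h2⟩ := (hI.okm' c hmg).alive hW
      rcases h2 with h2 | h2
      · exact goodM_spare (hM hmg hW.not_Dn) hW hN h2.1
      · exact hF h2.1
  · obtain ⟨k, hu⟩ := h.resolve_left hW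
    by_cases hp : cr c (p k) ∈ S
    · exact good_up' hI hW hu hp
    have hD : ¬ Dn S c := fun hd => hp (hd.2 k hu)
    cases hmg : X.mg c with
    | false =>
      obtain ⟨l, hR, h2⟩ := ((hI.okc' c hmg).gone hW).resolve_left hD
      by_cases hT : cr c (T l) ∈ S
      · exact good_uT hI hR.2.1 hT
      rcases h2 with ⟨-, h2⟩ | ⟨h2, -⟩
      · obtain ⟨b, hb⟩ := one_le_tau.1 h2
        refine good_own_t (hC hmg hD) hHP hR hb (Or.inl ?_)
        intro hok
        rcases hok.gone (by rwa [Wa_erase (isLk_t _ _)]) with h3 | ⟨m, hm, h3⟩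
        · exact hD ((Dn_erase (isLk_t _ _)).1 h3)
        · rcases h3 with ⟨-, h3⟩ | ⟨h3, -⟩
          · rw [tau_erase_t (hI.tt c hmg)] at h3
            omega
          · rw [Rk_erase (isLk_t _ _)] at hm
            rw [cr_mem_erase (isLk_t _ _), ← Rk_unique hR hm] at h3
            exact hT h3
      · exact absurd h2 hT
    | true =>
      obtain ⟨l, hR, h2⟩ := ((hI.okm' c hmg).gone hW).resolve_left hD
      rcases h2 with h2 | ⟨h2, -⟩
      · obtain ⟨b, hb⟩ := one_le_tau.1 (show 1 ≤ tau S c by omega)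
        exact goodM_own_t (hM hmg hD) hR hb
      · exact good_uT hI hR.2.1 h2

end HH

open HH in
/-- piece H -/
theorem harmless (hI : Inv X S) (hne : ∃ x ∈ S, isA x = true) : Good X S := by
  obtain ⟨x, hx, hA⟩ := hne
  cases x with
  | cr c y =>
    cases y with
    | u k => exact good_gadget hI (Or.inr ⟨k, hx⟩)
    | w => exact good_gadget hI (Or.inl hx)
    | Om =>
      refine good_le hI hx (hI.omL c hx) (Ad.OL c) rfl rfl fun e =>
        CoreLe.of_B (del_subset _ _) ?_ ?_ <;>
      · intro l hl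
        rw [mem_del]
        exact ⟨by simp, by simp, hl⟩
    | p k => cases hA
    | T k => cases hA
    | OmL => cases hA
  | tok θ =>
    refine good_le hI hx (hI.tl θ hx) (Ad.tt θ) rfl rfl fun e =>
      CoreLe.of_B (del_subset _ _) ?_ ?_ <;>
    · intro l hl
      rw [mem_del]
      exact ⟨by simp, by simp, hl⟩
  | z c => cases hA
  | t c b => cases hA
  | tl θ => cases hA

end ArcK
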