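import Pool.Agent.ArcK.RespM

/-!
# Piece P1 of the closure: the opponent takes `u k, p k` of a gadget with `w`
-/

set_option linter.unusedSectionVars false

namespace ArcK

open Vx Cr

variable {Γ Θ : Type} [DecidableEq Γ] [DecidableEq Θ] {X : Tree Γ Θ} {S : Finset (Vx Γ Θ)}

/-- removing two core vertices of `c` keeps the exclusive locks of the merge gadget `c` -/
theorem exm_del_core {c : Γ} {y y' : Cr} (hmg : X.mg c = true) :
    exm X S c ≤ exm X (del S (cr c y) (cr c y')) c := by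
  obtain ⟨q, hq, hmq⟩ := X.mg_par c hmg
  have hqc : q ≠ c := (X.par_ne hq).symm
  have ht : ∀ e b, t e b ∈ S → t e b ∈ del S (cr c y) (cr c y') := by
    intro e b h; rw [mem_del]; exact ⟨by simp, by simp, h⟩
  have hcore : ∀ e, e ≠ c → CoreLe S (del S (cr c y) (cr c y')) e := by
    intro e hec
    refine CoreLe.of_B (del_subset _ _) ?_ ?_ <;>
    · intro k hk
      rw [mem_del]
      exact ⟨by simp [hec], by simp [hec], hk⟩
  by_cases h1 : Qp X S c
  · have h2 : Qp X (del S (cr c y) (cr c y')) c := by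
      rw [Qp_iff hq] at h1 ⊢
      refine Tr.okc_erase (isLk_t _ _) ⟨hcore q hqc, ?_, ht q, ?_⟩ h1
      · intro h; rw [mem_del]; exact ⟨by simp, by simp, h⟩
      · intro r hr
        have hrc : r ≠ c := (X.par_par_ne hq hr).symm
        exact Or.inl ⟨ht r, fun hh => del_subset _ _ hh, Dn_mono (hcore r hrc)⟩
    rw [exm_of_Qp h1, exm_of_Qp h2, gam_eq hq, gam_eq hq]
    exact Nat.add_le_add (tau_mono (ht c)) (tau_mono (ht q))
  · rw [exm_of_not_Qp h1]
    exact (tau_mono (ht c)).trans (exm_ge c)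

/-- removing two core vertices of `c` keeps the exclusive locks of `c` -/
theorem exc_del_core {c : Γ} {y y' : Cr} :
    exc X S c ≤ exc X (del S (cr c y) (cr c y')) c := by
  refine exc_mono ?_ ?_ ?_ ?_
  · intro h; rw [mem_del]; exact ⟨by simp, by simp, h⟩
  · intro b h; rw [mem_del]; exact ⟨by simp, by simp, h⟩
  · intro q _ b h; rw [mem_del]; exact ⟨by simp, by simp, h⟩
  · intro q hq hD
    have hqc : q ≠ c := (X.par_ne hq).symm
    refine Dn_mono (CoreLe.of_B (del_subset _ _) ?_ ?_) hD <;>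
    · intro k hk
      rw [mem_del]
      exact ⟨by simp [hqc], by simp [hqc], hk⟩

theorem exc_del_core_erase {c : Γ} {y y' : Cr} (x : Vx Γ Θ) (hx : isLk x = true) :
    exc X (S.erase x) c ≤ exc X ((del S (cr c y) (cr c y')).erase x) c := by
  refine exc_mono_erase hx ?_ ?_ ?_ ?_
  · intro h; rw [mem_del]; exact ⟨by simp, by simp, h⟩
  · intro b h; rw [mem_del]; exact ⟨by simp, by simp, h⟩
  · intro q _ b h; rw [mem_del]; exact ⟨by simp, by simp, h⟩
  · intro q hq hD
    have hqc : q ≠ c := (X.par_ne hq).symm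
    refine Dn_mono (CoreLe.of_B (del_subset _ _) ?_ ?_) hD <;>
    · intro k hk
      rw [mem_del]
      exact ⟨by simp [hqc], by simp [hqc], hk⟩

/-- piece P1 -/
theorem good_up (hI : Inv X S) {c : Γ} {k : Fin 5} (hu : cr c (u k) ∈ S) (hp : cr c (p k) ∈ S)
    (hW : Wa S c) : Good X (del S (cr c (u k)) (cr c (p k))) := by
  have hlf : Lf (del S (cr c (u k)) (cr c (p k))) := (Lf.of_inv hI).del (X := X) (Ad.up c k)
  have hW1 : Wa (del S (cr c (u k)) (cr c (p k))) c := by
    unfold Wa; rw [mem_del]; exact ⟨by simp, by simp, hW⟩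
  have hN1 : NR S c → NR (del S (cr c (u k)) (cr c (p k))) c := by
    intro hN l hl
    rw [mem_del] at hl ⊢
    refine ⟨?_, by simp, hN l hl.2.2⟩
    intro h
    cases h
    exact hl.2.1 rfl
  have hS1 : Sp S c → Sp (del S (cr c (u k)) (cr c (p k))) c := by
    rintro ⟨l, hl1, hl2⟩
    refine ⟨l, fun h => hl1 (del_subset _ _ h), ?_⟩
    rw [mem_del]
    refine ⟨?_, by simp, hl2⟩
    intro h
    cases h
    exact hl1 hu
  have hF1 : F2 S c → ∃ l, Fl (del S (cr c (u k)) (cr c (p k))) c l := by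
    rintro ⟨l, l', hne, hl, hl'⟩
    have hex : ∃ m, m ≠ k ∧ Fl S c m := by
      by_cases h : l = k
      · exact ⟨l', by rw [← h]; exact hne.symm, hl'⟩
      · exact ⟨l, h, hl⟩
    obtain ⟨m, hm, h1, h2, h3⟩ := hex
    refine ⟨m, ?_, ?_, ?_⟩ <;> rw [mem_del]
    · exact ⟨by simp, by simp [hm], h1⟩
    · exact ⟨by simp [hm], by simp, h2⟩
    · exact ⟨by simp, by simp, h3⟩
  have ht1 : ∀ e b, t e b ∈ S → t e b ∈ del S (cr c (u k)) (cr c (p k)) := by
    intro e b h; rw [mem_del]; exact ⟨by simp, by simp, h⟩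
  have hz1 : ∀ e, z e ∈ S → z e ∈ del S (cr c (u k)) (cr c (p k)) := by
    intro e h; rw [mem_del]; exact ⟨by simp, by simp, h⟩
  have hmiss : ∀ x ∈ S, x ∉ del S (cr c (u k)) (cr c (p k)) → ∃ y, x = cr c y := by
    intro x hx hx'
    rcases not_mem_del hx hx' with h | h
    · exact ⟨_, h⟩
    · exact ⟨_, h⟩
  cases hmg : X.mg c
  · -- ordinary
    have A : AtC X S (del S (cr c (u k)) (cr c (p k))) c :=
      ⟨hI, hmg, hW.not_Dn, del_subset _ _, fun x hx hx' => Or.inl (hmiss x hx hx'), hlf⟩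
    have hok := hI.okc' c hmg
    obtain ⟨hN, hor⟩ := hok.alive hW
    by_cases hS : Sp S c
    · exact good_spare A (Or.inl fun _ b hb => ht1 c b hb) (Or.inl fun _ _ _ _ hz _ => hz1 c hz)
        hW1 (hN1 hN) (hS1 hS)
    · have hF2 : F2 S c := by
        rcases hor with h | h
        · exact absurd h.1 hS
        · exact h.1
      obtain ⟨l, hl⟩ := hF1 hF2
      refine good_neut A hW1 (hN1 hN) hl (Or.inl ((hok.exc_pos hW).trans exc_del_core)) ?_ ?_ ?_
      · left
        intro h1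
        refine ⟨fun b hb => ht1 c b hb, Or.inl ?_⟩
        exact (h1.exc_pos ((Wa_erase (isLk_t _ _)).2 hW)).trans (exc_del_core_erase _ (isLk_t _ _))
      · left
        intro p' hp' hmp' hWp hz h1
        refine ⟨hz1 c hz, Or.inl ?_⟩
        exact (h1.exc_pos ((Wa_erase (isLk_z _)).2 hW)).trans (exc_del_core_erase _ (isLk_z _))
      · intro q hq hmq hWq h1
        left
        exact (h1.exc_pos ((Wa_erase (isLk_t _ _)).2 hW)).trans (exc_del_core_erase _ (isLk_t _ _))
  · -- merge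
    have A : AtM X S (del S (cr c (u k)) (cr c (p k))) c :=
      ⟨hI, hmg, hW.not_Dn, del_subset _ _, fun x hx hx' => Or.inl (hmiss x hx hx'), hlf⟩
    have hok := hI.okm' c hmg
    obtain ⟨hN, hor⟩ := hok.alive hW
    by_cases hS : Sp S c
    · exact goodM_spare A hW1 (hN1 hN) (hS1 hS)
    · have hF2 : F2 S c := by
        rcases hor with h | h
        · exact absurd h.1 hS
        · exact h.1
      obtain ⟨l, hl⟩ := hF1 hF2
      exact goodM_neut A hW1 (hN1 hN) hl (Or.inl ((hok.exm_pos hW).trans (exm_del_core hmg)))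

end ArcK
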