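import Pool.Agent.ArcK.CloH

/-!
# Attacks on the core which leave a vertex without its partner, or without its `T`
-/

set_option linter.unusedSectionVars false

namespace ArcK

open Vx Cr

variable {Γ Θ : Type} [DecidableEq Γ] [DecidableEq Θ] {X : Tree Γ Θ} {S S1 : Finset (Vx Γ Θ)}

namespace P34

theorem tau_zero {c : Γ} (hf : t c false ∉ S) (ht : t c true ∉ S) : tau S c = 0 := by
  unfold tau; rw [n1_zero hf, n1_zero ht]

/-- save `u k` by a link of an ordinary gadget -/
theorem save_link {c : Γ} {k : Fin 5} (A : AtC X S S1 c) (hR : Rk S1 c k)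
    (hz1 : z c ∈ S → z c ∈ S1) (ht1 : ∀ e b, t e b ∈ S → t e b ∈ S1)
    (hL0 : 1 ≤ exc X S c)
    (hLt : okc X (S.erase (t c false)) c → 1 ≤ exc X (S.erase (t c false)) c)
    (hLz : okc X (S.erase (z c)) c → 1 ≤ exc X (S.erase (z c)) c)
    (hLq : ∀ q, okc X (S.erase (t q false)) c → 1 ≤ exc X (S.erase (t q false)) c) :
    Good X S1 := by
  have hHM : HM X S S1 c := Or.inl fun _ b h => ht1 c b h
  have hHP : HP X S S1 c := Or.inl fun _ _ _ _ h _ => hz1 h
  have hct : t c true ∉ S := A.inv.tt c A.mg
  rcases hq : X.par c with _ | q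
  · -- no parent
    have hz : z c ∉ S := A.inv.zz c (Or.inr hq)
    have hdp : ¬ dpar X S c := not_dpar_none hq
    have ht : t c false ∈ S := by
      by_contra ht
      rw [exc_of_not_dpar hdp, n1_zero hz, tau_zero ht hct] at hL0
      omega
    refine good_own_t A hHP hR (ht1 c _ ht) (Or.inl fun h => ?_)
    have h1 := hLt h
    rw [exc_of_not_dpar (by rwa [dpar_erase (isLk_t _ _)]), tau_erase_t hct,
      n1_erase_ne (by simp), n1_zero hz] at h1
    omega
  · by_cases hmq : X.mg q = true
    · -- the parent is a merge gadget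
      have hno : ∀ M, X.par M = some c → X.mg M = false := by
        intro M hM
        by_contra h
        have h' : X.mg M = true := by simpa using h
        have := (X.mg_pp M c q h' hM hq).1
        rw [hmq] at this; cases this
      by_cases ht : t c false ∈ S
      · exact good_own_t A hHP hR (ht1 c _ ht) (Or.inr hno)
      by_cases hz : z c ∈ S
      · refine good_own_z A hHM hR (hz1 hz) ?_
        intro p hp _ hWp h
        rw [hq] at hp; cases hp
        have h1 := hLz h
        have hdp : ¬ dpar X (S.erase (z c)) c := by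
          rw [dpar_erase (isLk_z _), dpar_iff hq]
          exact fun h => h.1 hWp
        rw [exc_of_not_dpar hdp, n1_erase_self, tau_erase_z, tau_zero ht hct] at h1
        omega
      · have hdp : dpar X S c := by
          by_contra hdp
          rw [exc_of_not_dpar hdp, n1_zero hz, tau_zero ht hct] at hL0
          omega
        rw [exc_of_dpar hdp, n1_zero hz, tau_zero ht hct, gam_eq hq] at hL0
        obtain ⟨b, hb⟩ := one_le_tau.1 (show 1 ≤ tau S q by omega)
        exact good_gam A hHM hHP hR hq (ht1 q b hb) ((dpar_iff hq).1 hdp)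
          (fun h => by rw [hmq] at h; cases h)
    · have hmq' : X.mg q = false := by simpa using hmq
      have hqt : t q true ∉ S := A.inv.tt q hmq'
      by_cases hz : z c ∈ S
      · refine good_own_z A hHM hR (hz1 hz) ?_
        intro p hp hmp
        rw [hq] at hp; cases hp
        rw [hmq'] at hmp; cases hmp
      by_cases hch : ∃ M, X.par M = some c ∧ X.mg M = true
      · obtain ⟨M, hM, hmM⟩ := hch
        by_cases hg : dpar X S c ∧ 1 ≤ gam X S c
        · obtain ⟨hdp, hg⟩ := hg
          rw [gam_eq hq] at hg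
          obtain ⟨b, hb⟩ := one_le_tau.1 hg
          exact good_gam A hHM hHP hR hq (ht1 q b hb) ((dpar_iff hq).1 hdp)
            (fun _ => Or.inr (X.mg_pp M c q hmM hM hq).2)
        · have hE : ∀ S' : Finset (Vx Γ Θ), (dpar X S' c ↔ dpar X S c) → gam X S' c = gam X S c →
              exc X S' c = n1 S' (z c) + tau S' c := by
            intro S' h1 h2
            by_cases hdp : dpar X S' c
            · rw [exc_of_dpar hdp, h2]
              have : gam X S c = 0 := by
                by_contra h
                exact hg ⟨h1.1 hdp, by omega⟩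
              omega
            · rw [exc_of_not_dpar hdp]
          have ht : t c false ∈ S := by
            by_contra ht
            rw [hE S Iff.rfl rfl, n1_zero hz, tau_zero ht hct] at hL0
            omega
          refine good_own_t A hHP hR (ht1 c _ ht) (Or.inl fun h => ?_)
          have h1 := hLt h
          rw [hE _ (dpar_erase (isLk_t _ _)) gam_erase_self, tau_erase_t hct,
            n1_erase_ne (by simp), n1_zero hz] at h1
          omega
      · have hno : ∀ M, X.par M = some c → X.mg M = false := by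
          intro M hM
          by_contra h
          exact hch ⟨M, hM, by simpa using h⟩
        by_cases ht : t c false ∈ S
        · exact good_own_t A hHP hR (ht1 c _ ht) (Or.inr hno)
        · have hdp : dpar X S c := by
            by_contra hdp
            rw [exc_of_not_dpar hdp, n1_zero hz, tau_zero ht hct] at hL0
            omega
          rw [exc_of_dpar hdp, n1_zero hz, tau_zero ht hct, gam_eq hq] at hL0
          obtain ⟨b, hb⟩ := one_le_tau.1 (show 1 ≤ tau S q by omega)
          refine good_gam A hHM hHP hR hq (ht1 q b hb) ((dpar_iff hq).1 hdp)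
            (fun _ => Or.inl fun h => ?_)
          have h1 := hLq q h
          have hqc : c ≠ q := X.par_ne hq
          rw [exc_of_dpar ((dpar_erase (isLk_t _ _)).2 hdp), n1_erase_ne (by simp),
            n1_zero hz, tau_erase_ne hqc, tau_zero ht hct, gam_eq hq, tau_erase_t hqt] at h1
          omega

/-- save `u k` by a link of a merge gadget -/
theorem save_linkM {c : Γ} {k : Fin 5} (A : AtM X S S1 c) (hR : Rk S1 c k)
    (ht1 : ∀ e b, t e b ∈ S → t e b ∈ S1) (hL0 : 1 ≤ exm X S c) : Good X S1 := by
  obtain ⟨q, hq, hmq⟩ := X.mg_par c A.mg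
  by_cases ht : 1 ≤ tau S c
  · obtain ⟨b, hb⟩ := one_le_tau.1 ht
    exact goodM_own_t A hR (ht1 c b hb)
  · have hQ : Qp X S c := by
      by_contra hQ
      rw [exm_of_not_Qp hQ] at hL0
      omega
    rw [exm_of_Qp hQ, gam_eq hq] at hL0
    obtain ⟨b, hb⟩ := one_le_tau.1 (show 1 ≤ tau S q by omega)
    exact goodM_gam A hR hq (ht1 q b hb) ((Qp_iff hq).1 hQ)

/-- the frame of an attack with two core vertices -/
theorem atC {c : Γ} (hI : Inv X S) (hmg : X.mg c = false) (hnd : ¬ Dn S c) {y y' : Cr}
    (hab : Ad X (cr c y) (cr c y')) : AtC X S (del S (cr c y) (cr c y')) c := by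
  refine ⟨hI, hmg, hnd, del_subset _ _, ?_, (Lf.of_inv hI).del hab⟩
  intro x hx hx'
  rcases not_mem_del hx hx' with h | h
  · exact Or.inl ⟨y, h⟩
  · exact Or.inl ⟨y', h⟩

theorem atM {c : Γ} (hI : Inv X S) (hmg : X.mg c = true) (hnd : ¬ Dn S c) {y y' : Cr}
    (hab : Ad X (cr c y) (cr c y')) : AtM X S (del S (cr c y) (cr c y')) c := by
  refine ⟨hI, hmg, hnd, del_subset _ _, ?_, (Lf.of_inv hI).del hab⟩
  intro x hx hx'
  rcases not_mem_del hx hx' with h | h
  · exact Or.inl ⟨y, h⟩
  · exact Or.inl ⟨y', h⟩

theorem t_del {c e : Γ} {b : Bool} {y y' : Cr} (h : t e b ∈ S) :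
    (t e b : Vx Γ Θ) ∈ del S (cr c y) (cr c y') := by
  rw [mem_del]; exact ⟨by simp, by simp, h⟩

theorem z_del {c e : Γ} {y y' : Cr} (h : z e ∈ S) :
    (z e : Vx Γ Θ) ∈ del S (cr c y) (cr c y') := by
  rw [mem_del]; exact ⟨by simp, by simp, h⟩

end P34

open P34

/-- piece P3 -/
theorem good_wp (hI : Inv X S) {c : Γ} {k : Fin 5} (hw : cr c w ∈ S) (hp : cr c (p k) ∈ S)
    (hu : cr c (u k) ∈ S) : Good X (del S (cr c w) (cr c (p k))) := by
  have hW : Wa S c := hw
  have hnd : ¬ Dn S c := Wa.not_Dn hW
  have hN : NR S c := by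
    by_cases hmg : X.mg c = true
    · exact ((hI.okm' c hmg).alive hW).1
    · exact ((hI.okc' c (by simpa using hmg)).alive hW).1
  have hR : Rk (del S (cr c w) (cr c (p k))) c k := by
    refine ⟨?_, ?_, ?_, ?_⟩
    · unfold Wa; rw [mem_del]; rintro ⟨-, h, -⟩; exact h rfl
    · rw [mem_del]; exact ⟨by simp, by simp, hu⟩
    · rw [mem_del]; rintro ⟨h, -, -⟩; exact h rfl
    · intro l hlk hl
      rw [mem_del] at hl ⊢
      exact ⟨by simp [hlk], by simp, hN l hl.2.2⟩
  by_cases hmg : X.mg c = true
  · have A := atM hI hmg hnd (Ad.wp (X := X) c k)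
    by_cases hT : cr c (T k) ∈ S
    · exact goodM_T A hR (by rw [mem_del]; exact ⟨by simp, by simp, hT⟩)
    · exact save_linkM A hR (fun e b h => t_del h) ((hI.okm' c hmg).exm_pos hW)
  · have hmg' : X.mg c = false := by simpa using hmg
    have A := atC hI hmg' hnd (Ad.wp (X := X) c k)
    by_cases hT : cr c (T k) ∈ S
    · exact good_T A (Or.inl fun _ b h => t_del h) (Or.inl fun _ _ _ _ h _ => z_del h) hR
        (by rw [mem_del]; exact ⟨by simp, by simp, hT⟩)
    · exact save_link A hR z_del (fun e b h => t_del h) ((hI.okc' c hmg').exc_pos hW)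
        (fun h => h.exc_pos ((Wa_erase (isLk_t _ _)).2 hW))
        (fun h => h.exc_pos ((Wa_erase (isLk_z _)).2 hW))
        (fun q h => h.exc_pos ((Wa_erase (isLk_t _ _)).2 hW))

/-- piece P4 -/
theorem good_OT (hI : Inv X S) {c : Γ} {k : Fin 5} (hO : cr c Om ∈ S) (hT : cr c (T k) ∈ S)
    (hu : cr c (u k) ∈ S) : Good X (del S (cr c Om) (cr c (T k))) := by
  have hOm : cr c Om ∉ del S (cr c Om) (cr c (T k)) := by
    rw [mem_del]; rintro ⟨-, h, -⟩; exact h rfl
  have hu1 : ∀ l, cr c (u l) ∈ del S (cr c Om) (cr c (T k)) ↔ cr c (u l) ∈ S := by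
    intro l; rw [mem_del]; simp
  have hp1 : ∀ l, cr c (p l) ∈ del S (cr c Om) (cr c (T k)) ↔ cr c (p l) ∈ S := by
    intro l; rw [mem_del]; simp
  have hw1 : cr c w ∈ del S (cr c Om) (cr c (T k)) ↔ cr c w ∈ S := by
    rw [mem_del]; simp
  have hT1 : ∀ l, l ≠ k → cr c (T l) ∈ S → cr c (T l) ∈ del S (cr c Om) (cr c (T k)) := by
    intro l hl h; rw [mem_del]; exact ⟨by simp [hl], by simp, h⟩
  have hNR : NR S c → NR (del S (cr c Om) (cr c (T k))) c := by
    intro h l hl
    rw [hp1]; exact h l ((hu1 l).1 hl)
  have hSp : Sp S c → Sp (del S (cr c Om) (cr c (T k))) c := by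
    rintro ⟨l, h1, h2⟩
    exact ⟨l, fun h => h1 ((hu1 l).1 h), (hp1 l).2 h2⟩
  have hF : F2 S c → ∃ l, Fl (del S (cr c Om) (cr c (T k))) c l := by
    rintro ⟨l, m, hlm, hl, hm⟩
    by_cases hlk : l = k
    · have hmk : m ≠ k := fun h => hlm (hlk.trans h.symm)
      exact ⟨m, (hu1 m).2 hm.1, (hp1 m).2 hm.2.1, hT1 m hmk hm.2.2⟩
    · exact ⟨l, (hu1 l).2 hl.1, (hp1 l).2 hl.2.1, hT1 l hlk hl.2.2⟩
  by_cases hW : Wa S c
  · have hnd : ¬ Dn S c := Wa.not_Dn hW
    have hW1 : Wa (del S (cr c Om) (cr c (T k))) c := hw1.2 hW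
    by_cases hmg : X.mg c = true
    · have A := atM hI hmg hnd (Ad.OT (X := X) c k)
      obtain ⟨hN, hs | hf⟩ := (hI.okm' c hmg).alive hW
      · exact goodM_spare A hW1 (hNR hN) (hSp hs.1)
      · obtain ⟨l, hl⟩ := hF hf.1
        exact goodM_neut A hW1 (hNR hN) hl (Or.inr hOm)
    · have hmg' : X.mg c = false := by simpa using hmg
      have A := atC hI hmg' hnd (Ad.OT (X := X) c k)
      obtain ⟨hN, hs | hf⟩ := (hI.okc' c hmg').alive hW
      · exact good_spare A (Or.inl fun _ b h => t_del h) (Or.inl fun _ _ _ _ h _ => z_del h) hW1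
          (hNR hN) (hSp hs.1)
      · obtain ⟨l, hl⟩ := hF hf.1
        exact good_neut A hW1 (hNR hN) hl (Or.inr hOm)
          (Or.inl fun _ => ⟨fun b h => t_del h, Or.inr hOm⟩)
          (Or.inl fun _ _ _ _ h _ => ⟨z_del h, Or.inr hOm⟩) (fun _ _ _ _ _ => Or.inr hOm)
  · by_cases hpk : cr c (p k) ∈ S
    · -- nothing relevant is lost
      have hI1 : Inv X (del S (cr c Om) (cr c (T k))) := by
        refine hI.le (del_subset _ _) ?_ (fun e h => z_del h) (fun e b h => t_del h)
          ((Lf.of_inv hI).del (Ad.OT (X := X) c k))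
        intro e
        refine CoreLe.of_sub3 (del_subset _ _) (fun l h => Or.inl ?_) (fun l h => ?_)
        · rw [mem_del]; exact ⟨by simp, by simp, h⟩
        · by_cases h1 : cr e (T l) = (cr c (T k) : Vx Γ Θ)
          · cases h1
            exact Or.inr (Or.inr ⟨fun h => hW (hw1.1 h), (hp1 k).2 hpk⟩)
          · left
            rw [mem_del]; exact ⟨h1, by simp, h⟩
      exact harmless hI1 ⟨cr c (u k), (hu1 k).2 hu, rfl⟩
    · -- `u k` must be saved
      have key : ∀ (ok : (∀ l, cr c (u l) ∈ S → cr c (p l) ∉ S → l = k)), Rk S c k ∧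
          Rk (del S (cr c Om) (cr c (T k))) c k := by
        intro ok
        have h1 : Rk S c k := by
          refine ⟨hW, hu, hpk, ?_⟩
          intro l hlk hl
          by_contra h
          exact hlk (ok l hl h)
        refine ⟨h1, fun h => hW (hw1.1 h), (hu1 k).2 hu, fun h => hpk ((hp1 k).1 h), ?_⟩
        intro l hlk hl
        exact (hp1 l).2 (h1.2.2.2 l hlk ((hu1 l).1 hl))
      by_cases hmg : X.mg c = true
      · rcases (hI.okm' c hmg).gone hW with hD | ⟨l, hR, hc⟩
        · exact absurd (hD.2 k hu) hpk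
        · have hlk : l = k := by
            by_contra h
            exact hpk (hR.2.2.2 k (Ne.symm h) hu)
          subst hlk
          obtain ⟨-, hR1⟩ := key (fun m hm hm' => by
            by_contra h
            exact hm' (hR.2.2.2 m h hm))
          have A := atM hI hmg hR.not_Dn (Ad.OT (X := X) c l)
          refine save_linkM A hR1 (fun e b h => t_del h) ?_
          rcases hc with h | ⟨-, h | h⟩
          · have := exm_ge (X := X) (S := S) c
            omega
          · exact h
          · exact absurd hO h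
      · have hmg' : X.mg c = false := by simpa using hmg
        rcases (hI.okc' c hmg').gone hW with hD | ⟨l, hR, hc⟩
        · exact absurd (hD.2 k hu) hpk
        · have hlk : l = k := by
            by_contra h
            exact hpk (hR.2.2.2 k (Ne.symm h) hu)
          subst hlk
          obtain ⟨-, hR1⟩ := key (fun m hm hm' => by
            by_contra h
            exact hm' (hR.2.2.2 m h hm))
          have A := atC hI hmg' hR.not_Dn (Ad.OT (X := X) c l)
          -- whenever `c` is safe, it has an exclusive lock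
          have hE : ∀ x : Vx Γ Θ, isLk x = true → okc X (S.erase x) c →
              1 ≤ exc X (S.erase x) c := by
            intro x hx h
            rcases h.gone (by rwa [Wa_erase hx]) with hD | ⟨m, -, hc⟩
            · exact absurd ((Dn_erase hx).1 hD) hR.not_Dn
            · rcases hc with h | ⟨-, h | h⟩
              · exact exc_ge_z h.1
              · exact h
              · exact absurd ((cr_mem_erase hx).2 hO) h
          refine save_link A hR1 z_del (fun e b h => t_del h) ?_ (hE _ (isLk_t _ _))
            (hE _ (isLk_z _)) (fun q => hE _ (isLk_t _ _))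
          rcases hc with h | ⟨-, h | h⟩
          · exact exc_ge_z h.1
          · exact h
          · exact absurd hO h

end ArcK
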