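import Pool.Agent.ArcK.CloTM

/-!
# Closure: removal of the trigger vertex of an ordinary gadget
-/

set_option linter.unusedSectionVars false

namespace ArcK

open Vx Cr

variable {Γ Θ : Type} [DecidableEq Γ] [DecidableEq Θ] {X : Tree Γ Θ} {S : Finset (Vx Γ Θ)}

/-- if `c` is done, its children are still safe, and no child of `c` has a merge child, the
position is closed -/
theorem tc_closed (hI : Inv X S) {c : Γ} (hmg : X.mg c = false) (hD : Dn S c)
    (hf : ∀ f, X.par f = some c → X.mg f = false → okc X (S.erase (t c false)) f)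
    (hfm : ∀ f, X.par f = some c → X.mg f = true → okm X (S.erase (t c false)) f)
    (hr : ∀ r e, X.par r = some c → X.par e = some r → X.mg e = true → Dn S r) :
    Inv X (S.erase (t c false)) := by
  have hL : Lf (S.erase (t c false)) := (Lf.of_inv hI).erase_link (Or.inl (isLk_t _ _))
  have hDc : ∀ x : Vx Γ Θ, isLk x = true → okc X ((S.erase (t c false)).erase x) c := by
    intro x hx
    exact okc_erase_of_Dn hx ((Dn_erase (isLk_t _ _)).2 hD)
  refine ⟨?_, ?_, ?_, fun e he h => hI.tt e he (Finset.mem_of_mem_erase h),
    fun e he h => hI.zz e he (Finset.mem_of_mem_erase h), hL.omL, hL.tl⟩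
  · intro e hme
    by_cases hp : X.par e = some c
    · exact hf e hp hme
    · by_cases hec : e = c
      · subst hec
        exact okc_of_Dn ((Dn_erase (isLk_t _ _)).2 hD)
      · exact (tm_Tr hec hp).okc (hI.okc' e hme)
  · intro e hme
    by_cases hp : X.par e = some c
    · exact hfm e hp hme
    · have hec : e ≠ c := by rintro rfl; rw [hmg] at hme; cases hme
      obtain ⟨r, hr1, hmr⟩ := X.mg_par e hme
      have hrc : r ≠ c := by rintro rfl; exact hp hr1
      refine okm_transfer (CoreLe.erase_lk (isLk_t _ _)) (fun b' h => (t_mem_erase_t hec).2 h)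
        ?_ (fun _ => M3_transfer ?_) (hI.okm' e hme)
      · intro h
        rw [Qp_iff hr1] at h ⊢
        rw [gam_eq hr1, gam_eq hr1]
        refine Or.inr ⟨tau_mono (fun b' h => (t_mem_erase_t hrc).2 h), ?_⟩
        by_cases hrp : X.par r = some c
        · exact okc_erase_of_Dn (isLk_t _ _) ((Dn_erase (isLk_t _ _)).2 (hr r e hrp hr1 hme))
        · exact (tm_Tr hrc hrp).okc_erase (isLk_t _ _) h
      · intro f hf1 h1 h2
        by_cases hfc : f = c
        · subst hfc
          exact ⟨z_mem_erase_t.2 h1, hDc _ (isLk_z _)⟩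
        · have hfp : X.par f ≠ some c := by
            intro h
            rw [hf1] at h
            cases h
            exact hec rfl
          exact ⟨z_mem_erase_t.2 h1, (tm_Tr hfc hfp).okc_erase (isLk_z _) h2⟩
  · intro q hmq hWq
    rw [Wa_erase (isLk_t _ _)] at hWq
    obtain ⟨e0, he0⟩ := hI.sib q hmq hWq
    refine ⟨e0, fun e he hme hne => ?_⟩
    by_cases hqc : q = c
    · subst hqc
      have h1 : (S.erase (t q false)).erase (t q false) = S.erase (t q false) :=
        Finset.erase_eq_of_notMem (Finset.notMem_erase _ _)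
      rw [h1]
      exact hf e he hme
    · by_cases hec : e = c
      · subst hec
        exact hDc _ (isLk_t _ _)
      · have hp : X.par e ≠ some c := by
          intro h
          rw [he] at h
          cases h
          exact hqc rfl
        exact (tm_Tr hec hp).okc_erase (isLk_t _ _) (he0 e he hme hne)

/-- the answer at the merge child of `c` -/
theorem tc_merge (hI : Inv X S) {c M : Γ} (hmg : X.mg c = false) (hM : X.par M = some c)
    (hmM : X.mg M = true) (hQ : okc X (S.erase (t c false)) c)
    (hok : ¬ okm X (S.erase (t c false)) M) : Good X (S.erase (t c false)) := by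
  have hMc : M ≠ c := X.par_ne hM
  have hsub : S.erase (t c false) ⊆ S := Finset.erase_subset _ _
  have hnd : ¬ Dn S M := fun h => hok (okm_of_Dn ((Dn_erase (isLk_t _ _)).2 h))
  have A : AtM X S (S.erase (t c false)) M := by
    refine ⟨hI, hmM, hnd, hsub, ?_, (Lf.of_inv hI).erase_link (Or.inl (isLk_t _ _))⟩
    intro x hx hx'
    have := not_mem_erase hx hx'
    subst this
    exact Or.inr (Or.inr (Or.inr (Or.inl ⟨c, false, hM, rfl, hQ⟩)))
  have htM : tau (S.erase (t c false)) M = tau S M := tau_erase_ne hMc
  by_cases hW : Wa S M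
  · obtain ⟨hN, h⟩ := (hI.okm' M hmM).alive hW
    have hW1 : Wa (S.erase (t c false)) M := (Wa_erase (isLk_t _ _)).2 hW
    have hN1 : NR (S.erase (t c false)) M := (NR_erase (isLk_t _ _)).2 hN
    rcases h with h | ⟨hF2, h⟩
    · exact goodM_spare A hW1 hN1 ((Sp_erase (isLk_t _ _)).2 h.1)
    · by_cases htau : 1 ≤ tau S M
      · obtain ⟨k, l, -, hFk, -⟩ := (F2_erase (x := t c false) (isLk_t _ _)).2 hF2
        have := exm_ge (X := X) (S := S.erase (t c false)) M
        exact goodM_neut A hW1 hN1 hFk (Or.inl (by omega))
      · have hgam : gam X S M ≤ 1 := by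
          rw [gam_eq hM, tau_eq (hI.tt c hmg)]
          exact n1_le_one _
        have hexm : exm X S M ≤ 1 := by
          by_cases h1 : Qp X S M
          · rw [exm_of_Qp h1]; omega
          · rw [exm_of_not_Qp h1]; omega
        rcases h with h | ⟨-, f, hf1, hf2, hf3⟩
        · omega
        · exact goodM_exit A hW1 hN1 hf1 (z_mem_erase_t.2 hf2) hf3
  · rcases (hI.okm' M hmM).gone hW with h | ⟨k, hR, h⟩
    · exact absurd h hnd
    · have hR1 : Rk (S.erase (t c false)) M k := (Rk_erase (isLk_t _ _)).2 hR
      rcases h with h | h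
      · have h2 : 1 ≤ tau (S.erase (t c false)) M := by omega
        obtain ⟨b, hb⟩ := one_le_tau.1 h2
        exact goodM_own_t A hR1 hb
      · exact goodM_T A hR1 ((cr_mem_erase (isLk_t _ _)).2 h.1)

/-- the answer at an ordinary child of `c`, which is done -/
theorem tc_child (hI : Inv X S) {c f : Γ} (hmg : X.mg c = false) (hD : Dn S c)
    (hf : X.par f = some c) (hmf : X.mg f = false) (hnd : ¬ Dn S f)
    (hor : ¬ okc X (S.erase (t c false)) f ∨ ∀ e, X.par e = some c → e = f) :
    Good X (S.erase (t c false)) := by
  have hfc : f ≠ c := X.par_ne hf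
  have hsub : S.erase (t c false) ⊆ S := Finset.erase_subset _ _
  have A : AtC X S (S.erase (t c false)) f := by
    refine ⟨hI, hmf, hnd, hsub, ?_, (Lf.of_inv hI).erase_link (Or.inl (isLk_t _ _))⟩
    intro x hx hx'
    have := not_mem_erase hx hx'
    subst this
    exact Or.inr (Or.inr (Or.inr (Or.inr ⟨c, false, hf, rfl, hD, fun _ => hor⟩)))
  have hHM : HM X S (S.erase (t c false)) f :=
    Or.inl fun _ b' h => (t_mem_erase_t hfc).2 h
  have hvac : ∀ p, X.par f = some p → X.mg p = true → False := by
    intro p hp hmp
    rw [hf] at hp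
    cases hp
    rw [hmg] at hmp; cases hmp
  have hHP : HP X S (S.erase (t c false)) f :=
    Or.inl fun p hp hmp => (hvac p hp hmp).elim
  have hdp : dpar X S f := (dpar_iff hf).2 hD
  have hdp1 : dpar X (S.erase (t c false)) f := (dpar_erase (isLk_t _ _)).2 hdp
  have htf : tau (S.erase (t c false)) f = tau S f := tau_erase_ne hfc
  have htc : tau S c ≤ 1 := by
    rw [tau_eq (hI.tt c hmg)]
    exact n1_le_one _
  have htf1 : tau S f ≤ 1 := by
    rw [tau_eq (hI.tt f hmf)]
    exact n1_le_one _
  by_cases hW : Wa S f
  · obtain ⟨hN, h⟩ := (hI.okc' f hmf).alive hW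
    have hW1 : Wa (S.erase (t c false)) f := (Wa_erase (isLk_t _ _)).2 hW
    have hN1 : NR (S.erase (t c false)) f := (NR_erase (isLk_t _ _)).2 hN
    by_cases hSp : Sp S f
    · exact good_spare A hHM hHP hW1 hN1 ((Sp_erase (isLk_t _ _)).2 hSp)
    · have hF2 : F2 S f := by
        rcases h with h | h
        · exact absurd h.1 hSp
        · exact h.1
      have hF21 : F2 (S.erase (t c false)) f := (F2_erase (isLk_t _ _)).2 hF2
      obtain ⟨k, l, -, hFk, -⟩ := hF21
      by_cases hz : z f ∈ S
      · have hz1 : z f ∈ S.erase (t c false) := z_mem_erase_t.2 hz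
        refine good_neut A hW1 hN1 hFk (Or.inl (exc_ge_z hz1)) (Or.inl ?_) (Or.inl ?_) ?_
        · intro _
          exact ⟨fun b' h => (t_mem_erase_t hfc).2 h, Or.inl (exc_ge_z (z_mem_erase_t.2 hz1))⟩
        · intro p hp hmp
          exact (hvac p hp hmp).elim
        · intro q _ _ _ _
          exact Or.inl (exc_ge_z (z_mem_erase_t.2 hz1))
      · have h2 : 2 ≤ exc X S f := by
          rcases h with h | h
          · exact absurd h.1 hSp
          · rcases h.2 with h3 | h3
            · exact absurd h3.1 hz
            · exact h3.2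
        have e1 : exc X S f = n1 S (z f) + tau S f + tau S c := by
          rw [exc_of_dpar hdp, gam_eq hf]
        have e2 := exc_ge (X := X) (S := S.erase (t c false)) f
        have e3 : n1 S (z f) = 0 := n1_zero hz
        -- the condition without one of the two links is false
        have key : ∀ d : Γ, (d = f ∨ d = c) → ¬ okc X (S.erase (t d false)) f := by
          intro d hd h3
          have hWt : Wa (S.erase (t d false)) f := (Wa_erase (isLk_t _ _)).2 hW
          have h4 : 2 ≤ exc X (S.erase (t d false)) f := by
            rcases (h3.alive hWt).2 with h5 | h5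
            · exact absurd ((Sp_erase (isLk_t _ _)).1 h5.1) hSp
            · rcases h5.2 with h6 | h6
              · exact absurd (z_mem_erase_t.1 h6.1) hz
              · exact h6.2
          have hdpt : dpar X (S.erase (t d false)) f := (dpar_erase (isLk_t _ _)).2 hdp
          rw [exc_of_dpar hdpt, gam_eq hf, n1_zero (fun h => hz (z_mem_erase_t.1 h))] at h4
          rcases hd with rfl | rfl
          · rw [tau_erase_t (hI.tt d hmf), tau_erase_ne hfc.symm] at h4
            omega
          · rw [tau_erase_t (hI.tt d hmg), tau_erase_ne hfc] at h4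
            omega
        refine good_neut A hW1 hN1 hFk (Or.inl (by omega)) (Or.inl ?_) (Or.inl ?_) ?_
        · intro h3
          exact absurd h3 (key f (Or.inl rfl))
        · intro p hp hmp
          exact (hvac p hp hmp).elim
        · intro q hq _ _ h3
          rw [hf] at hq
          cases hq
          exact absurd h3 (key c (Or.inr rfl))
  · rcases (hI.okc' f hmf).gone hW with h | ⟨k, hR, h⟩
    · exact absurd h hnd
    · have hR1 : Rk (S.erase (t c false)) f k := (Rk_erase (isLk_t _ _)).2 hR
      by_cases hT : cr f (T k) ∈ S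
      · exact good_T A hHM hHP hR1 ((cr_mem_erase (isLk_t _ _)).2 hT)
      · rcases h with h | h
        · exact good_own_z A hHM hR1 (z_mem_erase_t.2 h.1)
            (fun p hp hmp => (hvac p hp hmp).elim)
        · exact absurd h.1 hT

/-- the answer at `c` -/
theorem tc_self (hI : Inv X S) {c : Γ} (hmg : X.mg c = false) (hnd : ¬ Dn S c)
    (hfm : ∀ f, X.par f = some c → X.mg f = true → okm X (S.erase (t c false)) f) :
    Good X (S.erase (t c false)) := by
  have hsub : S.erase (t c false) ⊆ S := Finset.erase_subset _ _
  have A : AtC X S (S.erase (t c false)) c := by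
    refine ⟨hI, hmg, hnd, hsub, ?_, (Lf.of_inv hI).erase_link (Or.inl (isLk_t _ _))⟩
    intro x hx hx'
    have := not_mem_erase hx hx'
    subst this
    exact Or.inr (Or.inr (Or.inl ⟨false, rfl⟩))
  have hnot : ∀ b, t c b ∉ S.erase (t c false) := by
    intro b h
    cases b
    · exact Finset.notMem_erase _ _ h
    · exact hI.tt c hmg (Finset.mem_of_mem_erase h)
  have hHM : HM X S (S.erase (t c false)) c := Or.inr ⟨hnot, hfm⟩
  have hHP : HP X S (S.erase (t c false)) c :=
    Or.inl fun _ _ _ _ h _ => z_mem_erase_t.2 h
  have htc : tau S c ≤ 1 := by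
    rw [tau_eq (hI.tt c hmg)]
    exact n1_le_one _
  by_cases hW : Wa S c
  · obtain ⟨hN, h⟩ := (hI.okc' c hmg).alive hW
    have hW1 : Wa (S.erase (t c false)) c := (Wa_erase (isLk_t _ _)).2 hW
    have hN1 : NR (S.erase (t c false)) c := (NR_erase (isLk_t _ _)).2 hN
    by_cases hSp : Sp S c
    · exact good_spare A hHM hHP hW1 hN1 ((Sp_erase (isLk_t _ _)).2 hSp)
    · have hF2 : F2 S c := by
        rcases h with h | h
        · exact absurd h.1 hSp
        · exact h.1
      have hF21 : F2 (S.erase (t c false)) c := (F2_erase (isLk_t _ _)).2 hF2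
      obtain ⟨k, l, -, hFk, -⟩ := hF21
      have hE : 1 ≤ exc X (S.erase (t c false)) c := by
        rcases h with h | h
        · exact absurd h.1 hSp
        · rcases h.2 with h3 | h3
          · exact exc_ge_z (z_mem_erase_t.2 h3.1)
          · have hdp1 : dpar X (S.erase (t c false)) c := (dpar_erase (isLk_t _ _)).2 h3.1
            have e1 := exc_of_dpar h3.1
            have e2 := exc_of_dpar hdp1
            rw [gam_erase_self, n1_erase_ne (by simp)] at e2
            have := h3.2
            omega
      refine good_neut A hW1 hN1 hFk (Or.inl hE) (Or.inr ⟨hnot, hfm⟩) (Or.inl ?_) ?_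
      · intro p hp _ hWp _ h3
        exfalso
        have hWt : Wa (S.erase (z c)) c := (Wa_erase (isLk_z _)).2 hW
        rcases (h3.alive hWt).2 with h5 | h5
        · exact hSp ((Sp_erase (isLk_z _)).1 h5.1)
        · rcases h5.2 with h6 | h6
          · exact Finset.notMem_erase _ _ h6.1
          · have h7 : dpar X S c := (dpar_erase (isLk_z _)).1 h6.1
            exact ((dpar_iff hp).1 h7).1 hWp
      · intro q hq hmq _ h3
        have hcq : c ≠ q := X.par_ne hq
        have hWt : Wa (S.erase (t q false)) c := (Wa_erase (isLk_t _ _)).2 hW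
        have hz : z c ∈ S := by
          rcases (h3.alive hWt).2 with h5 | h5
          · exact absurd ((Sp_erase (isLk_t _ _)).1 h5.1) hSp
          · rcases h5.2 with h6 | h6
            · exact z_mem_erase_t.1 h6.1
            · by_contra hz
              have h7 := h6.2
              rw [exc_of_dpar h6.1, gam_eq hq, n1_zero (fun h => hz (z_mem_erase_t.1 h)),
                tau_erase_t (hI.tt q hmq), tau_erase_ne hcq] at h7
              omega
        exact Or.inl (exc_ge_z (z_mem_erase_t.2 (z_mem_erase_t.2 hz)))
  · rcases (hI.okc' c hmg).gone hW with h | ⟨k, hR, h⟩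
    · exact absurd h hnd
    · have hR1 : Rk (S.erase (t c false)) c k := (Rk_erase (isLk_t _ _)).2 hR
      by_cases hT : cr c (T k) ∈ S
      · exact good_T A hHM hHP hR1 ((cr_mem_erase (isLk_t _ _)).2 hT)
      · rcases h with h | h
        · refine good_own_z A hHM hR1 (z_mem_erase_t.2 h.1) ?_
          intro p _ _ _ h3
          have hWt : ¬ Wa (S.erase (z c)) c := fun h => hW ((Wa_erase (isLk_z _)).1 h)
          rcases h3.gone hWt with h4 | ⟨k', hR', h4⟩
          · exact hnd ((Dn_erase (isLk_z _)).1 h4)
          · have hkk : k' = k := Rk_unique ((Rk_erase (isLk_z _)).1 hR') hR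
            subst hkk
            rcases h4 with h5 | h5
            · exact Finset.notMem_erase _ _ h5.1
            · exact hT (Finset.mem_of_mem_erase h5.1)
        · exact absurd h.1 hT

/-- piece TC -/
theorem good_tc (hI : Inv X S) {c : Γ} (hmg : X.mg c = false) (ht : t c false ∈ S)
    (hne : ∃ x ∈ S, isA x = true) : Good X (S.erase (t c false)) := by
  have _ := ht
  by_cases hfm : ∀ f, X.par f = some c → X.mg f = true → okm X (S.erase (t c false)) f
  · by_cases hD : Dn S c
    · by_cases hr : ∀ r e, X.par r = some c → X.par e = some r → X.mg e = true → Dn S r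
      · by_cases hf : ∀ f, X.par f = some c → X.mg f = false → okc X (S.erase (t c false)) f
        · refine harmless (tc_closed hI hmg hD hf hfm hr) ?_
          obtain ⟨x, hx, hA⟩ := hne
          refine ⟨x, Finset.mem_erase.2 ⟨?_, hx⟩, hA⟩
          rintro rfl
          cases hA
        · push Not at hf
          obtain ⟨f, hf1, hf2, hf3⟩ := hf
          have hnd : ¬ Dn S f := fun h => hf3 (okc_of_Dn ((Dn_erase (isLk_t _ _)).2 h))
          exact tc_child hI hmg hD hf1 hf2 hnd (Or.inl hf3)
      · push Not at hr
        obtain ⟨r, e, hr1, he, hme, hnd⟩ := hr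
        obtain ⟨-, honly⟩ := X.mg_pp e r c hme he hr1
        obtain ⟨r', hr', hmr⟩ := X.mg_par e hme
        rw [he] at hr'
        cases hr'
        exact tc_child hI hmg hD hr1 hmr hnd (Or.inr honly)
    · exact tc_self hI hmg hD hfm
  · push Not at hfm
    obtain ⟨M, hM1, hM2, hM3⟩ := hfm
    refine tc_merge hI hmg hM1 hM2 ?_ hM3
    -- `M` relied on the trigger vertex of `c`
    by_contra hQ
    apply hM3
    have hMc : M ≠ c := X.par_ne hM1
    refine okm_transfer (CoreLe.erase_lk (isLk_t _ _)) (fun b' h => (t_mem_erase_t hMc).2 h)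
      ?_ (fun _ => M3_transfer ?_) (hI.okm' M hM2)
    · intro h
      rw [Qp_iff hM1] at h
      exact absurd h hQ
    · intro f hf1 h1 h2
      have hfc : f ≠ c := by
        rintro rfl
        exact X.par_par_ne hM1 hf1 rfl
      have hfp : X.par f ≠ some c := by
        intro h
        rw [hf1] at h
        cases h
        exact hMc rfl
      exact ⟨z_mem_erase_t.2 h1, (tm_Tr hfc hfp).okc_erase (isLk_z _) h2⟩

end ArcK
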