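import Pool.Agent.ArcK.CloH

/-!
# Closure: removal of a trigger vertex of a merge gadget
-/

set_option linter.unusedSectionVars false

namespace ArcK

open Vx Cr

variable {Γ Θ : Type} [DecidableEq Γ] [DecidableEq Θ] {X : Tree Γ Θ} {S : Finset (Vx Γ Θ)}

theorem CoreLe.erase_lk {e : Γ} {x : Vx Γ Θ} (hx : isLk x = true) :
    CoreLe S (S.erase x) e := (CoreLe.refl e).erase_right hx

/-- the gadgets which are not `c` and not children of `c` do not see the trigger vertices of `c` -/
theorem tm_Tr {c e : Γ} {b : Bool} (hec : e ≠ c) (hp : X.par e ≠ some c) :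
    Tr X S (S.erase (t c b)) e := by
  refine ⟨CoreLe.erase_lk (isLk_t _ _), fun h => z_mem_erase_t.2 h,
    fun b' h => (t_mem_erase_t hec).2 h, ?_⟩
  intro q hq
  have hqc : q ≠ c := by rintro rfl; exact hp hq
  refine Or.inl ⟨fun b' h => (t_mem_erase_t hqc).2 h, ?_, ?_⟩
  · rw [Wa_erase (isLk_t _ _)]; exact fun h => h
  · rw [Dn_erase (isLk_t _ _)]; exact fun h => h

theorem tm_child_mg {c f : Γ} (hmg : X.mg c = true) (hf : X.par f = some c) :
    X.mg f = false := by
  by_contra hmf
  have hmf' : X.mg f = true := by simpa using hmf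
  obtain ⟨r, hr, hmr⟩ := X.mg_par f hmf'
  rw [hf] at hr; cases hr; rw [hmg] at hmr; cases hmr

/-- if `c` is done and its child is still safe, the position is closed -/
theorem tm_closed (hI : Inv X S) {c : Γ} (hmg : X.mg c = true) {b : Bool} (hD : Dn S c)
    (hf : ∀ f, X.par f = some c → okc X (S.erase (t c b)) f) : Inv X (S.erase (t c b)) := by
  have hL : Lf (S.erase (t c b)) := (Lf.of_inv hI).erase_link (Or.inl (isLk_t _ _))
  refine ⟨?_, ?_, ?_, fun e he h => hI.tt e he (Finset.mem_of_mem_erase h),
    fun e he h => hI.zz e he (Finset.mem_of_mem_erase h), hL.omL, hL.tl⟩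
  · intro e hme
    by_cases hp : X.par e = some c
    · exact hf e hp
    · have hec : e ≠ c := by rintro rfl; rw [hmg] at hme; cases hme
      exact (tm_Tr hec hp).okc (hI.okc' e hme)
  · intro e hme
    by_cases hec : e = c
    · subst hec
      exact okm_of_Dn ((Dn_erase (isLk_t _ _)).2 hD)
    · obtain ⟨r, hr, hmr⟩ := X.mg_par e hme
      have hrc : r ≠ c := by rintro rfl; rw [hmg] at hmr; cases hmr
      have hrp : X.par r ≠ some c := by
        intro h
        have := (X.mg_pp e r c hme hr h).1
        rw [hmg] at this; cases this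
      refine okm_transfer (CoreLe.erase_lk (isLk_t _ _)) (fun b' h => (t_mem_erase_t hec).2 h)
        ?_ (fun _ => M3_transfer ?_) (hI.okm' e hme)
      · intro h
        rw [Qp_iff hr] at h ⊢
        rw [gam_eq hr, gam_eq hr]
        refine Or.inr ⟨tau_mono (fun b' h => (t_mem_erase_t hrc).2 h), ?_⟩
        exact (tm_Tr hrc hrp).okc_erase (isLk_t _ _) h
      · intro f hf1 h1 h2
        have hmf := tm_child_mg hme hf1
        have hfc : f ≠ c := by rintro rfl; rw [hmg] at hmf; cases hmf
        have hfp : X.par f ≠ some c := by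
          intro h
          rw [hf1] at h
          cases h
          exact hec rfl
        exact ⟨z_mem_erase_t.2 h1, (tm_Tr hfc hfp).okc_erase (isLk_z _) h2⟩
  · intro q hmq hWq
    rw [Wa_erase (isLk_t _ _)] at hWq
    obtain ⟨e0, he0⟩ := hI.sib q hmq hWq
    refine ⟨e0, fun e he hme hne => ?_⟩
    have hec : e ≠ c := by rintro rfl; rw [hmg] at hme; cases hme
    have hp : X.par e ≠ some c := by
      intro h
      rw [he] at h
      cases h
      rw [hmg] at hmq; cases hmq
    exact (tm_Tr hec hp).okc_erase (isLk_t _ _) (he0 e he hme hne)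

theorem tau_le_erase {c : Γ} (b : Bool) : tau S c ≤ tau (S.erase (t c b)) c + 1 := by
  unfold tau
  cases b
  · have h1 : n1 S (t c true) = n1 (S.erase (t c false)) (t c true) :=
      (n1_erase_ne (by simp)).symm
    have h2 := n1_le_one (S := S) (t c false)
    omega
  · have h1 : n1 S (t c false) = n1 (S.erase (t c true)) (t c false) :=
      (n1_erase_ne (by simp)).symm
    have h2 := n1_le_one (S := S) (t c true)
    omega

/-- the number of locks of `c` drops by at most one -/
theorem exm_le_erase {c : Γ} (hmg : X.mg c = true) (b : Bool) :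
    exm X S c ≤ exm X (S.erase (t c b)) c + 1 := by
  obtain ⟨q, hq, hmq⟩ := X.mg_par c hmg
  have hqc : q ≠ c := (X.par_ne hq).symm
  have hqp : X.par q ≠ some c := fun h => X.par_par_ne hq h rfl
  have ht := tau_le_erase (S := S) (c := c) b
  by_cases h1 : Qp X S c
  · have h2 : Qp X (S.erase (t c b)) c := by
      rw [Qp_iff hq] at h1 ⊢
      exact (tm_Tr hqc hqp).okc_erase (isLk_t _ _) h1
    rw [exm_of_Qp h1, exm_of_Qp h2, gam_eq hq, gam_eq hq, tau_erase_ne hqc]
    omega
  · rw [exm_of_not_Qp h1]
    have := exm_ge (X := X) (S := S.erase (t c b)) c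
    omega

/-- the answer at the child of a merge gadget which is done -/
theorem tm_child (hI : Inv X S) {c f : Γ} (hmg : X.mg c = true) {b : Bool} (hD : Dn S c)
    (hf : X.par f = some c) (hok : ¬ okc X (S.erase (t c b)) f) : Good X (S.erase (t c b)) := by
  have hmf := tm_child_mg hmg hf
  have hfc : f ≠ c := X.par_ne hf
  have hsub : S.erase (t c b) ⊆ S := Finset.erase_subset _ _
  have hnd : ¬ Dn S f := fun h => hok (okc_erase_of_Dn (isLk_t _ _) h)
  have A : AtC X S (S.erase (t c b)) f := by
    refine ⟨hI, hmf, hnd, hsub, ?_, (Lf.of_inv hI).erase_link (Or.inl (isLk_t _ _))⟩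
    intro x hx hx'
    have := not_mem_erase hx hx'
    subst this
    refine Or.inr (Or.inr (Or.inr (Or.inr ⟨c, b, hf, rfl, hD, ?_⟩)))
    intro h
    rw [hmg] at h; cases h
  have hHM : HM X S (S.erase (t c b)) f :=
    Or.inl fun _ b' h => (t_mem_erase_t hfc).2 h
  have hHP : HP X S (S.erase (t c b)) f :=
    Or.inl fun _ _ _ _ h _ => z_mem_erase_t.2 h
  have hdp : dpar X S f := (dpar_iff hf).2 hD
  have hdp1 : dpar X (S.erase (t c b)) f := (dpar_erase (isLk_t _ _)).2 hdp
  have htf : tau (S.erase (t c b)) f = tau S f := tau_erase_ne hfc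
  have hnw : ¬ wpar X (S.erase (t c b)) f := by
    rw [wpar_iff hf, Wa_erase (isLk_t _ _)]
    exact hD.1
  by_cases hW : Wa S f
  · obtain ⟨hN, h⟩ := (hI.okc' f hmf).alive hW
    have hW1 : Wa (S.erase (t c b)) f := (Wa_erase (isLk_t _ _)).2 hW
    have hN1 : NR (S.erase (t c b)) f := (NR_erase (isLk_t _ _)).2 hN
    by_cases hSp : Sp S f
    · exact good_spare A hHM hHP hW1 hN1 ((Sp_erase (isLk_t _ _)).2 hSp)
    · have hF2 : F2 S f := by
        rcases h with h | h
        · exact absurd h.1 hSp
        · exact h.1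
      have hF21 : F2 (S.erase (t c b)) f := (F2_erase (isLk_t _ _)).2 hF2
      have hz : z f ∉ S := by
        intro hz
        apply hok
        exact Or.inr (Or.inl ⟨hW1, hN1, Or.inr ⟨hF21, Or.inl ⟨z_mem_erase_t.2 hz,
          Or.inl hnw⟩⟩⟩)
      have h2 : 2 ≤ exc X S f := by
        rcases h with h | h
        · exact absurd h.1 hSp
        · rcases h.2 with h3 | h3
          · exact absurd h3.1 hz
          · exact h3.2
      have ht1 := tau_le_erase (S := S) (c := c) b
      have e1 : exc X S f = n1 S (z f) + tau S f + tau S c := by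
        rw [exc_of_dpar hdp, gam_eq hf]
      have e2 : exc X (S.erase (t c b)) f = n1 (S.erase (t c b)) (z f) + tau S f +
          tau (S.erase (t c b)) c := by
        rw [exc_of_dpar hdp1, gam_eq hf, htf]
      have e3 : n1 S (z f) = 0 := n1_zero hz
      obtain ⟨k, l, -, hFk, -⟩ := hF21
      refine good_neut A hW1 hN1 hFk (Or.inl (by omega)) (Or.inl ?_) (Or.inl ?_) ?_
      · intro h3
        refine ⟨fun b' h => (t_mem_erase_t hfc).2 h, Or.inl ?_⟩
        have hWt : Wa (S.erase (t f false)) f := (Wa_erase (isLk_t _ _)).2 hW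
        have h4 : 2 ≤ exc X (S.erase (t f false)) f := by
          rcases (h3.alive hWt).2 with h5 | h5
          · exact absurd ((Sp_erase (isLk_t _ _)).1 h5.1) hSp
          · rcases h5.2 with h6 | h6
            · exact absurd (z_mem_erase_t.1 h6.1) hz
            · exact h6.2
        have hdpt : dpar X (S.erase (t f false)) f := (dpar_erase (isLk_t _ _)).2 hdp
        have hdpt' : dpar X ((S.erase (t c b)).erase (t f false)) f :=
          (dpar_erase (isLk_t _ _)).2 hdp1
        have htt : t f true ∉ S := hI.tt f hmf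
        have htt' : t f true ∉ S.erase (t c b) := fun h => htt (Finset.mem_of_mem_erase h)
        rw [exc_of_dpar hdpt, gam_eq hf, tau_erase_t htt, tau_erase_ne hfc.symm,
          n1_zero (fun h => hz (z_mem_erase_t.1 h))] at h4
        rw [exc_of_dpar hdpt', gam_eq hf, tau_erase_t htt', tau_erase_ne hfc.symm]
        omega
      · intro p hp hmp hWp hzf
        exact absurd hzf hz
      · intro q hq hmq
        rw [hf] at hq
        cases hq
        rw [hmg] at hmq; cases hmq
  · rcases (hI.okc' f hmf).gone hW with h | ⟨k, hR, h⟩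
    · exact absurd h hnd
    · have hR1 : Rk (S.erase (t c b)) f k := (Rk_erase (isLk_t _ _)).2 hR
      by_cases hT : cr f (T k) ∈ S
      · exact good_T A hHM hHP hR1 ((cr_mem_erase (isLk_t _ _)).2 hT)
      · exfalso
        rcases h with h | h
        · exact hok (Or.inr (Or.inr ⟨k, hR1, Or.inl ⟨z_mem_erase_t.2 h.1, by rw [htf]; exact h.2⟩⟩))
        · exact hT h.1

/-- piece TM -/
theorem good_tm (hI : Inv X S) {c : Γ} (hmg : X.mg c = true) {b : Bool} (ht : t c b ∈ S)
    (hne : ∃ x ∈ S, isA x = true) : Good X (S.erase (t c b)) := by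
  by_cases hD : Dn S c
  · by_cases hf : ∀ f, X.par f = some c → okc X (S.erase (t c b)) f
    · refine harmless (tm_closed hI hmg hD hf) ?_
      obtain ⟨x, hx, hA⟩ := hne
      refine ⟨x, Finset.mem_erase.2 ⟨?_, hx⟩, hA⟩
      rintro rfl
      cases hA
    · push Not at hf
      obtain ⟨f, hf1, hf2⟩ := hf
      exact tm_child hI hmg hD hf1 hf2
  · have hsub : S.erase (t c b) ⊆ S := Finset.erase_subset _ _
    have A : AtM X S (S.erase (t c b)) c := by
      refine ⟨hI, hmg, hD, hsub, ?_, (Lf.of_inv hI).erase_link (Or.inl (isLk_t _ _))⟩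
      intro x hx hx'
      have := not_mem_erase hx hx'
      subst this
      exact Or.inr (Or.inl ⟨b, rfl⟩)
    by_cases hW : Wa S c
    · obtain ⟨hN, h⟩ := (hI.okm' c hmg).alive hW
      have hW1 : Wa (S.erase (t c b)) c := (Wa_erase (isLk_t _ _)).2 hW
      have hN1 : NR (S.erase (t c b)) c := (NR_erase (isLk_t _ _)).2 hN
      rcases h with h | ⟨hF2, h⟩
      · exact goodM_spare A hW1 hN1 ((Sp_erase (isLk_t _ _)).2 h.1)
      · rcases h with h | ⟨-, f, hf1, hf2, hf3⟩
        · obtain ⟨k, l, -, hFk, -⟩ := (F2_erase (x := t c b) (isLk_t _ _)).2 hF2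
          have := exm_le_erase (X := X) (S := S) hmg b
          exact goodM_neut A hW1 hN1 hFk (Or.inl (by omega))
        · exact goodM_exit A hW1 hN1 hf1 (z_mem_erase_t.2 hf2) hf3
    · rcases (hI.okm' c hmg).gone hW with h | ⟨k, hR, h⟩
      · exact absurd h hD
      · have hR1 : Rk (S.erase (t c b)) c k := (Rk_erase (isLk_t _ _)).2 hR
        rcases h with h | h
        · have h1 : t c (!b) ∈ S := by
            have h2 := n1_le_one (S := S) (t c false)
            have h3 := n1_le_one (S := S) (t c true)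
            unfold tau at h
            cases b
            · exact one_le_n1.1 (by simp only [Bool.not_false]; omega)
            · exact one_le_n1.1 (by simp only [Bool.not_true]; omega)
          exact goodM_own_t A hR1 (b := !b) (Finset.mem_erase.2 ⟨by simp, h1⟩)
        · exact goodM_T A hR1 ((cr_mem_erase (isLk_t _ _)).2 h.1)

end ArcK
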