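import Pool.Agent.ArcK.RespM
import Pool.Agent.ArcK.CloH

/-!
# Closure: the attacks `u k - z c` and `w - z c`
-/

set_option linter.unusedSectionVars false

namespace ArcK

open Vx Cr

variable {Γ Θ : Type} [DecidableEq Γ] [DecidableEq Θ] {X : Tree Γ Θ} {S S1 : Finset (Vx Γ Θ)}

namespace CZ

/-- without `T k` and without own trigger vertex a risky gadget is not safe -/
theorem not_okc_erase_t {c : Γ} {k : Fin 5} (htt : t c true ∉ S) (hR : Rk S c k)
    (hT : cr c (T k) ∉ S) : ¬ okc X (S.erase (t c false)) c := by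
  rintro (h | h | ⟨l, hl, h⟩)
  · exact hR.not_Dn ((Dn_erase (isLk_t _ _)).1 h)
  · exact hR.1 ((Wa_erase (isLk_t _ _)).1 h.1)
  · have hkl : k = l := Rk_unique hR ((Rk_erase (isLk_t _ _)).1 hl)
    subst hkl
    rcases h with ⟨-, h⟩ | ⟨h, -⟩
    · rw [tau_erase_t htt] at h; omega
    · exact hT ((cr_mem_erase (isLk_t _ _)).1 h)

theorem t_of_tau {c : Γ} (htt : t c true ∉ S) (h : 1 ≤ tau S c) : t c false ∈ S := by
  obtain ⟨b, hb⟩ := one_le_tau.1 h
  cases b
  · exact hb
  · exact absurd hb htt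

/-- the core of `c` is the same in two positions -/
theorem okc_state {c : Γ} (hcr : ∀ y, cr c y ∈ S1 ↔ cr c y ∈ S) :
    (Wa S1 c ↔ Wa S c) ∧ (NR S1 c ↔ NR S c) ∧ (Sp S1 c ↔ Sp S c) ∧
    (∀ k, Fl S1 c k ↔ Fl S c k) ∧ (∀ k, Rk S1 c k ↔ Rk S c k) := by
  refine ⟨hcr _, ?_, ?_, ?_, ?_⟩
  · unfold NR; simp only [hcr]
  · unfold Sp; simp only [hcr]
  · intro k; unfold Fl; simp only [hcr]
  · intro k; unfold Rk Wa; simp only [hcr]

end CZ

open CZ

/-- piece Z3 -/
theorem good_uz (hI : Inv X S) {c : Γ} {k : Fin 5} (hu : cr c (u k) ∈ S) (hz : z c ∈ S)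
    (hne : ∃ x ∈ del S (cr c (u k)) (z c), isA x = true) :
    Good X (del S (cr c (u k)) (z c)) := by
  have hmg : X.mg c = false := by
    by_contra h
    exact hI.zz c (Or.inl (by simpa using h)) hz
  obtain ⟨q, hq⟩ : ∃ q, X.par c = some q := by
    by_contra h
    push Not at h
    refine hI.zz c (Or.inr ?_) hz
    rcases hp : X.par c with _ | q
    · rfl
    · exact absurd hp (h q)
  have hI' : Inv X (S.erase (cr c (u k))) := hI.erase_A rfl
  have hz' : z c ∈ S.erase (cr c (u k)) := by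
    rw [Finset.mem_erase]; exact ⟨by simp, hz⟩
  have hsp : Wa S c → Sp (S.erase (cr c (u k))) c := by
    intro hW
    refine ⟨k, by simp, ?_⟩
    rw [Finset.mem_erase]
    exact ⟨by simp, ((hI.okc' c hmg).alive hW).1 k hu⟩
  set B := S.erase (cr c (u k)) with hB
  show Good X (B.erase (z c))
  have hne' : ∃ x ∈ B.erase (z c), isA x = true := hne
  have htt : t c true ∉ B := hI'.tt c hmg
  have hlf : Lf (B.erase (z c)) := (Lf.of_inv hI').erase_link (Or.inl rfl)
  have hsub : B.erase (z c) ⊆ B := Finset.erase_subset _ _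
  have hzn : z c ∉ B.erase (z c) := fun h => (Finset.mem_erase.1 h).1 rfl
  have hcr : ∀ e y, cr e y ∈ B.erase (z c) ↔ cr e y ∈ B := fun e y => cr_mem_erase (isLk_z _)
  have hqc : q ≠ c := (X.par_ne hq).symm
  have hWB : Wa B c ↔ Wa S c := by
    unfold Wa; rw [hB, Finset.mem_erase]
    exact ⟨fun h => h.2, fun h => ⟨by simp, h⟩⟩
  by_cases hqm : X.mg q = true ∧ ¬ okm X (B.erase (z c)) q
  · obtain ⟨hmq, hno⟩ := hqm
    have hok := hI'.okm' q hmq
    obtain ⟨r, hr, hmr⟩ := X.mg_par q hmq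
    have hTr : Tr X B (B.erase (z c)) r := by
      have hrc : r ≠ c := (X.par_par_ne hq hr).symm
      refine ⟨(CoreLe.refl r).erase_right (isLk_z _), ?_, ?_, ?_⟩
      · intro h; exact (z_mem_erase_z hrc).2 h
      · intro b h; exact t_mem_erase_z.2 h
      · intro s _
        refine Or.inl ⟨fun b h => t_mem_erase_z.2 h, fun h => hsub h, ?_⟩
        intro h
        exact (Dn_erase (isLk_z _)).2 h
    have hexm : exm X B q ≤ exm X (B.erase (z c)) q := by
      by_cases h1 : Qp X B q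
      · have h2 : Qp X (B.erase (z c)) q := by
          rw [Qp_iff hr] at h1 ⊢
          exact hTr.okc_erase (isLk_t _ _) h1
        rw [exm_of_Qp h1, exm_of_Qp h2, tau_erase_z, gam_erase_z]
      · rw [exm_of_not_Qp h1]
        exact (le_of_eq tau_erase_z.symm).trans (exm_ge q)
    by_cases hW : Wa B q
    · obtain ⟨hN, h⟩ := hok.alive hW
      have hW1 : Wa (B.erase (z c)) q := (Wa_erase (isLk_z _)).2 hW
      have hN1 : NR (B.erase (z c)) q := (NR_erase (isLk_z _)).2 hN
      rcases h with ⟨h1, h2⟩ | ⟨h1, h2⟩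
      · exact absurd (Or.inr (Or.inl ⟨hW1, hN1, Or.inl ⟨(Sp_erase (isLk_z _)).2 h1,
          h2.trans hexm⟩⟩)) hno
      · rcases h2 with h2 | ⟨h2, f, hf, hzf, hokf⟩
        · exact absurd (Or.inr (Or.inl ⟨hW1, hN1, Or.inr ⟨(F2_erase (isLk_z _)).2 h1,
            Or.inl (h2.trans hexm)⟩⟩)) hno
        · have hfc : f = c := X.mg_child q f c hmq hf hq
          subst hfc
          have A : AtM X B (B.erase (z f)) q := by
            refine ⟨hI', hmq, hW.not_Dn, hsub, ?_, hlf⟩
            intro x hx hx'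
            have := not_mem_erase hx hx'
            subst this
            exact Or.inr (Or.inr (Or.inr (Or.inr ⟨f, hq, rfl, hokf⟩)))
          obtain ⟨k1, l1, -, hF, -⟩ := (F2_erase (x := z f) (isLk_z _)).2 h1
          exact goodM_neut A hW1 hN1 hF (Or.inl (h2.trans hexm))
    · exfalso
      apply hno
      rcases hok.gone hW with h | ⟨l, hl, h⟩
      · exact Or.inl ((Dn_erase (isLk_z _)).2 h)
      · refine Or.inr (Or.inr ⟨l, (Rk_erase (isLk_z _)).2 hl, ?_⟩)
        rw [tau_erase_z, cr_mem_erase (isLk_z _), cr_mem_erase (isLk_z _)]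
        rcases h with h | ⟨h1, h2⟩
        · exact Or.inl h
        · exact Or.inr ⟨h1, h2.imp (fun h => h.trans hexm) id⟩
  · have hokq : ∀ p, X.par c = some p → X.mg p = true → okm X (B.erase (z c)) p := by
      intro p hp hmp
      rw [hq] at hp; cases hp
      by_contra h
      exact hqm ⟨hmp, h⟩
    have hHP : HP X B (B.erase (z c)) c := Or.inr ⟨hzn, hokq⟩
    have htB : ∀ e b, t e b ∈ B → t e b ∈ B.erase (z c) := fun e b h => t_mem_erase_z.2 h
    have hHM : HM X B (B.erase (z c)) c := Or.inl fun _ b hb => htB c b hb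
    have hmiss : ∀ x ∈ B, x ∉ B.erase (z c) → MsC X B c x := by
      intro x hx hx'
      exact Or.inr (Or.inl (not_mem_erase hx hx'))
    by_cases hDn : Dn B c
    · have hDn1 : Dn (B.erase (z c)) c := (Dn_erase (isLk_z _)).2 hDn
      have F : FrC X B (B.erase (z c)) c :=
        FrC.of_miss hsub hDn1.1 hlf hmiss (Or.inr ⟨hDn1, htB c⟩)
      have hInv : Inv X (B.erase (z c)) := by
        refine inv_VC hI' hmg F (okc_of_Dn hDn1) ?_ hokq
          (fun _ _ _ _ _ => okc_erase_of_Dn (isLk_t _ _) hDn1)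
        exact hM_of hI' F fun _ => ⟨htB c, okc_erase_of_Dn (isLk_t _ _) hDn1⟩
      exact harmless hInv hne'
    have A : AtC X B (B.erase (z c)) c := ⟨hI', hmg, hDn, hsub, hmiss, hlf⟩
    have hok := hI'.okc' c hmg
    by_cases hW : Wa B c
    · exact good_spare A hHM hHP ((Wa_erase (isLk_z _)).2 hW)
        ((NR_erase (isLk_z _)).2 (hok.alive hW).1) ((Sp_erase (isLk_z _)).2 (hsp (hWB.1 hW)))
    · rcases hok.gone hW with h | ⟨j, hj, h⟩
      · exact absurd h hDn
      have hj1 : Rk (B.erase (z c)) c j := (Rk_erase (isLk_z _)).2 hj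
      by_cases hT : cr c (T j) ∈ B
      · exact good_T A hHM hHP hj1 ((hcr _ _).2 hT)
      · have htau : 1 ≤ tau B c := by
          rcases h with h | h
          · exact h.2
          · exact absurd h.1 hT
        exact good_own_t A hHP hj1 (htB c false (t_of_tau htt htau))
          (Or.inl (not_okc_erase_t htt hj hT))

/-- piece Z7 -/
theorem good_wz (hI : Inv X S) {q c : Γ} (hq : X.par c = some q) (hw : cr q w ∈ S) (hz : z c ∈ S)
    (hne : ∃ x ∈ del S (cr q w) (z c), isA x = true) : Good X (del S (cr q w) (z c)) := by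
  have hmg : X.mg c = false := by
    by_contra h
    exact hI.zz c (Or.inl (by simpa using h)) hz
  have hqc : q ≠ c := (X.par_ne hq).symm
  have hNq : NR S q := by
    by_cases hmq : X.mg q = true
    · exact ((hI.okm' q hmq).alive hw).1
    · exact ((hI.okc' q (by simpa using hmq)).alive hw).1
  have hWq : Wa S q := hw
  have htt : t c true ∉ S := hI.tt c hmg
  have hlf : Lf (del S (cr q w) (z c)) := (Lf.of_inv hI).del (Ad.wz q c hq)
  have hsub : del S (cr q w) (z c) ⊆ S := del_subset _ _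
  have hzn : z c ∉ del S (cr q w) (z c) := by rw [mem_del]; exact fun h => h.1 rfl
  have hcr : ∀ y, cr c y ∈ del S (cr q w) (z c) ↔ cr c y ∈ S := by
    intro y
    rw [mem_del]
    refine ⟨fun h => h.2.2, fun h => ⟨by simp, ?_, h⟩⟩
    intro h; cases h; exact hqc rfl
  obtain ⟨cW, cN, cS, cF, cR⟩ := okc_state hcr
  have htB : ∀ e b, t e b ∈ S → t e b ∈ del S (cr q w) (z c) := by
    intro e b h; rw [mem_del]; exact ⟨by simp, by simp, h⟩
  have htB' : ∀ e b, t e b ∈ del S (cr q w) (z c) ↔ t e b ∈ S :=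
    fun e b => ⟨fun h => hsub h, htB e b⟩
  have hDq : Dn (del S (cr q w) (z c)) q := by
    constructor
    · unfold Wa; rw [mem_del]; exact fun h => h.2.1 rfl
    · intro l hl
      rw [mem_del] at hl ⊢
      exact ⟨by simp, by simp, hNq l hl.2.2⟩
  have hokq : ∀ p, X.par c = some p → X.mg p = true → okm X (del S (cr q w) (z c)) p := by
    intro p hp _
    rw [hq] at hp; cases hp
    exact okm_of_Dn hDq
  have hHP : HP X S (del S (cr q w) (z c)) c := Or.inr ⟨hzn, hokq⟩
  have hHM : HM X S (del S (cr q w) (z c)) c := Or.inl fun _ b hb => htB c b hb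
  have hmiss : ∀ x ∈ S, x ∉ del S (cr q w) (z c) → MsC X S c x := by
    intro x hx hx'
    rcases not_mem_del hx hx' with h | h
    · subst h; exact Or.inr (Or.inr (Or.inr (Or.inl rfl)))
    · exact Or.inr (Or.inl h)
  by_cases hDn : Dn S c
  · have hDn1 : Dn (del S (cr q w) (z c)) c := ⟨fun h => hDn.1 (cW.1 h), cN.2 hDn.2⟩
    have F : FrC X S (del S (cr q w) (z c)) c :=
      FrC.of_miss hsub hDn1.1 hlf hmiss (Or.inr ⟨hDn1, htB c⟩)
    have hInv : Inv X (del S (cr q w) (z c)) := by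
      refine inv_VC hI hmg F (okc_of_Dn hDn1) ?_ hokq
        (fun _ _ _ _ _ => okc_erase_of_Dn (isLk_t _ _) hDn1)
      exact hM_of hI F fun _ => ⟨htB c, okc_erase_of_Dn (isLk_t _ _) hDn1⟩
    exact harmless hInv hne
  have A : AtC X S (del S (cr q w) (z c)) c := ⟨hI, hmg, hDn, hsub, hmiss, hlf⟩
  have hok := hI.okc' c hmg
  have hexc : ∀ x : Vx Γ Θ, isLk x = true →
      exc X ((del S (cr q w) (z c)).erase x) c =
        n1 ((del S (cr q w) (z c)).erase x) (z c) + tau ((del S (cr q w) (z c)).erase x) c +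
          gam X ((del S (cr q w) (z c)).erase x) c := by
    intro x hx
    exact exc_of_dpar ((dpar_iff hq).2 ((Dn_erase hx).2 hDq))
  have hexc0 : exc X (del S (cr q w) (z c)) c =
        n1 (del S (cr q w) (z c)) (z c) + tau (del S (cr q w) (z c)) c +
          gam X (del S (cr q w) (z c)) c :=
    exc_of_dpar ((dpar_iff hq).2 hDq)
  have htau : ∀ e, tau (del S (cr q w) (z c)) e = tau S e := by
    intro e
    exact le_antisymm (tau_mono fun b h => hsub h) (tau_mono fun b h => htB e b h)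
  have hgam : gam X (del S (cr q w) (z c)) c = gam X S c := by
    rw [gam_eq hq, gam_eq hq, htau]
  by_cases hW : Wa S c
  · obtain ⟨hN, h⟩ := hok.alive hW
    by_cases hS : Sp S c
    · exact good_spare A hHM hHP (cW.2 hW) (cN.2 hN) (cS.2 hS)
    have h' : F2 S c ∧ ((z c ∈ S ∧ (¬ wpar X S c ∨ 1 ≤ gam X S c + tau S c)) ∨
      (dpar X S c ∧ 2 ≤ exc X S c)) := by
      rcases h with h | h
      · exact absurd h.1 hS
      · exact h
    obtain ⟨⟨k1, l1, -, hF, -⟩, h2⟩ := h'
    have hgt : 1 ≤ gam X S c + tau S c := by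
      rcases h2 with ⟨-, h2 | h2⟩ | ⟨h2, -⟩
      · exact absurd ((wpar_iff hq).2 hWq) h2
      · exact h2
      · exact absurd ((dpar_iff hq).1 h2) hWq.not_Dn
    refine good_neut A (cW.2 hW) (cN.2 hN) ((cF k1).2 hF) (Or.inl ?_) (Or.inl ?_)
      (Or.inr ⟨hzn, hokq⟩) ?_
    · rw [hexc0, hgam, htau]; omega
    · intro h3
      refine ⟨htB c, Or.inl ?_⟩
      have hg1 : 1 ≤ gam X S c := by
        obtain ⟨-, h4⟩ := h3.alive ((Wa_erase (isLk_t _ _)).2 hW)
        rcases h4 with ⟨h4, -⟩ | ⟨-, ⟨-, h5 | h5⟩ | ⟨h5, -⟩⟩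
        · exact absurd ((Sp_erase (isLk_t _ _)).1 h4) hS
        · exact absurd ((wpar_erase (isLk_t _ _)).2 ((wpar_iff hq).2 hWq)) h5
        · rw [gam_erase_self, tau_erase_t htt] at h5; omega
        · exact absurd ((dpar_iff hq).1 ((dpar_erase (isLk_t _ _)).1 h5)) hWq.not_Dn
      rw [hexc _ (isLk_t _ _), gam_erase_self, hgam]
      omega
    · intro q' hq' _ hWq'
      rw [hq] at hq'; cases hq'
      exact absurd hWq hWq'
  · rcases hok.gone hW with h | ⟨j, hj, h⟩
    · exact absurd h hDn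
    by_cases hT : cr c (T j) ∈ S
    · exact good_T A hHM hHP ((cR j).2 hj) ((hcr _).2 hT)
    · have htau1 : 1 ≤ tau S c := by
        rcases h with h | h
        · exact h.2
        · exact absurd h.1 hT
      exact good_own_t A hHP ((cR j).2 hj) (htB c false (t_of_tau htt htau1))
        (Or.inl (not_okc_erase_t htt hj hT))

end ArcK
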