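import Pool.Agent.ArcK.Game
import Pool.Agent.ArcK.CloH
import Pool.Agent.ArcK.CloP1
import Pool.Agent.ArcK.CloP34
import Pool.Agent.ArcK.CloZ
import Pool.Agent.ArcK.CloTC
import Pool.Agent.ArcK.CloTM

/-!
# The invariant is closed; outcome of closed positions
-/

set_option linter.unusedSectionVars false

namespace ArcK

open Vx Cr

variable {Γ Θ : Type} [DecidableEq Γ] [DecidableEq Θ]

/-- a removal which plays no role -/
theorem Inv.del_le {X : Tree Γ Θ} {S : Finset (Vx Γ Θ)} (hI : Inv X S) {a b : Vx Γ Θ}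
    (hab : Ad X a b)
    (hb : (∃ c k, b = cr c (p k) ∧ cr c (u k) ∉ del S a b ∧ cr c w ∉ del S a b) ∨
      (∃ c k, b = cr c (T k) ∧ cr c (u k) ∉ del S a b) ∨ (∃ c, b = cr c OmL) ∨
      ∃ θ, b = Vx.tl θ) : Inv X (del S a b) := by
  obtain ⟨hA, hB⟩ := Ad_isA hab
  have key : ∀ x, isA x = false → x ≠ b → x ∈ S → x ∈ del S a b := by
    intro x hx hxb h
    rw [mem_del]
    refine ⟨hxb, ?_, h⟩
    rintro rfl
    rw [hA] at hx; cases hx
  refine hI.le (del_subset a b) ?_ ?_ ?_ ((Lf.of_inv hI).del hab)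
  · intro e
    refine CoreLe.of_sub (del_subset a b) ?_ ?_
    · intro k hk
      by_cases h : cr e (p k) = b
      · right
        rcases hb with ⟨c, l, h1, h2, h3⟩ | ⟨c, l, h1, -⟩ | ⟨c, h1⟩ | ⟨θ, h1⟩
        · rw [← h] at h1; cases h1; exact ⟨h2, h3⟩
        · rw [← h] at h1; cases h1
        · rw [← h] at h1; cases h1
        · rw [← h] at h1; cases h1
      · exact Or.inl (key _ rfl h hk)
    · intro k hk
      by_cases h : cr e (T k) = b
      · right
        rcases hb with ⟨c, l, h1, -⟩ | ⟨c, l, h1, h2⟩ | ⟨c, h1⟩ | ⟨θ, h1⟩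
        · rw [← h] at h1; cases h1
        · rw [← h] at h1; cases h1; exact h2
        · rw [← h] at h1; cases h1
        · rw [← h] at h1; cases h1
      · exact Or.inl (key _ rfl h hk)
  · intro e he
    refine key _ rfl ?_ he
    rintro rfl
    rcases hb with ⟨c, l, h1, -⟩ | ⟨c, l, h1, -⟩ | ⟨c, h1⟩ | ⟨θ, h1⟩ <;> cases h1
  · intro e b' he
    refine key _ rfl ?_ he
    rintro rfl
    rcases hb with ⟨c, l, h1, -⟩ | ⟨c, l, h1, -⟩ | ⟨c, h1⟩ | ⟨θ, h1⟩ <;> cases h1

/-- removal of a trigger vertex -/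
theorem good_t {X : Tree Γ Θ} {S : Finset (Vx Γ Θ)} (hI : Inv X S) {c : Γ} {b : Bool}
    (ht : t c b ∈ S) (hne : ∃ x ∈ S, isA x = true) : Good X (S.erase (t c b)) := by
  by_cases hmg : X.mg c = true
  · exact good_tm hI hmg ht hne
  · have hmg' : X.mg c = false := by simpa using hmg
    cases b
    · exact good_tc hI hmg' ht hne
    · exact absurd ht (hI.tt c hmg')

theorem closure (X : Tree Γ Θ) (S : Finset (Vx Γ Θ)) (hI : Inv X S) (a b : Vx Γ Θ) (ha : a ∈ S)
    (hb : b ∈ S) (hab : Ad X a b) (hne : ∃ x ∈ del S a b, isA x = true) :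
    Good X (del S a b) := by
  have htrig : ∀ c b', isA a = true → b = t c b' → Good X (del S a b) := by
    rintro c b' hA rfl
    refine good_t (hI.erase_A hA) ?_ ?_
    · rw [Finset.mem_erase]
      refine ⟨?_, hb⟩
      rintro rfl
      cases hA
    · obtain ⟨x, hx, hxA⟩ := hne
      exact ⟨x, (Finset.mem_erase.1 hx).2, hxA⟩
  cases hab with
  | up c k =>
    by_cases hW : Wa S c
    · exact good_up hI ha hb hW
    · refine harmless (hI.del_le (Ad.up c k) (Or.inl ⟨c, k, rfl, ?_, ?_⟩)) hne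
      · rw [mem_del]; rintro ⟨-, h, -⟩; exact h rfl
      · rw [mem_del]; rintro ⟨-, -, h⟩; exact hW h
  | uT c k =>
    refine harmless (hI.del_le (Ad.uT c k) (Or.inr (Or.inl ⟨c, k, rfl, ?_⟩))) hne
    rw [mem_del]; rintro ⟨-, h, -⟩; exact h rfl
  | uz c k => exact good_uz hI ha hb hne
  | ut c k b => exact htrig c b rfl rfl
  | ug c k q b hq => exact htrig q b rfl rfl
  | wp c k =>
    by_cases hu : cr c (u k) ∈ S
    · exact good_wp hI ha hb hu
    · refine harmless (hI.del_le (Ad.wp c k) (Or.inl ⟨c, k, rfl, ?_, ?_⟩)) hne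
      · rw [mem_del]; rintro ⟨-, -, h⟩; exact hu h
      · rw [mem_del]; rintro ⟨-, h, -⟩; exact h rfl
  | wz c e he => exact good_wz hI he ha hb hne
  | wt c e b he hme => exact htrig e b rfl rfl
  | OT c k =>
    by_cases hu : cr c (u k) ∈ S
    · exact good_OT hI ha hb hu
    · refine harmless (hI.del_le (Ad.OT c k) (Or.inr (Or.inl ⟨c, k, rfl, ?_⟩))) hne
      rw [mem_del]; rintro ⟨-, -, h⟩; exact hu h
  | OL c => exact harmless (hI.del_le (Ad.OL c) (Or.inr (Or.inr (Or.inl ⟨c, rfl⟩)))) hne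
  | tt θ => exact harmless (hI.del_le (Ad.tt θ) (Or.inr (Or.inr (Or.inr ⟨θ, rfl⟩)))) hne
  | ta θ c b h => exact htrig c b rfl rfl

theorem exists_isA_of_cA {S : Finset (Vx Γ Θ)} (h : 0 < cA S) : ∃ x ∈ S, isA x = true := by
  obtain ⟨x, hx⟩ := Finset.card_pos.1 h
  rw [Finset.mem_filter] at hx
  exact ⟨x, hx.1, hx.2⟩

/-- the outcome of closed positions -/
theorem closed_wins (X : Tree Γ Θ) (S : Finset (Vx Γ Θ)) (hI : Inv X S) :
    Wins (gr X) S ↔ Odd (cA S) := by
  induction hn : S.card using Nat.strong_induction_on generalizing S with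
  | _ n ih =>
    constructor
    · intro hW
      by_contra hodd
      rw [Nat.not_odd_iff_even] at hodd
      obtain ⟨a, b, ha, hb, hab, hL⟩ := (wins_iff_Ad X S).1 hW
      apply hL
      have h1 := cA_del hab ha hb
      have h2 := card_del hab ha hb
      have hodd1 : Odd (cA (del S a b)) := by
        rw [← h1] at hodd
        rcases Nat.even_or_odd (cA (del S a b)) with h | h
        · exact absurd hodd (Nat.not_even_iff_odd.2 h.add_one)
        · exact h
      obtain ⟨a', b', ha', hb', hab', hI'⟩ :=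
        closure X S hI a b ha hb hab (exists_isA_of_cA hodd1.pos)
      have h3 := cA_del hab' ha' hb'
      have h4 := card_del hab' ha' hb'
      rw [wins_iff_Ad]
      refine ⟨a', b', ha', hb', hab', ?_⟩
      rw [ih _ (by omega) _ hI' rfl]
      intro h5
      rw [← h3] at hodd1
      exact absurd hodd1 (Nat.not_odd_iff_even.2 h5.add_one)
    · intro hodd
      obtain ⟨a, b, ha, hb, hab, hI'⟩ := harmless hI (exists_isA_of_cA hodd.pos)
      have h1 := cA_del hab ha hb
      have h2 := card_del hab ha hb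
      rw [wins_iff_Ad]
      refine ⟨a, b, ha, hb, hab, ?_⟩
      rw [ih _ (by omega) _ hI' rfl]
      intro h5
      rw [← h1] at hodd
      exact absurd hodd (Nat.not_odd_iff_even.2 h5.add_one)

end ArcK
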