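import Mathlib

/-!
# ARC-KAYLES: the game, quantified Boolean formulas, and the graph of the reduction
-/

namespace ArcK

/-- Arc-Kayles on the graph `G`, played on the set `S` of the vertices which are still present:
`Wins G S` says that the player to move has a winning strategy.  A move chooses an edge `uv` of
the current graph and deletes both endpoints; a player who cannot move loses. -/
def Wins {V : Type} [DecidableEq V] (G : SimpleGraph V) (S : Finset V) : Prop :=
  ∃ u, ∃ v, ∃ _ : u ∈ S, ∃ _ : v ∈ S, G.Adj u v ∧ ¬ Wins G ((S.erase u).erase v)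
termination_by S.card
decreasing_by
  have h1 : ((S.erase u).erase v).card ≤ (S.erase u).card := Finset.card_le_card (Finset.erase_subset _ _)
  have h2 : (S.erase u).card < S.card := Finset.card_erase_lt_of_mem (by assumption)
  omega

/-- The first player wins Arc-Kayles on the finite graph `G`. -/
def FirstWins {V : Type} [DecidableEq V] [Fintype V] (G : SimpleGraph V) : Prop :=
  Wins G Finset.univ

/-- The simple graph with vertices `0, …, N - 1` and the edges of the list `E` (pairs with an
endpoint `≥ N` and loops are ignored). -/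
def graphOf (N : ℕ) (E : List (ℕ × ℕ)) : SimpleGraph (Fin N) :=
  SimpleGraph.fromRel (fun u v => (u.1, v.1) ∈ E)

/-! ### Quantified Boolean formulas -/

/-- `σ` satisfies the CNF `cls`; the literal `(v, b)` says that variable `v` has the value `b`. -/
def Sat (cls : List (List (ℕ × Bool))) (σ : ℕ → Bool) : Prop :=
  ∀ C ∈ cls, ∃ l ∈ C, σ l.1 = l.2

/-- `∃ x_i ∀ y_i … ∃ x_{i+k-1} ∀ y_{i+k-1}, cls`, where `x_i` is variable `2 i` and `y_i` is
variable `2 i + 1`, the other variables having the values given by `σ`. -/
def QTrueFrom (cls : List (List (ℕ × Bool))) : ℕ → ℕ → (ℕ → Bool) → Prop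
  | 0, _, σ => Sat cls σ
  | k + 1, i, σ => ∃ a : Bool, ∀ b : Bool,
      QTrueFrom cls k (i + 1) (Function.update (Function.update σ (2 * i) a) (2 * i + 1) b)

/-- The formula `∃ x_0 ∀ y_0 … ∃ x_{n-1} ∀ y_{n-1}, cls` is true. -/
def QTrue (n : ℕ) (cls : List (List (ℕ × Bool))) : Prop :=
  QTrueFrom cls n 0 (fun _ => false)

/-! ### The graph of the reduction

Gadgets are numbered: `3 i, 3 i + 1, 3 i + 2` for the three gadgets of block `i < n`, `3 n` for
the final gadget, `3 n + 1 + j` for the gadget of clause `j`.  The vertices of gadget `c` are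
`32 c + r`, with `r < 25`:
`r = 0..4` are `u_k`, `5..9` are `p_k`, `12..14` are `T_k` (`k = 2, 3, 4`), `15` is `w`, `16` is
`Ω`, `17` its leaf, `18` is `z`, `19` and `20` are the trigger vertices `t`, `21` and `23` are
tokens, `22` and `24` their leaves.  (Vertex numbers which are not used are isolated vertices, which
play no role.) -/

/-- edges inside gadget `c` -/
def coreEdges (c : ℕ) : List (ℕ × ℕ) :=
  [(0, 5), (1, 6), (2, 7), (3, 8), (4, 9), (2, 12), (3, 13), (4, 14),
   (15, 5), (15, 6), (15, 7), (15, 8), (15, 9), (16, 12), (16, 13), (16, 14), (16, 17),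
   (0, 19), (1, 19), (2, 19), (3, 19), (4, 19), (21, 22)].map
     (fun e => (32 * c + e.1, 32 * c + e.2))

/-- the edge from the first token to the trigger vertex, for all gadgets but those of clauses -/
def trigEdge (c : ℕ) : ℕ × ℕ := (32 * c + 21, 32 * c + 19)

/-- edges from gadget `c` to the link `r` of gadget `d` -/
def lockEdges (c d r : ℕ) : List (ℕ × ℕ) :=
  [0, 1, 2, 3, 4].map (fun k => (32 * c + k, 32 * d + r))

/-- edges of an ordinary gadget `c` to its parent `d` -/
def chainEdges (c d : ℕ) : List (ℕ × ℕ) :=
  lockEdges c c 18 ++ lockEdges c d 19 ++ [(32 * d + 15, 32 * c + 18)]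

/-- additional edges of the gadgets of block `i` -/
def blockEdges (i : ℕ) : List (ℕ × ℕ) :=
  -- second token of the first gadget
  [(32 * (3 * i) + 23, 32 * (3 * i) + 24), (32 * (3 * i) + 23, 32 * (3 * i) + 19)] ++
  -- the second gadget and its parent
  chainEdges (3 * i + 1) (3 * i) ++
  -- the third gadget: its parent, its second trigger and its second token
  lockEdges (3 * i + 2) (3 * i + 1) 19 ++ lockEdges (3 * i + 2) (3 * i + 2) 20 ++
  [(32 * (3 * i + 1) + 15, 32 * (3 * i + 2) + 19), (32 * (3 * i + 1) + 15, 32 * (3 * i + 2) + 20),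
   (32 * (3 * i + 2) + 23, 32 * (3 * i + 2) + 24), (32 * (3 * i + 2) + 23, 32 * (3 * i + 2) + 20)] ++
  -- the first gadget of the next block (or the final gadget)
  chainEdges (3 * i + 3) (3 * i + 2) ++ lockEdges (3 * i + 3) (3 * i + 2) 20

/-- the token of a literal: token `23` if the literal is positive, `21` if it is negative; the
gadget is the first one of block `i` for variable `2 i` and the third one for variable `2 i + 1` -/
def litToken (l : ℕ × Bool) : ℕ :=
  32 * (3 * (l.1 / 2) + 2 * (l.1 % 2)) + (if l.2 then 23 else 21)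

/-- additional edges of the gadget of clause number `j` -/
def clauseEdges (n j : ℕ) (C : List (ℕ × Bool)) : List (ℕ × ℕ) :=
  chainEdges (3 * n + 1 + j) (3 * n) ++
  C.map (fun l => (litToken l, 32 * (3 * n + 1 + j) + 19))

/-- The edges of the graph of the reduction. -/
def akEdges (n : ℕ) (cls : List (List (ℕ × Bool))) : List (ℕ × ℕ) :=
  (List.range (3 * n + 1 + cls.length)).flatMap coreEdges ++
  (List.range (3 * n + 1)).map trigEdge ++
  (List.range n).flatMap blockEdges ++
  cls.zipIdx.flatMap (fun x => clauseEdges n x.2 x.1)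

/-- The number of vertices of the graph of the reduction. -/
def akN (n : ℕ) (cls : List (List (ℕ × Bool))) : ℕ := 32 * (3 * n + 1 + cls.length)

end ArcK
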