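import Pool.Agent.ArcK.Tree

/-!
# ARC-KAYLES: the handover lemma (positions which leave the main line are closed)
-/

namespace ArcK

open Vx Cr

namespace HO

set_option linter.unusedSectionVars false

variable {Γ Θ : Type} [DecidableEq Γ] [DecidableEq Θ] {X : Tree Γ Θ} {S T : Finset (Vx Γ Θ)}

theorem tau_pos {e : Γ} (h : t e false ∈ S) : 1 ≤ tau S e := by
  unfold tau n1; rw [if_pos h]; omega

theorem tau_pos' {e : Γ} {b : Bool} (h : t e b ∈ S) : 1 ≤ tau S e := by
  unfold tau n1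
  cases b
  · rw [if_pos h]; omega
  · rw [if_pos h]; omega

theorem tau_two {e : Γ} (h : t e false ∈ S) (h' : t e true ∈ S) : tau S e = 2 := by
  unfold tau n1; rw [if_pos h, if_pos h']

theorem gam_eq {e q : Γ} (h : X.par e = some q) : gam X S e = tau S q := by
  unfold gam; rw [h]

theorem exc_z {e : Γ} (h : z e ∈ S) : 1 ≤ exc X S e := by
  unfold exc n1; rw [if_pos h]; omega

theorem exc_tau {e : Γ} (h : 1 ≤ tau S e) : 1 ≤ exc X S e := by
  unfold exc; omega

theorem exc_two {e : Γ} (h : z e ∈ S) (h' : 1 ≤ tau S e) : 2 ≤ exc X S e := by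
  unfold exc n1; rw [if_pos h]; omega

theorem exc_dpar {e q : Γ} (h : 1 ≤ tau S e) (hq : X.par e = some q) (hd : Dn S q)
    (h' : 1 ≤ tau S q) : 2 ≤ exc X S e := by
  have : dpar X S e := ⟨q, hq, hd⟩
  unfold exc; rw [if_pos this, gam_eq hq]; omega

theorem exm_tau {e : Γ} {n : ℕ} (h : n ≤ tau S e) : n ≤ exm X S e := by
  unfold exm; omega

theorem exm_two {e q : Γ} (h : 1 ≤ tau S e) (hq : X.par e = some q) (hd : Qp X S e)
    (h' : 1 ≤ tau S q) : 2 ≤ exm X S e := by
  unfold exm; rw [if_pos hd, gam_eq hq]; omega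

theorem F2_of {e : Γ} (k : Fin 5) (h : ∀ j : Fin 5, 2 ≤ j.1 → j ≠ k → Fl S e j) : F2 S e := by
  by_cases h2 : k = 2
  · exact ⟨3, 4, by decide, h 3 (by decide) (by rw [h2]; decide), h 4 (by decide) (by rw [h2]; decide)⟩
  · by_cases h3 : k = 3
    · exact ⟨2, 4, by decide, h 2 (by decide) (by rw [h3]; decide), h 4 (by decide) (by rw [h3]; decide)⟩
    · exact ⟨2, 3, by decide, h 2 (by decide) (fun h => h2 h.symm), h 3 (by decide) (fun h => h3 h.symm)⟩


/-! ### The hypotheses of the handover lemma -/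

/-- the hypotheses of the handover lemma -/
structure Ctx (X : Tree Γ Θ) (S : Finset (Vx Γ Θ)) (P : Γ → Prop) (S2 : Finset (Vx Γ Θ))
    (a b : Vx Γ Θ) : Prop where
  oth : ∀ e, ¬ P e → Dn S e ∨ Fresh X S e
  ne : ∃ c, P c
  chf : ∀ e f, ¬ P e → Fresh X S e → X.par f = some e → Fresh X S f
  mgf : ∀ e p, X.mg e = true → ¬ P e → X.par e = some p → ¬ P p → Dn S p → ¬ Fresh X S e
  one : ∀ q, ∃ e0, ∀ e, X.par e = some q → P e → e = e0
  ppar : ∀ e q, P e → X.par e = some q → ¬ P q → Dn S q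
  tt : ∀ c, X.mg c = false → t c true ∉ S
  zz : ∀ c, X.mg c = true ∨ X.par c = none → z c ∉ S
  omL : ∀ c, cr c Om ∈ S → cr c OmL ∈ S
  tl : ∀ θ, tok θ ∈ S → Vx.tl θ ∈ S
  sub : S2 ⊆ S
  miss : ∀ x ∈ S, x ∉ S2 →
    (∃ e y, P e ∧ x = cr e y) ∨ (∃ e, P e ∧ Lock X e x) ∨ x = a ∨ x = b
  hw : ∀ e, P e → cr e w ∉ S2
  hc : ∀ e, P e → X.mg e = false → okc X S2 e
  hm : ∀ e, P e → X.mg e = true → okm X S2 e
  hp : ∀ e, P e → cr e Om ∈ S2 → cr e OmL ∈ S2
  hab : (∃ e y y', P e ∧ a = cr e y ∧ b = cr e y') ∨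
      (Ad X a b ∧ a ∈ S ∧ a ∉ S2 ∧ (∀ e y, P e → a ≠ cr e y) ∧
        ∀ θ M b', a = tok θ → b = t M b' → X.mg M = true → ¬ P M → ∀ c, X.par M = some c → ¬ P c) ∨
      (∃ c e, P c ∧ X.par e = some c ∧ (∀ e', X.par e' = some c → ¬ P e') ∧ a = cr c w ∧
        (b = z e ∨ ∃ b', b = t e b') ∧ Dn S2 c ∧ 1 ≤ tau S2 c)

variable {P : Γ → Prop} {S2 : Finset (Vx Γ Θ)} {a b : Vx Γ Θ}

theorem ne_par {e q : Γ} (h : X.par e = some q) : q ≠ e := by
  rintro rfl
  exact lt_irrefl _ (X.rk_lt _ _ h)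

theorem fresh_not_dn {e : Γ} (h : Fresh X S e) (hd : Dn S e) : False := hd.1 h.1.2.2.1

theorem Ctx.anc (h : Ctx X S P S2 a b) : ∀ (n : ℕ) (g : Γ), X.rk g = n → (P g ∨ ¬ Fresh X S g) →
    ∃ r, X.par r = none ∧ (P r ∨ ¬ Fresh X S r) := by
  intro n
  induction n using Nat.strong_induction_on with
  | _ n ih =>
    intro g hg hQ
    rcases hpar : X.par g with _ | q
    · exact ⟨g, hpar, hQ⟩
    · refine ih (X.rk q) (hg ▸ X.rk_lt _ _ hpar) q rfl ?_
      by_cases hPq : P q
      · exact Or.inl hPq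
      · refine Or.inr fun hF => ?_
        rcases hQ with hP | hnF
        · exact fresh_not_dn hF (h.ppar g q hP hpar hPq)
        · exact hnF (h.chf q g hPq hF hpar)

theorem Ctx.root (h : Ctx X S P S2 a b) {e : Γ} (he : X.par e = none) (hP : ¬ P e) :
    ¬ Fresh X S e := by
  obtain ⟨c, hc⟩ := h.ne
  obtain ⟨r, hr, hQ⟩ := h.anc _ c rfl (Or.inl hc)
  rw [X.root_uniq e r he hr] at hP ⊢
  tauto

theorem Ctx.par (h : Ctx X S P S2 a b) {e : Γ} (hP : ¬ P e) (hF : Fresh X S e) :
    ∃ q, X.par e = some q := by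
  rcases hpar : X.par e with _ | q
  · exact absurd hF (h.root hpar hP)
  · exact ⟨q, rfl⟩

theorem Ctx.core (h : Ctx X S P S2 a b) {e : Γ} (he : ¬ P e) {y : Cr} (hy : cr e y ∈ S)
    (h1 : cr e y ≠ a) (h2 : cr e y ≠ b) : cr e y ∈ S2 := by
  by_contra hn
  rcases h.miss _ hy hn with ⟨e', y', hP, heq⟩ | ⟨c, hP, ⟨b', heq⟩ | ⟨p, b', _, heq⟩⟩ | heq | heq
  · simp only [cr.injEq] at heq
    exact he (heq.1 ▸ hP)
  · simp at heq
  · simp at heq
  · exact h1 heq
  · exact h2 heq

theorem Ctx.zk (h : Ctx X S P S2 a b) {e : Γ} (hy : z e ∈ S)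
    (h1 : z e ≠ a) (h2 : z e ≠ b) : z e ∈ S2 := by
  by_contra hn
  rcases h.miss _ hy hn with ⟨e', y', hP, heq⟩ | ⟨c, hP, ⟨b', heq⟩ | ⟨p, b', _, heq⟩⟩ | heq | heq
  · simp at heq
  · simp at heq
  · simp at heq
  · exact h1 heq
  · exact h2 heq

theorem Ctx.tlk (h : Ctx X S P S2 a b) {θ : Θ} (hy : Vx.tl θ ∈ S)
    (h1 : Vx.tl θ ≠ a) (h2 : Vx.tl θ ≠ b) : Vx.tl θ ∈ S2 := by
  by_contra hn
  rcases h.miss _ hy hn with ⟨e', y', hP, heq⟩ | ⟨c, hP, ⟨b', heq⟩ | ⟨p, b', _, heq⟩⟩ | heq | heq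
  · simp at heq
  · simp at heq
  · simp at heq
  · exact h1 heq
  · exact h2 heq

theorem Ctx.tk (h : Ctx X S P S2 a b) {e : Γ} {b' : Bool} (he : ¬ P e) (hF : Fresh X S e)
    (hy : t e b' ∈ S) (h1 : t e b' ≠ a) (h2 : t e b' ≠ b) : t e b' ∈ S2 := by
  by_contra hn
  rcases h.miss _ hy hn with ⟨e', y', hP, heq⟩ | ⟨c, hP, ⟨b', heq⟩ | ⟨p, b', hpar, heq⟩⟩ | heq | heq
  · simp at heq
  · simp only [t.injEq] at heq
    exact he (heq.1 ▸ hP)
  · simp only [t.injEq] at heq
    obtain ⟨rfl, _⟩ := heq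
    exact fresh_not_dn hF (h.ppar _ _ hP hpar he)
  · exact h1 heq
  · exact h2 heq

theorem keep_all {e : Γ} (hI : Intact S e) (hk : ∀ y, cr e y ∈ S → cr e y ∈ T) :
    Wa T e ∧ NR T e ∧ F2 T e := by
  refine ⟨hk _ hI.2.2.1, fun k _ => hk _ (hI.1 k).2, F2_of 0 fun j hj _ => ?_⟩
  exact ⟨hk _ (hI.1 j).1, hk _ (hI.1 j).2, hk _ (hI.2.1 j hj)⟩

/-- only `u k` is lost -/
theorem keep_u {e : Γ} {k : Fin 5} (hI : Intact S e)
    (hk : ∀ y, cr e y ∈ S → y ≠ u k → cr e y ∈ T) (hu : cr e (u k) ∉ T) :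
    Wa T e ∧ NR T e ∧ F2 T e ∧ Sp T e := by
  refine ⟨hk _ hI.2.2.1 (by simp), fun k _ => hk _ (hI.1 k).2 (by simp),
    F2_of k fun j hj hjk => ?_, k, hu, hk _ (hI.1 k).2 (by simp)⟩
  exact ⟨hk _ (hI.1 j).1 (by simpa using hjk), hk _ (hI.1 j).2 (by simp), hk _ (hI.2.1 j hj) (by simp)⟩

/-- only `w` is lost -/
theorem keep_w {e : Γ} (hI : Intact S e)
    (hk : ∀ y, cr e y ∈ S → y ≠ w → cr e y ∈ T) (hu : cr e w ∉ T) : Dn T e :=
  ⟨hu, fun k _ => hk _ (hI.1 k).2 (by simp)⟩

theorem core_status (h : Ctx X S P S2 a b) {e : Γ} (he : ¬ P e) (hI : Intact S e) :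
    (Wa S2 e ∧ NR S2 e ∧ F2 S2 e) ∨ (∃ k, Rk S2 e k) ∨ Dn S2 e := by
  have hk := fun y => h.core he (y := y)
  rcases h.hab with ⟨e', y, y', hP, rfl, rfl⟩ | ⟨hAd, haS, ha2, haP, _⟩ | ⟨c, e', hPc, _, _, rfl, hb, _⟩
  · refine Or.inl (keep_all hI fun y hy => hk y hy ?_ ?_)
    all_goals
      simp only [ne_eq, cr.injEq, not_and]
      rintro rfl
      exact absurd hP he
  · by_cases hA : ∀ y, cr e y ≠ a ∧ cr e y ≠ b
    · exact Or.inl (keep_all hI fun y hy => hk y hy (hA y).1 (hA y).2)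
    · cases hAd with
      | up c k =>
        obtain rfl : e = c := by
          by_contra hne
          exact hA fun y => by simp [hne]
        refine Or.inl ⟨hk _ hI.2.2.1 (by simp) (by simp), fun j hj => ?_, F2_of k fun j hj hjk => ?_⟩
        · have hjk : j ≠ k := by
            rintro rfl
            exact ha2 hj
          exact hk _ (hI.1 j).2 (by simp) (by simpa using hjk)
        · exact ⟨hk _ (hI.1 j).1 (by simpa using hjk) (by simp),
            hk _ (hI.1 j).2 (by simp) (by simpa using hjk), hk _ (hI.2.1 j hj) (by simp) (by simp)⟩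
      | uT c k =>
        obtain rfl : e = c := by
          by_contra hne
          exact hA fun y => by simp [hne]
        refine Or.inl ⟨hk _ hI.2.2.1 (by simp) (by simp), fun j hj => ?_, F2_of k fun j hj hjk => ?_⟩
        · exact hk _ (hI.1 j).2 (by simp) (by simp)
        · exact ⟨hk _ (hI.1 j).1 (by simpa using hjk) (by simp),
            hk _ (hI.1 j).2 (by simp) (by simp), hk _ (hI.2.1 j hj) (by simp) (by simpa using hjk)⟩
      | uz c k =>
        obtain rfl : e = c := by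
          by_contra hne
          exact hA fun y => by simp [hne]
        have := keep_u hI (T := S2) (k := k) (fun y hy hne => hk _ hy (by simpa using hne) (by simp)) ha2
        exact Or.inl ⟨this.1, this.2.1, this.2.2.1⟩
      | ut c k b' =>
        obtain rfl : e = c := by
          by_contra hne
          exact hA fun y => by simp [hne]
        have := keep_u hI (T := S2) (k := k) (fun y hy hne => hk _ hy (by simpa using hne) (by simp)) ha2
        exact Or.inl ⟨this.1, this.2.1, this.2.2.1⟩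
      | ug c k q b' hq =>
        obtain rfl : e = c := by
          by_contra hne
          exact hA fun y => by simp [hne]
        have := keep_u hI (T := S2) (k := k) (fun y hy hne => hk _ hy (by simpa using hne) (by simp)) ha2
        exact Or.inl ⟨this.1, this.2.1, this.2.2.1⟩
      | wp c k =>
        obtain rfl : e = c := by
          by_contra hne
          exact hA fun y => by simp [hne]
        by_cases hpk : cr e (p k) ∈ S2
        · refine Or.inr (Or.inr ⟨ha2, fun j hj => ?_⟩)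
          by_cases hjk : j = k
          · exact hjk ▸ hpk
          · exact hk _ (hI.1 j).2 (by simp) (by simpa using hjk)
        · refine Or.inr (Or.inl ⟨k, ha2, hk _ (hI.1 k).1 (by simp) (by simp), hpk, fun j hjk hj => ?_⟩)
          exact hk _ (hI.1 j).2 (by simp) (by simpa using hjk)
      | wz c f hf =>
        obtain rfl : e = c := by
          by_contra hne
          exact hA fun y => by simp [hne]
        exact Or.inr (Or.inr (keep_w hI (fun y hy hne => hk _ hy (by simpa using hne) (by simp)) ha2))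
      | wt c f b' hf hmf =>
        obtain rfl : e = c := by
          by_contra hne
          exact hA fun y => by simp [hne]
        exact Or.inr (Or.inr (keep_w hI (fun y hy hne => hk _ hy (by simpa using hne) (by simp)) ha2))
      | OT c k =>
        obtain rfl : e = c := by
          by_contra hne
          exact hA fun y => by simp [hne]
        refine Or.inl ⟨hk _ hI.2.2.1 (by simp) (by simp), fun j hj => ?_, F2_of k fun j hj hjk => ?_⟩
        · exact hk _ (hI.1 j).2 (by simp) (by simp)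
        · exact ⟨hk _ (hI.1 j).1 (by simp) (by simp),
            hk _ (hI.1 j).2 (by simp) (by simp), hk _ (hI.2.1 j hj) (by simp) (by simpa using hjk)⟩
      | OL c =>
        obtain rfl : e = c := by
          by_contra hne
          exact hA fun y => by simp [hne]
        refine Or.inl ⟨hk _ hI.2.2.1 (by simp) (by simp), fun j hj => ?_, F2_of 0 fun j hj hjk => ?_⟩
        · exact hk _ (hI.1 j).2 (by simp) (by simp)
        · exact ⟨hk _ (hI.1 j).1 (by simp) (by simp),
            hk _ (hI.1 j).2 (by simp) (by simp), hk _ (hI.2.1 j hj) (by simp) (by simp)⟩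
      | tt θ => exact absurd (fun y => by simp) hA
      | ta θ c b' hta => exact absurd (fun y => by simp) hA
  · refine Or.inl (keep_all hI fun y hy => hk y hy ?_ ?_)
    · simp only [ne_eq, cr.injEq, not_and]
      rintro rfl
      exact absurd hPc he
    · rcases hb with rfl | ⟨b', rfl⟩ <;> simp


theorem Ctx.ane_z (h : Ctx X S P S2 a b) (e : Γ) : z e ≠ a := by
  rcases h.hab with ⟨e', y, y', hP, rfl, rfl⟩ | ⟨hAd, _⟩ | ⟨c, e', hPc, _, _, rfl, hb, _⟩
  · simp
  · cases hAd <;> simp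
  · simp

theorem Ctx.ane_t (h : Ctx X S P S2 a b) (e : Γ) (b' : Bool) : t e b' ≠ a := by
  rcases h.hab with ⟨e', y, y', hP, rfl, rfl⟩ | ⟨hAd, _⟩ | ⟨c, e', hPc, _, _, rfl, hb, _⟩
  · simp
  · cases hAd <;> simp
  · simp

/-- done gadgets stay done -/
theorem Ctx.dn (h : Ctx X S P S2 a b) {e : Γ} (he : ¬ P e) (hD : Dn S e) : Dn S2 e := by
  refine ⟨fun hw => hD.1 (h.sub hw), fun k hk => ?_⟩
  have hp : cr e (p k) ∈ S := hD.2 k (h.sub hk)
  by_contra hn
  have hab' : cr e (p k) = a ∨ cr e (p k) = b := by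
    by_contra hc
    push Not at hc
    exact hn (h.core he hp hc.1 hc.2)
  rcases h.hab with ⟨e', y, y', hP, rfl, rfl⟩ | ⟨hAd, haS, ha2, haP, _⟩ | ⟨c, e', hPc, _, _, rfl, hb, _⟩
  · simp only [cr.injEq] at hab'
    rcases hab' with h1 | h1
    · exact he (h1.1 ▸ hP)
    · exact he (h1.1 ▸ hP)
  · cases hAd <;> simp only [cr.injEq, reduceCtorEq, and_false, p.injEq, false_or, or_self] at hab'
    · obtain ⟨rfl, rfl⟩ := hab'
      exact ha2 hk
    · obtain ⟨rfl, rfl⟩ := hab'
      exact hD.1 haS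
  · rcases hb with rfl | ⟨b', rfl⟩
    · simp at hab'
    · simp at hab'

theorem dn_congr {e : Γ} (hcore : ∀ y, cr e y ∈ T ↔ cr e y ∈ S2) (hD : Dn S2 e) : Dn T e :=
  ⟨fun hw => hD.1 ((hcore _).1 hw), fun k hk => (hcore _).2 (hD.2 k ((hcore _).1 hk))⟩

/-- a gadget outside `P` which still has its `w` is untouched -/
theorem Ctx.fresh_of_wa (h : Ctx X S P S2 a b) {q : Γ} (hq : ¬ P q) (hw : Wa S q) :
    Fresh X S q := by
  rcases h.oth q hq with hD | hF
  · exact absurd hw hD.1
  · exact hF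

/-- who can take `z e` -/
theorem Ctx.bz (h : Ctx X S P S2 a b) {e q : Γ} (hpar : X.par e = some q)
    (hb : b = z e) : (∃ k, a = cr e (u k) ∧ cr e (u k) ∉ S2) ∨
      (a = cr q w ∧ (∀ e', X.par e' = some q → ¬ P e') ∧ Dn S2 q ∧ 1 ≤ tau S2 q) := by
  subst hb
  rcases h.hab with ⟨e', y, y', hP, h1, h2⟩ | ⟨hAd, haS, ha2, haP, _⟩ | ⟨c, e', hPc, h1, h2, rfl, hb, h3⟩
  · simp at h2
  · cases hAd with
    | uz _ k => exact Or.inl ⟨k, rfl, ha2⟩
    | wz c _ hf =>
      obtain rfl : c = q := by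
        rw [hpar] at hf
        exact (Option.some.inj hf).symm
      have hPq : ¬ P c := fun hP => haP _ _ hP rfl
      have hF := h.fresh_of_wa hPq haS
      refine Or.inr ⟨rfl, fun e' he' hP => ?_, ?_, ?_⟩
      · exact fresh_not_dn hF (h.ppar _ _ hP he' hPq)
      · exact keep_w hF.1 (fun y hy hne => h.core hPq hy (by simpa using hne) (by simp)) ha2
      · exact tau_pos (h.tk hPq hF hF.2.1 (by simp) (by simp))
  · rcases hb with hb | ⟨b', hb⟩
    · simp only [z.injEq] at hb
      subst hb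
      obtain rfl : c = q := by
        rw [hpar] at h1
        exact (Option.some.inj h1).symm
      exact Or.inr ⟨rfl, h2, h3⟩
    · simp at hb

/-- who can take `t e b'` -/
theorem Ctx.bt (h : Ctx X S P S2 a b) {e q : Γ} {b' : Bool} (hpar : X.par e = some q)
    (hb : b = t e b') : (∃ k, a = cr e (u k) ∧ cr e (u k) ∉ S2) ∨
      (∃ f k, X.par f = some e ∧ a = cr f (u k) ∧ cr f (u k) ∉ S2) ∨
      (a = cr q w ∧ Dn S2 q ∧ 1 ≤ tau S2 q) ∨
      (∃ θ, a = tok θ ∧ (X.mg e = true → ¬ P e → ¬ P q)) := by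
  subst hb
  rcases h.hab with ⟨e', y, y', hP, h1, h2⟩ | ⟨hAd, haS, ha2, haP, hta⟩ | ⟨c, e', hPc, h1, h2, rfl, hb, h3⟩
  · simp at h2
  · cases hAd with
    | ut _ k _ => exact Or.inl ⟨k, rfl, ha2⟩
    | ug f k _ _ hf => exact Or.inr (Or.inl ⟨f, k, hf, rfl, ha2⟩)
    | wt c _ _ hf hm =>
      obtain rfl : c = q := by
        rw [hpar] at hf
        exact (Option.some.inj hf).symm
      have hPq : ¬ P c := fun hP => haP _ _ hP rfl
      have hF := h.fresh_of_wa hPq haS
      have hne : c ≠ e := ne_par hpar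
      refine Or.inr (Or.inr (Or.inl ⟨rfl, ?_, ?_⟩))
      · exact keep_w hF.1 (fun y hy hne => h.core hPq hy (by simpa using hne) (by simp)) ha2
      · exact tau_pos (h.tk hPq hF hF.2.1 (by simp) (by simp [hne]))
    | ta θ _ _ _ => exact Or.inr (Or.inr (Or.inr ⟨θ, rfl, fun hm hP => hta θ e b' rfl rfl hm hP q hpar⟩))
  · rcases hb with hb | ⟨b', hb⟩
    · simp at hb
    · simp only [t.injEq] at hb
      obtain ⟨rfl, rfl⟩ := hb
      obtain rfl : c = q := by
        rw [hpar] at h1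
        exact (Option.some.inj h1).symm
      exact Or.inr (Or.inr (Or.inl ⟨rfl, h3⟩))

theorem okc_easy {e : Γ} (h1 : Wa T e ∧ NR T e ∧ F2 T e) (h2 : z e ∈ T)
    (h3 : ¬ wpar X T e ∨ 1 ≤ gam X T e + tau T e) : okc X T e :=
  Or.inr (Or.inl ⟨h1.1, h1.2.1, Or.inr ⟨h1.2.2, Or.inl ⟨h2, h3⟩⟩⟩)

theorem okc_sp {e : Γ} (h1 : Wa T e ∧ NR T e ∧ F2 T e ∧ Sp T e) (h2 : 1 ≤ exc X T e) : okc X T e :=
  Or.inr (Or.inl ⟨h1.1, h1.2.1, Or.inl ⟨h1.2.2.2, h2⟩⟩)

/-- untouched ordinary gadgets are safe after the move -/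
theorem okc_gen (h : Ctx X S P S2 a b) {e q : Γ} (he : ¬ P e) (hF : Fresh X S e)
    (hm : X.mg e = false) (hpar : X.par e = some q)
    (hcore : ∀ y, cr e y ∈ T ↔ cr e y ∈ S2) (hz : z e ∈ S2 → z e ∈ T)
    (ht : t e false ∈ S2 → t e false ∈ T)
    (hW : ¬ wpar X T e ∨ 1 ≤ gam X T e + tau T e)
    (hex : b = z e → a = cr q w → 2 ≤ exc X T e ∧ dpar X T e) : okc X T e := by
  have hzS : z e ∈ S := hF.2.2.2 hm (by rw [hpar]; simp)
  have hne : q ≠ e := ne_par hpar
  by_cases hbz : b = z e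
  · have ht' : t e false ∈ T := ht (h.tk he hF hF.2.1 (h.ane_t _ _) (by rw [hbz]; simp))
    rcases h.bz hpar hbz with ⟨k, ha, hk⟩ | ⟨ha, _⟩
    · refine okc_sp (keep_u (k := k) hF.1 (fun y hy hne => (hcore _).2 (h.core he hy ?_ ?_)) ?_)
        (exc_tau (tau_pos ht'))
      · rw [ha]; simpa using hne
      · rw [hbz]; simp
      · rwa [hcore]
    · have hh := hex hbz ha
      have hk := keep_all (T := T) hF.1 (fun y hy => (hcore _).2 (h.core he hy (by
        rw [ha]; simp [hne.symm]) (by rw [hbz]; simp)))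
      exact Or.inr (Or.inl ⟨hk.1, hk.2.1, Or.inr ⟨hk.2.2, Or.inr ⟨hh.2, hh.1⟩⟩⟩)
  · have hz' : z e ∈ T := hz (h.zk hzS (h.ane_z _) (fun hh => hbz hh.symm))
    by_cases hbt : b = t e false
    · rcases h.bt hpar hbt with ⟨k, ha, hk⟩ | hrest
      · refine okc_sp (keep_u (k := k) hF.1 (fun y hy hne => (hcore _).2 (h.core he hy ?_ ?_)) ?_)
          (exc_z hz')
        · rw [ha]; simpa using hne
        · rw [hbt]; simp
        · rwa [hcore]
      · refine okc_easy (keep_all (T := T) hF.1 (fun y hy => (hcore _).2 (h.core he hy ?_ ?_))) hz' hW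
        · rcases hrest with ⟨f, k, hf, ha, _⟩ | ⟨ha, _⟩ | ⟨θ, ha, _⟩
          · rw [ha]
            have := ne_par hf
            simp [this]
          · rw [ha]; simp [hne.symm]
          · rw [ha]; simp
        · rw [hbt]; simp
    · have ht' : t e false ∈ T := ht (h.tk he hF hF.2.1 (h.ane_t _ _) (fun hh => hbt hh.symm))
      rcases core_status h he hF.1 with hA | ⟨k, hR⟩ | hD
      · refine okc_easy ⟨(hcore _).2 hA.1, fun k hk => (hcore _).2 (hA.2.1 k ((hcore _).1 hk)), ?_⟩ hz' hW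
        obtain ⟨k, l, hkl, h1, h2⟩ := hA.2.2
        exact ⟨k, l, hkl, ⟨(hcore _).2 h1.1, (hcore _).2 h1.2.1, (hcore _).2 h1.2.2⟩,
          (hcore _).2 h2.1, (hcore _).2 h2.2.1, (hcore _).2 h2.2.2⟩
      · refine Or.inr (Or.inr ⟨k, ⟨fun hw => hR.1 ((hcore _).1 hw), (hcore _).2 hR.2.1,
          fun hp => hR.2.2.1 ((hcore _).1 hp), fun l hl hu => (hcore _).2 (hR.2.2.2 l hl ((hcore _).1 hu))⟩,
          Or.inl ⟨hz', tau_pos ht'⟩⟩)
      · exact Or.inl (dn_congr hcore hD)

/-- the trigger vertex of an untouched gadget which has its `w` after the move -/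
theorem Ctx.tau_wa (h : Ctx X S P S2 a b) {q : Γ} (hw : Wa S2 q) (hb : b ≠ t q false) :
    t q false ∈ S2 := by
  have hPq : ¬ P q := fun hP => h.hw q hP hw
  have hF := h.fresh_of_wa hPq (h.sub hw)
  exact h.tk hPq hF hF.2.1 (h.ane_t _ _) (fun hh => hb hh.symm)

theorem okc_main (h : Ctx X S P S2 a b) {e : Γ} (he : ¬ P e) (hm : X.mg e = false) :
    okc X S2 e := by
  rcases h.oth e he with hD | hF
  · exact Or.inl (h.dn he hD)
  · obtain ⟨q, hpar⟩ := h.par he hF
    have hne : q ≠ e := ne_par hpar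
    refine okc_gen h he hF hm hpar (fun _ => Iff.rfl) id id ?_ fun hb ha => ?_
    · by_cases ht : t e false ∈ S2
      · right
        have := tau_pos ht
        omega
      · by_cases hw : wpar X S2 e
        · right
          obtain ⟨q', hq', hw⟩ := hw
          obtain rfl : q' = q := by
            rw [hpar] at hq'
            exact (Option.some.inj hq').symm
          have hb : b = t e false := by
            by_contra hb
            exact ht (h.tk he hF hF.2.1 (h.ane_t _ _) (fun hh => hb hh.symm))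
          have := tau_pos (h.tau_wa hw (by rw [hb]; simp [hne.symm]))
          rw [gam_eq hpar]
          omega
        · exact Or.inl hw
    · rcases h.bz hpar hb with ⟨k, ha', _⟩ | ⟨_, _, hD, ht⟩
      · rw [ha] at ha'
        simp at ha'
      · refine ⟨exc_dpar (tau_pos (h.tk he hF hF.2.1 (h.ane_t _ _) ?_)) hpar hD ht, q, hpar, hD⟩
        rw [hb]; simp

/-- an untouched gadget is safe without its trigger vertex if the move takes a trigger vertex of
its merge child -/
theorem qp_fresh (h : Ctx X S P S2 a b) {e p' : Γ} {b' : Bool} (hp : ¬ P p') (hF : Fresh X S p')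
    (hm : X.mg p' = false) (hpar : X.par e = some p') (hb : b = t e b')
    (hc : ∀ y, cr p' y ≠ a) : Qp X S2 e ∧ 1 ≤ tau S2 p' := by
  obtain ⟨q, hq⟩ := h.par hp hF
  have hne : q ≠ p' := ne_par hq
  have hne' : p' ≠ e := ne_par hpar
  refine ⟨⟨p', hpar, okc_easy (keep_all hF.1 fun y hy => ?_) ?_ ?_⟩, ?_⟩
  · simp only [Finset.mem_erase, ne_eq, reduceCtorEq, not_false_eq_true, true_and]
    exact h.core hp hy (hc y) (by rw [hb]; simp)
  · simp only [Finset.mem_erase, ne_eq, reduceCtorEq, not_false_eq_true, true_and]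
    exact h.zk (hF.2.2.2 hm (by rw [hq]; simp)) (h.ane_z _) (by rw [hb]; simp)
  · by_cases hw : wpar X (S2.erase (t p' false)) p'
    · right
      obtain ⟨q', hq', hw⟩ := hw
      obtain rfl : q' = q := by
        rw [hq] at hq'
        exact (Option.some.inj hq').symm
      have hw' : Wa S2 q' := Finset.mem_of_mem_erase hw
      have hbq : b ≠ t q' false := by
        rw [hb]
        intro heq
        simp only [t.injEq] at heq
        have h1 := X.rk_lt _ _ hq
        have h2 := X.rk_lt _ _ hpar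
        rw [heq.1] at h2
        omega
      have h1 := h.tau_wa hw' hbq
      have h2 : t q' false ∈ S2.erase (t p' false) := by
        simp only [Finset.mem_erase, ne_eq, t.injEq, and_true]
        exact ⟨hne, h1⟩
      have := tau_pos h2
      rw [gam_eq hq]
      omega
    · exact Or.inl hw
  · exact tau_pos (h.tk hp hF hF.2.1 (h.ane_t _ _) (by rw [hb]; simp [hne']))

theorem okm_main (h : Ctx X S P S2 a b) {e : Γ} (he : ¬ P e) (hm : X.mg e = true) :
    okm X S2 e := by
  rcases h.oth e he with hD | hF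
  · exact Or.inl (h.dn he hD)
  obtain ⟨q, hpar, hmq⟩ := X.mg_par e hm
  have hne : q ≠ e := ne_par hpar
  by_cases hb : ∃ b', b = t e b'
  · obtain ⟨b', hb⟩ := hb
    have hto : t e (!b') ∈ S2 := by
      refine h.tk he hF ?_ (h.ane_t _ _) ?_
      · cases b'
        · exact hF.2.2.1 hm
        · exact hF.2.1
      · rw [hb]; simp
    have htau : 1 ≤ tau S2 e := tau_pos' hto
    rcases h.bt hpar hb with ⟨k, ha, hk⟩ | hrest
    · have hk := keep_u (T := S2) (k := k) hF.1 (fun y hy hne => h.core he hy (by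
        rw [ha]; simpa using hne) (by rw [hb]; simp)) hk
      exact Or.inr (Or.inl ⟨hk.1, hk.2.1, Or.inl ⟨hk.2.2.2, exm_tau htau⟩⟩)
    · have hk := keep_all (T := S2) hF.1 (fun y hy => h.core he hy (by
        rcases hrest with ⟨f, k, hf, ha, _⟩ | ⟨ha, _⟩ | ⟨θ, ha, _⟩
        · rw [ha]
          have := ne_par hf
          simp [this]
        · rw [ha]; simp [hne.symm]
        · rw [ha]; simp) (by rw [hb]; simp))
      have hfin : Qp X S2 e ∧ 1 ≤ tau S2 q → okm X S2 e := fun hh =>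
        Or.inr (Or.inl ⟨hk.1, hk.2.1, Or.inr ⟨hk.2.2, Or.inl (exm_two htau hpar hh.1 hh.2)⟩⟩)
      have hfr : ¬ P q → Fresh X S q := fun hPq => by
        rcases h.oth q hPq with hD | hFq
        · exact absurd hF (h.mgf e q hm he hpar hPq hD)
        · exact hFq
      rcases hrest with ⟨f, k, hf, ha, hfk⟩ | ⟨ha, hD, ht⟩ | ⟨θ, ha, hPq⟩
      · by_cases hPq : P q
        · have hPf : ¬ P f := fun hP => fresh_not_dn hF (h.ppar f e hP hf he)
          have hFf := h.chf e f he hF hf
          have hmf : X.mg f = false := by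
            by_contra hmf
            obtain ⟨e', he', hme'⟩ := X.mg_par f (by simpa using hmf)
            rw [hf] at he'
            rw [← Option.some.inj he', hm] at hme'
            exact absurd hme' (by simp)
          have hnf : e ≠ f := ne_par hf
          refine Or.inr (Or.inl ⟨hk.1, hk.2.1, Or.inr ⟨hk.2.2, Or.inr ⟨exm_tau htau, f, hf, ?_, ?_⟩⟩⟩)
          · exact h.zk (hFf.2.2.2 hmf (by rw [hf]; simp)) (h.ane_z _) (by rw [hb]; simp)
          · refine okc_sp (keep_u (k := k) hFf.1 (fun y hy hne => ?_) ?_) (exc_tau (tau_pos ?_))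
            · simp only [Finset.mem_erase, ne_eq, reduceCtorEq, not_false_eq_true, true_and]
              exact h.core hPf hy (by rw [ha]; simpa using hne) (by rw [hb]; simp)
            · simp only [Finset.mem_erase, ne_eq, reduceCtorEq, not_false_eq_true, true_and]
              exact hfk
            · simp only [Finset.mem_erase, ne_eq, reduceCtorEq, not_false_eq_true, true_and]
              exact h.tk hPf hFf hFf.2.1 (h.ane_t _ _) (by rw [hb]; simp [hnf.symm])
        · refine hfin (qp_fresh h hPq (hfr hPq) hmq hpar hb fun y => ?_)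
          rw [ha]
          have h1 := X.rk_lt _ _ hf
          have h2 := X.rk_lt _ _ hpar
          intro heq
          simp only [cr.injEq] at heq
          rw [heq.1] at h2
          omega
      · refine hfin ⟨⟨q, hpar, Or.inl ?_⟩, ht⟩
        exact dn_congr (S2 := S2) (fun y => by simp) hD
      · exact hfin (qp_fresh h (hPq hm he) (hfr (hPq hm he)) hmq hpar hb fun y => by rw [ha]; simp)
  · push Not at hb
    have htau : tau S2 e = 2 := tau_two
      (h.tk he hF hF.2.1 (h.ane_t _ _) (hb false).symm)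
      (h.tk he hF (hF.2.2.1 hm) (h.ane_t _ _) (hb true).symm)
    rcases core_status h he hF.1 with hA | ⟨k, hR⟩ | hD
    · exact Or.inr (Or.inl ⟨hA.1, hA.2.1, Or.inr ⟨hA.2.2, Or.inl (exm_tau htau.ge)⟩⟩)
    · exact Or.inr (Or.inr ⟨k, hR, Or.inl htau.ge⟩)
    · exact Or.inl hD

theorem sib_main (h : Ctx X S P S2 a b) {q : Γ} (hw : ¬ Wa S2 q) :
    ∃ e0, ∀ e, X.par e = some q → X.mg e = false → e ≠ e0 → okc X (S2.erase (t q false)) e := by
  have key : ∀ e, X.par e = some q → X.mg e = false → ¬ P e → (b = z e → a ≠ cr q w) →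
      okc X (S2.erase (t q false)) e := by
    intro e hpar hm he hex
    have hne : q ≠ e := ne_par hpar
    rcases h.oth e he with hD | hF
    · exact Or.inl (dn_congr (S2 := S2) (fun y => by simp) (h.dn he hD))
    · refine okc_gen h he hF hm hpar (fun y => by simp) (fun hz => by simpa using hz)
        (fun ht => ?_) (Or.inl ?_) fun hb ha => absurd ha (hex hb)
      · simp only [Finset.mem_erase, ne_eq, t.injEq, and_true]
        exact ⟨hne.symm, ht⟩
      · rintro ⟨q', hq', hw'⟩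
        rw [hpar] at hq'
        rw [← Option.some.inj hq'] at hw'
        exact hw (Finset.mem_of_mem_erase hw')
  by_cases hex : ∃ e1, X.par e1 = some q ∧ b = z e1 ∧ a = cr q w
  · obtain ⟨e1, he1, hb, ha⟩ := hex
    refine ⟨e1, fun e hpar hm hne => key e hpar hm ?_ fun hb' _ => ?_⟩
    · rcases h.bz he1 hb with ⟨k, ha', _⟩ | ⟨_, hP, _⟩
      · rw [ha] at ha'
        simp at ha'
      · exact hP e hpar
    · rw [hb] at hb'
      simp only [z.injEq] at hb'
      exact hne hb'.symm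
  · push Not at hex
    obtain ⟨e0, he0⟩ := h.one q
    exact ⟨e0, fun e hpar hm hne => key e hpar hm (fun hP => hne (he0 e hpar hP)) (hex e hpar)⟩

theorem inv_of_ctx (h : Ctx X S P S2 a b) : Inv X S2 where
  okc' e hm := by
    by_cases he : P e
    · exact h.hc e he hm
    · exact okc_main h he hm
  okm' e hm := by
    by_cases he : P e
    · exact h.hm e he hm
    · exact okm_main h he hm
  sib q _ hw := sib_main h hw
  tt c hc hS := h.tt c hc (h.sub hS)
  zz c hc hS := h.zz c hc (h.sub hS)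
  omL e he := by
    by_cases hP : P e
    · exact h.hp e hP he
    · by_contra hn
      have hL := h.omL e (h.sub he)
      have hab' : cr e OmL = a ∨ cr e OmL = b := by
        by_contra hc
        push Not at hc
        exact hn (h.core hP hL hc.1 hc.2)
      rcases h.hab with ⟨e', y, y', hP', rfl, rfl⟩ | ⟨hAd, haS, ha2, haP, _⟩ | ⟨c, e', hPc, _, _, rfl, hb, _⟩
      · simp only [cr.injEq] at hab'
        rcases hab' with h1 | h1
        · exact hP (h1.1 ▸ hP')
        · exact hP (h1.1 ▸ hP')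
      · cases hAd <;> simp only [cr.injEq, reduceCtorEq, and_false, and_true, false_or, or_self] at hab'
        subst hab'
        exact ha2 he
      · rcases hb with rfl | ⟨b', rfl⟩
        · simp at hab'
        · simp at hab'
  tl θ he := by
    by_contra hn
    have hL := h.tl θ (h.sub he)
    have hab' : Vx.tl θ = a ∨ Vx.tl θ = b := by
      by_contra hc
      push Not at hc
      exact hn (h.tlk hL hc.1 hc.2)
    rcases h.hab with ⟨e', y, y', hP', rfl, rfl⟩ | ⟨hAd, haS, ha2, haP, _⟩ | ⟨c, e', hPc, _, _, rfl, hb, _⟩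
    · simp at hab'
    · cases hAd <;> simp only [tl.injEq, reduceCtorEq, false_or, or_self] at hab'
      subst hab'
      exact ha2 he
    · rcases hb with rfl | ⟨b', rfl⟩
      · simp at hab'
      · simp at hab'

end HO

open HO

variable {Γ Θ : Type} [DecidableEq Γ] [DecidableEq Θ] (X : Tree Γ Θ) (S : Finset (Vx Γ Θ))

/-- `P` is the set of the gadgets in play (the current gadget; or the current gadget and its parent,
for the special positions).  From a position in which all the other gadgets are done or untouched,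
remove `w` and perhaps other core vertices and locks of the gadgets of `P`, and the two ends of
another edge `a b` (not a core vertex of `P`, and not a token at a merge child of `P`).  If the
gadgets of `P` are safe, the position is closed.  The third case of `hab` is an exit `w` -- `z e` or
`w` -- `t e b'` of a gadget `c` of `P` which is done and keeps a trigger vertex. -/
theorem handover (P : Γ → Prop) (hoth : ∀ e, ¬ P e → Dn S e ∨ Fresh X S e)
    (hne : ∃ c, P c)
    (hchf : ∀ e f, ¬ P e → Fresh X S e → X.par f = some e → Fresh X S f)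
    (hmgf : ∀ e p, X.mg e = true → ¬ P e → X.par e = some p → ¬ P p → Dn S p → ¬ Fresh X S e)
    (hPone : ∀ q, ∃ e0, ∀ e, X.par e = some q → P e → e = e0)
    (hPpar : ∀ e q, P e → X.par e = some q → ¬ P q → Dn S q)
    (htt : ∀ c, X.mg c = false → t c true ∉ S)
    (hzz : ∀ c, X.mg c = true ∨ X.par c = none → z c ∉ S)
    (homL : ∀ c, cr c Om ∈ S → cr c OmL ∈ S)
    (htl : ∀ θ, tok θ ∈ S → Vx.tl θ ∈ S)
    (S2 : Finset (Vx Γ Θ)) (hsub : S2 ⊆ S) (a b : Vx Γ Θ)
    (hmiss : ∀ x ∈ S, x ∉ S2 → (∃ e y, P e ∧ x = cr e y) ∨ (∃ e, P e ∧ Lock X e x) ∨ x = a ∨ x = b)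
    (hw : ∀ e, P e → cr e w ∉ S2)
    (hc : ∀ e, P e → X.mg e = false → okc X S2 e) (hm : ∀ e, P e → X.mg e = true → okm X S2 e)
    (hp : ∀ e, P e → cr e Om ∈ S2 → cr e OmL ∈ S2)
    (hab : (∃ e y y', P e ∧ a = cr e y ∧ b = cr e y') ∨
      (Ad X a b ∧ a ∈ S ∧ a ∉ S2 ∧ (∀ e y, P e → a ≠ cr e y) ∧
        ∀ θ M b', a = tok θ → b = t M b' → X.mg M = true → ¬ P M → ∀ c, X.par M = some c → ¬ P c) ∨
      (∃ c e, P c ∧ X.par e = some c ∧ (∀ e', X.par e' = some c → ¬ P e') ∧ a = cr c w ∧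
        (b = z e ∨ ∃ b', b = t e b') ∧ Dn S2 c ∧ 1 ≤ tau S2 c)) :
    Inv X S2 :=
  inv_of_ctx ⟨hoth, hne, hchf, hmgf, hPone, hPpar, htt, hzz, homL, htl, hsub, hmiss, hw, hc, hm, hp,
    hab⟩

end ArcK
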