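import Pool.Agent.ArcK.Game
import Pool.Agent.ArcK.Closure
import Pool.Agent.ArcK.Handover

/-!
# The special positions (module ZSIDE)
-/

set_option linter.unusedSectionVars false

namespace ArcK

open Vx Cr



namespace ZS

variable {Γ Θ : Type} [DecidableEq Γ] [DecidableEq Θ] {X : Tree Γ Θ} {S S' : Finset (Vx Γ Θ)}

theorem mem_del {a b x : Vx Γ Θ} : x ∈ del S a b ↔ x ≠ b ∧ x ≠ a ∧ x ∈ S := by
  simp [del, Finset.mem_erase]

theorem okc_congr {e : Γ} (h1 : ∀ y, cr e y ∈ S ↔ cr e y ∈ S') (h2 : z e ∈ S ↔ z e ∈ S')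
    (h3 : ∀ b, t e b ∈ S ↔ t e b ∈ S')
    (h4 : ∀ q, X.par e = some q →
      (∀ y, cr q y ∈ S ↔ cr q y ∈ S') ∧ ∀ b, t q b ∈ S ↔ t q b ∈ S') :
    okc X S e ↔ okc X S' e := by
  have hgam : gam X S e = gam X S' e := by
    unfold gam
    cases hq : X.par e with
    | none => rfl
    | some q => simp [tau, n1, (h4 q hq).2]
  have hwpar : wpar X S e ↔ wpar X S' e := by
    unfold wpar Wa
    constructor
    · rintro ⟨q, hq, h⟩; exact ⟨q, hq, ((h4 q hq).1 _).1 h⟩
    · rintro ⟨q, hq, h⟩; exact ⟨q, hq, ((h4 q hq).1 _).2 h⟩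
  have hdpar : dpar X S e ↔ dpar X S' e := by
    unfold dpar Dn Wa NR
    constructor
    · rintro ⟨q, hq, h, h'⟩
      refine ⟨q, hq, ?_, ?_⟩
      · rwa [← (h4 q hq).1]
      · intro k hk
        rw [← (h4 q hq).1] at hk ⊢
        exact h' k hk
    · rintro ⟨q, hq, h, h'⟩
      refine ⟨q, hq, ?_, ?_⟩
      · rwa [(h4 q hq).1]
      · intro k hk
        rw [(h4 q hq).1] at hk ⊢
        exact h' k hk
  have htau : tau S e = tau S' e := by simp [tau, n1, h3]
  have hexc : exc X S e = exc X S' e := by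
    unfold exc
    rw [htau, hgam]
    by_cases hd : dpar X S e
    · have hd' := hdpar.1 hd
      simp [n1, h2, hd, hd']
    · have hd' : ¬ dpar X S' e := fun h => hd (hdpar.2 h)
      simp [n1, h2, hd, hd']
  unfold okc
  rw [hexc, htau, hgam, hwpar, hdpar]
  simp only [Dn, Wa, NR, Sp, F2, Fl, Rk, h1, h2]

/-- the parent of a merge gadget is ordinary -/
theorem mg_of_par {c M : Γ} (hM : X.mg M = true) (hp : X.par M = some c) : X.mg c = false := by
  obtain ⟨p, hp', h⟩ := X.mg_par M hM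
  rw [hp] at hp'
  cases hp'
  exact h

theorem okm_congr {e M : Γ} (hM : X.mg M = true) (he : X.mg e = true) (heM : e ≠ M)
    (h : ∀ x : Vx Γ Θ, (∀ y, x ≠ cr M y) → (x ∈ S ↔ x ∈ S')) :
    okm X S e ↔ okm X S' e := by
  have hcr : ∀ {c : Γ}, c ≠ M → ∀ y, cr c y ∈ S ↔ cr c y ∈ S' := by
    intro c hc y
    apply h
    intro y' hy
    exact hc (by injection hy)
  have hz : ∀ c : Γ, z c ∈ S ↔ z c ∈ S' := fun c => h _ (by intro y; simp)
  have ht : ∀ (c : Γ) (b : Bool), t c b ∈ S ↔ t c b ∈ S' := fun c b => h _ (by intro y; simp)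
  have hQ : Qp X S e ↔ Qp X S' e := by
    unfold Qp
    have key : ∀ q, X.par e = some q →
        (okc X (S.erase (t q false)) q ↔ okc X (S'.erase (t q false)) q) := by
      intro q hq
      have hqM : q ≠ M := by
        rintro rfl
        have := mg_of_par he hq
        rw [hM] at this
        cases this
      apply okc_congr
      · intro y; simp [hcr hqM]
      · simp [hz]
      · intro b; simp [ht]
      · intro p hp
        have hpM : p ≠ M := by
          rintro rfl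
          have := (X.mg_pp e q p he hq hp).1
          rw [hM] at this
          cases this
        refine ⟨fun y => by simp [hcr hpM], fun b => by simp [ht]⟩
    constructor
    · rintro ⟨q, hq, h'⟩; exact ⟨q, hq, (key q hq).1 h'⟩
    · rintro ⟨q, hq, h'⟩; exact ⟨q, hq, (key q hq).2 h'⟩
  have hM3 : M3 X S e ↔ M3 X S' e := by
    unfold M3
    have key : ∀ f, X.par f = some e →
        (okc X (S.erase (z f)) f ↔ okc X (S'.erase (z f)) f) := by
      intro f hf
      have hfM : f ≠ M := by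
        rintro rfl
        have := mg_of_par hM hf
        rw [he] at this
        cases this
      apply okc_congr
      · intro y; simp [hcr hfM]
      · simp [hz]
      · intro b; simp [ht]
      · intro p hp
        rw [hf] at hp
        cases hp
        refine ⟨fun y => by simp [hcr heM], fun b => by simp [ht]⟩
    constructor
    · rintro ⟨f, hf, h1, h2⟩; exact ⟨f, hf, (hz f).1 h1, (key f hf).1 h2⟩
    · rintro ⟨f, hf, h1, h2⟩; exact ⟨f, hf, (hz f).2 h1, (key f hf).2 h2⟩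
  have hgam : gam X S e = gam X S' e := by
    unfold gam
    cases hq : X.par e with
    | none => rfl
    | some q => simp [tau, n1, ht]
  have htau : tau S e = tau S' e := by simp [tau, n1, ht]
  have hexm : exm X S e = exm X S' e := by
    unfold exm
    rw [htau, hgam]
    by_cases hd : Qp X S e
    · have hd' := hQ.1 hd
      simp [hd, hd']
    · have hd' : ¬ Qp X S' e := fun h => hd (hQ.2 h)
      simp [hd, hd']
  unfold okm
  rw [hexm, htau, hM3]
  simp only [Dn, Wa, NR, Sp, F2, Fl, Rk, hcr heM]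

/-- A closed position may be changed inside the core of a merge gadget `M`, if `M` and its child
stay safe. -/
theorem inv_raise {M : Γ} (hM : X.mg M = true)
    (h : ∀ x : Vx Γ Θ, (∀ y, x ≠ cr M y) → (x ∈ S ↔ x ∈ S'))
    (hI : Inv X S') (hm : okm X S M) (hf : ∀ f, X.par f = some M → okc X S f)
    (hom : cr M Om ∈ S → cr M OmL ∈ S) : Inv X S := by
  have hcr : ∀ {c : Γ}, c ≠ M → ∀ y, cr c y ∈ S ↔ cr c y ∈ S' := by
    intro c hc y
    apply h
    intro y' hy
    exact hc (by injection hy)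
  have hz : ∀ c : Γ, z c ∈ S ↔ z c ∈ S' := fun c => h _ (by intro y; simp)
  have ht : ∀ (c : Γ) (b : Bool), t c b ∈ S ↔ t c b ∈ S' := fun c b => h _ (by intro y; simp)
  have htok : ∀ θ, tok θ ∈ S ↔ tok θ ∈ S' := fun c => h _ (by intro y; simp)
  have htl : ∀ θ, tl θ ∈ S ↔ tl θ ∈ S' := fun c => h _ (by intro y; simp)
  have hne : ∀ {c : Γ}, X.mg c = false → c ≠ M := by
    rintro c hc rfl
    rw [hM] at hc
    cases hc
  refine ⟨?_, ?_, ?_, ?_, ?_, ?_, ?_⟩
  · intro e he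
    by_cases hp : X.par e = some M
    · exact hf e hp
    · rw [okc_congr (hcr (hne he)) (hz e) (ht e) (S' := S')]
      · exact hI.okc' e he
      · intro q hq
        have hqM : q ≠ M := by rintro rfl; exact hp hq
        exact ⟨hcr hqM, ht q⟩
  · intro e he
    by_cases heM : e = M
    · subst heM; exact hm
    · rw [okm_congr hM he heM h]
      exact hI.okm' e he
  · intro c hc hW
    have hcM := hne hc
    obtain ⟨e0, he0⟩ := hI.sib c hc (by
      unfold Wa at hW ⊢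
      rwa [← hcr hcM])
    refine ⟨e0, fun e he heo hne0 => ?_⟩
    rw [okc_congr (S' := S'.erase (t c false))]
    · exact he0 e he heo hne0
    · intro y; simp [hcr (hne heo)]
    · simp [hz]
    · intro b; simp [ht]
    · intro q hq
      rw [he] at hq
      cases hq
      refine ⟨fun y => by simp [hcr hcM], fun b => by simp [ht]⟩
  · intro c hc
    rw [ht]; exact hI.tt c hc
  · intro c hc
    rw [hz]; exact hI.zz c hc
  · intro c hc
    by_cases hcM : c = M
    · subst hcM; exact hom hc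
    · rw [hcr hcM] at hc ⊢
      exact hI.omL c hc
  · intro θ hθ
    rw [htok] at hθ
    rw [htl]
    exact hI.tl θ hθ

/-! ### inversion of adjacency -/

section inv
variable {a x : Vx Γ Θ} {e : Γ} {j : Fin 5} {β : Bool} {θ : Θ}

theorem Ad_p (h : Ad X a (cr e (p j))) : a = cr e (u j) ∨ a = cr e w := by
  cases h
  · exact Or.inl rfl
  · exact Or.inr rfl

theorem Ad_T (h : Ad X a (cr e (T j))) : a = cr e (u j) ∨ a = cr e Om := by
  cases h
  · exact Or.inl rfl
  · exact Or.inr rfl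

theorem Ad_OmL (h : Ad X a (cr e OmL)) : a = cr e Om := by
  cases h
  rfl

theorem Ad_u (h : Ad X (cr e (u j)) x) : x = cr e (p j) ∨ x = cr e (T j) ∨ x = z e ∨
    (∃ β, x = t e β) ∨ ∃ q β, X.par e = some q ∧ x = t q β := by
  cases h with
  | up => exact Or.inl rfl
  | uT => exact Or.inr (Or.inl rfl)
  | uz => exact Or.inr (Or.inr (Or.inl rfl))
  | ut _ _ β => exact Or.inr (Or.inr (Or.inr (Or.inl ⟨β, rfl⟩)))
  | ug _ _ q β hq => exact Or.inr (Or.inr (Or.inr (Or.inr ⟨q, β, hq, rfl⟩)))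

theorem Ad_Om (h : Ad X (cr e Om) x) : (∃ j, x = cr e (T j)) ∨ x = cr e OmL := by
  cases h with
  | OT _ j => exact Or.inl ⟨j, rfl⟩
  | OL => exact Or.inr rfl

theorem Ad_w (h : Ad X (cr e w) x) : (∃ j, x = cr e (p j)) ∨ (∃ f, X.par f = some e ∧ x = z f) ∨
    ∃ f β, X.par f = some e ∧ X.mg f = true ∧ x = t f β := by
  cases h with
  | wp _ j => exact Or.inl ⟨j, rfl⟩
  | wz _ f hf => exact Or.inr (Or.inl ⟨f, hf, rfl⟩)
  | wt _ f β hf hm => exact Or.inr (Or.inr ⟨f, β, hf, hm, rfl⟩)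

theorem Ad_t (h : Ad X a (t e β)) : (∃ j, a = cr e (u j)) ∨
    (∃ f j, X.par f = some e ∧ a = cr f (u j)) ∨
    (∃ q, X.par e = some q ∧ X.mg e = true ∧ a = cr q w) ∨ ∃ θ, X.ta θ e β ∧ a = tok θ := by
  cases h with
  | ut _ j => exact Or.inl ⟨j, rfl⟩
  | ug f j _ _ hq => exact Or.inr (Or.inl ⟨f, j, hq, rfl⟩)
  | wt q _ _ hq hm => exact Or.inr (Or.inr (Or.inl ⟨q, hq, hm, rfl⟩))
  | ta θ _ _ h => exact Or.inr (Or.inr (Or.inr ⟨θ, h, rfl⟩))

/-- the neighbours of a core vertex of side `A` -/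
theorem Ad_core {y : Cr} (h : Ad X (cr e y) x) (hy : y ≠ w) :
    (∃ y', x = cr e y') ∨ x = z e ∨ Lock X e x := by
  cases h with
  | up => exact Or.inl ⟨_, rfl⟩
  | uT => exact Or.inl ⟨_, rfl⟩
  | uz => exact Or.inr (Or.inl rfl)
  | ut _ _ β => exact Or.inr (Or.inr (Or.inl ⟨β, rfl⟩))
  | ug _ _ q β hq => exact Or.inr (Or.inr (Or.inr ⟨q, β, hq, rfl⟩))
  | wp => exact absurd rfl hy
  | wz => exact absurd rfl hy
  | wt => exact absurd rfl hy
  | OT => exact Or.inl ⟨_, rfl⟩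
  | OL => exact Or.inl ⟨_, rfl⟩

end inv

/-! ### consequences of `Zst` -/

section Z
variable {c M : Γ} {b : Bool} {k : Fin 5}

theorem mgc (hZ : Zst X S c M b k) : X.mg c = false := mg_of_par hZ.mgM hZ.parM

theorem cM (hZ : Zst X S c M b k) : c ≠ M := by
  rintro rfl
  have := mgc hZ
  rw [hZ.mgM] at this
  cases this

theorem wc (hZ : Zst X S c M b k) : cr c w ∉ S := hZ.rkc.1

theorem not_fresh_c (hZ : Zst X S c M b k) : ¬ Fresh X S c := fun h => wc hZ h.1.2.2.1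

/-- the parent of `c` is done -/
theorem par_dn (hZ : Zst X S c M b k) {q : Γ} (hq : X.par c = some q) : Dn S q := by
  have h1 := X.rk_lt c q hq
  have h2 := X.rk_lt M c hZ.parM
  have hqc : q ≠ c := by rintro rfl; omega
  have hqM : q ≠ M := by rintro rfl; omega
  rcases hZ.oth q hqc hqM with h | h
  · exact h
  · exact absurd (hZ.chf q c hqM hqc h hq) (not_fresh_c hZ)

/-- the handover for special positions -/
theorem zclosed (hZ : Zst X S c M b k) {S2 : Finset (Vx Γ Θ)} (hsub : S2 ⊆ S) (a b' : Vx Γ Θ)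
    (hmiss : ∀ x ∈ S, x ∉ S2 → (∃ y, x = cr c y) ∨ (∃ y, x = cr M y) ∨ Lock X c x ∨
      Lock X M x ∨ x = a ∨ x = b')
    (hw : cr M w ∉ S2) (hc : okc X S2 c) (hm : okm X S2 M)
    (hpc : cr c Om ∈ S2 → cr c OmL ∈ S2) (hpM : cr M Om ∈ S2 → cr M OmL ∈ S2)
    (hab : (∃ y y', a = cr M y ∧ b' = cr M y') ∨
      (Ad X a b' ∧ a ∈ S ∧ a ∉ S2 ∧ (∀ y, a ≠ cr c y) ∧ ∀ y, a ≠ cr M y) ∨
      (∃ f, X.par f = some M ∧ a = cr M w ∧ b' = z f ∧ Dn S2 M ∧ 1 ≤ tau S2 M)) :
    Inv X S2 := by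
  have hrk := X.rk_lt M c hZ.parM
  refine handover X S (fun e => e = c ∨ e = M) ?_ ⟨c, Or.inl rfl⟩ ?_ ?_ ?_ ?_ hZ.tt hZ.zz hZ.omL
    hZ.tl S2 hsub a b' ?_ ?_ ?_ ?_ ?_ ?_
  · intro e he
    rw [not_or] at he
    exact hZ.oth e he.1 he.2
  · intro e f he h1 h2
    rw [not_or] at he
    exact hZ.chf e f he.2 he.1 h1 h2
  · intro e q he hP hq _ hD
    rw [not_or] at hP
    exact hZ.mgf e q he hP.2 hq hD
  · intro q
    by_cases hqc : q = c
    · subst hqc
      refine ⟨M, ?_⟩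
      rintro e he (rfl | rfl)
      · exfalso
        have := X.rk_lt _ _ he
        omega
      · rfl
    · refine ⟨c, ?_⟩
      rintro e he (rfl | rfl)
      · rfl
      · rw [hZ.parM] at he
        cases he
        exact absurd rfl hqc
  · rintro e q (rfl | rfl) hq hP
    · exact par_dn hZ hq
    · exfalso
      rw [hZ.parM] at hq
      cases hq
      exact hP (Or.inl rfl)
  · intro x hx hx2
    rcases hmiss x hx hx2 with ⟨y, h⟩ | ⟨y, h⟩ | h | h | h
    · exact Or.inl ⟨c, y, Or.inl rfl, h⟩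
    · exact Or.inl ⟨M, y, Or.inr rfl, h⟩
    · exact Or.inr (Or.inl ⟨c, Or.inl rfl, h⟩)
    · exact Or.inr (Or.inl ⟨M, Or.inr rfl, h⟩)
    · exact Or.inr (Or.inr h)
  · rintro e (rfl | rfl)
    · exact fun h => wc hZ (hsub h)
    · exact hw
  · rintro e (rfl | rfl) he
    · exact hc
    · rw [hZ.mgM] at he; cases he
  · rintro e (rfl | rfl) he
    · rw [mgc hZ] at he; cases he
    · exact hm
  · rintro e (rfl | rfl)
    · exact hpc
    · exact hpM
  · rcases hab with ⟨y, y', h1, h2⟩ | ⟨h1, h2, h3, h4, h5⟩ | ⟨f, h1, h2, h3, h4, h5⟩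
    · exact Or.inl ⟨M, y, y', Or.inr rfl, h1, h2⟩
    · refine Or.inr (Or.inl ⟨h1, h2, h3, ?_, ?_⟩)
      · rintro e y (rfl | rfl)
        · exact h4 y
        · exact h5 y
      · intro θ M' β _ _ hmg hP c' hc' hPc'
        rcases hPc' with rfl | rfl
        · exact hP (Or.inr (X.mg_only M c' M' hZ.mgM hZ.parM hc'))
        · have := mg_of_par hmg hc'
          rw [hZ.mgM] at this
          cases this
    · refine Or.inr (Or.inr ⟨M, f, Or.inr rfl, h1, ?_, h2, Or.inl h3, h4, h5⟩)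
      rintro f' hf' (rfl | rfl)
      · have := X.rk_lt _ _ hf'
        omega
      · have := X.rk_lt _ _ hf'
        omega

/-- a reply to a position of even total -/
theorem two_moves {a b' a2 b2 : Vx Γ Θ} (heven : Even (cA S)) (hab : Ad X a b') (ha : a ∈ S)
    (hb : b' ∈ S) (h2 : Ad X a2 b2) (ha2 : a2 ∈ del S a b') (hb2 : b2 ∈ del S a b') :
    Even (cA (del (del S a b') a2 b2)) ∧ (del (del S a b') a2 b2).card < S.card := by
  have h3 := cA_del hab ha hb
  have h4 := cA_del h2 ha2 hb2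
  have h5 := card_del hab ha hb
  have h6 := card_del h2 ha2 hb2
  constructor
  · rw [← h3, ← h4] at heven
    have : Even (cA (del (del S a b') a2 b2) + 2) := heven
    rw [Nat.even_add] at this
    exact this.2 (by decide)
  · omega

theorem reply_inv {a b' a2 b2 : Vx Γ Θ} (heven : Even (cA S)) (hab : Ad X a b') (ha : a ∈ S)
    (hb : b' ∈ S) (h2 : Ad X a2 b2) (ha2 : a2 ∈ del S a b') (hb2 : b2 ∈ del S a b')
    (hI : Inv X (del (del S a b') a2 b2)) : Wins (gr X) (del S a b') := by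
  rw [wins_iff_Ad]
  refine ⟨a2, b2, ha2, hb2, h2, ?_⟩
  rw [closed_wins X _ hI, Nat.not_odd_iff_even]
  exact (two_moves heven hab ha hb h2 ha2 hb2).1

theorem mem_del2 {a b' a2 b2 x : Vx Γ Θ} :
    x ∈ del (del S a b') a2 b2 ↔ x ≠ b2 ∧ x ≠ a2 ∧ x ≠ b' ∧ x ≠ a ∧ x ∈ S := by
  rw [mem_del, mem_del]

theorem tau_pos {c : Γ} {β : Bool} (h : t c β ∈ S) : 1 ≤ tau S c := by
  unfold tau n1
  cases β
  · rw [if_pos h]; omega
  · rw [if_pos h]; omega

theorem exc_pos {c : Γ} {β : Bool} (h : t c β ∈ S) : 1 ≤ exc X S c := by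
  have := tau_pos h
  unfold exc
  omega

theorem exm_pos {c : Γ} {β : Bool} (h : t c β ∈ S) : 1 ≤ exm X S c := by
  have := tau_pos h
  unfold exm
  omega

theorem exm_pos' {c M : Γ} (hp : X.par M = some c) (hD : Dn S c) (h : t c false ∈ S) :
    1 ≤ exm X S M := by
  have hQ : Qp X S M := by
    refine ⟨c, hp, Or.inl ⟨?_, ?_⟩⟩
    · intro h
      exact hD.1 (Finset.mem_of_mem_erase h)
    · intro j hj
      exact Finset.mem_erase.2 ⟨by simp, hD.2 j (Finset.mem_of_mem_erase hj)⟩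
  unfold exm
  rw [if_pos hQ]
  have : gam X S M = tau S c := by unfold gam; rw [hp]
  rw [this]
  have := tau_pos h
  omega

/-- index of the triple of a vertex -/
def idx : Vx Γ Θ → Fin 5
  | cr _ (u l) => l
  | cr _ (p l) => l
  | cr _ (T l) => l
  | _ => 0

theorem exists_third (l0 l1 : Fin 5) : ∃ l : Fin 5, 2 ≤ l.1 ∧ l ≠ l0 ∧ l ≠ l1 := by
  revert l0 l1; decide

/-- the standard reply: neutralise `M` -/
theorem neutralise (hZ : Zst X S c M b k) (heven : Even (cA S)) {a b' : Vx Γ Θ}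
    (hab : Ad X a b') (ha : a ∈ S) (hb : b' ∈ S)
    (h1 : b' ≠ t c false ∨ a = cr c (u k)) (h2 : b' ≠ t M (!b)) (h3 : a ≠ cr M w)
    (h4 : b' ≠ cr c (T k) ∨ a = cr c (u k)) : Wins (gr X) (del S a b') := by
  obtain ⟨hA, hB⟩ := Ad_isA hab
  obtain ⟨l, hl2, hla, hlb⟩ := exists_third (idx a) (idx b')
  have hbA : ∀ x : Vx Γ Θ, isA x = true → x ≠ b' := by
    rintro x hx rfl; rw [hx] at hB; cases hB
  have haB : ∀ x : Vx Γ Θ, isA x = false → x ≠ a := by
    rintro x hx rfl; rw [hx] at hA; cases hA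
  have hw1 : cr M w ∈ del S a b' := by
    rw [mem_del]
    exact ⟨hbA _ rfl, h3.symm, hZ.cur.2.2.1⟩
  have hp1 : cr M (p l) ∈ del S a b' := by
    rw [mem_del]
    refine ⟨?_, haB _ rfl, (hZ.cur.1 l).2⟩
    rintro rfl
    exact hlb rfl
  refine reply_inv heven hab ha hb (Ad.wp M l) hw1 hp1 ?_
  set S2 := del (del S a b') (cr M w) (cr M (p l)) with hS2
  have mem2 : ∀ x, x ∈ S2 ↔ x ≠ cr M (p l) ∧ x ≠ cr M w ∧ x ≠ b' ∧ x ≠ a ∧ x ∈ S := by
    intro x; rw [hS2, mem_del2]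
  have hcM := cM hZ
  have hsub : S2 ⊆ S := fun x hx => ((mem2 x).1 hx).2.2.2.2
  have hokc : okc X S2 c := by
    by_cases hav : a = cr c (u k)
    · left
      refine ⟨fun h => wc hZ (hsub h), ?_⟩
      intro j hj
      rw [mem2] at hj
      have hjk : j ≠ k := by rintro rfl; exact hj.2.2.2.1 hav.symm
      rw [mem2]
      refine ⟨by simp [hcM], by simp, ?_, haB _ rfl, hZ.rkc.2.2.2 j hjk hj.2.2.2.2⟩
      rintro rfl
      rcases Ad_p hab with h | h
      · exact hj.2.2.2.1 h.symm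
      · rw [hav] at h
        cases h
    · right; right
      refine ⟨k, ⟨fun h => wc hZ (hsub h), ?_, ?_, ?_⟩, Or.inr ⟨?_, Or.inl ?_⟩⟩
      · rw [mem2]
        exact ⟨by simp, by simp, hbA _ rfl, fun h => hav h.symm, hZ.rkc.2.1⟩
      · exact fun h => hZ.rkc.2.2.1 (hsub h)
      · intro j hjk hj
        rw [mem2] at hj ⊢
        refine ⟨by simp [hcM], by simp, ?_, haB _ rfl, hZ.rkc.2.2.2 j hjk hj.2.2.2.2⟩
        rintro rfl
        rcases Ad_p hab with h | h
        · exact hj.2.2.2.1 h.symm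
        · rw [h] at ha
          exact wc hZ ha
      · rw [mem2]
        exact ⟨by simp, by simp, (h4.resolve_right hav).symm, haB _ rfl, hZ.Tk⟩
      · apply exc_pos (β := false)
        rw [mem2]
        exact ⟨by simp, by simp, (h1.resolve_right hav).symm, haB _ rfl, hZ.tc⟩
  have hokm : okm X S2 M := by
    right; right
    refine ⟨l, ⟨?_, ?_, ?_, ?_⟩, Or.inr ⟨?_, Or.inl ?_⟩⟩
    · intro h; exact ((mem2 _).1 h).2.1 rfl
    · rw [mem2]
      refine ⟨by simp, by simp, hbA _ rfl, ?_, (hZ.cur.1 l).1⟩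
      rintro rfl
      exact hla rfl
    · intro h; exact ((mem2 _).1 h).1 rfl
    · intro j hjl hj
      rw [mem2] at hj ⊢
      refine ⟨by simp [hjl], by simp, ?_, haB _ rfl, (hZ.cur.1 j).2⟩
      rintro rfl
      rcases Ad_p hab with h | h
      · exact hj.2.2.2.1 h.symm
      · exact h3 h
    · rw [mem2]
      refine ⟨by simp, by simp, ?_, haB _ rfl, hZ.cur.2.1 l hl2⟩
      rintro rfl
      exact hlb rfl
    · apply exm_pos (β := !b)
      rw [mem2]
      exact ⟨by simp, by simp, h2.symm, haB _ rfl, hZ.tM'⟩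
  have hOm : ∀ e, cr e Om ∈ S2 → cr e OmL ∈ S2 := by
    intro e he
    rw [mem2] at he ⊢
    refine ⟨by simp, by simp, ?_, haB _ rfl, hZ.omL e he.2.2.2.2⟩
    rintro rfl
    exact he.2.2.2.1 (Ad_OmL hab).symm
  by_cases hcore : (∃ y, a = cr c y) ∨ ∃ y, a = cr M y
  · refine zclosed hZ hsub (cr M w) (cr M w) ?_ ?_ hokc hokm (hOm c) (hOm M)
      (Or.inl ⟨_, _, rfl, rfl⟩)
    · intro x hx hx2
      by_cases hx3 : x = cr M (p l)
      · exact Or.inr (Or.inl ⟨_, hx3⟩)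
      by_cases hx4 : x = cr M w
      · exact Or.inr (Or.inl ⟨_, hx4⟩)
      by_cases hx5 : x = a
      · rcases hcore with ⟨y, hy⟩ | ⟨y, hy⟩
        · exact Or.inl ⟨y, hx5.trans hy⟩
        · exact Or.inr (Or.inl ⟨y, hx5.trans hy⟩)
      by_cases hx6 : x = b'
      · rcases hcore with ⟨y, hy⟩ | ⟨y, hy⟩
        · rw [hy] at hab
          have hyw : y ≠ w := by
            rintro rfl
            rw [hy] at ha
            exact wc hZ ha
          rcases Ad_core hab hyw with ⟨y', h⟩ | h | h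
          · exact Or.inl ⟨y', hx6.trans h⟩
          · rw [hx6, h] at hx
            exact absurd hx hZ.zc
          · rw [hx6]; exact Or.inr (Or.inr (Or.inl h))
        · rw [hy] at hab
          have hyw : y ≠ w := by
            rintro rfl
            exact h3 hy
          rcases Ad_core hab hyw with ⟨y', h⟩ | h | h
          · exact Or.inr (Or.inl ⟨y', hx6.trans h⟩)
          · rw [hx6, h] at hx
            exact absurd hx (hZ.zz M (Or.inl hZ.mgM))
          · rw [hx6]; exact Or.inr (Or.inr (Or.inr (Or.inl h)))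
      exact absurd ((mem2 x).2 ⟨hx3, hx4, hx6, hx5, hx⟩) hx2
    · intro h; exact ((mem2 _).1 h).2.1 rfl
  · rw [not_or] at hcore
    refine zclosed hZ hsub a b' ?_ ?_ hokc hokm (hOm c) (hOm M)
      (Or.inr (Or.inl ⟨hab, ha, ?_, fun y hy => hcore.1 ⟨y, hy⟩, fun y hy => hcore.2 ⟨y, hy⟩⟩))
    · intro x hx hx2
      by_cases hx3 : x = cr M (p l)
      · exact Or.inr (Or.inl ⟨_, hx3⟩)
      by_cases hx4 : x = cr M w
      · exact Or.inr (Or.inl ⟨_, hx4⟩)
      by_cases hx5 : x = a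
      · exact Or.inr (Or.inr (Or.inr (Or.inr (Or.inl hx5))))
      by_cases hx6 : x = b'
      · exact Or.inr (Or.inr (Or.inr (Or.inr (Or.inr hx6))))
      exact absurd ((mem2 x).2 ⟨hx3, hx4, hx6, hx5, hx⟩) hx2
    · intro h; exact ((mem2 _).1 h).2.1 rfl
    · intro h; exact ((mem2 _).1 h).2.2.2.1 rfl

/-- closed positions in which `w` of `M` is still there -/
theorem zraise (hZ : Zst X S c M b k) {S2 : Finset (Vx Γ Θ)} (hsub : S2 ⊆ S) (a b' : Vx Γ Θ)
    (hmiss : ∀ x ∈ S, x ∉ S2 → (∃ y, x = cr c y) ∨ (∃ y, x = cr M y) ∨ Lock X c x ∨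
      Lock X M x ∨ x = a ∨ x = b')
    (hDc : Dn S2 c) {l : Fin 5} (hl : Fl S2 M l) (hNR : NR S2 M)
    (hlock : t M (!b) ∈ S2 ∨ t c false ∈ S2) (hm : okm X S2 M)
    (hf : ∀ f, X.par f = some M → okc X S2 f)
    (hpc : cr c Om ∈ S2 → cr c OmL ∈ S2) (hpM : cr M Om ∈ S2 → cr M OmL ∈ S2)
    (hab : (∃ y y', a = cr M y ∧ b' = cr M y') ∨
      (Ad X a b' ∧ a ∈ S ∧ a ∉ S2 ∧ (∀ y, a ≠ cr c y) ∧ ∀ y, a ≠ cr M y)) :
    Inv X S2 := by
  have hcM := cM hZ
  set S' := del S2 (cr M w) (cr M (p l)) with hS'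
  have mem' : ∀ x, x ∈ S' ↔ x ≠ cr M (p l) ∧ x ≠ cr M w ∧ x ∈ S2 := by
    intro x; rw [hS', mem_del]
  have hDc' : Dn S' c := by
    refine ⟨fun h => hDc.1 ((mem' _).1 h).2.2, ?_⟩
    intro j hj
    rw [mem'] at hj ⊢
    exact ⟨by simp [hcM], by simp, hDc.2 j hj.2.2⟩
  have hI : Inv X S' := by
    refine zclosed hZ (fun x hx => hsub ((mem' x).1 hx).2.2) a b' ?_ ?_ (Or.inl hDc') ?_ ?_ ?_ ?_
    · intro x hx hx2
      by_cases hx3 : x = cr M (p l)
      · exact Or.inr (Or.inl ⟨_, hx3⟩)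
      by_cases hx4 : x = cr M w
      · exact Or.inr (Or.inl ⟨_, hx4⟩)
      exact hmiss x hx (fun h => hx2 ((mem' x).2 ⟨hx3, hx4, h⟩))
    · intro h; exact ((mem' _).1 h).2.1 rfl
    · right; right
      refine ⟨l, ⟨?_, ?_, ?_, ?_⟩, Or.inr ⟨?_, Or.inl ?_⟩⟩
      · intro h; exact ((mem' _).1 h).2.1 rfl
      · rw [mem']
        exact ⟨by simp, by simp, hl.1⟩
      · intro h; exact ((mem' _).1 h).1 rfl
      · intro j hjl hj
        rw [mem'] at hj ⊢
        exact ⟨by simp [hjl], by simp, hNR j hj.2.2⟩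
      · rw [mem']
        exact ⟨by simp, by simp, hl.2.2⟩
      · rcases hlock with h | h
        · apply exm_pos (β := !b)
          rw [mem']
          exact ⟨by simp, by simp, h⟩
        · apply exm_pos' hZ.parM hDc'
          rw [mem']
          exact ⟨by simp, by simp, h⟩
    · intro h
      rw [mem'] at h ⊢
      exact ⟨by simp, by simp, hpc h.2.2⟩
    · intro h
      rw [mem'] at h ⊢
      exact ⟨by simp, by simp, hpM h.2.2⟩
    · rcases hab with h | ⟨h1, h2, h3, h4, h5⟩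
      · exact Or.inl h
      · exact Or.inr (Or.inl ⟨h1, h2, fun h => h3 ((mem' _).1 h).2.2, h4, h5⟩)
  refine inv_raise hZ.mgM ?_ hI hm hf hpM
  intro x hx
  rw [mem']
  exact ⟨fun h => ⟨hx _, hx _, h⟩, fun h => h.2.2⟩

/-- positions after which `M` is open -/
theorem zopen (hZ : Zst X S c M b k) {S2 : Finset (Vx Γ Θ)} (hsub : S2 ⊆ S)
    (hmiss : ∀ x ∈ S, x ∉ S2 → (∃ y, x = cr c y) ∨ x = t c false ∨ x = t M (!b) ∨
      ∃ θ, x = tok θ)
    (hD : Dn S2 c) (hpc : cr c Om ∈ S2 → cr c OmL ∈ S2) {ℓ : Vx Γ Θ} (hℓ : ℓ ∈ S2)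
    (hlk : Lock X M ℓ) (hL : ∀ x, Lock X M x → x ∈ S2 → x = ℓ) : Open X S2 M ℓ := by
  have hcM := cM hZ
  have hrk := X.rk_lt M c hZ.parM
  have hcore : ∀ {e : Γ}, e ≠ c → ∀ y, cr e y ∈ S2 ↔ cr e y ∈ S := by
    intro e he y
    refine ⟨fun h => hsub h, fun h => ?_⟩
    by_contra hno
    rcases hmiss _ h hno with ⟨y', h1⟩ | h1 | h1 | ⟨θ, h1⟩
    · injection h1 with h2 h3; exact he h2
    · cases h1
    · cases h1
    · cases h1
  have hzz : ∀ e : Γ, z e ∈ S2 ↔ z e ∈ S := by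
    intro e
    refine ⟨fun h => hsub h, fun h => ?_⟩
    by_contra hno
    rcases hmiss _ h hno with ⟨y', h1⟩ | h1 | h1 | ⟨θ, h1⟩ <;> cases h1
  have htt : ∀ {e : Γ}, e ≠ c → e ≠ M → ∀ β, t e β ∈ S2 ↔ t e β ∈ S := by
    intro e hec heM β
    refine ⟨fun h => hsub h, fun h => ?_⟩
    by_contra hno
    rcases hmiss _ h hno with ⟨y', h1⟩ | h1 | h1 | ⟨θ, h1⟩
    · cases h1
    · injection h1 with h2 h3; exact hec h2
    · injection h1 with h2 h3; exact heM h2
    · cases h1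
  have htl : ∀ θ, tl θ ∈ S2 ↔ tl θ ∈ S := by
    intro θ
    refine ⟨fun h => hsub h, fun h => ?_⟩
    by_contra hno
    rcases hmiss _ h hno with ⟨y', h1⟩ | h1 | h1 | ⟨θ, h1⟩ <;> cases h1
  have hDn : ∀ {e : Γ}, e ≠ c → (Dn S2 e ↔ Dn S e) := by
    intro e he
    simp only [Dn, Wa, NR, hcore he]
  have hFr : ∀ {e : Γ}, e ≠ c → e ≠ M → (Fresh X S2 e ↔ Fresh X S e) := by
    intro e he heM
    simp only [Fresh, Intact, hcore he, hzz, htt he heM]
  have hnc2 : ¬ Fresh X S2 c := fun h => hD.1 h.1.2.2.1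
  refine { cur := ?_, zc := ?_, oth := ?_, ch := ?_, chf := ?_, anc := ?_, mgf := ?_, tt := ?_,
           zz := ?_, omL := ?_, tl := ?_, T01 := ?_, lock := hlk, own := ?_, mem := hℓ,
           only := hL }
  · have h := hZ.cur
    simpa only [Intact, hcore hcM.symm] using h
  · exact fun h => hZ.zz M (Or.inl hZ.mgM) (hsub h)
  · intro e heM
    by_cases hec : e = c
    · subst hec; exact Or.inl hD
    · rw [hDn hec, hFr hec heM]
      exact hZ.oth e hec heM
  · intro e he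
    have := X.rk_lt e M he
    have heM : e ≠ M := by rintro rfl; omega
    have hec : e ≠ c := by rintro rfl; omega
    rw [hFr hec heM]
    exact hZ.ch e he
  · intro e f heM hFe hf
    have hec : e ≠ c := by rintro rfl; exact hnc2 hFe
    rw [hFr hec heM] at hFe
    have h1 := hZ.chf e f heM hec hFe hf
    have hfc : f ≠ c := by rintro rfl; exact not_fresh_c hZ h1
    have hfM : f ≠ M := by
      rintro rfl
      rw [hZ.parM] at hf
      cases hf
      exact hec rfl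
    rw [hFr hfc hfM]
    exact h1
  · intro q hq
    rw [hZ.parM] at hq
    cases hq
    exact hD
  · intro e q he heM hq hDq hFe
    have hqc : q ≠ c := by
      rintro rfl
      exact heM (X.mg_only M q e hZ.mgM hZ.parM hq)
    have hec : e ≠ c := by rintro rfl; exact hnc2 hFe
    rw [hFr hec heM] at hFe
    rw [hDn hqc] at hDq
    exact hZ.mgf e q he heM hq hDq hFe
  · intro e he h
    exact hZ.tt e he (hsub h)
  · intro e he h
    exact hZ.zz e he (hsub h)
  · intro e he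
    by_cases hec : e = c
    · subst hec; exact hpc he
    · rw [hcore hec] at he ⊢
      exact hZ.omL e he
  · intro θ hθ
    rw [htl]
    exact hZ.tl θ (hsub hθ)
  · intro e j hj h
    exact hZ.T01 e j hj (hsub h)
  · intro h
    rw [hZ.mgM] at h
    cases h

theorem DnC (hZ : Zst X S c M b k) {a b' b2 : Vx Γ Θ} (haA : isA a = true)
    (hbp : ∀ j, b' ≠ cr c (p j)) (h2p : ∀ j, b2 ≠ cr c (p j)) :
    Dn (del (del S a b') (cr c (u k)) b2) c := by
  constructor
  · intro h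
    exact wc hZ (mem_del2.1 h).2.2.2.2
  · intro j hj
    rw [mem_del2] at hj ⊢
    have hjk : j ≠ k := by rintro rfl; exact hj.2.1 rfl
    refine ⟨(h2p j).symm, by simp, (hbp j).symm, ?_, hZ.rkc.2.2.2 j hjk hj.2.2.2.2⟩
    rintro rfl
    cases haA

theorem toks_mono {S2 : Finset (Vx Γ Θ)} (h : S2 ⊆ S) : toks S2 ⊆ toks S := fun _ hθ => h hθ

/-- the reply with `v`, after which `M` is open with its own trigger vertex -/
theorem reply_openY (hZ : Zst X S c M b k) (heven : Even (cA S))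
    {W : Γ → Vx Γ Θ → Set Θ → Prop} (hW : EStrat X W)
    (hv1 : W M (t M (!b)) (toks S))
    (ih : ∀ (S' : Finset (Vx Γ Θ)) (c' : Γ) (ℓ : Vx Γ Θ), S'.card < S.card → Open X S' c' ℓ →
      W c' ℓ (toks S') → Even (cA S') → ¬ Wins (gr X) S')
    {a b' b2 : Vx Γ Θ} (hab : Ad X a b') (ha : a ∈ S) (hb : b' ∈ S)
    (h2 : Ad X (cr c (u k)) b2) (hva : cr c (u k) ∈ del S a b') (hb2 : b2 ∈ del S a b')
    (hor : (b' = t c false ∧ b2 = cr c (T k)) ∨ (b' = cr c (T k) ∧ b2 = t c false))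
    (hacase : (∃ y, a = cr c y) ∨ ∃ θ, a = tok θ) : Wins (gr X) (del S a b') := by
  obtain ⟨hA, hB⟩ := Ad_isA hab
  have hcM := cM hZ
  rw [wins_iff_Ad]
  refine ⟨cr c (u k), b2, hva, hb2, h2, ?_⟩
  obtain ⟨hev, hcard⟩ := two_moves heven hab ha hb h2 hva hb2
  have hsub : del (del S a b') (cr c (u k)) b2 ⊆ S := fun x hx => (mem_del2.1 hx).2.2.2.2
  have hOm : cr c Om ∈ del (del S a b') (cr c (u k)) b2 →
      cr c OmL ∈ del (del S a b') (cr c (u k)) b2 := by
    intro h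
    rw [mem_del2] at h ⊢
    refine ⟨?_, by simp, ?_, ?_, hZ.omL c h.2.2.2.2⟩
    · rcases hor with ⟨_, h⟩ | ⟨_, h⟩ <;> simp [h]
    · rcases hor with ⟨h, _⟩ | ⟨h, _⟩ <;> simp [h]
    · rintro rfl; cases hA
  refine ih _ M (t M (!b)) hcard (zopen hZ hsub ?_ ?_ hOm ?_ ?_ ?_) (hW.mono _ _ _ _ hv1 (toks_mono hsub)) hev
  · intro x hx hx2
    by_cases hx3 : x = b2
    · rcases hor with ⟨_, h⟩ | ⟨_, h⟩
      · exact Or.inl ⟨_, hx3.trans h⟩
      · exact Or.inr (Or.inl (hx3.trans h))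
    by_cases hx4 : x = cr c (u k)
    · exact Or.inl ⟨_, hx4⟩
    by_cases hx5 : x = b'
    · rcases hor with ⟨h, _⟩ | ⟨h, _⟩
      · exact Or.inr (Or.inl (hx5.trans h))
      · exact Or.inl ⟨_, hx5.trans h⟩
    by_cases hx6 : x = a
    · rcases hacase with ⟨y, h⟩ | ⟨θ, h⟩
      · exact Or.inl ⟨y, hx6.trans h⟩
      · exact Or.inr (Or.inr (Or.inr ⟨θ, hx6.trans h⟩))
    exact absurd (mem_del2.2 ⟨hx3, hx4, hx5, hx6, hx⟩) hx2
  · apply DnC hZ hA
    · intro j; rcases hor with ⟨h, _⟩ | ⟨h, _⟩ <;> simp [h]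
    · intro j; rcases hor with ⟨_, h⟩ | ⟨_, h⟩ <;> simp [h]
  · rw [mem_del2]
    refine ⟨?_, by simp, ?_, ?_, hZ.tM'⟩
    · rcases hor with ⟨_, h⟩ | ⟨_, h⟩ <;> simp [h, hcM.symm]
    · rcases hor with ⟨h, _⟩ | ⟨h, _⟩ <;> simp [h, hcM.symm]
    · rcases hacase with ⟨y, h⟩ | ⟨θ, h⟩ <;> simp [h]
  · exact Or.inl ⟨_, rfl⟩
  · rintro x (⟨β, rfl⟩ | ⟨q, β, hq, rfl⟩) hx
    · by_cases hβ : β = b
      · subst hβ
        exact absurd (hsub hx) hZ.tM
      · have : β = !b := by cases β <;> cases b <;> simp_all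
        rw [this]
    · exfalso
      rw [hZ.parM] at hq
      cases hq
      cases β
      · rw [mem_del2] at hx
        rcases hor with ⟨h, _⟩ | ⟨_, h⟩
        · exact hx.2.2.1 h.symm
        · exact hx.1 h.symm
      · exact hZ.tt c (mgc hZ) (hsub hx)

/-- an untouched child of `M` is safe -/
theorem okc_child {f : Γ} (hF : Fresh X S f) (hmg : X.mg f = false) (hp : X.par f = some M) :
    okc X S f := by
  obtain ⟨⟨h1, h2, h3, h4, h5⟩, h6, h7, h8⟩ := hF
  right; left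
  refine ⟨h3, fun j _ => (h1 j).2, Or.inr ⟨⟨2, 3, by decide, ⟨(h1 2).1, (h1 2).2, h2 2 (by decide)⟩,
    ⟨(h1 3).1, (h1 3).2, h2 3 (by decide)⟩⟩, Or.inl ⟨h8 hmg (by rw [hp]; simp), Or.inr ?_⟩⟩⟩
  have := tau_pos h6
  omega

/-- a child of a merge gadget is ordinary -/
theorem mg_child_ord {f M : Γ} (hM : X.mg M = true) (hp : X.par f = some M) : X.mg f = false := by
  by_contra h
  rw [Bool.not_eq_false] at h
  have := mg_of_par h hp
  rw [hM] at this
  cases this

/-- the reply with `v` and `T` after an attack on a lock by `M` -/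
theorem reply_uM (hZ : Zst X S c M b k) (heven : Even (cA S)) {j : Fin 5} {b' : Vx Γ Θ}
    (hab : Ad X (cr M (u j)) b') (ha : cr M (u j) ∈ S) (hb : b' ∈ S)
    (hor : b' = t c false ∨ b' = t M (!b)) : Wins (gr X) (del S (cr M (u j)) b') := by
  have hcM := cM hZ
  obtain ⟨l, hl2, hlj, -⟩ := exists_third j j
  have hrk := X.rk_lt M c hZ.parM
  have hva : cr c (u k) ∈ del S (cr M (u j)) b' := by
    rw [mem_del]
    refine ⟨?_, by simp [hcM], hZ.rkc.2.1⟩
    rcases hor with h | h <;> simp [h]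
  have hb2 : cr c (T k) ∈ del S (cr M (u j)) b' := by
    rw [mem_del]
    refine ⟨?_, by simp, hZ.Tk⟩
    rcases hor with h | h <;> simp [h]
  refine reply_inv heven hab ha hb (Ad.uT c k) hva hb2 ?_
  set S2 := del (del S (cr M (u j)) b') (cr c (u k)) (cr c (T k)) with hS2
  have mem2 : ∀ x, x ∈ S2 ↔ x ≠ cr c (T k) ∧ x ≠ cr c (u k) ∧ x ≠ b' ∧ x ≠ cr M (u j) ∧ x ∈ S := by
    intro x; rw [hS2, mem_del2]
  have hsub : S2 ⊆ S := fun x hx => ((mem2 x).1 hx).2.2.2.2
  have hDc : Dn S2 c := by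
    apply DnC hZ rfl
    · intro i; rcases hor with h | h <;> simp [h]
    · intro i; simp
  have hcoreM : ∀ y, cr M y ∈ S → y ≠ u j → cr M y ∈ S2 := by
    intro y hy hyj
    rw [mem2]
    refine ⟨by simp [hcM.symm], by simp [hcM.symm], ?_, by simpa using hyj, hy⟩
    rcases hor with h | h <;> simp [h]
  have hNR : NR S2 M := fun i _ => hcoreM _ (hZ.cur.1 i).2 (by simp)
  have hlock : t M (!b) ∈ S2 ∨ t c false ∈ S2 := by
    rcases hor with h | h
    · left
      rw [mem2]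
      exact ⟨by simp, by simp, by simp [h, hcM.symm], by simp, hZ.tM'⟩
    · right
      rw [mem2]
      exact ⟨by simp, by simp, by simp [h, hcM], by simp, hZ.tc⟩
  have hexm : 1 ≤ exm X S2 M := by
    rcases hlock with h | h
    · exact exm_pos h
    · exact exm_pos' hZ.parM hDc h
  refine zraise hZ hsub (cr M w) (cr M w) ?_ hDc (l := l) ?_ hNR hlock ?_ ?_ ?_ ?_
    (Or.inl ⟨_, _, rfl, rfl⟩)
  · intro x hx hx2
    by_cases hx3 : x = cr c (T k)
    · exact Or.inl ⟨_, hx3⟩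
    by_cases hx4 : x = cr c (u k)
    · exact Or.inl ⟨_, hx4⟩
    by_cases hx5 : x = b'
    · rcases hor with h | h
      · exact Or.inr (Or.inr (Or.inl (Or.inl ⟨_, hx5.trans h⟩)))
      · exact Or.inr (Or.inr (Or.inr (Or.inl (Or.inl ⟨_, hx5.trans h⟩))))
    by_cases hx6 : x = cr M (u j)
    · exact Or.inr (Or.inl ⟨_, hx6⟩)
    exact absurd ((mem2 x).2 ⟨hx3, hx4, hx5, hx6, hx⟩) hx2
  · exact ⟨hcoreM _ (hZ.cur.1 l).1 (by simp [hlj]), hcoreM _ (hZ.cur.1 l).2 (by simp),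
      hcoreM _ (hZ.cur.2.1 l hl2) (by simp)⟩
  · right; left
    refine ⟨hcoreM _ hZ.cur.2.2.1 (by simp), hNR, Or.inl ⟨⟨j, ?_, ?_⟩, hexm⟩⟩
    · intro h; exact ((mem2 _).1 h).2.2.2.1 rfl
    · exact hcoreM _ (hZ.cur.1 j).2 (by simp)
  · intro f hf
    have hrf := X.rk_lt f M hf
    have hfM : f ≠ M := by rintro rfl; omega
    have hfc : f ≠ c := by rintro rfl; omega
    have hFr := hZ.ch f hf
    have hkeep : ∀ x ∈ S, (∀ y, x ≠ cr c y) → (∀ y, x ≠ cr M y) → (∀ β, x ≠ t c β) →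
        (∀ β, x ≠ t M β) → x ∈ S2 := by
      intro x hx h1 h2 h3 h4
      rw [mem2]
      refine ⟨h1 _, h1 _, ?_, h2 _, hx⟩
      rcases hor with h | h
      · rw [h]; exact h3 _
      · rw [h]; exact h4 _
    refine okc_child ⟨⟨?_, ?_, ?_, ?_, ?_⟩, ?_, ?_, ?_⟩ (mg_child_ord hZ.mgM hf) hf
    · intro i
      exact ⟨hkeep _ (hFr.1.1 i).1 (by simp [hfc]) (by simp [hfM]) (by simp) (by simp),
        hkeep _ (hFr.1.1 i).2 (by simp [hfc]) (by simp [hfM]) (by simp) (by simp)⟩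
    · intro i hi
      exact hkeep _ (hFr.1.2.1 i hi) (by simp [hfc]) (by simp [hfM]) (by simp) (by simp)
    · exact hkeep _ hFr.1.2.2.1 (by simp [hfc]) (by simp [hfM]) (by simp) (by simp)
    · exact hkeep _ hFr.1.2.2.2.1 (by simp [hfc]) (by simp [hfM]) (by simp) (by simp)
    · exact hkeep _ hFr.1.2.2.2.2 (by simp [hfc]) (by simp [hfM]) (by simp) (by simp)
    · exact hkeep _ hFr.2.1 (by simp) (by simp) (by simp [hfc]) (by simp [hfM])
    · intro h
      exact hkeep _ (hFr.2.2.1 h) (by simp) (by simp) (by simp [hfc]) (by simp [hfM])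
    · intro h h'
      exact hkeep _ (hFr.2.2.2 h h') (by simp) (by simp) (by simp) (by simp)
  · intro h
    rw [mem2] at h ⊢
    refine ⟨by simp, by simp, ?_, by simp, hZ.omL c h.2.2.2.2⟩
    rcases hor with h | h <;> simp [h]
  · intro h
    exact hcoreM _ hZ.cur.2.2.2.2 (by simp)

/-- the reply with `v` and `T` after an attack on the lock of `M` by its child -/
theorem reply_uf (hZ : Zst X S c M b k) (heven : Even (cA S)) {f : Γ} (hf : X.par f = some M)
    {j : Fin 5} (hab : Ad X (cr f (u j)) (t M (!b)))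
    (ha : cr f (u j) ∈ S) (hb : t M (!b) ∈ S) :
    Wins (gr X) (del S (cr f (u j)) (t M (!b))) := by
  have hcM := cM hZ
  have hrk := X.rk_lt M c hZ.parM
  have hrf := X.rk_lt f M hf
  have hfM : f ≠ M := by rintro rfl; omega
  have hfc : f ≠ c := by rintro rfl; omega
  have hva : cr c (u k) ∈ del S (cr f (u j)) (t M (!b)) := by
    rw [mem_del]
    exact ⟨by simp, by simp [hfc.symm], hZ.rkc.2.1⟩
  have hb2 : cr c (T k) ∈ del S (cr f (u j)) (t M (!b)) := by
    rw [mem_del]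
    exact ⟨by simp, by simp, hZ.Tk⟩
  refine reply_inv heven hab ha hb (Ad.uT c k) hva hb2 ?_
  set S2 := del (del S (cr f (u j)) (t M (!b))) (cr c (u k)) (cr c (T k)) with hS2
  have mem2 : ∀ x, x ∈ S2 ↔ x ≠ cr c (T k) ∧ x ≠ cr c (u k) ∧ x ≠ t M (!b) ∧
      x ≠ cr f (u j) ∧ x ∈ S := by
    intro x; rw [hS2, mem_del2]
  have hsub : S2 ⊆ S := fun x hx => ((mem2 x).1 hx).2.2.2.2
  have hDc : Dn S2 c := by
    apply DnC hZ rfl
    · intro i; simp
    · intro i; simp
  have hcoreM : ∀ y, cr M y ∈ S → cr M y ∈ S2 := by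
    intro y hy
    rw [mem2]
    exact ⟨by simp [hcM.symm], by simp [hcM.symm], by simp, by simp [hfM.symm], hy⟩
  have hcoref : ∀ y, cr f y ∈ S → y ≠ u j → cr f y ∈ S2 := by
    intro y hy hyj
    rw [mem2]
    exact ⟨by simp [hfc], by simp [hfc], by simp, by simpa using hyj, hy⟩
  have hNR : NR S2 M := fun i _ => hcoreM _ (hZ.cur.1 i).2
  have hlam : t c false ∈ S2 := by
    rw [mem2]
    exact ⟨by simp, by simp, by simp [hcM], by simp, hZ.tc⟩
  have hexm : 1 ≤ exm X S2 M := exm_pos' hZ.parM hDc hlam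
  have hFr := hZ.ch f hf
  have hmgf := mg_child_ord hZ.mgM hf
  have hzf : z f ∈ S2 := by
    rw [mem2]
    exact ⟨by simp, by simp, by simp, by simp, hFr.2.2.2 hmgf (by rw [hf]; simp)⟩
  have htf : t f false ∈ S2 := by
    rw [mem2]
    exact ⟨by simp, by simp, by simp [hfM], by simp, hFr.2.1⟩
  have hWf : Wa S2 f := hcoref _ hFr.1.2.2.1 (by simp)
  have hNRf : NR S2 f := fun i _ => hcoref _ (hFr.1.1 i).2 (by simp)
  have hSpf : Sp S2 f := by
    refine ⟨j, ?_, hcoref _ (hFr.1.1 j).2 (by simp)⟩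
    intro h
    exact ((mem2 _).1 h).2.2.2.1 rfl
  have hokf : okc X S2 f := Or.inr (Or.inl ⟨hWf, hNRf, Or.inl ⟨hSpf, exc_pos htf⟩⟩)
  have hokf' : okc X (S2.erase (z f)) f := by
    right; left
    refine ⟨Finset.mem_erase.2 ⟨by simp, hWf⟩, ?_, Or.inl ⟨?_, ?_⟩⟩
    · intro i hi
      exact Finset.mem_erase.2 ⟨by simp, hNRf i (Finset.mem_of_mem_erase hi)⟩
    · obtain ⟨i, hi1, hi2⟩ := hSpf
      exact ⟨i, fun h => hi1 (Finset.mem_of_mem_erase h), Finset.mem_erase.2 ⟨by simp, hi2⟩⟩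
    · apply exc_pos (β := false)
      exact Finset.mem_erase.2 ⟨by simp, htf⟩
  have hFl : ∀ l : Fin 5, 2 ≤ l.1 → Fl S2 M l := fun l hl =>
    ⟨hcoreM _ (hZ.cur.1 l).1, hcoreM _ (hZ.cur.1 l).2, hcoreM _ (hZ.cur.2.1 l hl)⟩
  refine zraise hZ hsub (cr f (u j)) (t M (!b)) ?_ hDc (l := 2) (hFl 2 (by decide)) hNR
    (Or.inr hlam) ?_ ?_ ?_ ?_ (Or.inr ⟨hab, ha, ?_, by simp [hfc], by simp [hfM]⟩)
  · intro x hx hx2
    by_cases hx3 : x = cr c (T k)
    · exact Or.inl ⟨_, hx3⟩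
    by_cases hx4 : x = cr c (u k)
    · exact Or.inl ⟨_, hx4⟩
    by_cases hx5 : x = t M (!b)
    · exact Or.inr (Or.inr (Or.inr (Or.inr (Or.inr hx5))))
    by_cases hx6 : x = cr f (u j)
    · exact Or.inr (Or.inr (Or.inr (Or.inr (Or.inl hx6))))
    exact absurd ((mem2 x).2 ⟨hx3, hx4, hx5, hx6, hx⟩) hx2
  · right; left
    exact ⟨hcoreM _ hZ.cur.2.2.1, hNR, Or.inr ⟨⟨2, 3, by decide, hFl 2 (by decide),
      hFl 3 (by decide)⟩, Or.inr ⟨hexm, f, hf, hzf, hokf'⟩⟩⟩
  · intro f' hf'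
    have := X.mg_child M f f' hZ.mgM hf hf'
    rw [← this]
    exact hokf
  · intro h
    rw [mem2] at h ⊢
    exact ⟨by simp, by simp, by simp, by simp, hZ.omL c h.2.2.2.2⟩
  · intro h
    exact hcoreM _ hZ.cur.2.2.2.2
  · intro h
    exact ((mem2 _).1 h).2.2.2.1 rfl

/-- `c` stays safe while its risk vertex keeps `T` and the trigger vertex -/
theorem okc_c (hZ : Zst X S c M b k) {S2 : Finset (Vx Γ Θ)} (hsub : S2 ⊆ S)
    (hcore : ∀ y, cr c y ∈ S → cr c y ∈ S2) (hlam : t c false ∈ S2) : okc X S2 c := by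
  right; right
  refine ⟨k, ⟨fun h => wc hZ (hsub h), hcore _ hZ.rkc.2.1, fun h => hZ.rkc.2.2.1 (hsub h), ?_⟩,
    Or.inr ⟨hcore _ hZ.Tk, Or.inl (exc_pos hlam)⟩⟩
  intro j hjk hj
  exact hcore _ (hZ.rkc.2.2.2 j hjk (hsub hj))

/-- the reply after `w` of `M` took a partner -/
theorem reply_wp (hZ : Zst X S c M b k) (heven : Even (cA S)) {j : Fin 5}
    (ha : cr M w ∈ S) (hb : cr M (p j) ∈ S) :
    Wins (gr X) (del S (cr M w) (cr M (p j))) := by
  have hcM := cM hZ
  have hu1 : cr M (u j) ∈ del S (cr M w) (cr M (p j)) := by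
    rw [mem_del]
    exact ⟨by simp, by simp, (hZ.cur.1 j).1⟩
  have hy1 : t M (!b) ∈ del S (cr M w) (cr M (p j)) := by
    rw [mem_del]
    exact ⟨by simp, by simp, hZ.tM'⟩
  refine reply_inv heven (Ad.wp M j) ha hb (Ad.ut M j (!b)) hu1 hy1 ?_
  set S2 := del (del S (cr M w) (cr M (p j))) (cr M (u j)) (t M (!b)) with hS2
  have mem2 : ∀ x, x ∈ S2 ↔ x ≠ t M (!b) ∧ x ≠ cr M (u j) ∧ x ≠ cr M (p j) ∧ x ≠ cr M w ∧
      x ∈ S := by
    intro x; rw [hS2, mem_del2]
  have hsub : S2 ⊆ S := fun x hx => ((mem2 x).1 hx).2.2.2.2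
  refine zclosed hZ hsub (cr M w) (cr M w) ?_ ?_ ?_ ?_ ?_ ?_ (Or.inl ⟨_, _, rfl, rfl⟩)
  · intro x hx hx2
    by_cases hx3 : x = t M (!b)
    · exact Or.inr (Or.inr (Or.inr (Or.inl (Or.inl ⟨_, hx3⟩))))
    by_cases hx4 : x = cr M (u j)
    · exact Or.inr (Or.inl ⟨_, hx4⟩)
    by_cases hx5 : x = cr M (p j)
    · exact Or.inr (Or.inl ⟨_, hx5⟩)
    by_cases hx6 : x = cr M w
    · exact Or.inr (Or.inl ⟨_, hx6⟩)
    exact absurd ((mem2 x).2 ⟨hx3, hx4, hx5, hx6, hx⟩) hx2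
  · intro h; exact ((mem2 _).1 h).2.2.2.1 rfl
  · apply okc_c hZ hsub
    · intro y hy
      rw [mem2]
      exact ⟨by simp, by simp [hcM], by simp [hcM], by simp [hcM], hy⟩
    · rw [mem2]
      exact ⟨by simp [hcM], by simp, by simp, by simp, hZ.tc⟩
  · left
    refine ⟨fun h => ((mem2 _).1 h).2.2.2.1 rfl, ?_⟩
    intro i hi
    rw [mem2] at hi ⊢
    have hij : i ≠ j := by rintro rfl; exact hi.2.1 rfl
    exact ⟨by simp, by simp, by simp [hij], by simp, (hZ.cur.1 i).2⟩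
  · intro h
    rw [mem2] at h ⊢
    exact ⟨by simp, by simp, by simp, by simp, hZ.omL c h.2.2.2.2⟩
  · intro h
    rw [mem2] at h ⊢
    exact ⟨by simp, by simp, by simp, by simp, hZ.omL M h.2.2.2.2⟩

/-- after the exit of `M` the position is closed -/
theorem exit_M (hZ : Zst X S c M b k) (heven : Even (cA S)) {f : Γ} (hf : X.par f = some M)
    (ha : cr M w ∈ S) (hb : z f ∈ S) : Wins (gr X) (del S (cr M w) (z f)) := by
  have hcM := cM hZ
  have mem2 : ∀ x, x ∈ del S (cr M w) (z f) ↔ x ≠ z f ∧ x ≠ cr M w ∧ x ∈ S :=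
    fun x => mem_del
  have hsub : del S (cr M w) (z f) ⊆ S := fun x hx => ((mem2 x).1 hx).2.2
  have hDM : Dn (del S (cr M w) (z f)) M := by
    refine ⟨fun h => ((mem2 _).1 h).2.1 rfl, ?_⟩
    intro i hi
    rw [mem2]
    exact ⟨by simp, by simp, (hZ.cur.1 i).2⟩
  have hI : Inv X (del S (cr M w) (z f)) := by
    refine zclosed hZ hsub (cr M w) (z f) ?_ ?_ ?_ (Or.inl hDM) ?_ ?_
      (Or.inr (Or.inr ⟨f, hf, rfl, rfl, hDM, ?_⟩))
    · intro x hx hx2
      by_cases hx3 : x = z f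
      · exact Or.inr (Or.inr (Or.inr (Or.inr (Or.inr hx3))))
      by_cases hx4 : x = cr M w
      · exact Or.inr (Or.inl ⟨_, hx4⟩)
      exact absurd ((mem2 x).2 ⟨hx3, hx4, hx⟩) hx2
    · intro h; exact ((mem2 _).1 h).2.1 rfl
    · apply okc_c hZ hsub
      · intro y hy
        rw [mem2]
        exact ⟨by simp, by simp [hcM], hy⟩
      · rw [mem2]
        exact ⟨by simp, by simp, hZ.tc⟩
    · intro h
      rw [mem2] at h ⊢
      exact ⟨by simp, by simp, hZ.omL c h.2.2⟩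
    · intro h
      rw [mem2] at h ⊢
      exact ⟨by simp, by simp, hZ.omL M h.2.2⟩
    · apply tau_pos (β := !b)
      rw [mem2]
      exact ⟨by simp, by simp, hZ.tM'⟩
  rw [closed_wins X _ hI]
  have h3 := cA_del (Ad.wz M f hf) ha hb
  rw [← h3, Nat.even_add_one, Nat.not_even_iff_odd] at heven
  exact heven

end Z

end ZS

open ZS in
/-- `Z_side`: the special positions.  The first player is to move. -/
theorem Z_side {Γ Θ : Type} [DecidableEq Γ] [DecidableEq Θ] (X : Tree Γ Θ)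
    (S : Finset (Vx Γ Θ)) (W : Γ → Vx Γ Θ → Set Θ → Prop) (hW : EStrat X W) (c M : Γ) (b : Bool)
    (k : Fin 5) (hZ : Zst X S c M b k) (heven : Even (cA S))
    (hv1 : W M (t M (!b)) (toks S))
    (hv2 : ∀ θ ∈ toks S, X.ta θ M (!b) → W M (t c false) (toks S \ {θ}))
    (ih : ∀ (S' : Finset (Vx Γ Θ)) (c' : Γ) (ℓ : Vx Γ Θ), S'.card < S.card → Open X S' c' ℓ →
      W c' ℓ (toks S') → Even (cA S') → ¬ Wins (gr X) S') : ¬ Wins (gr X) S := by
  have hcM := cM hZ
  rw [not_wins_iff_Ad]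
  intro a b' ha hb hab
  by_cases hav : a = cr c (u k)
  · refine neutralise hZ heven hab ha hb (Or.inr hav) ?_ (by rw [hav]; simp) (Or.inr hav)
    rintro rfl
    rw [hav] at hab
    rcases Ad_t hab with ⟨j, h⟩ | ⟨f, j, hf, h⟩ | ⟨q, _, _, h⟩ | ⟨θ, _, h⟩
    · injection h with h1 _
      exact hcM h1
    · injection h with h1 _
      subst h1
      have h1 := X.rk_lt M c hZ.parM
      have h2 := X.rk_lt c M hf
      omega
    · injection h with h1 h2
      cases h2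
    · cases h
  by_cases haw : a = cr M w
  · subst haw
    rcases Ad_w hab with ⟨j, rfl⟩ | ⟨f, hf, rfl⟩ | ⟨f, β, hf, hmg, rfl⟩
    · exact reply_wp hZ heven ha hb
    · exact exit_M hZ heven hf ha hb
    · have := mg_child_ord hZ.mgM hf
      rw [hmg] at this
      cases this
  by_cases hbT : b' = cr c (T k)
  · subst hbT
    rcases Ad_T hab with h | h
    · exact absurd h hav
    · subst h
      refine reply_openY hZ heven hW hv1 ih hab ha hb (Ad.ut c k false) ?_ ?_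
        (Or.inr ⟨rfl, rfl⟩) (Or.inl ⟨_, rfl⟩)
      · rw [mem_del]
        exact ⟨by simp, by simp, hZ.rkc.2.1⟩
      · rw [mem_del]
        exact ⟨by simp, by simp, hZ.tc⟩
  by_cases hbl : b' = t c false
  · subst hbl
    rcases Ad_t hab with ⟨j, rfl⟩ | ⟨f, j, hf, rfl⟩ | ⟨q, _, hmg, rfl⟩ | ⟨θ, _, rfl⟩
    · have hjk : j ≠ k := by rintro rfl; exact hav rfl
      refine reply_openY hZ heven hW hv1 ih hab ha hb (Ad.uT c k) ?_ ?_
        (Or.inl ⟨rfl, rfl⟩) (Or.inl ⟨_, rfl⟩)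
      · rw [mem_del]
        exact ⟨by simp, by simp [hjk.symm], hZ.rkc.2.1⟩
      · rw [mem_del]
        exact ⟨by simp, by simp, hZ.Tk⟩
    · have hfM : f = M := X.mg_only M c f hZ.mgM hZ.parM hf
      subst hfM
      exact reply_uM hZ heven hab ha hb (Or.inl rfl)
    · rw [mgc hZ] at hmg
      cases hmg
    · refine reply_openY hZ heven hW hv1 ih hab ha hb (Ad.uT c k) ?_ ?_
        (Or.inl ⟨rfl, rfl⟩) (Or.inr ⟨_, rfl⟩)
      · rw [mem_del]
        exact ⟨by simp, by simp, hZ.rkc.2.1⟩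
      · rw [mem_del]
        exact ⟨by simp, by simp, hZ.Tk⟩
  by_cases hby : b' = t M (!b)
  · subst hby
    rcases Ad_t hab with ⟨j, rfl⟩ | ⟨f, j, hf, rfl⟩ | ⟨q, hq, _, rfl⟩ | ⟨θ, hta, rfl⟩
    · exact reply_uM hZ heven hab ha hb (Or.inr rfl)
    · exact reply_uf hZ heven hf hab ha hb
    · rw [hZ.parM] at hq
      cases hq
      exact absurd ha (wc hZ)
    · -- the token takes the lock of `M`
      rw [wins_iff_Ad]
      have hva : cr c (u k) ∈ del S (tok θ) (t M (!b)) := by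
        rw [mem_del]
        exact ⟨by simp, by simp, hZ.rkc.2.1⟩
      have hb2 : cr c (T k) ∈ del S (tok θ) (t M (!b)) := by
        rw [mem_del]
        exact ⟨by simp, by simp, hZ.Tk⟩
      refine ⟨cr c (u k), cr c (T k), hva, hb2, Ad.uT c k, ?_⟩
      obtain ⟨hev, hcard⟩ := two_moves heven hab ha hb (Ad.uT c k) hva hb2
      have hsub : del (del S (tok θ) (t M (!b))) (cr c (u k)) (cr c (T k)) ⊆ S :=
        fun x hx => (mem_del2.1 hx).2.2.2.2
      refine ih _ M (t c false) hcard (zopen hZ hsub ?_ ?_ ?_ ?_ ?_ ?_) ?_ hev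
      · intro x hx hx2
        by_cases hx3 : x = cr c (T k)
        · exact Or.inl ⟨_, hx3⟩
        by_cases hx4 : x = cr c (u k)
        · exact Or.inl ⟨_, hx4⟩
        by_cases hx5 : x = t M (!b)
        · exact Or.inr (Or.inr (Or.inl hx5))
        by_cases hx6 : x = tok θ
        · exact Or.inr (Or.inr (Or.inr ⟨θ, hx6⟩))
        exact absurd (mem_del2.2 ⟨hx3, hx4, hx5, hx6, hx⟩) hx2
      · exact DnC hZ rfl (by simp) (by simp)
      · intro h
        rw [mem_del2] at h ⊢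
        exact ⟨by simp, by simp, by simp, by simp, hZ.omL c h.2.2.2.2⟩
      · rw [mem_del2]
        exact ⟨by simp, by simp, by simp [hcM], by simp, hZ.tc⟩
      · exact Or.inr ⟨c, false, hZ.parM, rfl⟩
      · rintro x (⟨β, rfl⟩ | ⟨q, β, hq, rfl⟩) hx
        · exfalso
          by_cases hβ : β = b
          · subst hβ
            exact hZ.tM (hsub hx)
          · have : β = !b := by cases β <;> cases b <;> simp_all
            subst this
            exact (mem_del2.1 hx).2.2.1 rfl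
        · rw [hZ.parM] at hq
          cases hq
          cases β
          · rfl
          · exact absurd (hsub hx) (hZ.tt c (mgc hZ))
      · refine hW.mono _ _ _ _ (hv2 θ ha hta) ?_
        intro θ' hθ'
        have h1 := mem_del2.1 hθ'
        refine ⟨h1.2.2.2.2, ?_⟩
        rintro rfl
        exact h1.2.2.2.1 rfl
  exact neutralise hZ heven hab ha hb (Or.inl hbl) hby haw (Or.inl hbT)

end ArcK
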