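import Pool.Agent.ArcK.Game
import Pool.Agent.ArcK.Closure
import Pool.Agent.ArcK.Handover
import Pool.Agent.ArcK.ZSide

/-!
# The second player wins the open positions of the main line
-/

namespace ArcK

open Vx Cr

namespace ES

variable {Γ Θ : Type} [DecidableEq Γ] [DecidableEq Θ] {X : Tree Γ Θ} {S : Finset (Vx Γ Θ)}

theorem mem_del {x a b : Vx Γ Θ} : x ∈ del S a b ↔ x ∈ S ∧ x ≠ a ∧ x ≠ b := by
  simp only [del, Finset.mem_erase]; tauto

theorem miss2 {x a b a' b' : Vx Γ Θ} (hx : x ∈ S) (h : x ∉ del (del S a b) a' b') :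
    x = a ∨ x = b ∨ x = a' ∨ x = b' := by
  by_contra hcon
  push Not at hcon
  exact h (mem_del.2 ⟨mem_del.2 ⟨hx, hcon.1, hcon.2.1⟩, hcon.2.2.1, hcon.2.2.2⟩)

theorem del_sub {a b : Vx Γ Θ} : del S a b ⊆ S := fun _ h => (mem_del.1 h).1

theorem del2_sub {a b a' b' : Vx Γ Θ} : del (del S a b) a' b' ⊆ S :=
  fun _ h => del_sub (del_sub h)

theorem mem_del2 {x a b a' b' : Vx Γ Θ} :
    x ∈ del (del S a b) a' b' ↔ x ∈ S ∧ x ≠ a ∧ x ≠ b ∧ x ≠ a' ∧ x ≠ b' := by
  simp only [mem_del]; tauto

theorem par_ne {c e : Γ} (h : X.par e = some c) : e ≠ c := by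
  rintro rfl
  exact lt_irrefl _ (X.rk_lt _ _ h)

theorem par_par_ne {c e p : Γ} (h : X.par e = some c) (h' : X.par c = some p) : e ≠ p := by
  rintro rfl
  exact lt_asymm (X.rk_lt _ _ h) (X.rk_lt _ _ h')

theorem Fresh_w {e : Γ} (h : Fresh X S e) : cr e w ∈ S := h.1.2.2.1

theorem Fresh_not_Dn {e : Γ} (h : Fresh X S e) : ¬ Dn S e := fun hd => hd.1 (Fresh_w h)

theorem Fresh_mono {S' : Finset (Vx Γ Θ)} (hsub : S' ⊆ S) {e : Γ} (h : Fresh X S' e) :
    Fresh X S e := by
  obtain ⟨⟨h1, h2, h3, h4, h5⟩, h6, h7, h8⟩ := h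
  exact ⟨⟨fun k => ⟨hsub (h1 k).1, hsub (h1 k).2⟩, fun k hk => hsub (h2 k hk), hsub h3, hsub h4,
    hsub h5⟩, hsub h6, fun hm => hsub (h7 hm), fun hm hp => hsub (h8 hm hp)⟩

theorem Dn_sub {S' : Finset (Vx Γ Θ)} (hsub : S' ⊆ S) {e : Γ} (h : Dn S e)
    (hp : ∀ k, cr e (u k) ∈ S' → cr e (p k) ∈ S → cr e (p k) ∈ S') : Dn S' e := by
  refine ⟨fun hw => h.1 (hsub hw), fun k hk => hp k hk (h.2 k (hsub hk))⟩

/-- a vertex of the core of `c` is only adjacent to core vertices, among side `B` core vertices -/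
theorem core_of_b {a : Vx Γ Θ} {c : Γ} {y : Cr} (h : Ad X a (cr c y)) : ∃ y', a = cr c y' := by
  cases h <;> exact ⟨_, rfl⟩

theorem p_of_b {a : Vx Γ Θ} {c : Γ} {k : Fin 5} (h : Ad X a (cr c (p k))) :
    a = cr c (u k) ∨ a = cr c w := by
  cases h
  · left; rfl
  · right; rfl

theorem Dn_del {a b : Vx Γ Θ} {e : Γ} (h : Dn S e) (hab : Ad X a b) (ha : a ∈ S) :
    Dn (del S a b) e := by
  refine Dn_sub del_sub h ?_
  intro k hu hp
  rw [mem_del] at hu ⊢
  have hA : (cr e (p k) : Vx Γ Θ) ≠ a := by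
    rintro rfl
    cases hab
  refine ⟨hp, hA, ?_⟩
  rintro rfl
  rcases p_of_b hab with h1 | h1
  · exact hu.2.1 h1.symm
  · subst h1
    exact h.1 ha

theorem lock_t {c : Γ} {x : Vx Γ Θ} (h : Lock X c x) : ∃ g b, x = t g b := by
  rcases h with ⟨b, rfl⟩ | ⟨p, b, _, rfl⟩
  · exact ⟨_, _, rfl⟩
  · exact ⟨_, _, rfl⟩

theorem u_lock {c : Γ} {x : Vx Γ Θ} (h : Lock X c x) (k : Fin 5) : Ad X (cr c (u k)) x := by
  rcases h with ⟨b, rfl⟩ | ⟨p, b, hp, rfl⟩
  · exact Ad.ut c k b
  · exact Ad.ug c k p b hp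

/-- the parity argument: a reply to a closed position -/
theorem closed_reply {a b a' b' : Vx Γ Θ} (hev : Even (cA S)) (hab : Ad X a b) (ha : a ∈ S)
    (hb : b ∈ S) (hab' : Ad X a' b') (ha' : a' ∈ del S a b) (hb' : b' ∈ del S a b)
    (hI : Inv X (del (del S a b) a' b')) : Wins (gr X) (del S a b) := by
  rw [wins_iff_Ad]
  refine ⟨a', b', ha', hb', hab', ?_⟩
  rw [closed_wins X _ hI, Nat.not_odd_iff_even]
  have h1 := cA_del hab ha hb
  have h2 := cA_del hab' ha' hb'
  rw [← h1, ← h2] at hev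
  have h3 : cA (del (del S a b) a' b') + 1 + 1 = cA (del (del S a b) a' b') + 2 := by ring
  rw [h3] at hev
  exact (Nat.even_add.1 hev).2 (by decide)

theorem open_reply {a b a' b' : Vx Γ Θ} (hab' : Ad X a' b') (ha' : a' ∈ del S a b)
    (hb' : b' ∈ del S a b)
    (hI : ¬ Wins (gr X) (del (del S a b) a' b')) : Wins (gr X) (del S a b) := by
  rw [wins_iff_Ad]
  exact ⟨a', b', ha', hb', hab', hI⟩

theorem even2 {a b a' b' : Vx Γ Θ} (hev : Even (cA S)) (hab : Ad X a b) (ha : a ∈ S)
    (hb : b ∈ S) (hab' : Ad X a' b') (ha' : a' ∈ del S a b) (hb' : b' ∈ del S a b) :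
    Even (cA (del (del S a b) a' b')) := by
  have h1 := cA_del hab ha hb
  have h2 := cA_del hab' ha' hb'
  rw [← h1, ← h2] at hev
  have h3 : cA (del (del S a b) a' b') + 1 + 1 = cA (del (del S a b) a' b') + 2 := by ring
  rw [h3] at hev
  exact (Nat.even_add.1 hev).2 (by decide)

theorem card2 {a b a' b' : Vx Γ Θ} (hab : Ad X a b) (ha : a ∈ S)
    (hb : b ∈ S) (hab' : Ad X a' b') (ha' : a' ∈ del S a b) (hb' : b' ∈ del S a b) :
    (del (del S a b) a' b').card < S.card := by
  have h1 := card_del hab ha hb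
  have h2 := card_del hab' ha' hb'
  omega

/-- `handover` with one gadget in play -/
theorem hand {c : Γ} (hM : Main X S c) (S2 : Finset (Vx Γ Θ)) (hsub : S2 ⊆ S) (a b : Vx Γ Θ)
    (hmiss : ∀ x ∈ S, x ∉ S2 → (∃ y, x = cr c y) ∨ Lock X c x ∨ x = a ∨ x = b)
    (hw : cr c w ∉ S2) (hc : X.mg c = false → okc X S2 c) (hm : X.mg c = true → okm X S2 c)
    (hp : cr c Om ∈ S2 → cr c OmL ∈ S2)
    (hab : (∃ y y', a = cr c y ∧ b = cr c y') ∨
      (Ad X a b ∧ a ∈ S ∧ a ∉ S2 ∧ (∀ y, a ≠ cr c y) ∧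
        ∀ θ M b', a = tok θ → b = t M b' → X.mg M = true → M ≠ c → X.par M ≠ some c) ∨
      (∃ e, X.par e = some c ∧ a = cr c w ∧ (b = z e ∨ ∃ b', b = t e b') ∧ Dn S2 c ∧
        1 ≤ tau S2 c)) : Inv X S2 := by
  refine handover X S (fun e => e = c) ?_ ⟨c, rfl⟩ ?_ ?_ ?_ ?_ hM.tt hM.zz hM.omL hM.tl S2 hsub
    a b ?_ ?_ ?_ ?_ ?_ ?_
  · intro e he
    exact hM.oth e he
  · intro e f he h1 h2
    exact hM.chf e f he h1 h2
  · intro e p h1 h2 h3 _ h5
    exact hM.mgf e p h1 h2 h3 h5
  · intro q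
    exact ⟨c, fun e _ h => h⟩
  · rintro e q rfl h2 _
    exact hM.anc q h2
  · intro x hx hx2
    rcases hmiss x hx hx2 with ⟨y, rfl⟩ | h | h | h
    · exact Or.inl ⟨c, y, rfl, rfl⟩
    · exact Or.inr (Or.inl ⟨c, rfl, h⟩)
    · exact Or.inr (Or.inr (Or.inl h))
    · exact Or.inr (Or.inr (Or.inr h))
  · rintro e rfl; exact hw
  · rintro e rfl; exact hc
  · rintro e rfl; exact hm
  · rintro e rfl; exact hp
  · rcases hab with ⟨y, y', h1, h2⟩ | ⟨h1, h2, h3, h4, h5⟩ | ⟨e, h1, h2, h3, h4, h5⟩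
    · exact Or.inl ⟨c, y, y', rfl, h1, h2⟩
    · refine Or.inr (Or.inl ⟨h1, h2, h3, ?_, ?_⟩)
      · rintro e y rfl
        exact h4 y
      · rintro θ M b' ha hb hm' hne c' hc' rfl
        exact h5 θ M b' ha hb hm' hne hc'
    · refine Or.inr (Or.inr ⟨c, e, rfl, h1, ?_, h2, h3, h4, h5⟩)
      rintro e' he' rfl
      exact par_ne he' rfl

theorem tau_pos {g : Γ} {b : Bool} (h : t g b ∈ S) : 1 ≤ tau S g := by
  unfold tau n1
  cases b
  · rw [if_pos h]; omega
  · rw [if_pos h]; omega

theorem exc_pos {c : Γ} {b : Bool} (h : t c b ∈ S) : 1 ≤ exc X S c := by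
  have := tau_pos h
  unfold exc
  omega

theorem exm_pos {c : Γ} {ℓ : Vx Γ Θ} (hl : Lock X c ℓ) (h : ℓ ∈ S)
    (hD : ∀ p, X.par c = some p → Dn S p) : 1 ≤ exm X S c := by
  rcases hl with ⟨b, rfl⟩ | ⟨p, b, hp, rfl⟩
  · have := tau_pos h
    unfold exm
    omega
  · have hQ : Qp X S c := by
      refine ⟨p, hp, Or.inl ?_⟩
      have hd := hD p hp
      refine Dn_sub (Finset.erase_subset _ _) hd ?_
      intro k _ hpk
      exact Finset.mem_erase.2 ⟨by simp, hpk⟩
    have := tau_pos h
    unfold exm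
    rw [if_pos hQ]
    unfold gam
    rw [hp]
    simp only
    omega

/-- the current gadget is neutralised -/
theorem neutM {c : Γ} (hM : Main X S c) (S2 : Finset (Vx Γ Θ)) (hsub : S2 ⊆ S)
    (a b : Vx Γ Θ) (j : Fin 5)
    (hmiss : ∀ x ∈ S, x ∉ S2 → (∃ y, x = cr c y) ∨ x = a ∨ x = b)
    (hw : cr c w ∉ S2) (hpj : cr c (p j) ∉ S2) (huj : cr c (u j) ∈ S2) (hTj : cr c (T j) ∈ S2)
    (hx : X.mg c = false → 1 ≤ exc X S2 c) (hx' : X.mg c = true → 1 ≤ exm X S2 c)
    (hNR : ∀ l, l ≠ j → cr c (u l) ∈ S2 → cr c (p l) ∈ S2)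
    (hOm : cr c Om ∈ S2 → cr c OmL ∈ S2)
    (hab : (∃ y y', a = cr c y ∧ b = cr c y') ∨
      (Ad X a b ∧ a ∈ S ∧ a ∉ S2 ∧ (∀ y, a ≠ cr c y) ∧
        ∀ θ M b', a = tok θ → b = t M b' → X.mg M = true → M ≠ c → X.par M ≠ some c)) :
    Inv X S2 := by
  have hRk : Rk S2 c j := ⟨hw, huj, hpj, hNR⟩
  refine hand hM S2 hsub a b ?_ hw ?_ ?_ hOm ?_
  · intro x hx hx2
    rcases hmiss x hx hx2 with h | h | h
    · exact Or.inl h
    · exact Or.inr (Or.inr (Or.inl h))
    · exact Or.inr (Or.inr (Or.inr h))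
  · intro hm
    exact Or.inr (Or.inr ⟨j, hRk, Or.inr ⟨hTj, Or.inl (hx hm)⟩⟩)
  · intro hm
    exact Or.inr (Or.inr ⟨j, hRk, Or.inr ⟨hTj, Or.inl (hx' hm)⟩⟩)
  · rcases hab with h | h
    · exact Or.inl h
    · exact Or.inr (Or.inl h)

/-- the current gadget is neutralised -/
theorem neut {c : Γ} {ℓ : Vx Γ Θ} (hO : Open X S c ℓ) (S2 : Finset (Vx Γ Θ)) (hsub : S2 ⊆ S)
    (a b : Vx Γ Θ) (j : Fin 5)
    (hmiss : ∀ x ∈ S, x ∉ S2 → (∃ y, x = cr c y) ∨ x = a ∨ x = b)
    (hw : cr c w ∉ S2) (hpj : cr c (p j) ∉ S2) (huj : cr c (u j) ∈ S2) (hTj : cr c (T j) ∈ S2)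
    (hl : ℓ ∈ S2) (hNR : ∀ l, l ≠ j → cr c (u l) ∈ S2 → cr c (p l) ∈ S2)
    (hOm : cr c Om ∈ S2 → cr c OmL ∈ S2) (hD : ∀ p, X.par c = some p → Dn S2 p)
    (hab : (∃ y y', a = cr c y ∧ b = cr c y') ∨
      (Ad X a b ∧ a ∈ S ∧ a ∉ S2 ∧ (∀ y, a ≠ cr c y) ∧
        ∀ θ M b', a = tok θ → b = t M b' → X.mg M = true → M ≠ c → X.par M ≠ some c)) :
    Inv X S2 := by
  refine neutM hO.toMain S2 hsub a b j hmiss hw hpj huj hTj ?_ ?_ hNR hOm hab
  · intro hm
    have h1 := hO.own hm
    subst h1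
    exact exc_pos hl
  · intro _
    exact exm_pos hO.lock hl hD

/-- case 9: all the moves which do not concern the current gadget -/
theorem reply_other {c : Γ} {ℓ a b : Vx Γ Θ} (hO : Open X S c ℓ) (hev : Even (cA S))
    (hab : Ad X a b) (ha : a ∈ S) (hb : b ∈ S) (hac : ∀ y, a ≠ cr c y) (hbl : b ≠ ℓ)
    (hmc : ∀ θ M b', a = tok θ → b = t M b' → X.mg M = true → X.par M ≠ some c) :
    Wins (gr X) (del S a b) := by
  have hbc : ∀ y, b ≠ cr c y := by
    rintro y rfl
    obtain ⟨y', h⟩ := core_of_b hab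
    exact hac y' h
  obtain ⟨hup, hT, hw, hOm, hOmL⟩ := hO.cur
  have hm : ∀ y, cr c y ∈ S → cr c y ∈ del S a b := fun y hy =>
    mem_del.2 ⟨hy, fun h => hac y h.symm, fun h => hbc y h.symm⟩
  have hla : ℓ ≠ a := by
    rintro rfl
    obtain ⟨g, b', h⟩ := lock_t hO.lock
    subst h
    cases hab
  have hlc : ∀ y, ℓ ≠ cr c y := by
    intro y h
    obtain ⟨g, b', h'⟩ := lock_t hO.lock
    rw [h] at h'
    cases h'
  refine closed_reply hev hab ha hb (Ad.wp c 2) (hm _ hw) (hm _ (hup 2).2) ?_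
  refine neut hO _ del2_sub a b 2 ?_ ?_ ?_ ?_ ?_ ?_ ?_ ?_ ?_ ?_
  · intro x hx hx2
    rcases miss2 hx hx2 with h | h | h | h
    · exact Or.inr (Or.inl h)
    · exact Or.inr (Or.inr h)
    · exact Or.inl ⟨_, h⟩
    · exact Or.inl ⟨_, h⟩
  · simp [mem_del]
  · simp [mem_del]
  · exact mem_del.2 ⟨hm _ (hup 2).1, by simp, by simp⟩
  · exact mem_del.2 ⟨hm _ (hT 2 (by decide)), by simp, by simp⟩
  · exact mem_del.2 ⟨mem_del.2 ⟨hO.mem, hla, fun h => hbl h.symm⟩, hlc _, hlc _⟩
  · intro l hl _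
    refine mem_del.2 ⟨hm _ (hup l).2, by simp, ?_⟩
    simpa using hl
  · intro _
    exact mem_del.2 ⟨hm _ hOmL, by simp, by simp⟩
  · intro p hp
    have h1 := Dn_del (hO.anc p hp) hab ha
    refine Dn_sub del_sub h1 ?_
    intro k _ hk
    have : p ≠ c := fun h => par_ne hp h.symm
    refine mem_del.2 ⟨hk, by simp, ?_⟩
    simp [this]
  · refine Or.inr ⟨hab, ha, ?_, hac, ?_⟩
    · simp [mem_del]
    · intro θ M b' h1 h2 h3 _
      exact hmc θ M b' h1 h2 h3

/-- moves inside the core of the current gadget, answered by a neutralisation -/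
theorem reply_core {c : Γ} {ℓ : Vx Γ Θ} {y y' : Cr} (hO : Open X S c ℓ) (hev : Even (cA S))
    (hab : Ad X (cr c y) (cr c y')) (ha : cr c y ∈ S) (hb : cr c y' ∈ S) (j : Fin 5)
    (hj : 2 ≤ j.1) (hyw : y ≠ w) (hyu : y ≠ u j) (hyp : y' ≠ p j) (hyT : y' ≠ T j)
    (hNR : ∀ l, y' = p l → y = u l) (hOm : y' = OmL → y = Om) :
    Wins (gr X) (del S (cr c y) (cr c y')) := by
  obtain ⟨hup, hT, hw, hOm1, hOmL⟩ := hO.cur
  have hA : isA (cr c y : Vx Γ Θ) = true := (Ad_isA hab).1
  have hB : isA (cr c y' : Vx Γ Θ) = false := (Ad_isA hab).2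
  have hAne : ∀ x : Vx Γ Θ, isA x = false → x ≠ cr c y := by
    rintro x hx rfl
    rw [hA] at hx
    exact absurd hx (by decide)
  have hBne : ∀ x : Vx Γ Θ, isA x = true → x ≠ cr c y' := by
    rintro x hx rfl
    rw [hB] at hx
    exact absurd hx (by decide)
  have hlc : ∀ y, ℓ ≠ cr c y := by
    intro y h
    obtain ⟨g, b', h'⟩ := lock_t hO.lock
    rw [h] at h'
    cases h'
  have hcr : ∀ {x x' : Cr}, x ≠ x' → (cr c x : Vx Γ Θ) ≠ cr c x' := by
    intro x x' h h'
    injection h' with h1 h2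
    exact h h2
  have hw1 : cr c w ∈ del S (cr c y) (cr c y') :=
    mem_del.2 ⟨hw, hcr hyw.symm, hBne _ rfl⟩
  have hp1 : cr c (p j) ∈ del S (cr c y) (cr c y') :=
    mem_del.2 ⟨(hup j).2, hAne _ rfl, hcr hyp.symm⟩
  refine closed_reply hev hab ha hb (Ad.wp c j) hw1 hp1 ?_
  refine neut hO _ del2_sub (cr c w) (cr c (p j)) j ?_ ?_ ?_ ?_ ?_ ?_ ?_ ?_ ?_ ?_
  · intro x hx hx2
    rcases miss2 hx hx2 with h | h | h | h
    · exact Or.inl ⟨_, h⟩
    · exact Or.inl ⟨_, h⟩
    · exact Or.inl ⟨_, h⟩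
    · exact Or.inl ⟨_, h⟩
  · simp
  · simp
  · exact mem_del2.2 ⟨(hup j).1, hcr hyu.symm, hBne _ rfl, by simp, by simp⟩
  · exact mem_del2.2 ⟨hT j hj, hAne _ rfl, hcr hyT.symm, by simp, by simp⟩
  · exact mem_del2.2 ⟨hO.mem, hlc _, hlc _, hlc _, hlc _⟩
  · intro l hl hul
    refine mem_del2.2 ⟨(hup l).2, hAne _ rfl, ?_, by simp, by simpa using hl⟩
    intro h
    injection h with h1 h2
    have h3 := hNR l h2.symm
    subst h3
    exact (mem_del2.1 hul).2.1 rfl
  · intro hOm2
    refine mem_del2.2 ⟨hOmL, hAne _ rfl, ?_, by simp, by simp⟩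
    intro h
    injection h with h1 h2
    have h3 := hOm h2.symm
    subst h3
    exact (mem_del2.1 hOm2).2.1 rfl
  · intro q hq
    have hqc : q ≠ c := fun h => par_ne hq h.symm
    refine Dn_sub del2_sub (hO.anc q hq) ?_
    intro k _ hk
    have hne : ∀ x, (cr q (p k) : Vx Γ Θ) ≠ cr c x := by
      intro x h
      injection h with h1 h2
      exact hqc h1
    exact mem_del2.2 ⟨hk, hne _, hne _, hne _, hne _⟩
  · exact Or.inl ⟨_, _, rfl, rfl⟩

/-- moves which take a critical vertex of the current gadget and its `T` or the lock -/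
theorem reply_spare {c : Γ} {ℓ b : Vx Γ Θ} {k : Fin 5} (hO : Open X S c ℓ) (hev : Even (cA S))
    (hab : Ad X (cr c (u k)) b) (ha : cr c (u k) ∈ S) (hb : b ∈ S)
    (hbc : b = cr c (T k) ∨ Lock X c b) :
    Wins (gr X) (del S (cr c (u k)) b) := by
  obtain ⟨hup, hT, hw, hOm1, hOmL⟩ := hO.cur
  have hbne : ∀ y, (∀ l, y ≠ T l) → (cr c y : Vx Γ Θ) ≠ b := by
    rintro y hy rfl
    rcases hbc with h | h
    · injection h with h1 h2
      exact hy _ h2
    · obtain ⟨g, b', h⟩ := lock_t h
      cases h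
  have hw1 : cr c w ∈ del S (cr c (u k)) b :=
    mem_del.2 ⟨hw, by simp, hbne _ (by simp)⟩
  have hp1 : cr c (p k) ∈ del S (cr c (u k)) b :=
    mem_del.2 ⟨(hup k).2, by simp, hbne _ (by simp)⟩
  have hD : Dn (del (del S (cr c (u k)) b) (cr c w) (cr c (p k))) c := by
    refine ⟨by simp [Wa], ?_⟩
    intro l hl
    have hlk : l ≠ k := by
      rintro rfl
      exact (mem_del2.1 hl).2.1 rfl
    exact mem_del2.2 ⟨(hup l).2, by simp, hbne _ (by simp), by simp, by simpa using hlk⟩
  refine closed_reply hev hab ha hb (Ad.wp c k) hw1 hp1 ?_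
  refine hand hO.toMain _ del2_sub (cr c w) (cr c (p k)) ?_ ?_ ?_ ?_ ?_ ?_
  · intro x hx hx2
    rcases miss2 hx hx2 with h | h | h | h
    · exact Or.inl ⟨_, h⟩
    · subst h
      rcases hbc with h | h
      · exact Or.inl ⟨_, h⟩
      · exact Or.inr (Or.inl h)
    · exact Or.inl ⟨_, h⟩
    · exact Or.inl ⟨_, h⟩
  · simp
  · intro _; exact Or.inl hD
  · intro _; exact Or.inl hD
  · intro _
    exact mem_del2.2 ⟨hOmL, by simp, hbne _ (by simp), by simp, by simp⟩
  · exact Or.inl ⟨_, _, rfl, rfl⟩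

/-- the first player neutralises the current gadget -/
theorem reply_save {c : Γ} {ℓ : Vx Γ Θ} {k : Fin 5} (hO : Open X S c ℓ) (hev : Even (cA S)) :
    Wins (gr X) (del S (cr c w) (cr c (p k))) := by
  obtain ⟨hup, hT, hw, hOm1, hOmL⟩ := hO.cur
  have hlc : ∀ y, (cr c y : Vx Γ Θ) ≠ ℓ := by
    intro y h
    obtain ⟨g, b', h'⟩ := lock_t hO.lock
    rw [← h] at h'
    cases h'
  have hu1 : cr c (u k) ∈ del S (cr c w) (cr c (p k)) :=
    mem_del.2 ⟨(hup k).1, by simp, by simp⟩
  have hl1 : ℓ ∈ del S (cr c w) (cr c (p k)) :=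
    mem_del.2 ⟨hO.mem, (hlc _).symm, (hlc _).symm⟩
  have hD : Dn (del (del S (cr c w) (cr c (p k))) (cr c (u k)) ℓ) c := by
    refine ⟨by simp [Wa], ?_⟩
    intro l hl
    have hlk : l ≠ k := by
      rintro rfl
      exact (mem_del2.1 hl).2.2.2.1 rfl
    exact mem_del2.2 ⟨(hup l).2, by simp, by simpa using hlk, by simp, hlc _⟩
  refine closed_reply hev (Ad.wp c k) hw (hup k).2 (u_lock hO.lock k) hu1 hl1 ?_
  refine hand hO.toMain _ del2_sub (cr c w) (cr c (p k)) ?_ ?_ ?_ ?_ ?_ ?_
  · intro x hx hx2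
    rcases miss2 hx hx2 with h | h | h | h
    · exact Or.inl ⟨_, h⟩
    · exact Or.inl ⟨_, h⟩
    · exact Or.inl ⟨_, h⟩
    · subst h
      exact Or.inr (Or.inl hO.lock)
  · simp
  · intro _; exact Or.inl hD
  · intro _; exact Or.inl hD
  · intro _
    exact mem_del2.2 ⟨hOmL, by simp, by simp, by simp, hlc _⟩
  · exact Or.inl ⟨_, _, rfl, rfl⟩

/-- the structure of the position after an exit from `c` to its child `e` -/
theorem step_main {c e : Γ} (hM : Main X S c) (hpe : X.par e = some c) (S' : Finset (Vx Γ Θ))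
    (hsub : S' ⊆ S)
    (hmiss : ∀ x ∈ S, x ∉ S' → x = cr c w ∨ x = z e ∨ (∃ b, x = t e b) ∨ Lock X c x ∨
      (∃ θ, x = tok θ) ∨ ∃ q k, X.par c = some q ∧ x = cr q (u k))
    (hw : cr c w ∉ S') (hz : z e ∉ S') : Main X S' e := by
  have hec : e ≠ c := par_ne hpe
  -- core vertices which stay
  have keep : ∀ (g : Γ) (y : Cr), cr g y ∈ S → (g = c → y ≠ w) →
      (∀ k, X.par c = some g → y ≠ u k) → cr g y ∈ S' := by
    intro g y hy h1 h2
    by_contra hcon
    rcases hmiss _ hy hcon with h | h | ⟨b, h⟩ | h | ⟨θ, h⟩ | ⟨q, k, hq, h⟩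
    · injection h with h3 h4
      exact h1 h3 h4
    · cases h
    · cases h
    · obtain ⟨g', b', h'⟩ := lock_t h
      cases h'
    · cases h
    · injection h with h3 h4
      subst h3
      exact h2 k hq h4
  have keepp : ∀ (g : Γ) (k : Fin 5), cr g (p k) ∈ S → cr g (p k) ∈ S' := by
    intro g k h
    exact keep g _ h (by simp) (by simp)
  have dn_keep : ∀ g, Dn S g → Dn S' g := by
    intro g hg
    exact Dn_sub hsub hg (fun k _ hk => keepp g k hk)
  have hDc : Dn S' c := ⟨hw, fun k _ => keepp c k (hM.cur.1 k).2⟩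
  have fresh_core : ∀ g, Fresh X S g → g ≠ c → Intact S' g := by
    intro g hg hgc
    have hq : ∀ q, X.par c = some q → g ≠ q := by
      rintro q hq rfl
      exact Fresh_not_Dn hg (hM.anc _ hq)
    have hk : ∀ y, cr g y ∈ S → cr g y ∈ S' := by
      intro y hy
      refine keep g y hy (fun h => absurd h hgc) ?_
      intro k h
      exact absurd rfl (hq _ h)
    obtain ⟨⟨h1, h2, h3, h4, h5⟩, -⟩ := hg
    exact ⟨fun k => ⟨hk _ (h1 k).1, hk _ (h1 k).2⟩, fun k h => hk _ (h2 k h), hk _ h3, hk _ h4,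
      hk _ h5⟩
  have fresh_keep : ∀ g, Fresh X S g → g ≠ c → g ≠ e → Fresh X S' g := by
    intro g hg hgc hge
    have hq : ∀ q, X.par c = some q → g ≠ q := by
      rintro q hq rfl
      exact Fresh_not_Dn hg (hM.anc _ hq)
    have hkt : ∀ b, t g b ∈ S → t g b ∈ S' := by
      intro b hb
      by_contra hcon
      rcases hmiss _ hb hcon with h | h | ⟨b', h⟩ | h | ⟨θ, h⟩ | ⟨q, k, hq', h⟩
      · cases h
      · cases h
      · injection h with h3 h4
        exact hge h3
      · rcases h with ⟨b', h⟩ | ⟨q, b', hq', h⟩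
        · injection h with h3 h4
          exact hgc h3
        · injection h with h3 h4
          exact hq _ hq' h3
      · cases h
      · cases h
    have hkz : z g ∈ S → z g ∈ S' := by
      intro hb
      by_contra hcon
      rcases hmiss _ hb hcon with h | h | ⟨b', h⟩ | h | ⟨θ, h⟩ | ⟨q, k, hq', h⟩
      · cases h
      · injection h with h3
        exact hge h3
      · cases h
      · obtain ⟨g', b', h'⟩ := lock_t h
        cases h'
      · cases h
      · cases h
    refine ⟨fresh_core g hg hgc, hkt _ hg.2.1, fun hm => hkt _ (hg.2.2.1 hm),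
      fun hm hp => hkz (hg.2.2.2 hm hp)⟩
  have hFe : Fresh X S e := hM.ch e hpe
  have not_fresh_c : ¬ Fresh X S' c := fun h => hw (Fresh_w h)
  refine ⟨fresh_core e hFe hec, hz, ?_, ?_, ?_, ?_, ?_, ?_, ?_, ?_, ?_, ?_⟩
  · intro g hge
    by_cases hgc : g = c
    · subst hgc; exact Or.inl hDc
    · rcases hM.oth g hgc with h | h
      · exact Or.inl (dn_keep g h)
      · exact Or.inr (fresh_keep g h hgc hge)
  · intro f hf
    have h1 := hM.chf e f hec hFe hf
    refine fresh_keep f h1 ?_ (par_ne hf)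
    rintro rfl
    exact Fresh_not_Dn hFe (hM.anc _ hf)
  · intro g f hge hg hf
    have hg2 := Fresh_mono hsub hg
    have hgc : g ≠ c := by
      rintro rfl
      exact not_fresh_c hg
    have h1 := hM.chf g f hgc hg2 hf
    refine fresh_keep f h1 ?_ ?_
    · rintro rfl
      exact Fresh_not_Dn hg2 (hM.anc _ hf)
    · rintro rfl
      rw [hpe] at hf
      injection hf with hf
      exact hgc hf.symm
  · intro q hq
    rw [hpe] at hq
    injection hq with hq
    subst hq
    exact hDc
  · intro g q hmg hge hq hDq hF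
    have hgc : g ≠ c := by
      rintro rfl
      exact not_fresh_c hF
    by_cases hqc : q = c
    · subst hqc
      exact hge (X.mg_only g q e hmg hq hpe).symm
    · have hDq' : Dn S q := by
        rcases hM.oth q hqc with h | h
        · exact h
        · exfalso
          apply hDq.1
          have hpq : ∀ q', X.par c = some q' → q ≠ q' := by
            rintro q' hq' rfl
            exact Fresh_not_Dn h (hM.anc _ hq')
          refine keep q w (Fresh_w h) (fun h => absurd h hqc) ?_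
          intro k _
          simp
      exact hM.mgf g q hmg hgc hq hDq' (Fresh_mono hsub hF)
  · intro g hg h
    exact hM.tt g hg (hsub h)
  · intro g hg h
    exact hM.zz g hg (hsub h)
  · intro g hg
    exact keep g OmL (hM.omL g (hsub hg)) (by simp) (by simp)
  · intro θ hθ
    have h1 := hM.tl θ (hsub hθ)
    by_contra hcon
    rcases hmiss _ h1 hcon with h | h | ⟨b', h⟩ | h | ⟨θ', h⟩ | ⟨q, k, hq', h⟩
    · cases h
    · cases h
    · cases h
    · obtain ⟨g', b', h'⟩ := lock_t h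
      cases h'
    · cases h
    · cases h
  · intro g k hk h
    exact hM.T01 g k hk (hsub h)

theorem open_ord {c e : Γ} {ℓ : Vx Γ Θ} (hO : Open X S c ℓ) (hpe : X.par e = some c)
    (hme : X.mg e = false) (S' : Finset (Vx Γ Θ)) (hsub : S' ⊆ S)
    (hmiss : ∀ x ∈ S, x ∉ S' → x = cr c w ∨ x = z e ∨ (∃ b, x = t e b) ∨ Lock X c x ∨
      (∃ θ, x = tok θ) ∨ ∃ q k, X.par c = some q ∧ x = cr q (u k))
    (hw : cr c w ∉ S') (hz : z e ∉ S') (hl : ℓ ∉ S') (hte : t e false ∈ S') :
    Open X S' e (t e false) := by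
  refine ⟨step_main hO.toMain hpe S' hsub hmiss hw hz, Or.inl ⟨_, rfl⟩, fun _ => rfl, hte, ?_⟩
  rintro x (⟨b, rfl⟩ | ⟨q, b, hq, rfl⟩) hx
  · cases b
    · rfl
    · exact absurd (hsub hx) (hO.tt e hme)
  · rw [hpe] at hq
    injection hq with hq
    subst hq
    have := hO.only _ (Or.inl ⟨b, rfl⟩) (hsub hx)
    rw [this] at hx
    exact absurd hx hl

theorem open_mg {c e : Γ} {ℓ : Vx Γ Θ} (hO : Open X S c ℓ) (hpe : X.par e = some c)
    (hme : X.mg e = true) (b : Bool) (S' : Finset (Vx Γ Θ)) (hsub : S' ⊆ S)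
    (hmiss : ∀ x ∈ S, x ∉ S' → x = cr c w ∨ x = z e ∨ (∃ b, x = t e b) ∨ Lock X c x ∨
      (∃ θ, x = tok θ) ∨ ∃ q k, X.par c = some q ∧ x = cr q (u k))
    (hw : cr c w ∉ S') (hl : ℓ ∉ S') (hte : t e b ∈ S') (hte' : t e (!b) ∉ S') :
    Open X S' e (t e b) := by
  have hz : z e ∉ S' := fun h => hO.zz e (Or.inl hme) (hsub h)
  refine ⟨step_main hO.toMain hpe S' hsub hmiss hw hz, Or.inl ⟨_, rfl⟩, ?_, hte, ?_⟩
  · intro h
    rw [hme] at h
    exact absurd h (by decide)
  · rintro x (⟨b', rfl⟩ | ⟨q, b', hq, rfl⟩) hx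
    · by_cases h : b' = b
      · subst h; rfl
      · have h2 : b' = !b := by cases b <;> cases b' <;> simp_all
        subst h2
        exact absurd hx hte'
    · rw [hpe] at hq
      injection hq with hq
      subst hq
      have := hO.only _ (Or.inl ⟨b', rfl⟩) (hsub hx)
      rw [this] at hx
      exact absurd hx hl

theorem closed_odd {a b : Vx Γ Θ} (hev : Even (cA S)) (hab : Ad X a b) (ha : a ∈ S)
    (hb : b ∈ S) (hI : Inv X (del S a b)) : Wins (gr X) (del S a b) := by
  rw [closed_wins X _ hI, ← Nat.not_even_iff_odd]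
  have h1 := cA_del hab ha hb
  rw [← h1] at hev
  intro h
  exact (Nat.not_even_iff_odd.2 (Even.add_one h)) hev

/-- exit of the first player towards an ordinary child -/
theorem reply_exit_z {c e : Γ} {ℓ : Vx Γ Θ} (hO : Open X S c ℓ) (hev : Even (cA S))
    (hpe : X.par e = some c) (hz : z e ∈ S) : Wins (gr X) (del S (cr c w) (z e)) := by
  obtain ⟨hup, hT, hw, hOm1, hOmL⟩ := hO.cur
  have hme : X.mg e = false := by
    by_contra h
    rw [Bool.not_eq_false] at h
    exact hO.zz e (Or.inl h) hz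
  have hD : Dn (del S (cr c w) (z e)) c := by
    refine ⟨by simp [Wa], ?_⟩
    intro l _
    exact mem_del.2 ⟨(hup l).2, by simp, by simp⟩
  rcases hO.lock with ⟨b, hb⟩ | ⟨q, b, hq, hb⟩
  · refine closed_odd hev (Ad.wz c e hpe) hw hz ?_
    refine hand hO.toMain _ del_sub (cr c w) (z e) ?_ ?_ ?_ ?_ ?_ ?_
    · intro x hx hx2
      by_cases h : x = cr c w
      · exact Or.inr (Or.inr (Or.inl h))
      · refine Or.inr (Or.inr (Or.inr ?_))
        by_contra h2
        exact hx2 (mem_del.2 ⟨hx, h, h2⟩)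
    · simp
    · intro _; exact Or.inl hD
    · intro _; exact Or.inl hD
    · intro _
      exact mem_del.2 ⟨hOmL, by simp, by simp⟩
    · refine Or.inr (Or.inr ⟨e, hpe, rfl, Or.inl rfl, hD, ?_⟩)
      have h1 := hO.mem
      rw [hb] at h1
      exact tau_pos (mem_del.2 ⟨h1, by simp, by simp⟩)
  · -- the child is neutralised
    have hM1 : Main X (del S (cr c w) (z e)) e := by
      refine step_main hO.toMain hpe _ del_sub ?_ (by simp) (by simp)
      intro x hx hx2
      by_cases h : x = cr c w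
      · exact Or.inl h
      · refine Or.inr (Or.inl ?_)
        by_contra h2
        exact hx2 (mem_del.2 ⟨hx, h, h2⟩)
    obtain ⟨hup', hT', hw', hOm1', hOmL'⟩ := hM1.cur
    have hte : t e false ∈ del S (cr c w) (z e) := by
      have h1 := (hO.ch e hpe).2.1
      exact mem_del.2 ⟨h1, by simp, by simp⟩
    refine closed_reply hev (Ad.wz c e hpe) hw hz (Ad.wp e 2) hw' (hup' 2).2 ?_
    refine neutM hM1 _ del_sub (cr e w) (cr e (p 2)) 2 ?_ ?_ ?_ ?_ ?_ ?_ ?_ ?_ ?_ ?_
    · intro x hx hx2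
      by_cases h : x = cr e w
      · exact Or.inl ⟨_, h⟩
      · refine Or.inl ⟨p 2, ?_⟩
        by_contra h2
        exact hx2 (mem_del.2 ⟨hx, h, h2⟩)
    · simp
    · simp
    · exact mem_del.2 ⟨(hup' 2).1, by simp, by simp⟩
    · exact mem_del.2 ⟨hT' 2 (by decide), by simp, by simp⟩
    · intro _
      exact exc_pos (mem_del.2 ⟨hte, by simp, by simp⟩)
    · intro h
      rw [hme] at h
      exact absurd h (by decide)
    · intro l hl _
      exact mem_del.2 ⟨(hup' l).2, by simp, by simpa using hl⟩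
    · intro _
      exact mem_del.2 ⟨hOmL', by simp, by simp⟩
    · exact Or.inl ⟨_, _, rfl, rfl⟩

/-- exit of the first player towards a merge child -/
theorem reply_exit_t {c e : Γ} {ℓ : Vx Γ Θ} {b : Bool} (hO : Open X S c ℓ) (hev : Even (cA S))
    (hpe : X.par e = some c) (hme : X.mg e = true) (ht : t e b ∈ S) :
    Wins (gr X) (del S (cr c w) (t e b)) := by
  obtain ⟨hup, hT, hw, hOm1, hOmL⟩ := hO.cur
  have hmc : X.mg c = false := by
    obtain ⟨q, hq, hmq⟩ := X.mg_par e hme
    rw [hpe] at hq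
    injection hq with hq
    subst hq
    exact hmq
  have hl := hO.own hmc
  have hD : Dn (del S (cr c w) (t e b)) c := by
    refine ⟨by simp [Wa], ?_⟩
    intro l _
    exact mem_del.2 ⟨(hup l).2, by simp, by simp⟩
  refine closed_odd hev (Ad.wt c e b hpe hme) hw ht ?_
  refine hand hO.toMain _ del_sub (cr c w) (t e b) ?_ ?_ ?_ ?_ ?_ ?_
  · intro x hx hx2
    by_cases h : x = cr c w
    · exact Or.inr (Or.inr (Or.inl h))
    · refine Or.inr (Or.inr (Or.inr ?_))
      by_contra h2
      exact hx2 (mem_del.2 ⟨hx, h, h2⟩)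
  · simp
  · intro _; exact Or.inl hD
  · intro _; exact Or.inl hD
  · intro _
    exact mem_del.2 ⟨hOmL, by simp, by simp⟩
  · refine Or.inr (Or.inr ⟨e, hpe, rfl, Or.inr ⟨b, rfl⟩, hD, ?_⟩)
    have h1 := hO.mem
    rw [hl] at h1
    refine tau_pos (b := false) (mem_del.2 ⟨h1, by simp, ?_⟩)
    intro h
    injection h with h2 h3
    exact par_ne hpe h2.symm

/-- a critical vertex of a child takes the lock -/
theorem reply_child {c e : Γ} {b' : Bool} (hO : Open X S c (t c b')) (hev : Even (cA S))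
    (hpe : X.par e = some c) (k : Fin 5) (hu : cr e (u k) ∈ S) :
    Wins (gr X) (del S (cr e (u k)) (t c b')) := by
  obtain ⟨hup, hT, hw, hOm1, hOmL⟩ := hO.cur
  have hec : e ≠ c := par_ne hpe
  have hFe := hO.ch e hpe
  have hw1 : cr c w ∈ del S (cr e (u k)) (t c b') :=
    mem_del.2 ⟨hw, by simp, by simp⟩
  cases hme : X.mg e
  · have hz : z e ∈ S := hFe.2.2.2 hme (by rw [hpe]; simp)
    have hz1 : z e ∈ del S (cr e (u k)) (t c b') := mem_del.2 ⟨hz, by simp, by simp⟩
    have hD : Dn (del (del S (cr e (u k)) (t c b')) (cr c w) (z e)) c := by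
      refine ⟨by simp [Wa], ?_⟩
      intro l _
      exact mem_del2.2 ⟨(hup l).2, by simp, by simp, by simp, by simp⟩
    refine closed_reply hev (Ad.ug e k c b' hpe) hu hO.mem (Ad.wz c e hpe) hw1 hz1 ?_
    refine hand hO.toMain _ del2_sub (cr e (u k)) (z e) ?_ ?_ ?_ ?_ ?_ ?_
    · intro x hx hx2
      rcases miss2 hx hx2 with h | h | h | h
      · exact Or.inr (Or.inr (Or.inl h))
      · subst h
        exact Or.inr (Or.inl hO.lock)
      · exact Or.inl ⟨_, h⟩
      · exact Or.inr (Or.inr (Or.inr h))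
    · simp
    · intro _; exact Or.inl hD
    · intro _; exact Or.inl hD
    · intro _
      exact mem_del2.2 ⟨hOmL, by simp, by simp, by simp, by simp⟩
    · refine Or.inr (Or.inl ⟨Ad.uz e k, hu, by simp, ?_, ?_⟩)
      · intro y h
        injection h with h1 h2
        exact hec h1
      · intro θ M b'' h1
        cases h1
  · have hz : t e true ∈ S := hFe.2.2.1 hme
    have hz1 : t e true ∈ del S (cr e (u k)) (t c b') := by
      refine mem_del.2 ⟨hz, by simp, ?_⟩
      intro h
      injection h with h1 h2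
      exact hec h1
    have hD : Dn (del (del S (cr e (u k)) (t c b')) (cr c w) (t e true)) c := by
      refine ⟨by simp [Wa], ?_⟩
      intro l _
      exact mem_del2.2 ⟨(hup l).2, by simp, by simp, by simp, by simp⟩
    refine closed_reply hev (Ad.ug e k c b' hpe) hu hO.mem (Ad.wt c e true hpe hme) hw1 hz1 ?_
    refine hand hO.toMain _ del2_sub (cr e (u k)) (t e true) ?_ ?_ ?_ ?_ ?_ ?_
    · intro x hx hx2
      rcases miss2 hx hx2 with h | h | h | h
      · exact Or.inr (Or.inr (Or.inl h))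
      · subst h
        exact Or.inr (Or.inl hO.lock)
      · exact Or.inl ⟨_, h⟩
      · exact Or.inr (Or.inr (Or.inr h))
    · simp
    · intro _; exact Or.inl hD
    · intro _; exact Or.inl hD
    · intro _
      exact mem_del2.2 ⟨hOmL, by simp, by simp, by simp, by simp⟩
    · refine Or.inr (Or.inl ⟨Ad.ut e k true, hu, by simp, ?_, ?_⟩)
      · intro y h
        injection h with h1 h2
        exact hec h1
      · intro θ M b'' h1
        cases h1

/-- the special position after a token at a merge child -/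
theorem zst {c M : Γ} {b : Bool} {θ : Θ} (hO : Open X S c (t c false))
    (hpM : X.par M = some c) (hmM : X.mg M = true) :
    Zst X (del (del S (tok θ) (t M b)) (cr c w) (cr c (p 2))) c M b 2 := by
  obtain ⟨hup, hT, hw, hOm1, hOmL⟩ := hO.cur
  have hMc : M ≠ c := par_ne hpM
  have hFM := hO.ch M hpM
  have hcr : ∀ (g : Γ) (y : Cr), cr g y ∈ S → (g = c → y ≠ w) → (g = c → y ≠ p 2) →
      cr g y ∈ del (del S (tok θ) (t M b)) (cr c w) (cr c (p 2)) := by
    intro g y hy h1 h2
    refine mem_del2.2 ⟨hy, by simp, by simp, ?_, ?_⟩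
    · intro h
      injection h with h3 h4
      exact h1 h3 h4
    · intro h
      injection h with h3 h4
      exact h2 h3 h4
  have htt : ∀ (g : Γ) (b' : Bool), t g b' ∈ S → (g = M → b' ≠ b) →
      t g b' ∈ del (del S (tok θ) (t M b)) (cr c w) (cr c (p 2)) := by
    intro g b' hy h1
    refine mem_del2.2 ⟨hy, by simp, ?_, by simp, by simp⟩
    intro h
    injection h with h3 h4
    exact h1 h3 h4
  have fresh_core : ∀ g, Fresh X S g → g ≠ c →
      Intact (del (del S (tok θ) (t M b)) (cr c w) (cr c (p 2))) g := by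
    intro g hg hgc
    have hk : ∀ y, cr g y ∈ S → cr g y ∈ del (del S (tok θ) (t M b)) (cr c w) (cr c (p 2)) :=
      fun y hy => hcr g y hy (fun h => absurd h hgc) (fun h => absurd h hgc)
    obtain ⟨⟨h1, h2, h3, h4, h5⟩, -⟩ := hg
    exact ⟨fun k => ⟨hk _ (h1 k).1, hk _ (h1 k).2⟩, fun k h => hk _ (h2 k h), hk _ h3, hk _ h4,
      hk _ h5⟩
  have fresh_keep : ∀ g, Fresh X S g → g ≠ c → g ≠ M →
      Fresh X (del (del S (tok θ) (t M b)) (cr c w) (cr c (p 2))) g := by
    intro g hg hgc hgM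
    refine ⟨fresh_core g hg hgc, htt _ _ hg.2.1 (fun h => absurd h hgM),
      fun hm => htt _ _ (hg.2.2.1 hm) (fun h => absurd h hgM), fun hm hp => ?_⟩
    exact mem_del2.2 ⟨hg.2.2.2 hm hp, by simp, by simp, by simp, by simp⟩
  refine ⟨hmM, hpM, ?_, ?_, ?_, ?_, ?_, ?_, ?_, ?_, ?_, ?_, ?_, ?_, ?_, ?_, ?_, ?_⟩
  · refine ⟨by simp [Wa], hcr _ _ (hup 2).1 (by simp) (by simp), by simp, ?_⟩
    intro l hl _
    exact hcr _ _ (hup l).2 (by simp) (by simpa using hl)
  · exact hcr _ _ (hT 2 (by decide)) (by simp) (by simp)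
  · exact fresh_core M hFM hMc
  · exact fun h => hO.zc (del2_sub h)
  · exact htt _ _ hO.mem (fun h => absurd h.symm hMc)
  · simp
  · refine htt _ _ ?_ (fun _ => by cases b <;> simp)
    cases b
    · exact hFM.2.2.1 hmM
    · exact hFM.2.1
  · intro g hgc hgM
    rcases hO.oth g hgc with h | h
    · refine Or.inl (Dn_sub del2_sub h ?_)
      intro k _ hk
      exact hcr _ _ hk (by simp) (fun h => absurd h hgc)
    · exact Or.inr (fresh_keep g h hgc hgM)
  · intro f hf
    have h1 := hO.chf M f hMc hFM hf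
    refine fresh_keep f h1 ?_ (par_ne hf)
    rintro rfl
    exact Fresh_not_Dn hFM (hO.anc _ hf)
  · intro g f hgM hgc hg hf
    have hg2 := Fresh_mono del2_sub hg
    have h1 := hO.chf g f hgc hg2 hf
    refine fresh_keep f h1 ?_ ?_
    · rintro rfl
      exact Fresh_not_Dn hg2 (hO.anc _ hf)
    · rintro rfl
      rw [hpM] at hf
      injection hf with hf
      exact hgc hf.symm
  · intro g q hmg hgM hq hDq hF
    have hgc : g ≠ c := by
      rintro rfl
      have := Fresh_w hF
      simp at this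
    by_cases hqc : q = c
    · subst hqc
      exact hgM (X.mg_only g q M hmg hq hpM).symm
    · have hDq' : Dn S q := by
        rcases hO.oth q hqc with h | h
        · exact h
        · exfalso
          exact hDq.1 (hcr _ _ (Fresh_w h) (fun h => absurd h hqc) (by simp))
      exact hO.mgf g q hmg hgc hq hDq' (Fresh_mono del2_sub hF)
  · intro g hg h
    exact hO.tt g hg (del2_sub h)
  · intro g hg h
    exact hO.zz g hg (del2_sub h)
  · intro g hg
    exact hcr _ _ (hO.omL g (del2_sub hg)) (by simp) (by simp)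
  · intro θ' hθ
    exact mem_del2.2 ⟨hO.tl θ' (del2_sub hθ), by simp, by simp, by simp, by simp⟩
  · intro g k hk h
    exact hO.T01 g k hk (del2_sub h)

theorem lock_ne_cr {c g : Γ} {ℓ : Vx Γ Θ} (h : Lock X c ℓ) (y : Cr) : cr g y ≠ ℓ := by
  obtain ⟨g', b', rfl⟩ := lock_t h
  simp

theorem lock_ne_z {c g : Γ} {ℓ : Vx Γ Θ} (h : Lock X c ℓ) : z g ≠ ℓ := by
  obtain ⟨g', b', rfl⟩ := lock_t h
  simp

theorem lock_ne_tl {c : Γ} {θ : Θ} {ℓ : Vx Γ Θ} (h : Lock X c ℓ) : tl θ ≠ ℓ := by
  obtain ⟨g', b', rfl⟩ := lock_t h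
  simp

theorem cr_ne {c e : Γ} (h : e ≠ c) (y : Cr) : ∀ y', (cr e y : Vx Γ Θ) ≠ cr c y' := by
  intro y' h'
  injection h' with h1 h2
  exact h h1

theorem exists_j (k : Fin 5) : ∃ j : Fin 5, 2 ≤ j.1 ∧ j ≠ k := by
  by_cases h : k = 2
  · exact ⟨3, by decide, by rw [h]; decide⟩
  · exact ⟨2, by decide, fun h' => h h'.symm⟩

/-- the replies of the second player -/
theorem step (W : Γ → Vx Γ Θ → Set Θ → Prop) (hW : EStrat X W) {c : Γ} {ℓ : Vx Γ Θ}
    (hS : Open X S c ℓ) (hv : W c ℓ (toks S)) (hev : Even (cA S))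
    (ih : ∀ (S' : Finset (Vx Γ Θ)) (c' : Γ) (ℓ' : Vx Γ Θ), S'.card < S.card → Open X S' c' ℓ' →
      W c' ℓ' (toks S') → Even (cA S') → ¬ Wins (gr X) S') {a b : Vx Γ Θ} (ha : a ∈ S) (hb : b ∈ S)
    (hab : Ad X a b) : Wins (gr X) (del S a b) := by
  cases hab with
  | up e k =>
    by_cases hec : e = c
    · subst hec
      obtain ⟨j, hj, hjk⟩ := exists_j k
      refine reply_core hS hev (Ad.up e k) ha hb j hj (by simp) ?_ ?_ (by simp) (by simp) (by simp)
      · simpa using hjk.symm
      · simpa using hjk.symm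
    · exact reply_other hS hev (Ad.up e k) ha hb (cr_ne hec _) (lock_ne_cr hS.lock _)
        (by rintro θ M b' h; cases h)
  | uT e k =>
    by_cases hec : e = c
    · subst hec
      exact reply_spare hS hev (Ad.uT e k) ha hb (Or.inl rfl)
    · exact reply_other hS hev (Ad.uT e k) ha hb (cr_ne hec _) (lock_ne_cr hS.lock _)
        (by rintro θ M b' h; cases h)
  | uz e k =>
    have hec : e ≠ c := by
      rintro rfl
      exact hS.zc hb
    exact reply_other hS hev (Ad.uz e k) ha hb (cr_ne hec _) (lock_ne_z hS.lock)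
      (by rintro θ M b' h; cases h)
  | ut e k b' =>
    by_cases hl : t e b' = ℓ
    · subst hl
      by_cases hec : e = c
      · subst hec
        exact reply_spare hS hev (Ad.ut e k b') ha hb (Or.inr hS.lock)
      · -- the parent takes its trigger vertex: the current gadget is hot
        have hpc : X.par c = some e := by
          rcases hS.lock with ⟨b'', h⟩ | ⟨q, b'', hq, h⟩
          · injection h with h1 h2
            exact absurd h1 hec
          · injection h with h1 h2
            rw [hq, h1]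
        have hmc : X.mg c = true := by
          by_contra h
          rw [Bool.not_eq_true] at h
          have h1 := hS.own h
          injection h1 with h2 h3
          exact hec h2
        have hme : X.mg e = false := by
          obtain ⟨q, hq, hmq⟩ := X.mg_par c hmc
          rw [hpc] at hq
          injection hq with hq
          subst hq
          exact hmq
        have hb' : b' = false := by
          by_contra h
          rw [Bool.not_eq_false] at h
          subst h
          exact hS.tt e hme hb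
        subst hb'
        obtain ⟨f, hpf, hmf, hWf⟩ := hW.z3 e c (toks S) hv hpc hmc
        have hfe : f ≠ e := fun h => by
          subst h
          exact lt_asymm (X.rk_lt _ _ hpf) (X.rk_lt _ _ hpc)
        have hFf := hS.ch f hpf
        have hzf : z f ∈ S := hFf.2.2.2 hmf (by rw [hpf]; simp)
        have hce : c ≠ e := fun h => hec h.symm
        have hw1 : cr c w ∈ del S (cr e (u k)) (t e false) :=
          mem_del.2 ⟨hS.cur.2.2.1, by simp, by simp⟩
        have hz1 : z f ∈ del S (cr e (u k)) (t e false) := mem_del.2 ⟨hzf, by simp, by simp⟩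
        refine open_reply (Ad.wz c f hpf) hw1 hz1 ?_
        refine ih _ f (t f false) ?_ ?_ ?_ ?_
        · exact card2 (Ad.ut e k false) ha hb (Ad.wz c f hpf) hw1 hz1
        · refine open_ord hS hpf hmf _ del2_sub ?_ (by simp) (by simp) (by simp) ?_
          · intro x hx hx2
            rcases miss2 hx hx2 with h | h | h | h
            · exact Or.inr (Or.inr (Or.inr (Or.inr (Or.inr ⟨e, k, hpc, h⟩))))
            · subst h
              exact Or.inr (Or.inr (Or.inr (Or.inl hS.lock)))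
            · exact Or.inl h
            · exact Or.inr (Or.inl h)
          · exact mem_del2.2 ⟨hFf.2.1, by simp, by simpa using hfe, by simp, by simp⟩
        · exact hW.mono _ _ _ _ hWf (fun θ hθ => del2_sub hθ)
        · exact even2 hev (Ad.ut e k false) ha hb (Ad.wz c f hpf) hw1 hz1
    · have hec : e ≠ c := by
        rintro rfl
        exact hl (hS.only _ (Or.inl ⟨b', rfl⟩) hb)
      exact reply_other hS hev (Ad.ut e k b') ha hb (cr_ne hec _) hl
        (by rintro θ M b'' h; cases h)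
  | ug e k q b' hpar =>
    by_cases hl : t q b' = ℓ
    · subst hl
      by_cases hec : e = c
      · subst hec
        exact reply_spare hS hev (Ad.ug e k q b' hpar) ha hb (Or.inr hS.lock)
      · rcases hS.lock with ⟨b'', h⟩ | ⟨q', b'', hq', h⟩
        · injection h with h1 h2
          subst h1
          exact reply_child hS hev hpar k ha
        · injection h with h1 h2
          subst h1
          exfalso
          have hmc : X.mg c = true := by
            by_contra h
            rw [Bool.not_eq_true] at h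
            have h1 := hS.own h
            injection h1 with h2 h3
            exact par_ne hq' h2.symm
          exact hec (X.mg_only c q e hmc hq' hpar)
    · have hec : e ≠ c := by
        rintro rfl
        exact hl (hS.only _ (Or.inr ⟨q, b', hpar, rfl⟩) hb)
      exact reply_other hS hev (Ad.ug e k q b' hpar) ha hb (cr_ne hec _) hl
        (by rintro θ M b'' h; cases h)
  | wp e k =>
    by_cases hec : e = c
    · subst hec
      exact reply_save hS hev
    · exact reply_other hS hev (Ad.wp e k) ha hb (cr_ne hec _) (lock_ne_cr hS.lock _)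
        (by rintro θ M b' h; cases h)
  | wz g e hpar =>
    by_cases hgc : g = c
    · subst hgc
      exact reply_exit_z hS hev hpar hb
    · exact reply_other hS hev (Ad.wz g e hpar) ha hb (cr_ne hgc _) (lock_ne_z hS.lock)
        (by rintro θ M b' h; cases h)
  | wt g e b' hpar hme =>
    by_cases hgc : g = c
    · subst hgc
      exact reply_exit_t hS hev hpar hme hb
    · refine reply_other hS hev (Ad.wt g e b' hpar hme) ha hb (cr_ne hgc _) ?_
        (by rintro θ M b' h; cases h)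
      rintro rfl
      rcases hS.lock with ⟨b'', h⟩ | ⟨q', b'', hq', h⟩
      · injection h with h1 h2
        subst h1
        exact (hS.anc g hpar).1 ha
      · injection h with h1 h2
        subst h1
        cases hmc : X.mg c
        · have h1 := hS.own hmc
          injection h1 with h2 h3
          exact par_ne hq' h2.symm
        · obtain ⟨q, hq, hmq⟩ := X.mg_par c hmc
          rw [hq'] at hq
          injection hq with hq
          subst hq
          rw [hme] at hmq
          exact absurd hmq (by decide)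
  | OT e k =>
    by_cases hec : e = c
    · subst hec
      obtain ⟨j, hj, hjk⟩ := exists_j k
      refine reply_core hS hev (Ad.OT e k) ha hb j hj (by simp) (by simp) (by simp) ?_ (by simp)
        (by simp)
      simpa using hjk.symm
    · exact reply_other hS hev (Ad.OT e k) ha hb (cr_ne hec _) (lock_ne_cr hS.lock _)
        (by rintro θ M b' h; cases h)
  | OL e =>
    by_cases hec : e = c
    · subst hec
      exact reply_core hS hev (Ad.OL e) ha hb 2 (by decide) (by simp) (by simp) (by simp) (by simp)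
        (by simp) (by simp)
    · exact reply_other hS hev (Ad.OL e) ha hb (cr_ne hec _) (lock_ne_cr hS.lock _)
        (by rintro θ M b' h; cases h)
  | tt θ =>
    exact reply_other hS hev (Ad.tt θ) ha hb (by simp) (lock_ne_tl hS.lock)
      (by rintro θ M b' _ h; cases h)
  | ta θ e b' hta =>
    by_cases hl : t e b' = ℓ
    · subst hl
      have hw1 : cr c w ∈ del S (tok θ) (t e b') :=
        mem_del.2 ⟨hS.cur.2.2.1, by simp, by simp⟩
      rcases hW.trig c _ (toks S) θ hv hS.lock ha (Ad.ta θ e b' hta) with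
        ⟨f, hpf, hmf, hWf⟩ | ⟨f, b, hpf, hmf, hWf⟩
      · have hFf := hS.ch f hpf
        have hzf : z f ∈ S := hFf.2.2.2 hmf (by rw [hpf]; simp)
        have hz1 : z f ∈ del S (tok θ) (t e b') := mem_del.2 ⟨hzf, by simp, by simp⟩
        have hfe : f ≠ e := by
          rintro rfl
          rcases hS.lock with ⟨b'', h⟩ | ⟨q', b'', hq', h⟩
          · injection h with h1 h2
            exact par_ne hpf h1
          · injection h with h1 h2
            exact par_par_ne hpf hq' h1
        refine open_reply (Ad.wz c f hpf) hw1 hz1 ?_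
        refine ih _ f (t f false) ?_ ?_ ?_ ?_
        · exact card2 (Ad.ta θ e b' hta) ha hb (Ad.wz c f hpf) hw1 hz1
        · refine open_ord hS hpf hmf _ del2_sub ?_ (by simp) (by simp) (by simp) ?_
          · intro x hx hx2
            rcases miss2 hx hx2 with h | h | h | h
            · exact Or.inr (Or.inr (Or.inr (Or.inr (Or.inl ⟨θ, h⟩))))
            · subst h
              exact Or.inr (Or.inr (Or.inr (Or.inl hS.lock)))
            · exact Or.inl h
            · exact Or.inr (Or.inl h)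
          · refine mem_del2.2 ⟨hFf.2.1, by simp, ?_, by simp, by simp⟩
            intro h
            injection h with h1 h2
            exact hfe h1
        · refine hW.mono _ _ _ _ hWf ?_
          intro θ' hθ'
          have h1 := mem_del2.1 hθ'
          refine ⟨h1.1, ?_⟩
          rintro rfl
          exact h1.2.1 rfl
        · exact even2 hev (Ad.ta θ e b' hta) ha hb (Ad.wz c f hpf) hw1 hz1
      · have hFf := hS.ch f hpf
        have htf : ∀ b'', t f b'' ∈ S := by
          intro b''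
          cases b''
          · exact hFf.2.1
          · exact hFf.2.2.1 hmf
        have hfe : f ≠ e := by
          rintro rfl
          rcases hS.lock with ⟨b'', h⟩ | ⟨q', b'', hq', h⟩
          · injection h with h1 h2
            exact par_ne hpf h1
          · injection h with h1 h2
            exact par_par_ne hpf hq' h1
        have hz1 : t f (!b) ∈ del S (tok θ) (t e b') := by
          refine mem_del.2 ⟨htf _, by simp, ?_⟩
          intro h
          injection h with h1 h2
          exact hfe h1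
        refine open_reply (Ad.wt c f (!b) hpf hmf) hw1 hz1 ?_
        refine ih _ f (t f b) ?_ ?_ ?_ ?_
        · exact card2 (Ad.ta θ e b' hta) ha hb (Ad.wt c f (!b) hpf hmf) hw1 hz1
        · refine open_mg hS hpf hmf b _ del2_sub ?_ (by simp) (by simp) ?_ (by simp)
          · intro x hx hx2
            rcases miss2 hx hx2 with h | h | h | h
            · exact Or.inr (Or.inr (Or.inr (Or.inr (Or.inl ⟨θ, h⟩))))
            · subst h
              exact Or.inr (Or.inr (Or.inr (Or.inl hS.lock)))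
            · exact Or.inl h
            · exact Or.inr (Or.inr (Or.inl ⟨_, h⟩))
          · refine mem_del2.2 ⟨htf _, by simp, ?_, by simp, ?_⟩
            · intro h
              injection h with h1 h2
              exact hfe h1
            · intro h
              injection h with h1 h2
              cases b <;> simp at h2
        · refine hW.mono _ _ _ _ hWf ?_
          intro θ' hθ'
          have h1 := mem_del2.1 hθ'
          refine ⟨h1.1, ?_⟩
          rintro rfl
          exact h1.2.1 rfl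
        · exact even2 hev (Ad.ta θ e b' hta) ha hb (Ad.wt c f (!b) hpf hmf) hw1 hz1
    · by_cases hm : X.mg e = true ∧ X.par e = some c
      · obtain ⟨hme, hpe⟩ := hm
        have hmc : X.mg c = false := by
          obtain ⟨q, hq, hmq⟩ := X.mg_par e hme
          rw [hpe] at hq
          injection hq with hq
          subst hq
          exact hmq
        have hl2 := hS.own hmc
        subst hl2
        have hw1 : cr c w ∈ del S (tok θ) (t e b') :=
          mem_del.2 ⟨hS.cur.2.2.1, by simp, by simp⟩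
        have hp1 : cr c (p 2) ∈ del S (tok θ) (t e b') :=
          mem_del.2 ⟨(hS.cur.1 2).2, by simp, by simp⟩
        refine open_reply (Ad.wp c 2) hw1 hp1 ?_
        refine Z_side X _ W hW c e b' 2 (zst hS hpe hme) ?_ ?_ ?_ ?_
        · exact even2 hev (Ad.ta θ e b' hta) ha hb (Ad.wp c 2) hw1 hp1
        · refine hW.mono _ _ _ _ (hW.z1 c e (toks S) b' θ hv hpe hme ha hta) ?_
          intro θ' hθ'
          have h1 := mem_del2.1 hθ'
          refine ⟨h1.1, ?_⟩
          rintro rfl
          exact h1.2.1 rfl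
        · intro θ' hθ' hta'
          have hθ'1 := mem_del2.1 hθ'
          refine hW.mono _ _ _ _ (hW.z2 c e (toks S) b' θ θ' hv hpe hme ha hta hθ'1.1 hta') ?_
          rintro θ'' ⟨hθ'', hne⟩
          have h1 := mem_del2.1 hθ''
          refine ⟨h1.1, ?_⟩
          rintro (rfl | h2)
          · exact h1.2.1 rfl
          · exact hne h2
        · intro S' c' ℓ' h1 h2 h3 h4
          refine ih S' c' ℓ' (h1.trans ?_) h2 h3 h4
          exact card2 (Ad.ta θ e b' hta) ha hb (Ad.wp c 2) hw1 hp1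
      · refine reply_other hS hev (Ad.ta θ e b' hta) ha hb (by simp) hl ?_
        rintro θ' M b'' _ h hmM hpM
        injection h with h1 h2
        subst h1
        exact hm ⟨hmM, hpM⟩

end ES

/-- The second player wins the open positions of the main line. -/
theorem E_side {Γ Θ : Type} [DecidableEq Γ] [DecidableEq Θ] (X : Tree Γ Θ)
    (S : Finset (Vx Γ Θ)) (W : Γ → Vx Γ Θ → Set Θ → Prop) (hW : EStrat X W) (c : Γ) (ℓ : Vx Γ Θ)
    (hS : Open X S c ℓ) (hv : W c ℓ (toks S)) (heven : Even (cA S)) : ¬ Wins (gr X) S := by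
  induction hn : S.card using Nat.strong_induction_on generalizing S c ℓ with
  | _ n ih =>
    rw [not_wins_iff_Ad]
    intro a b ha hb hab
    refine ES.step W hW hS hv heven ?_ ha hb hab
    intro S' c' ℓ' h1 h2 h3 h4
    exact ih _ (hn ▸ h1) S' c' ℓ' h2 h3 h4 rfl

end ArcK
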