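import Pool.Agent.ArcK.Game
import Pool.Agent.ArcK.Closure
import Pool.Agent.ArcK.Handover

/-!
# The first player wins the hot positions
-/

namespace ArcK

open Vx Cr

variable {Γ Θ : Type} [DecidableEq Γ] [DecidableEq Θ] (X : Tree Γ Θ) (S : Finset (Vx Γ Θ))



section OSide

omit [DecidableEq Γ] [DecidableEq Θ] in
theorem os_par_ne {X : Tree Γ Θ} {c e : Γ} (h : X.par e = some c) : e ≠ c := by
  rintro rfl
  exact absurd (X.rk_lt _ _ h) (lt_irrefl _)

omit [DecidableEq Γ] [DecidableEq Θ] in
theorem os_fresh_mono {X : Tree Γ Θ} {S S2 : Finset (Vx Γ Θ)} (hsub : S2 ⊆ S) {f : Γ}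
    (h : Fresh X S2 f) : Fresh X S f := by
  obtain ⟨⟨h1, h2, h3, h4, h5⟩, h6, h7, h8⟩ := h
  exact ⟨⟨fun k => ⟨hsub (h1 k).1, hsub (h1 k).2⟩, fun k hk => hsub (h2 k hk), hsub h3, hsub h4,
    hsub h5⟩, hsub h6, fun h => hsub (h7 h), fun h h' => hsub (h8 h h')⟩

/-- After the exit to the child `e` and the removal of its trigger vertices, `e` is hot. -/
theorem os_hot_child {X : Tree Γ Θ} {S : Finset (Vx Γ Θ)} {c e : Γ} (hS : Hot X S c)
    (hpar : X.par e = some c) (S2 : Finset (Vx Γ Θ)) (hsub : S2 ⊆ S)
    (hmiss : ∀ x ∈ S, x ∉ S2 → x = cr c w ∨ x = z e ∨ (∃ b, x = t e b) ∨ (∃ θ, x = tok θ))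
    (hw : cr c w ∉ S2) (hz : z e ∉ S2) (ht : ∀ b, t e b ∉ S2) : Hot X S2 e := by
  have hec : e ≠ c := os_par_ne hpar
  have hce : c ≠ e := hec.symm
  -- vertices which stay
  have hcr : ∀ f y, (f ≠ c ∨ y ≠ w) → cr f y ∈ S → cr f y ∈ S2 := by
    intro f y hfy hin
    by_contra hcon
    rcases hmiss _ hin hcon with h | h | ⟨b, h⟩ | ⟨θ, h⟩
    · injection h with h1 h2
      rcases hfy with h3 | h3
      · exact h3 h1
      · exact h3 h2
    · exact absurd h (by simp)
    · exact absurd h (by simp)
    · exact absurd h (by simp)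
  have hzf : ∀ f, f ≠ e → z f ∈ S → z f ∈ S2 := by
    intro f hf hin
    by_contra hcon
    rcases hmiss _ hin hcon with h | h | ⟨b, h⟩ | ⟨θ, h⟩
    · exact absurd h (by simp)
    · injection h with h1
      exact hf h1
    · exact absurd h (by simp)
    · exact absurd h (by simp)
  have htf : ∀ f b, f ≠ e → t f b ∈ S → t f b ∈ S2 := by
    intro f b hf hin
    by_contra hcon
    rcases hmiss _ hin hcon with h | h | ⟨b, h⟩ | ⟨θ, h⟩
    · exact absurd h (by simp)
    · exact absurd h (by simp)
    · injection h with h1 h2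
      exact hf h1
    · exact absurd h (by simp)
  have htl : ∀ θ, tl θ ∈ S → tl θ ∈ S2 := by
    intro θ hin
    by_contra hcon
    rcases hmiss _ hin hcon with h | h | ⟨b, h⟩ | ⟨θ, h⟩
    · exact absurd h (by simp)
    · exact absurd h (by simp)
    · exact absurd h (by simp)
    · exact absurd h (by simp)
  have hint : ∀ f, f ≠ c → Intact S f → Intact S2 f := by
    rintro f hf ⟨h1, h2, h3, h4, h5⟩
    exact ⟨fun k => ⟨hcr _ _ (Or.inl hf) (h1 k).1, hcr _ _ (Or.inl hf) (h1 k).2⟩,
      fun k hk => hcr _ _ (Or.inl hf) (h2 k hk), hcr _ _ (Or.inl hf) h3,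
      hcr _ _ (Or.inl hf) h4, hcr _ _ (Or.inl hf) h5⟩
  have hfr : ∀ f, f ≠ c → f ≠ e → Fresh X S f → Fresh X S2 f := by
    rintro f hf hf' ⟨h1, h2, h3, h4⟩
    exact ⟨hint f hf h1, htf _ _ hf' h2, fun h => htf _ _ hf' (h3 h),
      fun h h' => hzf _ hf' (h4 h h')⟩
  have hdc : Dn S2 c := by
    refine ⟨hw, fun k hk => ?_⟩
    exact hcr _ _ (Or.inr (by simp)) (hS.cur.1 k).2
  have hdn : ∀ f, f ≠ c → (Dn S2 f ↔ Dn S f) := by
    intro f hf
    constructor
    · rintro ⟨h1, h2⟩
      exact ⟨fun h => h1 (hcr _ _ (Or.inl hf) h), fun k hk => hsub (h2 k (hcr _ _ (Or.inl hf) hk))⟩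
    · rintro ⟨h1, h2⟩
      exact ⟨fun h => h1 (hsub h), fun k hk => hcr _ _ (Or.inl hf) (h2 k (hsub hk))⟩
  have hnfc : ¬ Fresh X S2 c := fun h => hw h.1.2.2.1
  have hfe : Fresh X S e := hS.ch e hpar
  refine
    { cur := hint e hec hfe.1
      zc := hz
      oth := ?_
      ch := ?_
      chf := ?_
      anc := ?_
      mgf := ?_
      tt := fun f hf h => hS.tt f hf (hsub h)
      zz := fun f hf h => hS.zz f hf (hsub h)
      omL := fun f h => hcr _ _ (Or.inr (by simp)) (hS.omL f (hsub h))
      tl := fun θ h => htl _ (hS.tl θ (hsub h))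
      T01 := fun f k hk h => hS.T01 f k hk (hsub h)
      nolock := ?_ }
  · intro f hf
    by_cases hfc : f = c
    · subst hfc
      exact Or.inl hdc
    · rcases hS.oth f hfc with h | h
      · exact Or.inl ((hdn f hfc).2 h)
      · exact Or.inr (hfr f hfc hf h)
  · intro f hf
    have h1 : Fresh X S f := hS.chf e f hec hfe hf
    have h2 : f ≠ e := os_par_ne hf
    have h3 : f ≠ c := by
      rintro rfl
      have h4 := X.rk_lt _ _ hf
      have h5 := X.rk_lt _ _ hpar
      omega
    exact hfr f h3 h2 h1
  · intro g f hg hfg hgf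
    have hgc : g ≠ c := by
      rintro rfl
      exact hnfc hfg
    have h1 : Fresh X S g := os_fresh_mono hsub hfg
    have h2 : Fresh X S f := hS.chf g f hgc h1 hgf
    have h3 : f ≠ e := by
      rintro rfl
      rw [hpar] at hgf
      exact hgc (by injection hgf with h; exact h.symm)
    have h4 : f ≠ c := by
      rintro rfl
      exact (hS.anc g hgf).1 h1.1.2.2.1
    exact hfr f h4 h3 h2
  · intro p hp
    rw [hpar] at hp
    injection hp with hp
    subst hp
    exact hdc
  · intro f p hmg hf hfp hdp hff
    have hfc : f ≠ c := by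
      rintro rfl
      exact hnfc hff
    by_cases hpc : p = c
    · subst hpc
      exact hf (X.mg_only f p e hmg hfp hpar).symm
    · exact hS.mgf f p hmg hfc hfp ((hdn p hpc).1 hdp) (os_fresh_mono hsub hff)
  · intro x hx hxS
    rcases hx with ⟨b, rfl⟩ | ⟨p, b, hp, rfl⟩
    · exact ht b hxS
    · rw [hpar] at hp
      injection hp with hp
      subst hp
      exact hS.nolock _ (Or.inl ⟨b, rfl⟩) (hsub hxS)

/-- From a hot position, `c` becomes done: the position is closed. -/
theorem os_closed {X : Tree Γ Θ} {S : Finset (Vx Γ Θ)} {c : Γ} (hS : Hot X S c)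
    (S2 : Finset (Vx Γ Θ)) (hsub : S2 ⊆ S) (a b : Vx Γ Θ)
    (hmiss : ∀ x ∈ S, x ∉ S2 → (∃ y, x = cr c y) ∨ x = a ∨ x = b)
    (hw : cr c w ∉ S2) (hNR : NR S2 c) (hOm : cr c Om ∈ S2 → cr c OmL ∈ S2)
    (hab : (∃ y y', a = cr c y ∧ b = cr c y') ∨
      (Ad X a b ∧ a ∈ S ∧ a ∉ S2 ∧ (∀ y, a ≠ cr c y) ∧
        ∀ θ M b', a = tok θ → b = t M b' → X.mg M = true → X.par M ≠ some c)) :
    Inv X S2 := by
  refine handover X S (fun e => e = c) (fun e he => hS.oth e he) ⟨c, rfl⟩
    (fun e f he h1 h2 => hS.chf e f he h1 h2)
    (fun e p h1 h2 h3 _ h5 => hS.mgf e p h1 h2 h3 h5) (fun q => ⟨c, fun e _ h => h⟩)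
    ?_ hS.tt hS.zz hS.omL hS.tl S2 hsub a b ?_ ?_ ?_ ?_ ?_ ?_
  · rintro e q rfl hq _
    exact hS.anc q hq
  · intro x hx hx2
    rcases hmiss x hx hx2 with ⟨y, h⟩ | h
    · exact Or.inl ⟨c, y, rfl, h⟩
    · exact Or.inr (Or.inr h)
  · rintro e rfl
    exact hw
  · rintro e rfl _
    exact Or.inl ⟨hw, hNR⟩
  · rintro e rfl _
    exact Or.inl ⟨hw, hNR⟩
  · rintro e rfl
    exact hOm
  · rcases hab with ⟨y, y', h1, h2⟩ | ⟨h1, h2, h3, h4, h5⟩
    · exact Or.inl ⟨c, y, y', rfl, h1, h2⟩
    · refine Or.inr (Or.inl ⟨h1, h2, h3, ?_, ?_⟩)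
      · rintro e y rfl
        exact h4 y
      · rintro θ M b' h6 h7 h8 _ d h10 rfl
        exact h5 θ M b' h6 h7 h8 h10

/-- a critical vertex of a hot gadget which has lost its partner and its `T` is isolated -/
theorem os_isolated {X : Tree Γ Θ} {c : Γ} {k : Fin 5} {S1 : Finset (Vx Γ Θ)}
    (hp : cr c (p k) ∉ S1) (hT : cr c (T k) ∉ S1) (hz : z c ∉ S1)
    (hl : ∀ x, Lock X c x → x ∉ S1) : ∀ x ∈ S1, ¬ (gr X).Adj (cr c (u k)) x := by
  intro x hx hadj
  rw [gr, SimpleGraph.fromRel_adj] at hadj
  rcases hadj with ⟨_, h | h⟩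
  · cases h with
    | up => exact hp hx
    | uT => exact hT hx
    | uz => exact hz hx
    | ut _ _ b => exact hl _ (Or.inl ⟨b, rfl⟩) hx
    | ug _ _ q b hq => exact hl _ (Or.inr ⟨q, b, hq, rfl⟩) hx
  · exact absurd (Ad_isA h).2 (by simp [isA])

omit [DecidableEq Γ] [DecidableEq Θ] in
theorem os_ne_side {a b : Vx Γ Θ} (ha : isA a = true) (hb : isA b = false) : a ≠ b := by
  rintro rfl
  rw [ha] at hb
  exact absurd hb (by simp)

/-- All the moves which are not moves of `w` and not moves from a token to a merge child: the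
answer is the neutralisation with `u 0` or `u 1`. -/
theorem os_other {X : Tree Γ Θ} {S : Finset (Vx Γ Θ)} {c : Γ} (hS : Hot X S c)
    (hodd : Odd (cA S)) {a b : Vx Γ Θ} (ha : a ∈ S) (hb : b ∈ S) (hab : Ad X a b)
    (h1 : a ≠ cr c w)
    (h2 : ∀ θ M b', a = tok θ → b = t M b' → X.mg M = true → X.par M ≠ some c) :
    Wins (gr X) (del S a b) := by
  obtain ⟨hi1, hi2, hi3, hi4, hi5⟩ := hS.cur
  obtain ⟨hA, hB⟩ := Ad_isA hab
  have hbp : ∀ k, b = cr c (p k) → a = cr c (u k) := by
    rintro k rfl
    cases hab with
    | up => rfl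
    | wp => exact absurd rfl h1
  have hbO : b = cr c OmL → a = cr c Om := by
    rintro rfl
    cases hab with
    | OL => rfl
  obtain ⟨k, hk, hka, hkb⟩ : ∃ k : Fin 5, k.1 < 2 ∧ a ≠ cr c (u k) ∧ b ≠ cr c (p k) := by
    by_cases h0 : a = cr c (u 0)
    · refine ⟨1, by decide, ?_, ?_⟩
      · rw [h0]
        simp
      · intro h
        have := hbp _ h
        rw [h0] at this
        simp at this
    · exact ⟨0, by decide, h0, fun h => h0 (hbp _ h)⟩
  have hcw : cr c w ∈ del S a b := by
    rw [del, Finset.mem_erase, Finset.mem_erase]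
    exact ⟨os_ne_side rfl hB, h1.symm, hi3⟩
  have hpk : cr c (p k) ∈ del S a b := by
    rw [del, Finset.mem_erase, Finset.mem_erase]
    exact ⟨hkb.symm, (os_ne_side hA rfl).symm, (hi1 k).2⟩
  rw [wins_iff_Ad]
  refine ⟨cr c w, cr c (p k), hcw, hpk, Ad.wp c k, ?_⟩
  set S1 := del (del S a b) (cr c w) (cr c (p k)) with hS1
  have hS1S : S1 ⊆ S := fun x hx => by
    simp only [hS1, del, Finset.mem_erase] at hx
    exact hx.2.2.2.2
  have hiso : ∀ x ∈ S1, ¬ (gr X).Adj (cr c (u k)) x := by
    apply os_isolated
    · simp [hS1, del]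
    · exact fun h => hS.T01 c k hk (hS1S h)
    · exact fun h => hS.zc (hS1S h)
    · exact fun x hx h => hS.nolock x hx (hS1S h)
  rw [wins_erase_isolated (gr X) S1 (cr c (u k)) hiso]
  have huk : cr c (u k) ∈ S1 := by
    simp only [hS1, del, Finset.mem_erase]
    exact ⟨by simp, by simp, os_ne_side rfl hB, hka.symm, (hi1 k).1⟩
  have hinv : Inv X (S1.erase (cr c (u k))) := by
    refine os_closed hS _ (fun x hx => hS1S (Finset.mem_of_mem_erase hx)) a b ?_ ?_ ?_ ?_ ?_
    · intro x hx hx2
      by_contra hcon
      push Not at hcon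
      obtain ⟨hc1, hc2, hc3⟩ := hcon
      apply hx2
      simp only [hS1, del, Finset.mem_erase]
      exact ⟨hc1 _, hc1 _, hc1 _, hc3, hc2, hx⟩
    · simp [hS1, del]
    · intro l hl
      simp only [hS1, del, Finset.mem_erase] at hl ⊢
      obtain ⟨hl1, -, -, hl2, hl3, hl4⟩ := hl
      refine ⟨by simp, ?_, by simp, ?_, (os_ne_side hA rfl).symm, (hi1 l).2⟩
      · intro h
        apply hl1
        injection h with _ h
        injection h with h
        rw [h]
      · intro h
        exact hl3 (hbp l h.symm).symm
    · intro hO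
      simp only [hS1, del, Finset.mem_erase] at hO ⊢
      obtain ⟨-, -, -, hO2, hO3, hO4⟩ := hO
      refine ⟨by simp, by simp, by simp, ?_, (os_ne_side hA rfl).symm, hi5⟩
      intro h
      exact hO3 (hbO h.symm).symm
    · by_cases hcy : ∃ y, a = cr c y
      · obtain ⟨y, rfl⟩ := hcy
        left
        refine ⟨y, ?_⟩
        cases hab with
        | up _ k => exact ⟨p k, rfl, rfl⟩
        | uT _ k => exact ⟨T k, rfl, rfl⟩
        | uz => exact absurd hb hS.zc
        | ut _ _ b => exact absurd hb (hS.nolock _ (Or.inl ⟨b, rfl⟩))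
        | ug _ _ q b hq => exact absurd hb (hS.nolock _ (Or.inr ⟨q, b, hq, rfl⟩))
        | wp => exact absurd rfl h1
        | wz => exact absurd rfl h1
        | wt => exact absurd rfl h1
        | OT _ k => exact ⟨T k, rfl, rfl⟩
        | OL => exact ⟨OmL, rfl, rfl⟩
      · right
        refine ⟨hab, ha, ?_, fun y h => hcy ⟨y, h⟩, h2⟩
        simp [hS1, del]
  rw [closed_wins X _ hinv]
  have e1 := cA_del hab ha hb
  have e2 := cA_del (Ad.wp (X := X) c k) hcw hpk
  have e3 := cA_erase huk (by simp [isA])
  rw [← hS1] at e2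
  intro ho
  obtain ⟨m, hm⟩ := hodd
  obtain ⟨n, hn⟩ := ho
  omega

/-- The first player wins the hot positions (the other player is to move). -/
theorem O_side (H : Γ → Set Θ → Prop) (hH : OStrat X H) (c : Γ) (hS : Hot X S c)
    (hv : H c (toks S)) (hodd : Odd (cA S)) : ¬ Wins (gr X) S := by
  induction hn : S.card using Nat.strong_induction_on generalizing S c with
  | _ n ih =>
  subst hn
  have ih' : ∀ (S' : Finset (Vx Γ Θ)) (c' : Γ), S'.card < S.card → Hot X S' c' →
      H c' (toks S') → Odd (cA S') → ¬ Wins (gr X) S' :=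
    fun S' c' h1 h2 h3 h4 => ih _ h1 S' c' h2 h3 h4 rfl
  clear ih
  obtain ⟨hi1, hi2, hi3, hi4, hi5⟩ := hS.cur
  rw [not_wins_iff_Ad]
  intro a b ha hb hab
  by_cases h1 : a = cr c w
  · subst h1
    cases hab with
    | wp _ k =>
      by_cases hk : k.1 < 2
      · -- the position is closed after the removal of the isolated vertex `u k`
        set S1 := del S (cr c w) (cr c (p k)) with hS1
        have hS1S : S1 ⊆ S := fun x hx => by
          simp only [hS1, del, Finset.mem_erase] at hx
          exact hx.2.2
        have hiso : ∀ x ∈ S1, ¬ (gr X).Adj (cr c (u k)) x := by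
          apply os_isolated
          · simp [hS1, del]
          · exact fun h => hS.T01 c k hk (hS1S h)
          · exact fun h => hS.zc (hS1S h)
          · exact fun x hx h => hS.nolock x hx (hS1S h)
        rw [wins_erase_isolated (gr X) S1 (cr c (u k)) hiso]
        have huk : cr c (u k) ∈ S1 := by
          simp only [hS1, del, Finset.mem_erase]
          exact ⟨by simp, by simp, (hi1 k).1⟩
        have hinv : Inv X (S1.erase (cr c (u k))) := by
          refine os_closed hS _ (fun x hx => hS1S (Finset.mem_of_mem_erase hx)) (cr c w)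
            (cr c (p k)) ?_ ?_ ?_ ?_ (Or.inl ⟨_, _, rfl, rfl⟩)
          · intro x hx hx2
            by_contra hcon
            push Not at hcon
            obtain ⟨hc1, hc2, hc3⟩ := hcon
            apply hx2
            simp only [hS1, del, Finset.mem_erase]
            exact ⟨hc1 _, hc1 _, hc1 _, hx⟩
          · simp [hS1, del]
          · intro l hl
            simp only [hS1, del, Finset.mem_erase] at hl ⊢
            refine ⟨by simp, ?_, by simp, (hi1 l).2⟩
            intro h
            apply hl.1
            injection h with _ h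
            injection h with h
            rw [h]
          · intro _
            simp only [hS1, del, Finset.mem_erase]
            exact ⟨by simp, by simp, by simp, hi5⟩
        rw [closed_wins X _ hinv]
        have e1 := cA_del (Ad.wp (X := X) c k) ha hb
        have e3 := cA_erase huk (by simp [isA])
        rw [← hS1] at e1
        obtain ⟨m, hm⟩ := hodd
        rw [Nat.odd_iff]
        omega
      · -- the answer is `Om` -- `T k`
        have hk2 : 2 ≤ k.1 := by omega
        have hO : cr c Om ∈ del S (cr c w) (cr c (p k)) := by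
          simp only [del, Finset.mem_erase]
          exact ⟨by simp, by simp, hi4⟩
        have hTk : cr c (T k) ∈ del S (cr c w) (cr c (p k)) := by
          simp only [del, Finset.mem_erase]
          exact ⟨by simp, by simp, hi2 k hk2⟩
        rw [wins_iff_Ad]
        refine ⟨cr c Om, cr c (T k), hO, hTk, Ad.OT c k, ?_⟩
        set S1 := del (del S (cr c w) (cr c (p k))) (cr c Om) (cr c (T k)) with hS1
        have hS1S : S1 ⊆ S := fun x hx => by
          simp only [hS1, del, Finset.mem_erase] at hx
          exact hx.2.2.2.2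
        have hiso : ∀ x ∈ S1, ¬ (gr X).Adj (cr c (u k)) x := by
          apply os_isolated
          · simp [hS1, del]
          · simp [hS1, del]
          · exact fun h => hS.zc (hS1S h)
          · exact fun x hx h => hS.nolock x hx (hS1S h)
        rw [wins_erase_isolated (gr X) S1 (cr c (u k)) hiso]
        have huk : cr c (u k) ∈ S1 := by
          simp only [hS1, del, Finset.mem_erase]
          exact ⟨by simp, by simp, by simp, by simp, (hi1 k).1⟩
        have hinv : Inv X (S1.erase (cr c (u k))) := by
          refine os_closed hS _ (fun x hx => hS1S (Finset.mem_of_mem_erase hx)) (cr c w)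
            (cr c (p k)) ?_ ?_ ?_ ?_ (Or.inl ⟨_, _, rfl, rfl⟩)
          · intro x hx hx2
            by_contra hcon
            push Not at hcon
            obtain ⟨hc1, hc2, hc3⟩ := hcon
            apply hx2
            simp only [hS1, del, Finset.mem_erase]
            exact ⟨hc1 _, hc1 _, hc1 _, hc1 _, hc1 _, hx⟩
          · simp [hS1, del]
          · intro l hl
            simp only [hS1, del, Finset.mem_erase] at hl ⊢
            refine ⟨by simp, by simp, by simp, ?_, by simp, (hi1 l).2⟩
            intro h
            apply hl.1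
            injection h with _ h
            injection h with h
            rw [h]
          · intro h
            simp [hS1, del] at h
        rw [closed_wins X _ hinv]
        have e1 := cA_del (Ad.wp (X := X) c k) ha hb
        have e2 := cA_del (Ad.OT (X := X) c k) hO hTk
        have e3 := cA_erase huk (by simp [isA])
        rw [← hS1] at e2
        intro ho
        obtain ⟨m, hm⟩ := hodd
        obtain ⟨n, hn⟩ := ho
        omega
    | wz _ e hpar =>
      -- exit to the ordinary child `e`: the answer burns its trigger vertex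
      have hmg : X.mg e = false := by
        by_contra h
        exact hS.zz e (Or.inl (by simpa using h)) hb
      have hfe : Fresh X S e := hS.ch e hpar
      obtain ⟨θ, hθ, hta, hHe⟩ := hH.chain c e _ hv hpar hmg
      have hθS : tok θ ∈ del S (cr c w) (z e) := by
        simp only [del, Finset.mem_erase]
        exact ⟨by simp, by simp, hθ⟩
      have hte : t e false ∈ del S (cr c w) (z e) := by
        simp only [del, Finset.mem_erase]
        exact ⟨by simp, by simp, hfe.2.1⟩
      rw [wins_iff_Ad]
      refine ⟨tok θ, t e false, hθS, hte, Ad.ta θ e false hta, ?_⟩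
      set S2 := del (del S (cr c w) (z e)) (tok θ) (t e false) with hS2
      have hS2S : S2 ⊆ S := fun x hx => by
        simp only [hS2, del, Finset.mem_erase] at hx
        exact hx.2.2.2.2
      have e1 := cA_del (Ad.wz (X := X) c e hpar) ha hb
      have e2 := cA_del (Ad.ta (X := X) θ e false hta) hθS hte
      have e3 := card_del (Ad.wz (X := X) c e hpar) ha hb
      have e4 := card_del (Ad.ta (X := X) θ e false hta) hθS hte
      rw [← hS2] at e2 e4
      apply ih' S2 e (by omega)
      · refine os_hot_child hS hpar S2 hS2S ?_ ?_ ?_ ?_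
        · intro x hx hx2
          by_contra hcon
          push Not at hcon
          obtain ⟨hc1, hc2, hc3, hc4⟩ := hcon
          apply hx2
          simp only [hS2, del, Finset.mem_erase]
          exact ⟨hc3 _, hc4 _, hc2, hc1, hx⟩
        · simp [hS2, del]
        · simp [hS2, del]
        · intro b
          cases b with
          | false => simp [hS2, del]
          | true => exact fun h => hS.tt e hmg (hS2S h)
      · have : toks S2 = toks S \ {θ} := by
          ext θ'
          simp [toks, hS2, del, and_comm]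
        rw [this]
        exact hHe
      · obtain ⟨m, hm⟩ := hodd
        rw [Nat.odd_iff]
        omega
    | wt _ e b hpar hmg =>
      -- exit to the merge child `e`: the answer burns its other trigger vertex
      have hfe : Fresh X S e := hS.ch e hpar
      obtain ⟨θ, hθ, hta, hHe⟩ := hH.merge c e _ hv hpar hmg (!b)
      have htin : ∀ b', t e b' ∈ S := by
        intro b'
        cases b' with
        | false => exact hfe.2.1
        | true => exact hfe.2.2.1 hmg
      have hθS : tok θ ∈ del S (cr c w) (t e b) := by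
        simp only [del, Finset.mem_erase]
        exact ⟨by simp, by simp, hθ⟩
      have hte : t e (!b) ∈ del S (cr c w) (t e b) := by
        simp only [del, Finset.mem_erase]
        exact ⟨by simp, by simp, htin _⟩
      rw [wins_iff_Ad]
      refine ⟨tok θ, t e (!b), hθS, hte, Ad.ta θ e (!b) hta, ?_⟩
      set S2 := del (del S (cr c w) (t e b)) (tok θ) (t e (!b)) with hS2
      have hS2S : S2 ⊆ S := fun x hx => by
        simp only [hS2, del, Finset.mem_erase] at hx
        exact hx.2.2.2.2
      have e1 := cA_del (Ad.wt (X := X) c e b hpar hmg) ha hb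
      have e2 := cA_del (Ad.ta (X := X) θ e (!b) hta) hθS hte
      have e3 := card_del (Ad.wt (X := X) c e b hpar hmg) ha hb
      have e4 := card_del (Ad.ta (X := X) θ e (!b) hta) hθS hte
      rw [← hS2] at e2 e4
      apply ih' S2 e (by omega)
      · refine os_hot_child hS hpar S2 hS2S ?_ ?_ ?_ ?_
        · intro x hx hx2
          by_contra hcon
          push Not at hcon
          obtain ⟨hc1, hc2, hc3, hc4⟩ := hcon
          apply hx2
          simp only [hS2, del, Finset.mem_erase]
          exact ⟨hc3 _, hc4 _, hc3 _, hc1, hx⟩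
        · simp [hS2, del]
        · exact fun h => hS.zz e (Or.inl hmg) (hS2S h)
        · intro b'
          by_cases hbb : b' = b
          · subst hbb
            simp [hS2, del]
          · have : b' = !b := by
              cases b <;> cases b' <;> simp_all
            subst this
            simp [hS2, del]
      · have : toks S2 = toks S \ {θ} := by
          ext θ'
          simp [toks, hS2, del, and_comm]
        rw [this]
        exact hHe
      · obtain ⟨m, hm⟩ := hodd
        rw [Nat.odd_iff]
        omega
  · by_cases h2 : ∃ θ M b', a = tok θ ∧ b = t M b' ∧ X.mg M = true ∧ X.par M = some c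
    · -- a token burns a trigger vertex of the merge child: the answer is the exit to this child
      obtain ⟨θ, e, b', rfl, rfl, hmg, hpar⟩ := h2
      have hta : X.ta θ e b' := by
        cases hab with
        | ta _ _ _ h => exact h
      have hfe : Fresh X S e := hS.ch e hpar
      have htin : ∀ b'', t e b'' ∈ S := by
        intro b''
        cases b'' with
        | false => exact hfe.2.1
        | true => exact hfe.2.2.1 hmg
      have hcw : cr c w ∈ del S (tok θ) (t e b') := by
        simp only [del, Finset.mem_erase]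
        exact ⟨by simp, by simp, hi3⟩
      have hte : t e (!b') ∈ del S (tok θ) (t e b') := by
        simp only [del, Finset.mem_erase]
        exact ⟨by simp, by simp, htin _⟩
      have hHe := hH.push c e _ hv hpar hmg b' θ ha hta
      rw [wins_iff_Ad]
      refine ⟨cr c w, t e (!b'), hcw, hte, Ad.wt c e (!b') hpar hmg, ?_⟩
      set S2 := del (del S (tok θ) (t e b')) (cr c w) (t e (!b')) with hS2
      have hS2S : S2 ⊆ S := fun x hx => by
        simp only [hS2, del, Finset.mem_erase] at hx
        exact hx.2.2.2.2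
      have e1 := cA_del hab ha hb
      have e2 := cA_del (Ad.wt (X := X) c e (!b') hpar hmg) hcw hte
      have e3 := card_del hab ha hb
      have e4 := card_del (Ad.wt (X := X) c e (!b') hpar hmg) hcw hte
      rw [← hS2] at e2 e4
      apply ih' S2 e (by omega)
      · refine os_hot_child hS hpar S2 hS2S ?_ ?_ ?_ ?_
        · intro x hx hx2
          by_contra hcon
          push Not at hcon
          obtain ⟨hc1, hc2, hc3, hc4⟩ := hcon
          apply hx2
          simp only [hS2, del, Finset.mem_erase]
          exact ⟨hc3 _, hc1, hc3 _, hc4 _, hx⟩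
        · simp [hS2, del]
        · exact fun h => hS.zz e (Or.inl hmg) (hS2S h)
        · intro b''
          by_cases hbb : b'' = b'
          · subst hbb
            simp [hS2, del]
          · have : b'' = !b' := by
              cases b' <;> cases b'' <;> simp_all
            subst this
            simp [hS2, del]
      · have : toks S2 = toks S \ {θ} := by
          ext θ'
          simp [toks, hS2, del, and_comm]
        rw [this]
        exact hHe
      · obtain ⟨m, hm⟩ := hodd
        rw [Nat.odd_iff]
        omega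
    · push Not at h2
      exact os_other hS hodd ha hb hab h1 h2

end OSide

end ArcK
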