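import Pool.Agent.ArcK.Tree

/-!
# Module GAME: basic facts about Arc-Kayles
-/

namespace ArcK

open Vx Cr

theorem wins_iff {V : Type} [DecidableEq V] (G : SimpleGraph V) (S : Finset V) :
    Wins G S ↔ ∃ u ∈ S, ∃ v ∈ S, G.Adj u v ∧ ¬ Wins G ((S.erase u).erase v) := by
  rw [Wins]
  constructor
  · rintro ⟨u, v, hu, hv, h1, h2⟩
    exact ⟨u, hu, v, hv, h1, h2⟩
  · rintro ⟨u, hu, v, hv, h1, h2⟩
    exact ⟨u, v, hu, hv, h1, h2⟩

variable {Γ Θ : Type} [DecidableEq Γ] [DecidableEq Θ]

theorem Ad_isA {X : Tree Γ Θ} {a b : Vx Γ Θ} (h : Ad X a b) : isA a = true ∧ isA b = false := by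
  cases h <;> exact ⟨rfl, rfl⟩

theorem Ad_ne {X : Tree Γ Θ} {a b : Vx Γ Θ} (h : Ad X a b) : a ≠ b := by
  rintro rfl
  have := Ad_isA h
  rw [this.1] at this
  exact absurd this.2 (by simp)

section

variable (X : Tree Γ Θ) (S : Finset (Vx Γ Θ))

/-- moves written from side `A` to side `B` -/
theorem wins_iff_Ad : Wins (gr X) S ↔ ∃ a b, a ∈ S ∧ b ∈ S ∧ Ad X a b ∧ ¬ Wins (gr X) (del S a b) := by
  rw [wins_iff]
  constructor
  · rintro ⟨u, hu, v, hv, h1, h2⟩
    rw [gr, SimpleGraph.fromRel_adj] at h1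
    rcases h1.2 with h | h
    · exact ⟨u, v, hu, hv, h, h2⟩
    · refine ⟨v, u, hv, hu, h, ?_⟩
      rw [del, Finset.erase_right_comm]
      exact h2
  · rintro ⟨a, b, ha, hb, h1, h2⟩
    refine ⟨a, ha, b, hb, ?_, h2⟩
    rw [gr, SimpleGraph.fromRel_adj]
    exact ⟨Ad_ne h1, Or.inl h1⟩

theorem not_wins_iff_Ad :
    ¬ Wins (gr X) S ↔ ∀ a b, a ∈ S → b ∈ S → Ad X a b → Wins (gr X) (del S a b) := by
  rw [wins_iff_Ad]
  constructor
  · intro h a b ha hb hab
    by_contra hcon
    exact h ⟨a, b, ha, hb, hab, hcon⟩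
  · rintro h ⟨a, b, ha, hb, hab, hcon⟩
    exact hcon (h a b ha hb hab)

end

theorem cA_erase {S : Finset (Vx Γ Θ)} {a : Vx Γ Θ} (ha : a ∈ S) (h : isA a = true) :
    cA (S.erase a) + 1 = cA S := by
  unfold cA
  rw [Finset.filter_erase, Finset.card_erase_add_one]
  rw [Finset.mem_filter]
  exact ⟨ha, h⟩

theorem cA_erase_of_not {S : Finset (Vx Γ Θ)} {a : Vx Γ Θ} (h : isA a = false) :
    cA (S.erase a) = cA S := by
  unfold cA
  rw [Finset.filter_erase, Finset.erase_eq_of_notMem]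
  rw [Finset.mem_filter]
  rintro ⟨_, h'⟩
  rw [h] at h'
  exact absurd h' (by simp)

theorem cA_del {X : Tree Γ Θ} {S : Finset (Vx Γ Θ)} {a b : Vx Γ Θ} (h : Ad X a b) (ha : a ∈ S)
    (hb : b ∈ S) : cA (del S a b) + 1 = cA S := by
  obtain ⟨h1, h2⟩ := Ad_isA h
  rw [del, cA_erase_of_not h2, cA_erase ha h1]

theorem card_del {X : Tree Γ Θ} {S : Finset (Vx Γ Θ)} {a b : Vx Γ Θ} (h : Ad X a b) (ha : a ∈ S)
    (hb : b ∈ S) : (del S a b).card + 2 = S.card := by
  have hb' : b ∈ S.erase a := Finset.mem_erase.2 ⟨(Ad_ne h).symm, hb⟩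
  have h1 := Finset.card_erase_add_one hb'
  have h2 := Finset.card_erase_add_one ha
  rw [del]
  omega

/-- isolated vertices play no role -/
theorem wins_erase_isolated {V : Type} [DecidableEq V] (G : SimpleGraph V) (S : Finset V) (d : V)
    (h : ∀ x ∈ S, ¬ G.Adj d x) : Wins G S ↔ Wins G (S.erase d) := by
  induction S using Finset.strongInduction with
  | H S ih =>
    rw [wins_iff, wins_iff G (S.erase d)]
    constructor
    · rintro ⟨u, hu, v, hv, h1, h2⟩
      have hud : u ≠ d := by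
        rintro rfl
        exact h v hv h1
      have hvd : v ≠ d := by
        rintro rfl
        exact h u hu h1.symm
      refine ⟨u, Finset.mem_erase.2 ⟨hud, hu⟩, v, Finset.mem_erase.2 ⟨hvd, hv⟩, h1, ?_⟩
      have h3 := ih ((S.erase u).erase v)
        (lt_of_le_of_lt (Finset.erase_subset _ _) (Finset.erase_ssubset hu))
        (fun x hx => h x (Finset.mem_of_mem_erase (Finset.mem_of_mem_erase hx)))
      rw [h3] at h2
      rw [Finset.erase_right_comm (a := d), Finset.erase_right_comm (a := d)]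
      exact h2
    · rintro ⟨u, hu, v, hv, h1, h2⟩
      have hu' := Finset.mem_of_mem_erase hu
      have hv' := Finset.mem_of_mem_erase hv
      refine ⟨u, hu', v, hv', h1, ?_⟩
      have h3 := ih ((S.erase u).erase v)
        (lt_of_le_of_lt (Finset.erase_subset _ _) (Finset.erase_ssubset hu'))
        (fun x hx => h x (Finset.mem_of_mem_erase (Finset.mem_of_mem_erase hx)))
      rw [h3]
      rw [Finset.erase_right_comm (a := d), Finset.erase_right_comm (a := d)] at h2
      exact h2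

theorem image_erase_of_injOn {V W : Type} [DecidableEq V] [DecidableEq W] (f : V → W)
    (S : Finset V) (hf : Set.InjOn f S) {u : V} (hu : u ∈ S) :
    (S.image f).erase (f u) = (S.erase u).image f := by
  ext y
  simp only [Finset.mem_erase, Finset.mem_image]
  constructor
  · rintro ⟨h1, x, hx, rfl⟩
    refine ⟨x, ⟨?_, hx⟩, rfl⟩
    rintro rfl
    exact h1 rfl
  · rintro ⟨x, ⟨h1, hx⟩, rfl⟩
    refine ⟨?_, x, hx, rfl⟩
    intro h2
    exact h1 (hf hx hu h2)

/-- transport of a position along an injective map -/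
theorem wins_image {V W : Type} [DecidableEq V] [DecidableEq W] (G : SimpleGraph V)
    (G' : SimpleGraph W) (f : V → W) (S : Finset V) (hf : Set.InjOn f S)
    (h : ∀ x ∈ S, ∀ y ∈ S, G.Adj x y ↔ G'.Adj (f x) (f y)) : Wins G S ↔ Wins G' (S.image f) := by
  induction S using Finset.strongInduction with
  | H S ih =>
    have key : ∀ u ∈ S, ∀ v ∈ S, G.Adj u v →
        (Wins G ((S.erase u).erase v) ↔ Wins G' (((S.image f).erase (f u)).erase (f v))) := by
      intro u hu v hv huv
      have hv' : v ∈ S.erase u := Finset.mem_erase.2 ⟨huv.ne', hv⟩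
      have hsub : ∀ x, x ∈ (S.erase u).erase v → x ∈ S :=
        fun x hx => Finset.mem_of_mem_erase (Finset.mem_of_mem_erase hx)
      rw [image_erase_of_injOn f S hf hu, image_erase_of_injOn f (S.erase u)
        (fun x hx y hy => hf (Finset.mem_of_mem_erase hx) (Finset.mem_of_mem_erase hy)) hv']
      exact ih _ (lt_of_le_of_lt (Finset.erase_subset _ _) (Finset.erase_ssubset hu))
        (fun x hx y hy => hf (hsub x hx) (hsub y hy)) (fun x hx y hy => h x (hsub x hx) y (hsub y hy))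
    rw [wins_iff, wins_iff G' (S.image f)]
    constructor
    · rintro ⟨u, hu, v, hv, h1, h2⟩
      refine ⟨f u, Finset.mem_image_of_mem f hu, f v, Finset.mem_image_of_mem f hv,
        (h u hu v hv).1 h1, ?_⟩
      rw [← key u hu v hv h1]
      exact h2
    · rintro ⟨a, ha, b, hb, h1, h2⟩
      obtain ⟨u, hu, rfl⟩ := Finset.mem_image.1 ha
      obtain ⟨v, hv, rfl⟩ := Finset.mem_image.1 hb
      have h1' := (h u hu v hv).2 h1
      refine ⟨u, hu, v, hv, h1', ?_⟩
      rw [key u hu v hv h1']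
      exact h2

end ArcK
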