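import Pool.Agent.ArcK.QTree
import Pool.Agent.ArcK.Game

/-!
# The initial position, and the graph of the reduction
-/

namespace ArcK

open Vx Cr

deriving instance Fintype for Cr
deriving instance Fintype for Vx

/-- number of a vertex in `akEdges` -/
def code {N : ℕ} : Vx (Fin N) (Fin N × Bool) → ℕ
  | .cr c (.u k) => 32 * c.1 + k.1
  | .cr c (.p k) => 32 * c.1 + 5 + k.1
  | .cr c (.T k) => 32 * c.1 + 10 + k.1
  | .cr c .w => 32 * c.1 + 15
  | .cr c .Om => 32 * c.1 + 16
  | .cr c .OmL => 32 * c.1 + 17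
  | .z c => 32 * c.1 + 18
  | .t c false => 32 * c.1 + 19
  | .t c true => 32 * c.1 + 20
  | .tok (c, false) => 32 * c.1 + 21
  | .tl (c, false) => 32 * c.1 + 22
  | .tok (c, true) => 32 * c.1 + 23
  | .tl (c, true) => 32 * c.1 + 24

theorem code_lt {N : ℕ} (x : Vx (Fin N) (Fin N × Bool)) : code x < 32 * N := by
  match x with
  | .cr c (.u k) => have := c.2; have := k.2; simp only [code]; omega
  | .cr c (.p k) => have := c.2; have := k.2; simp only [code]; omega
  | .cr c (.T k) => have := c.2; have := k.2; simp only [code]; omega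
  | .cr c .w => have := c.2; simp only [code]; omega
  | .cr c .Om => have := c.2; simp only [code]; omega
  | .cr c .OmL => have := c.2; simp only [code]; omega
  | .z c => have := c.2; simp only [code]; omega
  | .t c false => have := c.2; simp only [code]; omega
  | .t c true => have := c.2; simp only [code]; omega
  | .tok (c, false) => have := c.2; simp only [code]; omega
  | .tl (c, false) => have := c.2; simp only [code]; omega
  | .tok (c, true) => have := c.2; simp only [code]; omega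
  | .tl (c, true) => have := c.2; simp only [code]; omega

/-- the vertex of gadget `c` with the number `r` -/
def dec {N : ℕ} (c : Fin N) (r : ℕ) : Vx (Fin N) (Fin N × Bool) :=
  if h : r < 5 then .cr c (.u ⟨r, h⟩) else
  if h : r < 10 then .cr c (.p ⟨r - 5, by omega⟩) else
  if h : r < 15 then .cr c (.T ⟨r - 10, by omega⟩) else
  if r = 15 then .cr c .w else
  if r = 16 then .cr c .Om else
  if r = 17 then .cr c .OmL else
  if r = 18 then .z c else
  if r = 19 then .t c false else
  if r = 20 then .t c true else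
  if r = 21 then .tok (c, false) else
  if r = 22 then .tl (c, false) else
  if r = 23 then .tok (c, true) else .tl (c, true)

theorem code_dec {N : ℕ} (x : Vx (Fin N) (Fin N × Bool)) :
    ∃ (c : Fin N) (r : ℕ), r < 32 ∧ code x = 32 * c.1 + r ∧ dec c r = x := by
  match x with
  | .cr c (.u k) => exact ⟨c, k.1, by omega, by simp only [code], by simp [dec]⟩
  | .cr c (.p k) => exact ⟨c, 5 + k.1, by omega, by simp only [code]; omega, by
      unfold dec
      rw [dif_neg (by omega), dif_pos (by omega)]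
      simp⟩
  | .cr c (.T k) => exact ⟨c, 10 + k.1, by omega, by simp only [code]; omega, by
      unfold dec
      rw [dif_neg (by omega), dif_neg (by omega), dif_pos (by omega)]
      simp⟩
  | .cr c .w => exact ⟨c, 15, by omega, by simp only [code], by simp [dec]⟩
  | .cr c .Om => exact ⟨c, 16, by omega, by simp only [code], by simp [dec]⟩
  | .cr c .OmL => exact ⟨c, 17, by omega, by simp only [code], by simp [dec]⟩
  | .z c => exact ⟨c, 18, by omega, by simp only [code], by simp [dec]⟩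
  | .t c false => exact ⟨c, 19, by omega, by simp only [code], by simp [dec]⟩
  | .t c true => exact ⟨c, 20, by omega, by simp only [code], by simp [dec]⟩
  | .tok (c, false) => exact ⟨c, 21, by omega, by simp only [code], by simp [dec]⟩
  | .tl (c, false) => exact ⟨c, 22, by omega, by simp only [code], by simp [dec]⟩
  | .tok (c, true) => exact ⟨c, 23, by omega, by simp only [code], by simp [dec]⟩
  | .tl (c, true) => exact ⟨c, 24, by omega, by simp only [code], by simp [dec]⟩

theorem code_injective {N : ℕ} : Function.Injective (code (N := N)) := by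
  intro x y h
  obtain ⟨c, r, hr, hx, hx'⟩ := code_dec x
  obtain ⟨d, s, hs, hy, hy'⟩ := code_dec y
  rw [hx, hy] at h
  have h1 : c = d := Fin.ext (by omega)
  have h2 : r = s := by omega
  rw [← hx', ← hy', h1, h2]

/-- the code as an element of `Fin` -/
def codeF (n : ℕ) (cls : List (List (ℕ × Bool))) (x : Vx (Fin (Ng n cls)) (Fin (Ng n cls) × Bool)) :
    Fin (akN n cls) := ⟨code x, code_lt x⟩

theorem codeF_injective (n : ℕ) (cls : List (List (ℕ × Bool))) :
    Function.Injective (codeF n cls) := by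
  intro x y h
  exact code_injective (congrArg Fin.val h)

/-! ### the edges -/

section edges

variable {n : ℕ} {cls : List (List (ℕ × Bool))}

/-- `(a, b)` is the code of an edge between real vertices -/
def IsE (n : ℕ) (cls : List (List (ℕ × Bool))) (e : ℕ × ℕ) : Prop :=
  ∃ x y, Real n cls x ∧ Real n cls y ∧ Ad (qtree n cls) x y ∧ (code x, code y) = e

theorem mem_lockEdges {c d r : ℕ} {e : ℕ × ℕ} :
    e ∈ lockEdges c d r ↔ ∃ k : Fin 5, e = (32 * c + k.1, 32 * d + r) := by
  simp only [lockEdges, List.mem_map]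
  constructor
  · rintro ⟨k, hk, rfl⟩
    have : k < 5 := by
      simp only [List.mem_cons, List.not_mem_nil, or_false] at hk
      omega
    exact ⟨⟨k, this⟩, rfl⟩
  · rintro ⟨k, rfl⟩
    refine ⟨k.1, ?_, rfl⟩
    have := k.2
    simp only [List.mem_cons, List.not_mem_nil, or_false]
    omega

theorem mem_chainEdges {c d : ℕ} {e : ℕ × ℕ} :
    e ∈ chainEdges c d ↔ (∃ k : Fin 5, e = (32 * c + k.1, 32 * c + 18)) ∨
      (∃ k : Fin 5, e = (32 * c + k.1, 32 * d + 19)) ∨ e = (32 * d + 15, 32 * c + 18) := by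
  simp only [chainEdges, List.mem_append, mem_lockEdges, List.mem_singleton, or_assoc]

theorem isE_core {e : ℕ × ℕ} (c : Fin (Ng n cls)) (h : e ∈ coreEdges c.1) : IsE n cls e := by
  simp only [coreEdges, List.map_cons, List.map_nil, List.mem_cons, List.not_mem_nil, or_false] at h
  rcases h with rfl | rfl | rfl | rfl | rfl | rfl | rfl | rfl | rfl | rfl | rfl | rfl | rfl | rfl |
    rfl | rfl | rfl | rfl | rfl | rfl | rfl | rfl | rfl
  · exact ⟨.cr c (.u 0), .cr c (.p 0), trivial, trivial, .up c 0, rfl⟩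
  · exact ⟨.cr c (.u 1), .cr c (.p 1), trivial, trivial, .up c 1, rfl⟩
  · exact ⟨.cr c (.u 2), .cr c (.p 2), trivial, trivial, .up c 2, rfl⟩
  · exact ⟨.cr c (.u 3), .cr c (.p 3), trivial, trivial, .up c 3, rfl⟩
  · exact ⟨.cr c (.u 4), .cr c (.p 4), trivial, trivial, .up c 4, rfl⟩
  · exact ⟨.cr c (.u 2), .cr c (.T 2), trivial, by simp [Real], .uT c 2, rfl⟩
  · exact ⟨.cr c (.u 3), .cr c (.T 3), trivial, by simp [Real], .uT c 3, rfl⟩
  · exact ⟨.cr c (.u 4), .cr c (.T 4), trivial, by simp [Real], .uT c 4, rfl⟩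
  · exact ⟨.cr c .w, .cr c (.p 0), trivial, trivial, .wp c 0, rfl⟩
  · exact ⟨.cr c .w, .cr c (.p 1), trivial, trivial, .wp c 1, rfl⟩
  · exact ⟨.cr c .w, .cr c (.p 2), trivial, trivial, .wp c 2, rfl⟩
  · exact ⟨.cr c .w, .cr c (.p 3), trivial, trivial, .wp c 3, rfl⟩
  · exact ⟨.cr c .w, .cr c (.p 4), trivial, trivial, .wp c 4, rfl⟩
  · exact ⟨.cr c .Om, .cr c (.T 2), trivial, by simp [Real], .OT c 2, rfl⟩
  · exact ⟨.cr c .Om, .cr c (.T 3), trivial, by simp [Real], .OT c 3, rfl⟩
  · exact ⟨.cr c .Om, .cr c (.T 4), trivial, by simp [Real], .OT c 4, rfl⟩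
  · exact ⟨.cr c .Om, .cr c .OmL, trivial, trivial, .OL c, rfl⟩
  · exact ⟨.cr c (.u 0), .t c false, trivial, trivial, .ut c 0 false, rfl⟩
  · exact ⟨.cr c (.u 1), .t c false, trivial, trivial, .ut c 1 false, rfl⟩
  · exact ⟨.cr c (.u 2), .t c false, trivial, trivial, .ut c 2 false, rfl⟩
  · exact ⟨.cr c (.u 3), .t c false, trivial, trivial, .ut c 3 false, rfl⟩
  · exact ⟨.cr c (.u 4), .t c false, trivial, trivial, .ut c 4 false, rfl⟩
  · exact ⟨.tok (c, false), .tl (c, false), Or.inl rfl, Or.inl rfl, .tt _, rfl⟩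

theorem isE_z (c : Fin (Ng n cls)) (hc : c.1 ≠ 0 ∧ ¬ (c.1 < 3 * n ∧ c.1 % 3 = 2)) (k : Fin 5) :
    IsE n cls (32 * c.1 + k.1, 32 * c.1 + 18) :=
  ⟨.cr c (.u k), .z c, trivial, hc, .uz c k, rfl⟩

theorem isE_g (c d : Fin (Ng n cls)) (hcd : (qtree n cls).par c = some d) (k : Fin 5) :
    IsE n cls (32 * c.1 + k.1, 32 * d.1 + 19) :=
  ⟨.cr c (.u k), .t d false, trivial, trivial, .ug c k d false hcd, rfl⟩

theorem isE_chain {e : ℕ × ℕ} (c d : Fin (Ng n cls))
    (hc : c.1 ≠ 0 ∧ ¬ (c.1 < 3 * n ∧ c.1 % 3 = 2)) (hcd : (qtree n cls).par c = some d)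
    (h : e ∈ chainEdges c.1 d.1) : IsE n cls e := by
  rw [mem_chainEdges] at h
  rcases h with ⟨k, rfl⟩ | ⟨k, rfl⟩ | rfl
  · exact isE_z c hc k
  · exact isE_g c d hcd k
  · exact ⟨.cr d .w, .z c, trivial, hc, .wz d c hcd, rfl⟩

/-- `blockEdges` in terms of four gadgets -/
def blockE (g0 g1 g2 g3 : ℕ) : List (ℕ × ℕ) :=
  [(32 * g0 + 23, 32 * g0 + 24), (32 * g0 + 23, 32 * g0 + 19)] ++
  chainEdges g1 g0 ++ lockEdges g2 g1 19 ++ lockEdges g2 g2 20 ++
  [(32 * g1 + 15, 32 * g2 + 19), (32 * g1 + 15, 32 * g2 + 20),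
   (32 * g2 + 23, 32 * g2 + 24), (32 * g2 + 23, 32 * g2 + 20)] ++
  chainEdges g3 g2 ++ lockEdges g3 g2 20

theorem blockEdges_eq (i : ℕ) :
    blockEdges i = blockE (3 * i) (3 * i + 1) (3 * i + 2) (3 * i + 3) := rfl

theorem mem_blockE {g0 g1 g2 g3 : ℕ} {e : ℕ × ℕ} :
    e ∈ blockE g0 g1 g2 g3 ↔
      e = (32 * g0 + 23, 32 * g0 + 24) ∨ e = (32 * g0 + 23, 32 * g0 + 19) ∨
      e ∈ chainEdges g1 g0 ∨ e ∈ lockEdges g2 g1 19 ∨ e ∈ lockEdges g2 g2 20 ∨
      e = (32 * g1 + 15, 32 * g2 + 19) ∨ e = (32 * g1 + 15, 32 * g2 + 20) ∨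
      e = (32 * g2 + 23, 32 * g2 + 24) ∨ e = (32 * g2 + 23, 32 * g2 + 20) ∨
      e ∈ chainEdges g3 g2 ∨ e ∈ lockEdges g3 g2 20 := by
  simp only [blockE, List.mem_append, List.mem_cons, List.not_mem_nil, or_false, or_assoc]

theorem isE_block {e : ℕ × ℕ} {i : ℕ} (hi : i < n) (h : e ∈ blockEdges i) : IsE n cls e := by
  obtain ⟨g0, hg0⟩ : ∃ g : Fin (Ng n cls), g.1 = 3 * i := ⟨⟨3 * i, by unfold Ng; omega⟩, rfl⟩
  obtain ⟨g1, hg1⟩ : ∃ g : Fin (Ng n cls), g.1 = 3 * i + 1 :=
    ⟨⟨3 * i + 1, by unfold Ng; omega⟩, rfl⟩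
  obtain ⟨g2, hg2⟩ : ∃ g : Fin (Ng n cls), g.1 = 3 * i + 2 :=
    ⟨⟨3 * i + 2, by unfold Ng; omega⟩, rfl⟩
  obtain ⟨g3, hg3⟩ : ∃ g : Fin (Ng n cls), g.1 = 3 * i + 3 :=
    ⟨⟨3 * i + 3, by unfold Ng; omega⟩, rfl⟩
  have p1 : (qtree n cls).par g1 = some g0 := by rw [qtree_par_iff]; omega
  have p2 : (qtree n cls).par g2 = some g1 := by rw [qtree_par_iff]; omega
  have p3 : (qtree n cls).par g3 = some g2 := by rw [qtree_par_iff]; omega
  have m2 : (qtree n cls).mg g2 = true := by rw [qtree_mg_true]; omega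
  have r0 : Real n cls (.tok (g0, true)) := Or.inr (by simp only; omega)
  have r2 : Real n cls (.tok (g2, true)) := Or.inr (by simp only; omega)
  have rt : Real n cls (.t g2 true) := ⟨by omega, by omega⟩
  have z1 : g1.1 ≠ 0 ∧ ¬ (g1.1 < 3 * n ∧ g1.1 % 3 = 2) := by omega
  have z3 : g3.1 ≠ 0 ∧ ¬ (g3.1 < 3 * n ∧ g3.1 % 3 = 2) := by omega
  rw [blockEdges_eq, ← hg3, ← hg2, ← hg1, ← hg0, mem_blockE] at h
  simp only [mem_lockEdges] at h
  rcases h with rfl | rfl | h | ⟨k, rfl⟩ | ⟨k, rfl⟩ | rfl | rfl | rfl | rfl | h | ⟨k, rfl⟩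
  · exact ⟨.tok (g0, true), .tl (g0, true), r0, r0, .tt _, rfl⟩
  · exact ⟨.tok (g0, true), .t g0 false, r0, trivial, .ta _ _ _
      (Or.inr (Or.inl ⟨by omega, by omega, rfl, rfl⟩)), rfl⟩
  · exact isE_chain g1 g0 z1 p1 h
  · exact ⟨.cr g2 (.u k), .t g1 false, trivial, trivial, .ug g2 k g1 false p2, rfl⟩
  · exact ⟨.cr g2 (.u k), .t g2 true, trivial, rt, .ut g2 k true, rfl⟩
  · exact ⟨.cr g1 .w, .t g2 false, trivial, trivial, .wt g1 g2 false p2 m2, rfl⟩
  · exact ⟨.cr g1 .w, .t g2 true, trivial, rt, .wt g1 g2 true p2 m2, rfl⟩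
  · exact ⟨.tok (g2, true), .tl (g2, true), r2, r2, .tt _, rfl⟩
  · exact ⟨.tok (g2, true), .t g2 true, r2, rt, .ta _ _ _
      (Or.inr (Or.inr (Or.inl ⟨by omega, by omega, rfl, rfl⟩))), rfl⟩
  · exact isE_chain g3 g2 z3 p3 h
  · exact ⟨.cr g3 (.u k), .t g2 true, trivial, rt, .ug g3 k g2 true p3, rfl⟩

theorem isE_of_mem (hv : ∀ C ∈ cls, ∀ l ∈ C, l.1 < 2 * n) {e : ℕ × ℕ}
    (h : e ∈ akEdges n cls) : IsE n cls e := by
  simp only [akEdges, List.mem_append, List.mem_flatMap, List.mem_map, List.mem_range] at h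
  rcases h with ((⟨c, hc, h⟩ | ⟨c, hc, rfl⟩) | ⟨i, hi, h⟩) | ⟨⟨C, j⟩, hj, h⟩
  · exact isE_core ⟨c, hc⟩ h
  · obtain ⟨g, hg⟩ : ∃ g : Fin (Ng n cls), g.1 = c := ⟨⟨c, by unfold Ng; omega⟩, rfl⟩
    subst hg
    exact ⟨.tok (g, false), .t g false, Or.inl rfl, trivial, .ta _ _ _
      (Or.inl ⟨by omega, rfl, rfl⟩), rfl⟩
  · exact isE_block hi h
  · have hjC : cls[j]? = some C := by
      rw [List.mk_mem_zipIdx_iff_getElem?] at hj
      exact hj
    have hj' : j < cls.length := (List.getElem?_eq_some_iff.1 hjC).1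
    have hC : C ∈ cls := List.mem_of_getElem? hjC
    obtain ⟨g, hg⟩ : ∃ g : Fin (Ng n cls), g.1 = 3 * n + 1 + j :=
      ⟨⟨3 * n + 1 + j, by unfold Ng; omega⟩, rfl⟩
    obtain ⟨g', hg'⟩ : ∃ g : Fin (Ng n cls), g.1 = 3 * n := ⟨⟨3 * n, by unfold Ng; omega⟩, rfl⟩
    have p1 : (qtree n cls).par g = some g' := by rw [qtree_par_iff]; omega
    simp only [clauseEdges, List.mem_append, List.mem_map] at h
    rcases h with h | ⟨l, hl, rfl⟩
    · rw [← hg, ← hg'] at h
      exact isE_chain g g' (by omega) p1 h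
    · have hl2 := hv C hC l hl
      obtain ⟨d, hd⟩ : ∃ d : Fin (Ng n cls), d.1 = 3 * (l.1 / 2) + 2 * (l.1 % 2) :=
        ⟨⟨3 * (l.1 / 2) + 2 * (l.1 % 2), by unfold Ng; omega⟩, rfl⟩
      refine ⟨.tok (d, l.2), .t g false, Or.inr (by simp only; omega), trivial, .ta _ _ _
        (Or.inr (Or.inr (Or.inr ⟨rfl, j, C, hg, hjC, l, hl, hd, rfl⟩))), ?_⟩
      rw [← hg, litToken, ← hd]
      cases l.2 <;> rfl

/-- adjacent real vertices are in the list -/
theorem mem_of_ad {x y : Vx (Fin (Ng n cls)) (Fin (Ng n cls) × Bool)}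
    (hx : Real n cls x) (hy : Real n cls y) (h : Ad (qtree n cls) x y) :
    (code x, code y) ∈ akEdges n cls := by
  -- the parts of the list
  have core : ∀ (c : Fin (Ng n cls)) (e : ℕ × ℕ), e ∈ coreEdges c.1 → e ∈ akEdges n cls := by
    intro c e he
    simp only [akEdges, List.mem_append, List.mem_flatMap, List.mem_range]
    exact Or.inl (Or.inl (Or.inl ⟨c.1, c.2, he⟩))
  have trig : ∀ (c : Fin (Ng n cls)), c.1 ≤ 3 * n →
      (32 * c.1 + 21, 32 * c.1 + 19) ∈ akEdges n cls := by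
    intro c hc
    simp only [akEdges, List.mem_append, List.mem_map, List.mem_range]
    exact Or.inl (Or.inl (Or.inr ⟨c.1, by omega, rfl⟩))
  have block : ∀ (i : ℕ) (e : ℕ × ℕ), i < n → e ∈ blockEdges i → e ∈ akEdges n cls := by
    intro i e hi he
    simp only [akEdges, List.mem_append, List.mem_flatMap, List.mem_range]
    exact Or.inl (Or.inr ⟨i, hi, he⟩)
  have clause : ∀ (j : ℕ) (C : List (ℕ × Bool)) (e : ℕ × ℕ), cls[j]? = some C →
      e ∈ clauseEdges n j C → e ∈ akEdges n cls := by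
    intro j C e hj he
    simp only [akEdges, List.mem_append, List.mem_flatMap]
    exact Or.inr ⟨(C, j), List.mk_mem_zipIdx_iff_getElem?.2 hj, he⟩
  -- chain edges
  have chain : ∀ (c d : Fin (Ng n cls)) (e : ℕ × ℕ), (qtree n cls).par c = some d →
      (qtree n cls).mg c = false → e ∈ chainEdges c.1 d.1 → e ∈ akEdges n cls := by
    intro c d e hcd hm he
    rw [qtree_par_iff] at hcd
    rw [qtree_mg_false] at hm
    rcases hcd with ⟨h1, h2⟩ | ⟨h1, h2⟩
    · by_cases h3 : c.1 % 3 = 1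
      · have hc' : c.1 = 3 * (d.1 / 3) + 1 := by omega
        have hd' : d.1 = 3 * (d.1 / 3) := by omega
        refine block (d.1 / 3) e (by omega) ?_
        rw [blockEdges_eq, ← hc', mem_blockE, ← hd']
        tauto
      · have hc' : c.1 = 3 * (d.1 / 3) + 3 := by omega
        have hd' : d.1 = 3 * (d.1 / 3) + 2 := by omega
        refine block (d.1 / 3) e (by omega) ?_
        rw [blockEdges_eq, ← hc', mem_blockE, ← hd']
        tauto
    · obtain ⟨j, hj⟩ : ∃ j, c.1 = 3 * n + 1 + j := ⟨c.1 - (3 * n + 1), by omega⟩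
      have hj' : j < cls.length := by
        have := c.2
        unfold Ng at this
        omega
      refine clause j cls[j] e (List.getElem?_eq_getElem hj') ?_
      simp only [clauseEdges, List.mem_append]
      left
      rw [← hj, ← h2]
      exact he
  cases h with
  | up c k =>
    refine core c _ ?_
    simp only [code, coreEdges]
    fin_cases k <;> simp
  | uT c k =>
    have hk : 2 ≤ k.1 := hy
    refine core c _ ?_
    simp only [code, coreEdges]
    fin_cases k <;> simp at hk ⊢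
  | uz c k =>
    obtain ⟨h0, h1⟩ : c.1 ≠ 0 ∧ ¬ (c.1 < 3 * n ∧ c.1 % 3 = 2) := hy
    obtain ⟨d, hd⟩ : ∃ d, (qtree n cls).par c = some d := by
      cases hd : (qtree n cls).par c with
      | none => exact absurd (qtree_par_eq_none.1 hd) h0
      | some d => exact ⟨d, rfl⟩
    refine chain c d _ hd (qtree_mg_false.2 h1) ?_
    rw [mem_chainEdges]
    exact Or.inl ⟨k, rfl⟩
  | ut c k b =>
    cases b with
    | false =>
      refine core c _ ?_
      simp only [code, coreEdges]
      fin_cases k <;> simp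
    | true =>
      obtain ⟨h0, h1⟩ : c.1 < 3 * n ∧ c.1 % 3 = 2 := hy
      have hc' : c.1 = 3 * (c.1 / 3) + 2 := by omega
      refine block (c.1 / 3) _ (by omega) ?_
      rw [blockEdges_eq, ← hc', mem_blockE]
      simp only [mem_lockEdges]
      exact Or.inr (Or.inr (Or.inr (Or.inr (Or.inl ⟨k, rfl⟩))))
  | ug c k q b hq =>
    cases b with
    | false =>
      cases hm : (qtree n cls).mg c with
      | false =>
        refine chain c q _ hq hm ?_
        rw [mem_chainEdges]
        exact Or.inr (Or.inl ⟨k, rfl⟩)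
      | true =>
        rw [qtree_mg_true] at hm
        rw [qtree_par_iff] at hq
        have hc' : c.1 = 3 * (c.1 / 3) + 2 := by omega
        have hq' : q.1 = 3 * (c.1 / 3) + 1 := by omega
        refine block (c.1 / 3) _ (by omega) ?_
        rw [blockEdges_eq, ← hc', ← hq', mem_blockE]
        simp only [mem_lockEdges]
        exact Or.inr (Or.inr (Or.inr (Or.inl ⟨k, rfl⟩)))
    | true =>
      obtain ⟨h0, h1⟩ : q.1 < 3 * n ∧ q.1 % 3 = 2 := hy
      rw [qtree_par_iff] at hq
      have hc' : q.1 = 3 * (q.1 / 3) + 2 := by omega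
      have hq' : c.1 = 3 * (q.1 / 3) + 3 := by omega
      refine block (q.1 / 3) _ (by omega) ?_
      rw [blockEdges_eq, ← hc', ← hq', mem_blockE]
      simp only [mem_lockEdges]
      exact Or.inr (Or.inr (Or.inr (Or.inr (Or.inr (Or.inr (Or.inr (Or.inr (Or.inr
        (Or.inr ⟨k, rfl⟩)))))))))
  | wp c k =>
    refine core c _ ?_
    simp only [code, coreEdges]
    fin_cases k <;> simp
  | wz c e he =>
    obtain ⟨h0, h1⟩ : e.1 ≠ 0 ∧ ¬ (e.1 < 3 * n ∧ e.1 % 3 = 2) := hy
    refine chain e c _ he (qtree_mg_false.2 h1) ?_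
    rw [mem_chainEdges]
    exact Or.inr (Or.inr rfl)
  | wt c e b he hm =>
    rw [qtree_mg_true] at hm
    rw [qtree_par_iff] at he
    have hc' : e.1 = 3 * (e.1 / 3) + 2 := by omega
    have hq' : c.1 = 3 * (e.1 / 3) + 1 := by omega
    refine block (e.1 / 3) _ (by omega) ?_
    rw [blockEdges_eq, ← hc', ← hq', mem_blockE]
    cases b
    · exact Or.inr (Or.inr (Or.inr (Or.inr (Or.inr (Or.inl rfl)))))
    · exact Or.inr (Or.inr (Or.inr (Or.inr (Or.inr (Or.inr (Or.inl rfl))))))
  | OT c k =>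
    have hk : 2 ≤ k.1 := hy
    refine core c _ ?_
    simp only [code, coreEdges]
    fin_cases k <;> simp at hk ⊢
  | OL c =>
    refine core c _ ?_
    simp [code, coreEdges]
  | tt θ =>
    obtain ⟨c, b⟩ := θ
    cases b with
    | false =>
      refine core c _ ?_
      simp [code, coreEdges]
    | true =>
      have hx' : true = false ∨ (c.1 < 3 * n ∧ c.1 % 3 ≠ 1) := hx
      rcases hx' with hx' | ⟨h0, h1⟩
      · exact absurd hx' (by simp)
      by_cases h2 : c.1 % 3 = 0
      · have hc' : c.1 = 3 * (c.1 / 3) := by omega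
        refine block (c.1 / 3) _ (by omega) ?_
        rw [blockEdges_eq, ← hc', mem_blockE]
        exact Or.inl rfl
      · have hc' : c.1 = 3 * (c.1 / 3) + 2 := by omega
        refine block (c.1 / 3) _ (by omega) ?_
        rw [blockEdges_eq, ← hc', mem_blockE]
        exact Or.inr (Or.inr (Or.inr (Or.inr (Or.inr (Or.inr (Or.inr (Or.inl rfl)))))))
  | ta θ c b hta =>
    rw [qtree_ta_def] at hta
    rcases hta with ⟨h1, rfl, rfl⟩ | ⟨h1, h2, rfl, rfl⟩ | ⟨h1, h2, rfl, rfl⟩ |
      ⟨rfl, j, C, h1, hC, l, hl, hl1, hl2⟩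
    · exact trig c h1
    · have hc' : c.1 = 3 * (c.1 / 3) := by omega
      refine block (c.1 / 3) _ (by omega) ?_
      rw [blockEdges_eq, ← hc', mem_blockE]
      exact Or.inr (Or.inl rfl)
    · have hc' : c.1 = 3 * (c.1 / 3) + 2 := by omega
      refine block (c.1 / 3) _ (by omega) ?_
      rw [blockEdges_eq, ← hc', mem_blockE]
      exact Or.inr (Or.inr (Or.inr (Or.inr (Or.inr (Or.inr (Or.inr (Or.inr (Or.inl rfl))))))))
    · refine clause j C _ hC ?_
      simp only [clauseEdges, List.mem_append, List.mem_map]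
      right
      refine ⟨l, hl, ?_⟩
      obtain ⟨d, b⟩ := θ
      simp only at hl1 hl2
      subst hl2
      rw [litToken, ← hl1, ← h1]
      cases l.2 <;> rfl

end edges

/-! ### the transfer -/

theorem wins_of_isolated {V : Type} [DecidableEq V] (G : SimpleGraph V) (S' : Finset V) :
    ∀ (m : ℕ) (S : Finset V), (S \ S').card = m → S' ⊆ S → (∀ d ∈ S, d ∉ S' → ∀ x, ¬ G.Adj d x) →
    (Wins G S ↔ Wins G S') := by
  intro m
  induction m with
  | zero =>
    intro S hm hS _
    have h1 : S ⊆ S' := by rwa [Finset.card_eq_zero, Finset.sdiff_eq_empty_iff_subset] at hm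
    rw [Finset.Subset.antisymm h1 hS]
  | succ m ih =>
    intro S hm hS hd
    have hne : (S \ S').Nonempty := by rw [← Finset.card_pos]; omega
    obtain ⟨d, hdS⟩ := hne
    rw [Finset.mem_sdiff] at hdS
    rw [wins_erase_isolated G S d (fun x _ => hd d hdS.1 hdS.2 x)]
    apply ih
    · rw [Finset.erase_sdiff_comm, Finset.card_erase_of_mem (Finset.mem_sdiff.2 hdS), hm]
      rfl
    · intro x hx
      refine Finset.mem_erase.2 ⟨?_, hS hx⟩
      rintro rfl
      exact hdS.2 hx
    · intro x hx hxS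
      exact hd x (Finset.mem_of_mem_erase hx) hxS

/-- the graph `akEdges` is the graph of the initial position, up to isolated vertices -/
theorem wins_transfer (n : ℕ) (cls : List (List (ℕ × Bool)))
    (hv : ∀ C ∈ cls, ∀ l ∈ C, l.1 < 2 * n)
    (S0 : Finset (Vx (Fin (Ng n cls)) (Fin (Ng n cls) × Bool))) (hS : ∀ x, x ∈ S0 ↔ Real n cls x) :
    FirstWins (graphOf (akN n cls) (akEdges n cls)) ↔ Wins (gr (qtree n cls)) S0 := by
  have hadj : ∀ x ∈ S0, ∀ y ∈ S0, (gr (qtree n cls)).Adj x y ↔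
      (graphOf (akN n cls) (akEdges n cls)).Adj (codeF n cls x) (codeF n cls y) := by
    intro x hx y hy
    rw [hS] at hx hy
    simp only [gr, graphOf, SimpleGraph.fromRel_adj]
    have hE : ∀ x y : Vx (Fin (Ng n cls)) (Fin (Ng n cls) × Bool), Real n cls x → Real n cls y →
        (Ad (qtree n cls) x y ↔ ((codeF n cls x).1, (codeF n cls y).1) ∈ akEdges n cls) := by
      intro x y hx hy
      constructor
      · exact mem_of_ad hx hy
      · intro h
        obtain ⟨x', y', _, _, h1, h2⟩ := isE_of_mem hv h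
        rw [Prod.mk.injEq] at h2
        have h3 : x' = x := code_injective h2.1
        have h4 : y' = y := code_injective h2.2
        rw [← h3, ← h4]
        exact h1
    rw [hE x y hx hy, hE y x hy hx]
    have hne : x ≠ y ↔ codeF n cls x ≠ codeF n cls y := (codeF_injective n cls).ne_iff.symm
    rw [hne]
  rw [wins_image _ _ (codeF n cls) S0 (codeF_injective n cls).injOn hadj]
  refine wins_of_isolated _ _ _ Finset.univ rfl (Finset.subset_univ _) ?_
  intro d _ hd x hdx
  simp only [graphOf, SimpleGraph.fromRel_adj] at hdx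
  apply hd
  rw [Finset.mem_image]
  rcases hdx.2 with h | h
  · obtain ⟨x', y', hx', hy', h1, h2⟩ := isE_of_mem hv h
    rw [Prod.mk.injEq] at h2
    exact ⟨x', (hS _).2 hx', Fin.ext h2.1⟩
  · obtain ⟨x', y', hx', hy', h1, h2⟩ := isE_of_mem hv h
    rw [Prod.mk.injEq] at h2
    exact ⟨y', (hS _).2 hy', Fin.ext h2.2⟩

/-! ### the initial position -/

section start

variable {n : ℕ} {cls : List (List (ℕ × Bool))}

/-- an involution without fixed points on the real vertices of side `A` -/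
def ivl {N : ℕ} : Vx (Fin N) (Fin N × Bool) → Vx (Fin N) (Fin N × Bool)
  | .cr c (.u 0) => .cr c (.u 1)
  | .cr c (.u 1) => .cr c (.u 0)
  | .cr c (.u 2) => .cr c (.u 3)
  | .cr c (.u 3) => .cr c (.u 2)
  | .cr c (.u 4) => .cr c .w
  | .cr c .w => .cr c (.u 4)
  | .cr c .Om => .tok (c, false)
  | .tok (c, false) => .cr c .Om
  | .tok (c, true) => if c.1 % 3 = 0 then
      (if h : c.1 + 2 < N then .tok (⟨c.1 + 2, h⟩, true) else .tok (c, true)) else
      .tok (⟨c.1 - 2, by omega⟩, true)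
  | x => x

theorem ivl_spec (x : Vx (Fin (Ng n cls)) (Fin (Ng n cls) × Bool)) (hA : isA x = true)
    (hx : Real n cls x) :
    isA (ivl x) = true ∧ Real n cls (ivl x) ∧ ivl x ≠ x ∧ ivl (ivl x) = x := by
  match x with
  | .cr c (.u k) =>
    fin_cases k
    · exact ⟨rfl, trivial, by simp [ivl], rfl⟩
    · exact ⟨rfl, trivial, by simp [ivl], rfl⟩
    · exact ⟨rfl, trivial, by simp [ivl], rfl⟩
    · exact ⟨rfl, trivial, by simp [ivl], rfl⟩
    · exact ⟨rfl, trivial, by simp [ivl], rfl⟩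
  | .cr c .w => exact ⟨rfl, trivial, by simp [ivl], rfl⟩
  | .cr c .Om => exact ⟨rfl, Or.inl rfl, by simp [ivl], rfl⟩
  | .tok (c, false) => exact ⟨rfl, trivial, by simp [ivl], rfl⟩
  | .tok (c, true) =>
    have hx' : true = false ∨ (c.1 < 3 * n ∧ c.1 % 3 ≠ 1) := hx
    rcases hx' with hx' | ⟨h0, h1⟩
    · exact absurd hx' (by simp)
    by_cases h2 : c.1 % 3 = 0
    · have h3 : c.1 + 2 < Ng n cls := by unfold Ng; omega
      have e : ivl (.tok (c, true) : Vx (Fin (Ng n cls)) (Fin (Ng n cls) × Bool)) =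
          .tok (⟨c.1 + 2, h3⟩, true) := by
        simp only [ivl]
        rw [if_pos h2, dif_pos h3]
      rw [e]
      refine ⟨rfl, Or.inr (by simp only; omega), ?_, ?_⟩
      · intro h
        injection h with h
        rw [Prod.mk.injEq, Fin.ext_iff] at h
        simp only at h
        omega
      · simp only [ivl]
        rw [if_neg (by omega)]
        simp
    · have e : ivl (.tok (c, true) : Vx (Fin (Ng n cls)) (Fin (Ng n cls) × Bool)) =
          .tok (⟨c.1 - 2, by omega⟩, true) := by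
        simp only [ivl]
        rw [if_neg h2]
      rw [e]
      refine ⟨rfl, Or.inr (by simp only; omega), ?_, ?_⟩
      · intro h
        injection h with h
        rw [Prod.mk.injEq, Fin.ext_iff] at h
        simp only at h
        omega
      · simp only [ivl]
        rw [if_pos (by omega), dif_pos (by omega)]
        congr 2
        apply Fin.ext
        simp only
        omega
  | .cr c (.p k) => simp [isA] at hA
  | .cr c (.T k) => simp [isA] at hA
  | .cr c .OmL => simp [isA] at hA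
  | .z c => simp [isA] at hA
  | .t c b => simp [isA] at hA
  | .tl θ => simp [isA] at hA

theorem even_cA (S0 : Finset (Vx (Fin (Ng n cls)) (Fin (Ng n cls) × Bool)))
    (hS : ∀ x, x ∈ S0 ↔ Real n cls x) : Even (cA S0) := by
  have h : ∑ x ∈ S0.filter (fun x => isA x = true), (1 : ZMod 2) = 0 := by
    refine Finset.sum_involution (fun x _ => ivl x) ?_ ?_ ?_ ?_
    · intro a ha
      decide
    · intro a ha _
      rw [Finset.mem_filter, hS] at ha
      exact (ivl_spec a ha.2 ha.1).2.2.1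
    · intro a ha
      rw [Finset.mem_filter, hS] at ha ⊢
      obtain ⟨h1, h2, _⟩ := ivl_spec a ha.2 ha.1
      exact ⟨h2, h1⟩
    · intro a ha
      rw [Finset.mem_filter, hS] at ha
      exact (ivl_spec a ha.2 ha.1).2.2.2
  rw [Finset.sum_const, nsmul_eq_mul, mul_one] at h
  exact (ZMod.natCast_eq_zero_iff_even).1 h

/-- the initial position: all real vertices -/
theorem exists_start (n : ℕ) (cls : List (List (ℕ × Bool))) :
    ∃ S0 : Finset (Vx (Fin (Ng n cls)) (Fin (Ng n cls) × Bool)), (∀ x, x ∈ S0 ↔ Real n cls x) ∧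
      Even (cA S0) ∧ Open (qtree n cls) S0 (root n cls) (t (root n cls) false) := by
  classical
  obtain ⟨S0, hS⟩ : ∃ S0 : Finset (Vx (Fin (Ng n cls)) (Fin (Ng n cls) × Bool)),
      ∀ x, x ∈ S0 ↔ Real n cls x := ⟨Finset.univ.filter (Real n cls), by simp⟩
  refine ⟨S0, hS, even_cA S0 hS, ?_⟩
  have hI : ∀ c, Intact S0 c := by
    intro c
    refine ⟨fun k => ⟨(hS _).2 trivial, (hS _).2 trivial⟩, fun k hk => (hS _).2 hk,
      (hS _).2 trivial, (hS _).2 trivial, (hS _).2 trivial⟩
  have hF : ∀ c, Fresh (qtree n cls) S0 c := by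
    intro c
    refine ⟨hI c, (hS _).2 trivial, fun h => (hS _).2 ?_, fun h1 h2 => (hS _).2 ?_⟩
    · rw [qtree_mg_true] at h
      exact h
    · rw [qtree_mg_false] at h1
      rw [Ne, qtree_par_eq_none] at h2
      exact ⟨h2, h1⟩
  have hnp : ∀ p, (qtree n cls).par (root n cls) ≠ some p := by
    intro p hp
    have : (qtree n cls).par (root n cls) = none := qtree_par_eq_none.2 rfl
    rw [this] at hp
    exact absurd hp (by simp)
  have hnt : ∀ c, (qtree n cls).mg c = false → t c true ∉ S0 := by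
    intro c hc h
    rw [hS] at h
    rw [qtree_mg_false] at hc
    exact hc h
  have hnd : ∀ p, ¬ Dn S0 p := fun p h => h.1 ((hS _).2 trivial)
  exact {
    cur := hI _
    zc := fun h => by
      rw [hS] at h
      exact h.1 rfl
    oth := fun e _ => Or.inr (hF e)
    ch := fun e _ => hF e
    chf := fun e f _ _ _ => hF f
    anc := fun p hp => absurd hp (hnp p)
    mgf := fun e p _ _ _ h => absurd h (hnd p)
    tt := hnt
    zz := fun c hc h => by
      rw [hS] at h
      rcases hc with hc | hc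
      · rw [qtree_mg_true] at hc
        exact h.2 hc
      · rw [qtree_par_eq_none] at hc
        exact h.1 hc
    omL := fun c _ => (hS _).2 trivial
    tl := fun θ h => by
      rw [hS] at h ⊢
      exact h
    T01 := fun c k hk h => by
      rw [hS] at h
      have h' : 2 ≤ k.1 := h
      omega
    lock := Or.inl ⟨false, rfl⟩
    own := fun _ => rfl
    mem := (hS _).2 trivial
    only := fun x hx hxS => by
      rcases hx with ⟨b, rfl⟩ | ⟨p, b, hp, _⟩
      · cases b
        · rfl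
        · exfalso
          refine hnt _ ?_ hxS
          rw [qtree_mg_false]
          simp [root]
      · exact absurd hp (hnp p) }

end start

end ArcK
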