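import Pool.Agent.ArcK.Inst
import Pool.Agent.ArcK.Start
import Pool.Agent.ArcK.OSide
import Pool.Agent.ArcK.ESide

/-!
# The reduction from quantified Boolean formulas to Arc-Kayles
-/

namespace ArcK

open Vx Cr

section hot

variable {Γ Θ : Type} [DecidableEq Γ] [DecidableEq Θ] {X : Tree Γ Θ} {S : Finset (Vx Γ Θ)}

theorem cr_mem_del {c e : Γ} {θ : Θ} {b : Bool} {y : Cr} :
    (cr e y : Vx Γ Θ) ∈ del S (tok θ) (t c b) ↔ cr e y ∈ S := by
  simp [del, Finset.mem_erase]

theorem z_mem_del {c e : Γ} {θ : Θ} {b : Bool} :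
    (z e : Vx Γ Θ) ∈ del S (tok θ) (t c b) ↔ z e ∈ S := by
  simp [del, Finset.mem_erase]

theorem t_mem_del {c e : Γ} {θ : Θ} {b b' : Bool} (h : e ≠ c) :
    (t e b' : Vx Γ Θ) ∈ del S (tok θ) (t c b) ↔ t e b' ∈ S := by
  simp [del, Finset.mem_erase, h]

theorem tl_mem_del {c : Γ} {θ θ' : Θ} {b : Bool} :
    (tl θ' : Vx Γ Θ) ∈ del S (tok θ) (t c b) ↔ tl θ' ∈ S := by
  simp [del, Finset.mem_erase]

theorem dn_del_iff {c e : Γ} {θ : Θ} {b : Bool} : Dn (del S (tok θ) (t c b)) e ↔ Dn S e := by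
  unfold Dn Wa NR
  simp only [cr_mem_del]

theorem intact_del_iff {c e : Γ} {θ : Θ} {b : Bool} :
    Intact (del S (tok θ) (t c b)) e ↔ Intact S e := by
  unfold Intact
  simp only [cr_mem_del]

theorem fresh_del_iff {c e : Γ} {θ : Θ} {b : Bool} (h : e ≠ c) :
    Fresh X (del S (tok θ) (t c b)) e ↔ Fresh X S e := by
  unfold Fresh
  simp only [intact_del_iff, t_mem_del h, z_mem_del]

/-- when a token is burnt against the only lock of an open gadget, the gadget is hot -/
theorem hot_of_open {c : Γ} {θ : Θ} {b : Bool} (h : Open X S c (t c b)) :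
    Hot X (del S (tok θ) (t c b)) c where
  cur := intact_del_iff.2 h.cur
  zc := fun h' => h.zc (z_mem_del.1 h')
  oth := by
    intro e he
    rw [dn_del_iff, fresh_del_iff he]
    exact h.oth e he
  ch := by
    intro e he
    have hec : e ≠ c := os_par_ne he
    rw [fresh_del_iff hec]
    exact h.ch e he
  chf := by
    intro e f he hF hf
    rw [fresh_del_iff he] at hF
    have hfc : f ≠ c := by
      rintro rfl
      exact (h.anc e hf).1 hF.1.2.2.1
    rw [fresh_del_iff hfc]
    exact h.chf e f he hF hf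
  anc := by
    intro p hp
    rw [dn_del_iff]
    exact h.anc p hp
  mgf := by
    intro e p h1 h2 h3 h4
    rw [dn_del_iff] at h4
    rw [fresh_del_iff h2]
    exact h.mgf e p h1 h2 h3 h4
  tt := fun c' hc' h' => h.tt c' hc' (Finset.mem_of_mem_erase (Finset.mem_of_mem_erase h'))
  zz := fun c' hc' h' => h.zz c' hc' (z_mem_del.1 h')
  omL := fun c' h' => cr_mem_del.2 (h.omL c' (cr_mem_del.1 h'))
  tl := fun θ' h' => tl_mem_del.2 (h.tl θ' (Finset.mem_of_mem_erase (Finset.mem_of_mem_erase h')))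
  T01 := fun c' k hk h' => h.T01 c' k hk (cr_mem_del.1 h')
  nolock := by
    intro x hx hm
    have h1 := h.only x hx (Finset.mem_of_mem_erase (Finset.mem_of_mem_erase hm))
    rw [h1] at hm
    exact absurd rfl (Finset.ne_of_mem_erase hm)

theorem toks_del {c : Γ} {θ : Θ} {b : Bool} : toks (del S (tok θ) (t c b)) = toks S \ {θ} := by
  ext θ'
  simp only [toks, Set.mem_setOf_eq, Set.mem_diff, Set.mem_singleton_iff, del, Finset.mem_erase,
    ne_eq, reduceCtorEq, not_false_eq_true, true_and, tok.injEq]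
  tauto

end hot

/-- final theorem of the game part -/
theorem reduction (n : ℕ) (cls : List (List (ℕ × Bool)))
    (hv : ∀ C ∈ cls, ∀ l ∈ C, l.1 < 2 * n) :
    FirstWins (graphOf (akN n cls) (akEdges n cls)) ↔ QTrue n cls := by
  obtain ⟨S0, hS0, heven, hopen⟩ := exists_start n cls
  rw [wins_transfer n cls hv S0 hS0]
  by_cases hq : QTrue n cls
  · refine iff_of_true ?_ hq
    obtain ⟨H, hH, hstart⟩ := exists_OStrat n cls hv hq
    obtain ⟨θ, hθ, hta, hhot⟩ := hstart (toks S0) (fun θ h => (hS0 _).2 h)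
    have had : Ad (qtree n cls) (tok θ) (t (root n cls) false) := Ad.ta θ _ _ hta
    refine (wins_iff_Ad (qtree n cls) S0).2
      ⟨tok θ, t (root n cls) false, hθ, hopen.mem, had, ?_⟩
    have hc := cA_del had hθ hopen.mem
    refine O_side (qtree n cls) _ H hH (root n cls) (hot_of_open hopen) ?_ ?_
    · rw [toks_del]
      exact hhot
    · obtain ⟨k, hk⟩ := heven
      have : cA (del S0 (tok θ) (t (root n cls) false)) + 1 = k + k := by rw [hc, hk]
      rcases Nat.even_or_odd (cA (del S0 (tok θ) (t (root n cls) false))) with ⟨j, hj⟩ | h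
      · omega
      · exact h
  · refine iff_of_false ?_ hq
    obtain ⟨W, hW, hstart⟩ := exists_EStrat n cls hv hq
    exact E_side (qtree n cls) S0 W hW (root n cls) (t (root n cls) false) hopen
      (hstart _ (fun θ h => (hS0 _).1 h)) heven

end ArcK
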