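import Pool.Agent.ArcK.Base

/-!
# Frame lemmas for the invariant
-/

set_option linter.unusedSectionVars false

namespace ArcK

open Vx Cr

variable {Γ Θ : Type} [DecidableEq Γ] [DecidableEq Θ] {X : Tree Γ Θ} {S S' : Finset (Vx Γ Θ)}

theorem Tree.par_ne {X : Tree Γ Θ} {e c : Γ} (h : X.par e = some c) : e ≠ c := by
  rintro rfl; exact absurd (X.rk_lt _ _ h) (lt_irrefl _)

theorem Tree.par_par_ne {X : Tree Γ Θ} {e c q : Γ} (h : X.par e = some c) (h' : X.par c = some q) :
    e ≠ q := by
  rintro rfl
  have h1 := X.rk_lt _ _ h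
  have h2 := X.rk_lt _ _ h'
  omega

/-- leaves are still there -/
structure Lf (S : Finset (Vx Γ Θ)) : Prop where
  omL : ∀ c, cr c Om ∈ S → cr c OmL ∈ S
  tl : ∀ θ, tok θ ∈ S → Vx.tl θ ∈ S

theorem z_mem_erase_t {e c : Γ} {b : Bool} : z e ∈ S.erase (t c b) ↔ z e ∈ S := by
  simp [Finset.mem_erase]

theorem t_mem_erase_z {e c : Γ} {b : Bool} : t e b ∈ S.erase (z c) ↔ t e b ∈ S := by
  simp [Finset.mem_erase]

theorem t_mem_erase_t {e c : Γ} {b b' : Bool} (h : e ≠ c) :
    t e b ∈ S.erase (t c b') ↔ t e b ∈ S := by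
  simp [Finset.mem_erase, h]

theorem z_mem_erase_z {e c : Γ} (h : e ≠ c) : z e ∈ S.erase (z c) ↔ z e ∈ S := by
  simp [Finset.mem_erase, h]

theorem isLk_t (c : Γ) (b : Bool) : isLk (t c b : Vx Γ Θ) = true := rfl

theorem isLk_z (c : Γ) : isLk (z c : Vx Γ Θ) = true := rfl

/-- the gadget did not rely on its parent -/
theorem Tr.indep_erase {e c : Γ} (hpar : X.par e = some c) (hcore : CoreLe S S' e)
    (hz : z e ∈ S → z e ∈ S') (ht : ∀ b, t e b ∈ S → t e b ∈ S') (hD : ¬ Dn S c) (hW : ¬ Wa S' c)
    (b : Bool) : Tr X S (S'.erase (t c b)) e := by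
  refine ⟨hcore.erase_right (isLk_t _ _), fun h => z_mem_erase_t.2 (hz h),
    fun b' h => (t_mem_erase_t (X.par_ne hpar)).2 (ht b' h), ?_⟩
  intro q hq
  rw [hpar] at hq
  cases hq
  right
  rw [Wa_erase (isLk_t _ _)]
  exact ⟨hD, hW⟩

theorem Tr.indep {e c : Γ} (hpar : X.par e = some c) (hcore : CoreLe S S' e)
    (hz : z e ∈ S → z e ∈ S') (ht : ∀ b, t e b ∈ S → t e b ∈ S') (hD : ¬ Dn S c) (hW : ¬ Wa S' c) :
    Tr X S S' e := by
  refine ⟨hcore, hz, ht, ?_⟩
  intro q hq
  rw [hpar] at hq
  cases hq
  exact Or.inr ⟨hD, hW⟩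

/-- nothing is lost but vertices which play no role -/
theorem Inv.le (hI : Inv X S) (hsub : S' ⊆ S) (hcore : ∀ e, CoreLe S S' e)
    (hz : ∀ e, z e ∈ S → z e ∈ S') (ht : ∀ e b, t e b ∈ S → t e b ∈ S') (hL : Lf S') :
    Inv X S' := by
  have hTr : ∀ e, Tr X S S' e := by
    intro e
    refine ⟨hcore e, hz e, ht e, ?_⟩
    intro q _
    exact Or.inl ⟨ht q, fun h => hsub h, Dn_mono (hcore q)⟩
  refine ⟨fun c hc => (hTr c).okc (hI.okc' c hc), ?_, ?_, fun c hc h => hI.tt c hc (hsub h),
    fun c hc h => hI.zz c hc (hsub h), hL.omL, hL.tl⟩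
  · intro c hc
    obtain ⟨q, hq, -⟩ := X.mg_par c hc
    refine okm_transfer (hcore c) (ht c) ?_ (fun _ => M3_transfer ?_) (hI.okm' c hc)
    · intro h
      rw [Qp_iff hq] at h ⊢
      rw [gam_eq hq, gam_eq hq]
      exact Or.inr ⟨tau_mono (ht q), (hTr q).okc_erase (isLk_t _ _) h⟩
    · intro f _ h1 h2
      exact ⟨hz f h1, (hTr f).okc_erase (isLk_z _) h2⟩
  · intro c hc hW
    by_cases hWS : Wa S c
    · refine ⟨c, fun e he hme _ => ?_⟩
      have hD : ¬ Dn S c := fun h => h.1 hWS
      exact (Tr.indep_erase he (hcore e) (hz e) (ht e) hD hW false).okc (hI.okc' e hme)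
    · obtain ⟨e0, he0⟩ := hI.sib c hc hWS
      exact ⟨e0, fun e he hme hne => (hTr e).okc_erase (isLk_t _ _) (he0 e he hme hne)⟩

/-- frame of a reply at an ordinary gadget `c` -/
structure FrC (X : Tree Γ Θ) (S S' : Finset (Vx Γ Θ)) (c : Γ) : Prop where
  sub : S' ⊆ S
  core : ∀ e, e ≠ c → CoreLe S S' e
  hz : ∀ e, e ≠ c → z e ∈ S → z e ∈ S'
  ht : ∀ e, e ≠ c → X.par c ≠ some e → ∀ b, t e b ∈ S → t e b ∈ S'
  hw : ¬ Wa S' c
  hnd : ¬ Dn S c ∨ (Dn S' c ∧ ∀ b, t c b ∈ S → t c b ∈ S')
  hq : ∀ q, X.par c = some q → (∀ b, t q b ∈ S → t q b ∈ S') ∨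
    (Dn S q ∧ (X.mg q = false → ¬ okc X (S.erase (t q false)) c ∨
      ∀ e, X.par e = some q → e = c))
  lf : Lf S'

theorem inv_VC {c : Γ} (hI : Inv X S) (hmg : X.mg c = false) (F : FrC X S S' c)
    (h1 : okc X S' c)
    (hM : ∀ M, X.par M = some c → X.mg M = true → okm X S' M)
    (hp : ∀ p, X.par c = some p → X.mg p = true → okm X S' p)
    (h5 : ∀ q, X.par c = some q → X.mg q = false → ¬ Wa S q →
      okc X (S.erase (t q false)) c → okc X (S'.erase (t q false)) c) : Inv X S' := by
  -- gadgets which are neither `c`, nor its parent, nor its siblings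
  have hA : ∀ e, e ≠ c → X.par c ≠ some e → (∀ q, X.par c = some q → X.par e ≠ some q) →
      Tr X S S' e := by
    intro e hec hcq hsb
    refine ⟨F.core e hec, F.hz e hec, F.ht e hec hcq, ?_⟩
    intro r hr
    by_cases hrc : r = c
    · subst hrc
      rcases F.hnd with h | ⟨h, h'⟩
      · exact Or.inr ⟨h, F.hw⟩
      · exact Or.inl ⟨h', fun hh => F.sub hh, fun _ => h⟩
    · exact Or.inl ⟨F.ht r hrc (fun h => hsb r h hr), fun hh => F.sub hh, Dn_mono (F.core r hrc)⟩
  -- the parent
  have hQ : ∀ q, X.par c = some q → Tr X S S' q ∨ Dn S' q := by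
    intro q hq
    have hqc : q ≠ c := (X.par_ne hq).symm
    rcases F.hq q hq with h | ⟨h, -⟩
    · left
      refine ⟨F.core q hqc, F.hz q hqc, h, ?_⟩
      intro r hr
      have hrc : r ≠ c := (X.par_par_ne hq hr).symm
      have hrq : r ≠ q := (X.par_ne hr).symm
      refine Or.inl ⟨F.ht r hrc (fun h => ?_), fun hh => F.sub hh, Dn_mono (F.core r hrc)⟩
      rw [hq] at h; cases h; exact hrq rfl
    · exact Or.inr (Dn_mono (F.core q hqc) h)
  -- the siblings when the trigger vertices of the parent are still there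
  have hB : ∀ e q, e ≠ c → X.par c = some q → X.par e = some q →
      (∀ b, t q b ∈ S → t q b ∈ S') → Tr X S S' e := by
    intro e q hec hq he h
    have heq : e ≠ q := X.par_ne he
    refine ⟨F.core e hec, F.hz e hec, F.ht e hec (fun h' => ?_), ?_⟩
    · rw [hq] at h'; cases h'; exact heq rfl
    · intro r hr
      rw [he] at hr
      cases hr
      exact Or.inl ⟨h, fun hh => F.sub hh, Dn_mono (F.core q (X.par_ne hq).symm)⟩
  -- the siblings when not
  have hB' : ∀ e q, e ≠ c → X.par c = some q → X.par e = some q → Dn S q →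
      Tr X (S.erase (t q false)) (S'.erase (t q false)) e ∨ X.mg q = true := by
    intro e q hec hq he h
    by_cases hmq : X.mg q = true
    · exact Or.inr hmq
    left
    have heq : e ≠ q := X.par_ne he
    refine ⟨(F.core e hec).erase (isLk_t _ _), mem_erase_both (F.hz e hec),
      fun b => mem_erase_both (F.ht e hec (fun h' => ?_) b), ?_⟩
    · rw [hq] at h'; cases h'; exact heq rfl
    · intro r hr
      rw [he] at hr
      cases hr
      refine Or.inl ⟨?_, ?_, ?_⟩
      · intro b hb
        exfalso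
        rw [Finset.mem_erase] at hb
        cases b
        · exact hb.1 rfl
        · exact hI.tt q (by simpa using hmq) hb.2
      · rw [Wa_erase (isLk_t _ _), Wa_erase (isLk_t _ _)]; exact fun hh => F.sub hh
      · rw [Dn_erase (isLk_t _ _), Dn_erase (isLk_t _ _)]
        exact Dn_mono (F.core q (X.par_ne hq).symm)
  have hsp : ∀ e q, e ≠ c → X.par c = some q → X.par e = some q → X.mg e = false →
      (Dn S q ∧ (X.mg q = false → ¬ okc X (S.erase (t q false)) c ∨
        ∀ e, X.par e = some q → e = c)) → okc X (S'.erase (t q false)) e := by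
    rintro e q hec hq he hme ⟨hD, h⟩
    by_cases hmq : X.mg q = true
    · exact absurd (X.mg_child q e c hmq he hq) hec
    have hmq' : X.mg q = false := by simpa using hmq
    rcases h hmq' with h2 | h2
    · obtain ⟨e0, he0⟩ := hI.sib q hmq' hD.1
      have : e0 = c := by
        by_contra hne
        exact h2 (he0 c hq hmg (fun h => hne h.symm))
      subst this
      rcases hB' e q hec hq he hD with h3 | h3
      · exact h3.okc (he0 e he hme hec)
      · exact absurd h3 hmq
    · exact absurd (h2 e he) hec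
  refine ⟨?_, ?_, ?_, fun c hc h => hI.tt c hc (F.sub h),
    fun c hc h => hI.zz c hc (F.sub h), F.lf.omL, F.lf.tl⟩
  · intro e hme
    by_cases hec : e = c
    · subst hec; exact h1
    by_cases hcq : X.par c = some e
    · rcases hQ e hcq with h | h
      · exact h.okc (hI.okc' e hme)
      · exact okc_of_Dn h
    by_cases hsb : ∃ q, X.par c = some q ∧ X.par e = some q
    · obtain ⟨q, hq, he⟩ := hsb
      rcases F.hq q hq with h | h
      · exact (hB e q hec hq he h).okc (hI.okc' e hme)
      · have h2 := hsp e q hec hq he hme h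
        refine Tr.okc (S := S'.erase (t q false)) (S' := S') ?_ h2
        refine ⟨(CoreLe.refl e).erase_left (isLk_t _ _), fun h => z_mem_erase_t.1 h,
          fun b h => (Finset.mem_erase.1 h).2, ?_⟩
        intro r hr
        rw [he] at hr
        cases hr
        refine Or.inl ⟨fun b h => (Finset.mem_erase.1 h).2, ?_, ?_⟩
        · rw [Wa_erase (isLk_t _ _)]; exact fun h => h
        · rw [Dn_erase (isLk_t _ _)]; exact fun h => h
    · exact (hA e hec hcq (fun q hq he => hsb ⟨q, hq, he⟩)).okc (hI.okc' e hme)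
  · intro e hme
    have hec : e ≠ c := by rintro rfl; rw [hmg] at hme; cases hme
    by_cases hcq : X.par c = some e
    · exact hp e hcq hme
    obtain ⟨r, hr, hmr⟩ := X.mg_par e hme
    by_cases hrc : r = c
    · subst hrc; exact hM e hr hme
    have hcr : X.par c ≠ some r := by
      intro h
      have := X.mg_only e r c hme hr h
      exact hec this.symm
    have hTrr : Tr X S S' r := by
      refine hA r hrc hcr ?_
      intro q hq hrq
      exact hrc ((X.mg_pp e r q hme hr hrq).2 c hq).symm
    refine okm_transfer (F.core e hec) (F.ht e hec hcq) ?_ (fun _ => M3_transfer ?_)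
      (hI.okm' e hme)
    · intro h
      rw [Qp_iff hr] at h ⊢
      rw [gam_eq hr, gam_eq hr]
      exact Or.inr ⟨tau_mono (F.ht r hrc hcr), hTrr.okc_erase (isLk_t _ _) h⟩
    · intro f hf h1 h2
      have hfc : f ≠ c := by rintro rfl; exact hcq hf
      refine ⟨F.hz f hfc h1, ?_⟩
      by_cases hqf : X.par c = some f
      · rcases hQ f hqf with h | h
        · exact h.okc_erase (isLk_z _) h2
        · exact okc_erase_of_Dn (isLk_z _) h
      · refine (hA f hfc hqf ?_).okc_erase (isLk_z _) h2
        intro q hq hfq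
        rw [hf] at hfq
        cases hfq
        exact hcq hq
  · intro r hmr hWr
    by_cases hrc : r = c
    · subst hrc
      by_cases hDc : Dn S r
      · rcases F.hnd with h | ⟨h, h'⟩
        · exact absurd hDc h
        · obtain ⟨e0, he0⟩ := hI.sib r hmr hDc.1
          refine ⟨e0, fun e he hme hne => ?_⟩
          refine (hA e (X.par_ne he) ?_ ?_).okc_erase (isLk_t _ _) (he0 e he hme hne)
          · intro h2
            exact X.par_par_ne he h2 rfl
          · intro q hq he'
            rw [he] at he'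
            cases he'
            exact X.par_ne hq rfl
      · refine ⟨r, fun e he hme _ => ?_⟩
        have hec := X.par_ne he
        refine (Tr.indep_erase he (F.core e hec) (F.hz e hec) (F.ht e hec ?_) hDc hWr false).okc
          (hI.okc' e hme)
        intro h2
        exact X.par_par_ne he h2 rfl
    by_cases hcr : X.par c = some r
    · rcases F.hq r hcr with h | h
      · by_cases hWS : Wa S r
        · refine ⟨c, fun e he hme hne => ?_⟩
          have hD : ¬ Dn S r := fun h => h.1 hWS
          have hTre := hB e r hne hcr he h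
          exact (Tr.indep_erase he hTre.core hTre.zz hTre.tt hD hWr false).okc (hI.okc' e hme)
        · obtain ⟨e0, he0⟩ := hI.sib r hmr hWS
          refine ⟨e0, fun e he hme hne => ?_⟩
          by_cases hec : e = c
          · subst hec
            exact h5 r hcr hmr hWS (he0 e he hme hne)
          · exact (hB e r hec hcr he h).okc_erase (isLk_t _ _) (he0 e he hme hne)
      · exact ⟨c, fun e he hme hne => hsp e r hne hcr he hme h⟩
    · -- `r` is neither `c` nor its parent
      have hTre : ∀ e, X.par e = some r → X.mg e = false → Tr X S S' e ∨ Dn S' e := by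
        intro e he hme
        have hec : e ≠ c := by rintro rfl; exact hcr he
        by_cases hce : X.par c = some e
        · exact hQ e hce
        · left
          refine hA e hec hce ?_
          intro q hq heq
          rw [he] at heq
          cases heq
          exact hcr hq
      by_cases hWS : Wa S r
      · refine ⟨c, fun e he hme hne => ?_⟩
        rcases hTre e he hme with h | h
        · have hD : ¬ Dn S r := fun h => h.1 hWS
          exact (Tr.indep_erase he h.core h.zz h.tt hD hWr false).okc (hI.okc' e hme)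
        · exact okc_erase_of_Dn (isLk_t _ _) h
      · obtain ⟨e0, he0⟩ := hI.sib r hmr hWS
        refine ⟨e0, fun e he hme hne => ?_⟩
        rcases hTre e he hme with h | h
        · exact h.okc_erase (isLk_t _ _) (he0 e he hme hne)
        · exact okc_erase_of_Dn (isLk_t _ _) h

/-- frame of a reply at a merge gadget `c` -/
structure FrM (X : Tree Γ Θ) (S S' : Finset (Vx Γ Θ)) (c : Γ) : Prop where
  sub : S' ⊆ S
  core : ∀ e, e ≠ c → CoreLe S S' e
  hz : ∀ e, X.par e ≠ some c → z e ∈ S → z e ∈ S'
  hzf : ∀ f, X.par f = some c → (z f ∈ S → z f ∈ S') ∨ okc X (S.erase (z f)) f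
  ht : ∀ e, e ≠ c → X.par c ≠ some e → ∀ b, t e b ∈ S → t e b ∈ S'
  htq : ∀ q, X.par c = some q → (∀ b, t q b ∈ S → t q b ∈ S') ∨ okc X (S.erase (t q false)) q
  hw : ¬ Wa S' c
  hnd : ¬ Dn S c
  lf : Lf S'

theorem inv_VM {c : Γ} (hI : Inv X S) (hmg : X.mg c = true) (F : FrM X S S' c)
    (h1 : okm X S' c) : Inv X S' := by
  obtain ⟨q, hq, hmq⟩ := X.mg_par c hmg
  have hqc : q ≠ c := (X.par_ne hq).symm
  have hqonly : ∀ e, X.par e = some q → e = c := fun e he => X.mg_only c q e hmg hq he
  -- all gadgets but `c`, `q` and the child of `c`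
  have hA : ∀ e, e ≠ c → e ≠ q → X.par e ≠ some c → Tr X S S' e := by
    intro e hec heq hpe
    refine ⟨F.core e hec, F.hz e hpe, F.ht e hec ?_, ?_⟩
    · intro h; rw [hq] at h; cases h; exact heq rfl
    · intro r hr
      have hrc : r ≠ c := by rintro rfl; exact hpe hr
      have hrq : r ≠ q := by rintro rfl; exact hec (hqonly e hr)
      refine Or.inl ⟨F.ht r hrc ?_, fun hh => F.sub hh, Dn_mono (F.core r hrc)⟩
      intro h; rw [hq] at h; cases h; exact hrq rfl
  -- the parent of `c`
  have hQ : okc X S' q := by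
    have hz' : z q ∈ S → z q ∈ S' := by
      refine F.hz q ?_
      intro h
      exact X.par_par_ne hq h rfl
    have hpa : ∀ (S1 : Finset (Vx Γ Θ)), (∀ r, X.par q = some r →
        ((∀ b, t r b ∈ S1 → t r b ∈ S) ∧ (Wa S r → Wa S1 r) ∧ (Dn S1 r → Dn S r))) → ∀ r,
        X.par q = some r → ((∀ b, t r b ∈ S1 → t r b ∈ S') ∧ (Wa S' r → Wa S1 r) ∧
          (Dn S1 r → Dn S' r)) ∨ (¬ Dn S1 r ∧ ¬ Wa S' r) := by
      intro S1 hS1 r hr
      have hrc : r ≠ c := (X.par_par_ne hq hr).symm
      have hrq : r ≠ q := (X.par_ne hr).symm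
      obtain ⟨h2, h3, h4⟩ := hS1 r hr
      refine Or.inl ⟨fun b hb => F.ht r hrc ?_ b (h2 b hb), fun hh => h3 (F.sub hh),
        fun hh => Dn_mono (F.core r hrc) (h4 hh)⟩
      intro h; rw [hq] at h; cases h; exact hrq rfl
    rcases F.htq q hq with h | h
    · refine Tr.okc (S := S) ⟨F.core q hqc, hz', h, hpa S ?_⟩ (hI.okc' q hmq)
      intro r _
      exact ⟨fun _ h => h, fun h => h, fun h => h⟩
    · refine Tr.okc (S := S.erase (t q false)) ⟨(F.core q hqc).erase_left (isLk_t _ _),
        fun h => hz' (z_mem_erase_t.1 h), ?_, hpa _ ?_⟩ h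
      · intro b hb
        exfalso
        rw [Finset.mem_erase] at hb
        cases b
        · exact hb.1 rfl
        · exact hI.tt q hmq hb.2
      · intro r hr
        have hrq : r ≠ q := (X.par_ne hr).symm
        refine ⟨fun b hb => (t_mem_erase_t hrq).1 hb, ?_, ?_⟩
        · rw [Wa_erase (isLk_t _ _)]; exact fun h => h
        · rw [Dn_erase (isLk_t _ _)]; exact fun h => h
  have hchild : ∀ f, X.par f = some c → X.mg f = false := by
    intro f hf
    by_contra hmf
    have hmf' : X.mg f = true := by simpa using hmf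
    obtain ⟨r, hr, hmr⟩ := X.mg_par f hmf'
    rw [hf] at hr; cases hr; rw [hmg] at hmr; cases hmr
  -- the child of `c`
  have hF : ∀ f, X.par f = some c → okc X S' f := by
    intro f hf
    have hfc := X.par_ne hf
    have hfq : f ≠ q := X.par_par_ne hf hq
    have htf : ∀ b, t f b ∈ S → t f b ∈ S' := by
      refine F.ht f hfc ?_
      intro h; rw [hq] at h; cases h; exact hfq rfl
    rcases F.hzf f hf with h | h
    · exact (Tr.indep hf (F.core f hfc) h htf F.hnd F.hw).okc (hI.okc' f (hchild f hf))
    · refine Tr.okc (S := S.erase (z f)) ?_ h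
      refine ⟨(F.core f hfc).erase_left (isLk_z _), ?_, fun b hb => htf b (t_mem_erase_z.1 hb), ?_⟩
      · intro hh; exact absurd rfl (Finset.mem_erase.1 hh).1
      · intro r hr
        rw [hf] at hr; cases hr
        right
        rw [Dn_erase (isLk_z _)]
        exact ⟨F.hnd, F.hw⟩
  refine ⟨?_, ?_, ?_, fun c hc h => hI.tt c hc (F.sub h),
    fun c hc h => hI.zz c hc (F.sub h), F.lf.omL, F.lf.tl⟩
  · intro e hme
    have hec : e ≠ c := by rintro rfl; rw [hmg] at hme; cases hme
    by_cases heq : e = q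
    · subst heq; exact hQ
    by_cases hpe : X.par e = some c
    · exact hF e hpe
    exact (hA e hec heq hpe).okc (hI.okc' e hme)
  · intro e hme
    by_cases hec : e = c
    · subst hec; exact h1
    obtain ⟨r, hr, hmr⟩ := X.mg_par e hme
    have hrc : r ≠ c := by rintro rfl; rw [hmg] at hmr; cases hmr
    have hrq : r ≠ q := by rintro rfl; exact hec (hqonly e hr)
    have heq : e ≠ q := by rintro rfl; rw [hmq] at hme; cases hme
    have hrpc : X.par r ≠ some c := by
      intro h
      have := (X.mg_pp e r c hme hr h).1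
      rw [hmg] at this; cases this
    have hTrr := hA r hrc hrq hrpc
    have hce : X.par c ≠ some e := by intro h; rw [hq] at h; cases h; exact heq rfl
    refine okm_transfer (F.core e hec) (F.ht e hec hce) ?_ (fun _ => M3_transfer ?_)
      (hI.okm' e hme)
    · intro h
      rw [Qp_iff hr] at h ⊢
      rw [gam_eq hr, gam_eq hr]
      exact Or.inr ⟨tau_mono hTrr.tt, hTrr.okc_erase (isLk_t _ _) h⟩
    · intro f hf h1 h2
      have hfc : f ≠ c := by rintro rfl; exact hce hf
      have hfpc : X.par f ≠ some c := by intro h; rw [hf] at h; cases h; exact hec rfl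
      have hfq : f ≠ q := by
        rintro rfl
        have := (X.mg_pp c f e hmg hq hf).1
        rw [hme] at this; cases this
      exact ⟨F.hz f hfpc h1, (hA f hfc hfq hfpc).okc_erase (isLk_z _) h2⟩
  · intro r hmr hWr
    have hrc : r ≠ c := by rintro rfl; rw [hmg] at hmr; cases hmr
    by_cases hrq : r = q
    · subst hrq
      refine ⟨c, fun e he hme hne => absurd (hqonly e he) hne⟩
    by_cases hqr : X.par q = some r
    · refine ⟨q, fun e he hme hne => absurd ((X.mg_pp c q r hmg hq hqr).2 e he) hne⟩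
    have hTre : ∀ e, X.par e = some r → X.mg e = false → Tr X S S' e := by
      intro e he hme
      refine hA e ?_ ?_ ?_
      · rintro rfl; rw [hmg] at hme; cases hme
      · rintro rfl; exact hqr he
      · intro h; rw [he] at h; cases h; exact hrc rfl
    by_cases hWS : Wa S r
    · refine ⟨c, fun e he hme hne => ?_⟩
      have h := hTre e he hme
      have hD : ¬ Dn S r := fun h => h.1 hWS
      exact (Tr.indep_erase he h.core h.zz h.tt hD hWr false).okc (hI.okc' e hme)
    · obtain ⟨e0, he0⟩ := hI.sib r hmr hWS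
      exact ⟨e0, fun e he hme hne => (hTre e he hme).okc_erase (isLk_t _ _) (he0 e he hme hne)⟩

end ArcK
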