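import Pool.Agent.ArcK.QTree

/-!
# The abstract strategies for the tree of a quantified Boolean formula
-/

namespace ArcK

open Vx Cr

variable {n : ℕ} {cls : List (List (ℕ × Bool))}

/-- the gadget of the tokens of variable `v` -/
def tk (v : ℕ) : ℕ := 3 * (v / 2) + 2 * (v % 2)

/-- the tokens at a merge gadget -/
theorem ta_merge {θ : Fin (Ng n cls) × Bool} {e : Fin (Ng n cls)} {b : Bool}
    (h1 : e.1 < 3 * n) (h2 : e.1 % 3 = 2) : (qtree n cls).ta θ e b ↔ θ = (e, b) := by
  rw [qtree_ta_def]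
  constructor
  · rintro (⟨_, h, rfl⟩ | ⟨_, h, _⟩ | ⟨_, _, h, rfl⟩ | ⟨_, j, C, h, _⟩)
    · exact h
    · omega
    · exact h
    · omega
  · rintro rfl
    cases b
    · left; exact ⟨by omega, rfl, rfl⟩
    · right; right; left; exact ⟨h1, h2, rfl, rfl⟩

/-- the tokens at the first gadget of a block -/
theorem ta_first {θ : Fin (Ng n cls) × Bool} {e : Fin (Ng n cls)}
    (h1 : e.1 < 3 * n) (h2 : e.1 % 3 = 0) : (qtree n cls).ta θ e false ↔ θ.1 = e := by
  rw [qtree_ta_def]
  constructor
  · rintro (⟨_, h, _⟩ | ⟨_, _, h, _⟩ | ⟨_, h, _⟩ | ⟨_, j, C, h, _⟩)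
    · rw [h]
    · rw [h]
    · omega
    · omega
  · intro h
    obtain ⟨c, b⟩ := θ
    simp only at h
    subst h
    cases b
    · left; exact ⟨by omega, rfl, rfl⟩
    · right; left; exact ⟨h1, h2, rfl, rfl⟩

/-- the token at the second gadget of a block and at the final gadget -/
theorem ta_single {θ : Fin (Ng n cls) × Bool} {e : Fin (Ng n cls)}
    (h1 : e.1 ≤ 3 * n) (h2 : e.1 % 3 = 1 ∨ e.1 = 3 * n) :
    (qtree n cls).ta θ e false ↔ θ = (e, false) := by
  rw [qtree_ta_def]
  constructor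
  · rintro (⟨_, h, _⟩ | ⟨_, h, _⟩ | ⟨_, h, _⟩ | ⟨_, j, C, h, _⟩)
    · exact h
    · omega
    · omega
    · omega
  · intro h
    left; exact ⟨h1, h, rfl⟩

/-- the tokens at a clause -/
theorem ta_clause {θ : Fin (Ng n cls) × Bool} {e : Fin (Ng n cls)} {j : ℕ}
    (h1 : e.1 = 3 * n + 1 + j) :
    (qtree n cls).ta θ e false ↔ ∃ C, cls[j]? = some C ∧ ∃ l ∈ C, θ.1.1 = tk l.1 ∧ θ.2 = l.2 := by
  rw [qtree_ta_def]
  constructor
  · rintro (⟨_, h, _⟩ | ⟨_, h, _⟩ | ⟨_, h, _⟩ | ⟨_, j', C, h, hC, hl⟩)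
    · omega
    · omega
    · omega
    · have : j' = j := by omega
      subst this
      exact ⟨C, hC, hl⟩
  · rintro ⟨C, hC, hl⟩
    right; right; right
    exact ⟨rfl, j, C, h1, hC, hl⟩

/-! ### the strategy of the first player -/

/-- the positions of `O` -/
inductive HH (n : ℕ) (cls : List (List (ℕ × Bool))) :
    Fin (Ng n cls) → Set (Fin (Ng n cls) × Bool) → Prop
  | mid (i k : ℕ) (hi : i + 1 + k = n) (c : Fin (Ng n cls)) (hc : c.1 = 3 * i ∨ c.1 = 3 * i + 1)
      (σ : ℕ → Bool) (T : Set (Fin (Ng n cls) × Bool))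
      (h1 : ∀ v < 2 * i + 1, ∀ θ : Fin (Ng n cls) × Bool, θ.1.1 = tk v → θ.2 = σ v → θ ∈ T)
      (h2 : ∀ θ : Fin (Ng n cls) × Bool, Real n cls (tok θ) → c.1 < θ.1.1 → θ ∈ T)
      (h3 : ∀ b, QTrueFrom cls k (i + 1) (Function.update σ (2 * i + 1) b)) : HH n cls c T
  | third (i k : ℕ) (hi : i + 1 + k = n) (c : Fin (Ng n cls)) (hc : c.1 = 3 * i + 2)
      (σ : ℕ → Bool) (T : Set (Fin (Ng n cls) × Bool))
      (h1 : ∀ v < 2 * i + 2, ∀ θ : Fin (Ng n cls) × Bool, θ.1.1 = tk v → θ.2 = σ v → θ ∈ T)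
      (h2 : ∀ θ : Fin (Ng n cls) × Bool, Real n cls (tok θ) → c.1 < θ.1.1 → θ ∈ T)
      (h3 : QTrueFrom cls k (i + 1) σ) : HH n cls c T
  | fin (c : Fin (Ng n cls)) (hc : c.1 = 3 * n)
      (σ : ℕ → Bool) (T : Set (Fin (Ng n cls) × Bool))
      (h1 : ∀ v < 2 * n, ∀ θ : Fin (Ng n cls) × Bool, θ.1.1 = tk v → θ.2 = σ v → θ ∈ T)
      (h3 : Sat cls σ) : HH n cls c T
  | clause (c : Fin (Ng n cls)) (hc : 3 * n < c.1) (T : Set (Fin (Ng n cls) × Bool)) : HH n cls c T

/-- the step of `O` at the beginning of a block, or at the final gadget -/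
theorem HH_start (i k : ℕ) (hi : i + k = n) (e : Fin (Ng n cls)) (he : e.1 = 3 * i)
    (σ : ℕ → Bool) (T : Set (Fin (Ng n cls) × Bool))
    (h1 : ∀ v < 2 * i, ∀ θ : Fin (Ng n cls) × Bool, θ.1.1 = tk v → θ.2 = σ v → θ ∈ T)
    (h2 : ∀ θ : Fin (Ng n cls) × Bool, Real n cls (tok θ) → e.1 ≤ θ.1.1 → θ ∈ T)
    (h3 : QTrueFrom cls k i σ) :
    ∃ θ ∈ T, (qtree n cls).ta θ e false ∧ HH n cls e (T \ {θ}) := by
  cases k with
  | zero =>
    refine ⟨(e, false), ?_, ?_, ?_⟩
    · apply h2
      · left; rfl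
      · exact le_refl _
    · rw [ta_single (by omega) (by omega)]
    · refine HH.fin e (by omega) σ _ ?_ h3
      intro v hv θ hθ1 hθ2
      refine ⟨h1 v (by omega) θ hθ1 hθ2, ?_⟩
      intro h
      simp only [Set.mem_singleton_iff] at h
      rw [h] at hθ1
      simp only [tk] at hθ1
      omega
  | succ k =>
    obtain ⟨a, ha⟩ := h3
    refine ⟨(e, !a), ?_, ?_, ?_⟩
    · apply h2
      · right; simp only; omega
      · exact le_refl _
    · rw [ta_first (by omega) (by omega)]
    · refine HH.mid i k (by omega) e (Or.inl he) (Function.update σ (2 * i) a) _ ?_ ?_ ?_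
      · intro v hv θ hθ1 hθ2
        by_cases hv' : v = 2 * i
        · subst hv'
          have h4 : θ.1.1 = e.1 := by rw [hθ1, he]; simp only [tk]; omega
          have h5 : θ.1 = e := Fin.ext h4
          simp only [Function.update_self] at hθ2
          refine ⟨h2 θ ?_ (by rw [h5]), ?_⟩
          · right; omega
          · intro h
            simp only [Set.mem_singleton_iff] at h
            rw [h] at hθ2
            simp at hθ2
        · rw [Function.update_of_ne hv'] at hθ2
          refine ⟨h1 v (by omega) θ hθ1 hθ2, ?_⟩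
          intro h
          simp only [Set.mem_singleton_iff] at h
          rw [h] at hθ1
          simp only [tk] at hθ1
          omega
      · intro θ hθ1 hθ2
        refine ⟨h2 θ hθ1 (by omega), ?_⟩
        intro h
        simp only [Set.mem_singleton_iff] at h
        rw [h] at hθ2
        simp at hθ2
      · exact ha

/-- the step at a merge gadget -/
theorem HH_merge {c e : Fin (Ng n cls)} {T : Set (Fin (Ng n cls) × Bool)} (h : HH n cls c T)
    (hp : (qtree n cls).par e = some c) (hm : (qtree n cls).mg e = true) (b : Bool) :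
    (e, b) ∈ T ∧ HH n cls e (T \ {(e, b)}) := by
  rw [qtree_par_iff] at hp
  rw [qtree_mg_true] at hm
  cases h with
  | mid i k hi c hc σ T h1 h2 h3 =>
    have hc' : c.1 = 3 * i + 1 := by omega
    have he : e.1 = 3 * i + 2 := by omega
    refine ⟨h2 _ (Or.inr ?_) ?_, ?_⟩
    · simp only; omega
    · simp only; omega
    · refine HH.third i k hi e he (Function.update σ (2 * i + 1) (!b)) _ ?_ ?_ (h3 _)
      · intro v hv θ hθ1 hθ2
        by_cases hv' : v = 2 * i + 1
        · subst hv'
          have h4 : θ.1.1 = e.1 := by rw [hθ1, he]; simp only [tk]; omega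
          have h5 : θ.1 = e := Fin.ext h4
          simp only [Function.update_self] at hθ2
          refine ⟨h2 θ ?_ (by rw [h5]; omega), ?_⟩
          · right; omega
          · intro h
            simp only [Set.mem_singleton_iff] at h
            rw [h] at hθ2
            simp at hθ2
        · rw [Function.update_of_ne hv'] at hθ2
          refine ⟨h1 v (by omega) θ hθ1 hθ2, ?_⟩
          intro h
          simp only [Set.mem_singleton_iff] at h
          rw [h] at hθ1
          simp only [tk] at hθ1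
          omega
      · intro θ hθ1 hθ2
        refine ⟨h2 θ hθ1 (by omega), ?_⟩
        intro h
        simp only [Set.mem_singleton_iff] at h
        rw [h] at hθ2
        simp at hθ2
  | third i k hi c hc σ T h1 h2 h3 => omega
  | fin c hc σ T h1 h3 => omega
  | clause c hc T => omega

/-- (O) if the formula is true there is an abstract strategy for the first player -/
theorem exists_OStrat (n : ℕ) (cls : List (List (ℕ × Bool)))
    (hv : ∀ C ∈ cls, ∀ l ∈ C, l.1 < 2 * n) (hq : QTrue n cls) :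
    ∃ H, OStrat (qtree n cls) H ∧ ∀ T : Set (Fin (Ng n cls) × Bool),
      (∀ θ, Real n cls (tok θ) → θ ∈ T) → ∃ θ ∈ T, (qtree n cls).ta θ (root n cls) false ∧
        H (root n cls) (T \ {θ}) := by
  refine ⟨HH n cls, ⟨?_, ?_, ?_⟩, ?_⟩
  · intro c e T h hp hm
    rw [qtree_par_iff] at hp
    rw [qtree_mg_false] at hm
    cases h with
    | mid i k hi c hc σ T h1 h2 h3 =>
      have hc' : c.1 = 3 * i := by omega
      have he : e.1 = 3 * i + 1 := by omega
      refine ⟨(e, false), h2 _ (Or.inl rfl) (by simp only; omega), ?_, ?_⟩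
      · rw [ta_single (by omega) (by omega)]
      · refine HH.mid i k hi e (Or.inr he) σ _ ?_ ?_ h3
        · intro v hv' θ hθ1 hθ2
          refine ⟨h1 v hv' θ hθ1 hθ2, ?_⟩
          intro h
          simp only [Set.mem_singleton_iff] at h
          rw [h] at hθ1
          simp only [tk] at hθ1
          omega
        · intro θ hθ1 hθ2
          refine ⟨h2 θ hθ1 (by omega), ?_⟩
          intro h
          simp only [Set.mem_singleton_iff] at h
          rw [h] at hθ2
          simp at hθ2
    | third i k hi c hc σ T h1 h2 h3 =>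
      have he : e.1 = 3 * (i + 1) := by omega
      exact HH_start (i + 1) k hi e he σ T (fun v hv' => h1 v (by omega))
        (fun θ hθ1 hθ2 => h2 θ hθ1 (by omega)) h3
    | fin c hc σ T h1 h3 =>
      have he : 3 * n < e.1 := by omega
      obtain ⟨j, hj⟩ : ∃ j, e.1 = 3 * n + 1 + j := ⟨e.1 - (3 * n + 1), by omega⟩
      have hj' : j < cls.length := by
        have := e.2
        unfold Ng at this
        omega
      have hC : cls[j]? = some cls[j] := List.getElem?_eq_getElem hj'
      obtain ⟨l, hl, hl2⟩ := h3 cls[j] (List.getElem_mem hj')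
      have hl3 := hv _ (List.getElem_mem hj') l hl
      have hb : tk l.1 < Ng n cls := by unfold Ng tk; omega
      refine ⟨(⟨tk l.1, hb⟩, l.2), h1 l.1 hl3 _ rfl hl2.symm, ?_, HH.clause e he _⟩
      rw [ta_clause hj]
      exact ⟨_, hC, l, hl, rfl, rfl⟩
    | clause c hc T => omega
  · intro c e T h hp hm b
    obtain ⟨h1, h2⟩ := HH_merge h hp hm b
    rw [qtree_mg_true] at hm
    exact ⟨(e, b), h1, (ta_merge hm.1 hm.2).2 rfl, h2⟩
  · intro c e T h hp hm b θ hθ hta
    have h2 := (HH_merge h hp hm b).2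
    rw [qtree_mg_true] at hm
    rw [ta_merge hm.1 hm.2] at hta
    rw [hta]
    exact h2
  · intro T hT
    refine HH_start 0 n (by omega) (root n cls) rfl (fun _ => false) T ?_ (fun θ h _ => hT θ h) hq
    intro v hv'
    omega

/-! ### the strategy of the second player -/

/-- the positions of `E` -/
inductive WW (n : ℕ) (cls : List (List (ℕ × Bool))) :
    Fin (Ng n cls) → Vx (Fin (Ng n cls)) (Fin (Ng n cls) × Bool) →
      Set (Fin (Ng n cls) × Bool) → Prop
  | first (i k : ℕ) (hi : i + k = n) (c : Fin (Ng n cls)) (hc : c.1 = 3 * i)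
      (σ : ℕ → Bool) (T : Set (Fin (Ng n cls) × Bool))
      (h1 : ∀ v < 2 * i, ∀ θ : Fin (Ng n cls) × Bool, θ.1.1 = tk v → θ.2 = !σ v → θ ∉ T)
      (h3 : ¬ QTrueFrom cls k i σ) : WW n cls c (t c false) T
  | second (i k : ℕ) (hi : i + 1 + k = n) (c : Fin (Ng n cls)) (hc : c.1 = 3 * i + 1)
      (σ : ℕ → Bool) (b : Bool) (T : Set (Fin (Ng n cls) × Bool))
      (h1 : ∀ v < 2 * i + 1, ∀ θ : Fin (Ng n cls) × Bool, θ.1.1 = tk v → θ.2 = !σ v → θ ∉ T)
      (h3 : ¬ QTrueFrom cls k (i + 1) (Function.update σ (2 * i + 1) b)) :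
      WW n cls c (t c false) T
  | third (i k : ℕ) (hi : i + 1 + k = n) (c : Fin (Ng n cls)) (hc : c.1 = 3 * i + 2)
      (σ : ℕ → Bool) (b b0 : Bool) (T : Set (Fin (Ng n cls) × Bool))
      (h1 : ∀ v < 2 * i + 1, ∀ θ : Fin (Ng n cls) × Bool, θ.1.1 = tk v → θ.2 = !σ v → θ ∉ T)
      (h2 : b = !b0 ∨ (c, !b) ∉ T)
      (h3 : ¬ QTrueFrom cls k (i + 1) (Function.update σ (2 * i + 1) b)) :
      WW n cls c (t c b0) T
  | third' (i k : ℕ) (hi : i + 1 + k = n) (c p : Fin (Ng n cls)) (hc : c.1 = 3 * i + 2)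
      (hp : p.1 = 3 * i + 1) (σ : ℕ → Bool) (b : Bool) (T : Set (Fin (Ng n cls) × Bool))
      (h1 : ∀ v < 2 * i + 1, ∀ θ : Fin (Ng n cls) × Bool, θ.1.1 = tk v → θ.2 = !σ v → θ ∉ T)
      (h2 : ∀ b', (c, b') ∉ T)
      (h3 : ¬ QTrueFrom cls k (i + 1) (Function.update σ (2 * i + 1) b)) :
      WW n cls c (t p false) T
  | clause (c : Fin (Ng n cls)) (hc : 3 * n < c.1) (T : Set (Fin (Ng n cls) × Bool))
      (h1 : ∀ θ ∈ T, ¬ (qtree n cls).ta θ c false) : WW n cls c (t c false) T

theorem WW_mono {c : Fin (Ng n cls)} {ℓ : Vx (Fin (Ng n cls)) (Fin (Ng n cls) × Bool)}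
    {T T' : Set (Fin (Ng n cls) × Bool)} (h : WW n cls c ℓ T) (hT : T' ⊆ T) : WW n cls c ℓ T' := by
  cases h with
  | first i k hi c hc σ T h1 h3 =>
    exact WW.first i k hi c hc σ T' (fun v hv θ h4 h5 h6 => h1 v hv θ h4 h5 (hT h6)) h3
  | second i k hi c hc σ b T h1 h3 =>
    exact WW.second i k hi c hc σ b T' (fun v hv θ h4 h5 h6 => h1 v hv θ h4 h5 (hT h6)) h3
  | third i k hi c hc σ b b0 T h1 h2 h3 =>
    exact WW.third i k hi c hc σ b b0 T' (fun v hv θ h4 h5 h6 => h1 v hv θ h4 h5 (hT h6))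
      (h2.imp id fun h h' => h (hT h')) h3
  | third' i k hi c p hc hp σ b T h1 h2 h3 =>
    exact WW.third' i k hi c p hc hp σ b T' (fun v hv θ h4 h5 h6 => h1 v hv θ h4 h5 (hT h6))
      (fun b' h => h2 b' (hT h)) h3
  | clause c hc T h1 => exact WW.clause c hc T' (fun θ hθ => h1 θ (hT hθ))

/-- the next block, if the token with the wrong value is gone -/
theorem WW_next (i k : ℕ) (hi : i + 1 + k = n) (c : Fin (Ng n cls)) (hc : c.1 = 3 * i + 2)
    (σ : ℕ → Bool) (b : Bool) (T : Set (Fin (Ng n cls) × Bool))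
    (h1 : ∀ v < 2 * i + 1, ∀ θ : Fin (Ng n cls) × Bool, θ.1.1 = tk v → θ.2 = !σ v → θ ∉ T)
    (h2 : (c, !b) ∉ T)
    (h3 : ¬ QTrueFrom cls k (i + 1) (Function.update σ (2 * i + 1) b)) :
    ∃ f, (qtree n cls).par f = some c ∧ (qtree n cls).mg f = false ∧ WW n cls f (t f false) T := by
  refine ⟨⟨3 * (i + 1), by unfold Ng; omega⟩, ?_, ?_, ?_⟩
  · rw [qtree_par_iff]
    left
    simp only
    omega
  · rw [qtree_mg_false]
    simp only
    omega
  · refine WW.first (i + 1) k hi _ rfl (Function.update σ (2 * i + 1) b) T ?_ h3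
    intro v hv θ hθ1 hθ2
    by_cases hv' : v = 2 * i + 1
    · subst hv'
      have h4 : θ.1.1 = c.1 := by rw [hθ1, hc]; simp only [tk]; omega
      have h5 : θ.1 = c := Fin.ext h4
      simp only [Function.update_self] at hθ2
      have h6 : θ = (c, !b) := Prod.ext h5 hθ2
      rw [h6]
      exact h2
    · rw [Function.update_of_ne hv'] at hθ2
      exact h1 v (by omega) θ hθ1 hθ2

/-- (E) if the formula is false there is an abstract strategy for the second player -/
theorem exists_EStrat (n : ℕ) (cls : List (List (ℕ × Bool)))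
    (hv : ∀ C ∈ cls, ∀ l ∈ C, l.1 < 2 * n) (hq : ¬ QTrue n cls) :
    ∃ W, EStrat (qtree n cls) W ∧ ∀ T : Set (Fin (Ng n cls) × Bool),
      (∀ θ ∈ T, Real n cls (tok θ)) → W (root n cls) (t (root n cls) false) T := by
  refine ⟨WW n cls, ⟨?_, ?_, ?_, ?_, ?_⟩, ?_⟩
  · intro c ℓ T T' h hT
    exact WW_mono h hT
  · intro c ℓ T θ h _ hθ hAd
    cases h with
    | first i k hi c hc σ T h1 h3 =>
      cases hAd with
      | ta _ _ _ hta =>
      cases k with
      | zero =>
        have hS : ¬ Sat cls σ := h3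
        unfold Sat at hS
        push Not at hS
        obtain ⟨C, hC, hCl⟩ := hS
        obtain ⟨j, hj, hjC⟩ := List.mem_iff_getElem.1 hC
        left
        refine ⟨⟨3 * n + 1 + j, by unfold Ng; omega⟩, ?_, ?_, ?_⟩
        · rw [qtree_par_iff]; right; simp only; omega
        · rw [qtree_mg_false]; simp only; omega
        · refine WW.clause _ (by simp only; omega) _ ?_
          intro θ' hθ' hta'
          rw [ta_clause (j := j) rfl] at hta'
          obtain ⟨C', hC', l, hl, hl1, hl2⟩ := hta'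
          rw [List.getElem?_eq_getElem hj, hjC, Option.some_inj] at hC'
          subst hC'
          have h4 := hv _ hC l hl
          refine h1 l.1 (by omega) θ' hl1 ?_ hθ'.1
          rw [hl2]
          have := hCl l hl
          revert this
          cases σ l.1 <;> cases l.2 <;> simp
      | succ k =>
        rw [ta_first (by omega) (by omega)] at hta
        left
        have h4 : ∀ a, ∃ b, ¬ QTrueFrom cls k (i + 1)
            (Function.update (Function.update σ (2 * i) a) (2 * i + 1) b) := by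
          intro a
          by_contra hcon
          push Not at hcon
          exact h3 ⟨a, hcon⟩
        obtain ⟨b, hb⟩ := h4 (!θ.2)
        refine ⟨⟨3 * i + 1, by unfold Ng; omega⟩, ?_, ?_, ?_⟩
        · rw [qtree_par_iff]; left; simp only; omega
        · rw [qtree_mg_false]; simp only; omega
        · refine WW.second i k (by omega) _ rfl (Function.update σ (2 * i) (!θ.2)) b _ ?_ hb
          intro v hv' θ' hθ1 hθ2 hθ'
          by_cases hvi : v = 2 * i
          · subst hvi
            have h5 : θ'.1.1 = c.1 := by rw [hθ1, hc]; simp only [tk]; omega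
            have h6 : θ'.1 = θ.1 := by rw [hta]; exact Fin.ext h5
            simp only [Function.update_self, Bool.not_not] at hθ2
            exact hθ'.2 (Prod.ext h6 hθ2)
          · rw [Function.update_of_ne hvi] at hθ2
            exact h1 v (by omega) θ' hθ1 hθ2 hθ'.1
    | second i k hi c hc σ b T h1 h3 =>
      right
      refine ⟨⟨3 * i + 2, by unfold Ng; omega⟩, !b, ?_, ?_, ?_⟩
      · rw [qtree_par_iff]; left; simp only; omega
      · rw [qtree_mg_true]; simp only; omega
      · exact WW_mono (WW.third i k hi _ rfl σ b (!b) T h1 (Or.inl (by simp)) h3)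
          Set.sdiff_subset
    | third i k hi c hc σ b b0 T h1 h2 h3 =>
      left
      cases hAd with
      | ta _ _ _ hta =>
      rw [ta_merge (by omega) (by omega)] at hta
      refine WW_next i k hi c hc σ b _ (fun v hv' θ' h4 h5 h6 => h1 v hv' θ' h4 h5 h6.1) ?_ h3
      rcases h2 with h2 | h2
      · rw [hta, h2]
        simp
      · exact fun h => h2 h.1
    | third' i k hi c p hc hp σ b T h1 h2 h3 =>
      left
      exact WW_next i k hi c hc σ b _ (fun v hv' θ' h4 h5 h6 => h1 v hv' θ' h4 h5 h6.1)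
        (fun h => h2 _ h.1) h3
    | clause c hc T h1 =>
      cases hAd with
      | ta _ _ _ hta => exact absurd hta (h1 θ hθ)
  · intro c e T b θ h hp hm hθ hta
    rw [qtree_par_iff] at hp
    rw [qtree_mg_true] at hm
    rw [ta_merge hm.1 hm.2] at hta
    subst hta
    generalize hℓ : (t c false : Vx (Fin (Ng n cls)) (Fin (Ng n cls) × Bool)) = ℓ at h
    cases h with
    | first i k hi c hc σ T h1 h3 => omega
    | second i k hi c hc σ b' T h1 h3 =>
      refine WW.third i k hi e (by omega) σ b' (!b) _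
        (fun v hv' θ' h4 h5 h6 => h1 v hv' θ' h4 h5 h6.1) ?_ h3
      cases b <;> cases b' <;> simp
    | third i k hi c hc σ b b0 T h1 h2 h3 => omega
    | third' i k hi c p hc hp σ b T h1 h2 h3 => omega
    | clause c hc T h1 => omega
  · intro c e T b θ θ' h hp hm hθ hta hθ' hta'
    rw [qtree_par_iff] at hp
    rw [qtree_mg_true] at hm
    rw [ta_merge hm.1 hm.2] at hta hta'
    subst hta hta'
    generalize hℓ : (t c false : Vx (Fin (Ng n cls)) (Fin (Ng n cls) × Bool)) = ℓ at h
    cases h with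
    | first i k hi c hc σ T h1 h3 => omega
    | second i k hi c hc σ b' T h1 h3 =>
      refine WW.third' i k hi e c (by omega) hc σ b' _
        (fun v hv' θ' h4 h5 h6 => h1 v hv' θ' h4 h5 h6.1) ?_ h3
      intro b'' h
      apply h.2
      cases b <;> cases b'' <;> simp
    | third i k hi c hc σ b b0 T h1 h2 h3 => omega
    | third' i k hi c p hc hp σ b T h1 h2 h3 => omega
    | clause c hc T h1 => omega
  · intro c e T h hp hm
    rw [qtree_par_iff] at hp
    rw [qtree_mg_true] at hm
    generalize hℓ : (t c false : Vx (Fin (Ng n cls)) (Fin (Ng n cls) × Bool)) = ℓ at h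
    cases h with
    | first i k hi e hc σ T h1 h3 => omega
    | second i k hi e hc σ b' T h1 h3 => omega
    | third i k hi e hc σ b b0 T h1 h2 h3 =>
      injection hℓ with h4 h5
      rw [h4] at hp
      omega
    | third' i k hi e p hc hp' σ b T h1 h2 h3 =>
      exact WW_next i k hi e hc σ b T h1 (h2 _) h3
    | clause e hc T h1 => omega
  · intro T hT
    exact WW.first 0 n (by omega) (root n cls) rfl (fun _ => false) T (fun v hv' => by omega) hq

end ArcK
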