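import Pool.Agent.ArcK.Tree

/-!
# The tree of a quantified Boolean formula
-/

namespace ArcK

open Vx Cr

/-- number of gadgets -/
abbrev Ng (n : ℕ) (cls : List (List (ℕ × Bool))) : ℕ := 3 * n + 1 + cls.length

/-- the parent of a gadget -/
def qpar (n : ℕ) (cls : List (List (ℕ × Bool))) (c : Fin (Ng n cls)) : Option (Fin (Ng n cls)) :=
  if c.1 = 0 then none else if h : c.1 ≤ 3 * n then some ⟨c.1 - 1, by omega⟩ else
    some ⟨3 * n, by omega⟩

theorem qpar_iff (n : ℕ) (cls : List (List (ℕ × Bool))) (e c : Fin (Ng n cls)) :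
    qpar n cls e = some c ↔ (e.1 ≤ 3 * n ∧ c.1 + 1 = e.1) ∨ (3 * n < e.1 ∧ c.1 = 3 * n) := by
  unfold qpar
  have he := e.2
  have hc := c.2
  split_ifs with h1 h2
  · simp only [false_iff]; omega
  · rw [Option.some_inj, Fin.ext_iff]
    simp only
    omega
  · rw [Option.some_inj, Fin.ext_iff]
    simp only
    omega

/-- The tree of the formula: gadgets `3 i, 3 i + 1, 3 i + 2` of block `i`, then the final gadget
`3 n`, then the gadgets of the clauses.  The tokens are the pairs (gadget, Boolean). -/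
def qtree (n : ℕ) (cls : List (List (ℕ × Bool))) :
    Tree (Fin (Ng n cls)) (Fin (Ng n cls) × Bool) where
  par c := if c.1 = 0 then none else if h : c.1 ≤ 3 * n then some ⟨c.1 - 1, by omega⟩ else
    some ⟨3 * n, by omega⟩
  mg c := decide (c.1 < 3 * n ∧ c.1 % 3 = 2)
  ta θ c b :=
    (c.1 ≤ 3 * n ∧ θ = (c, false) ∧ b = false) ∨
    (c.1 < 3 * n ∧ c.1 % 3 = 0 ∧ θ = (c, true) ∧ b = false) ∨
    (c.1 < 3 * n ∧ c.1 % 3 = 2 ∧ θ = (c, true) ∧ b = true) ∨
    (b = false ∧ ∃ (j : ℕ) (C : List (ℕ × Bool)), c.1 = 3 * n + 1 + j ∧ cls[j]? = some C ∧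
      ∃ l ∈ C, θ.1.1 = 3 * (l.1 / 2) + 2 * (l.1 % 2) ∧ θ.2 = l.2)
  rk c := c.1
  rk_lt := by
    intro c p h
    have h' : qpar n cls c = some p := h
    rw [qpar_iff] at h'
    omega
  mg_par := by
    intro c h
    have h1 : c.1 < 3 * n ∧ c.1 % 3 = 2 := by simpa using h
    refine ⟨⟨c.1 - 1, by have := c.2; omega⟩, ?_, ?_⟩
    · have : qpar n cls c = some ⟨c.1 - 1, by have := c.2; omega⟩ := by
        rw [qpar_iff]
        left
        simp only
        omega
      exact this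
    · simp only [decide_eq_false_iff_not, not_and]
      omega
  mg_only := by
    intro c p e hm hc he
    have hm1 : c.1 < 3 * n ∧ c.1 % 3 = 2 := by simpa using hm
    have hc' : qpar n cls c = some p := hc
    have he' : qpar n cls e = some p := he
    rw [qpar_iff] at hc' he'
    apply Fin.ext
    omega
  mg_pp := by
    intro c p q hm hc hp
    have hm1 : c.1 < 3 * n ∧ c.1 % 3 = 2 := by simpa using hm
    have hc' : qpar n cls c = some p := hc
    have hp' : qpar n cls p = some q := hp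
    rw [qpar_iff] at hc' hp'
    refine ⟨?_, ?_⟩
    · simp only [decide_eq_false_iff_not, not_and]
      omega
    · intro e he
      have he' : qpar n cls e = some q := he
      rw [qpar_iff] at he'
      apply Fin.ext
      omega
  mg_child := by
    intro c e f hm he hf
    have hm1 : c.1 < 3 * n ∧ c.1 % 3 = 2 := by simpa using hm
    have he' : qpar n cls e = some c := he
    have hf' : qpar n cls f = some c := hf
    rw [qpar_iff] at he' hf'
    apply Fin.ext
    omega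
  root_uniq := by
    intro c c' h h'
    have key : ∀ d : Fin (Ng n cls), (if d.1 = 0 then none else if h : d.1 ≤ 3 * n then
        some (⟨d.1 - 1, by omega⟩ : Fin (Ng n cls)) else some ⟨3 * n, by omega⟩) = none →
        d.1 = 0 := by
      intro d hd
      split_ifs at hd with h1 h2
      exact h1
    apply Fin.ext
    rw [key c h, key c' h']

/-- the root gadget -/
def root (n : ℕ) (cls : List (List (ℕ × Bool))) : Fin (Ng n cls) := ⟨0, by unfold Ng; omega⟩

/-- The vertices of the real graph. -/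
def Real (n : ℕ) (cls : List (List (ℕ × Bool))) : Vx (Fin (Ng n cls)) (Fin (Ng n cls) × Bool) → Prop
  | .cr _ (.T k) => 2 ≤ k.1
  | .cr _ _ => True
  | .z c => c.1 ≠ 0 ∧ ¬ (c.1 < 3 * n ∧ c.1 % 3 = 2)
  | .t _ false => True
  | .t c true => c.1 < 3 * n ∧ c.1 % 3 = 2
  | .tok θ => θ.2 = false ∨ (θ.1.1 < 3 * n ∧ θ.1.1 % 3 ≠ 1)
  | .tl θ => θ.2 = false ∨ (θ.1.1 < 3 * n ∧ θ.1.1 % 3 ≠ 1)

section lemmas

variable {n : ℕ} {cls : List (List (ℕ × Bool))}

theorem qtree_par_iff {e c : Fin (Ng n cls)} :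
    (qtree n cls).par e = some c ↔
      (e.1 ≤ 3 * n ∧ c.1 + 1 = e.1) ∨ (3 * n < e.1 ∧ c.1 = 3 * n) :=
  qpar_iff n cls e c

theorem qtree_par_eq_none {e : Fin (Ng n cls)} : (qtree n cls).par e = none ↔ e.1 = 0 := by
  have h : (qtree n cls).par e = qpar n cls e := rfl
  rw [h]
  unfold qpar
  split_ifs with h1 h2
  · simp [h1]
  · simp [h1]
  · simp [h1]

theorem qtree_mg_true {c : Fin (Ng n cls)} :
    (qtree n cls).mg c = true ↔ c.1 < 3 * n ∧ c.1 % 3 = 2 := by
  simp [qtree]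

theorem qtree_mg_false {c : Fin (Ng n cls)} :
    (qtree n cls).mg c = false ↔ ¬ (c.1 < 3 * n ∧ c.1 % 3 = 2) := by
  simp [qtree]

theorem qtree_ta_def {θ : Fin (Ng n cls) × Bool} {c : Fin (Ng n cls)} {b : Bool} :
    (qtree n cls).ta θ c b ↔
    (c.1 ≤ 3 * n ∧ θ = (c, false) ∧ b = false) ∨
    (c.1 < 3 * n ∧ c.1 % 3 = 0 ∧ θ = (c, true) ∧ b = false) ∨
    (c.1 < 3 * n ∧ c.1 % 3 = 2 ∧ θ = (c, true) ∧ b = true) ∨
    (b = false ∧ ∃ (j : ℕ) (C : List (ℕ × Bool)), c.1 = 3 * n + 1 + j ∧ cls[j]? = some C ∧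
      ∃ l ∈ C, θ.1.1 = 3 * (l.1 / 2) + 2 * (l.1 % 2) ∧ θ.2 = l.2) :=
  Iff.rfl

end lemmas

end ArcK
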