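import Pool.Agent.ArcK.Tools

/-!
# Replies at an ordinary gadget and at a merge gadget
-/

set_option linter.unusedSectionVars false

namespace ArcK

open Vx Cr

variable {Γ Θ : Type} [DecidableEq Γ] [DecidableEq Θ] {X : Tree Γ Θ} {S S1 S' : Finset (Vx Γ Θ)}

/-- what may be missing in a frame around the ordinary gadget `c` -/
def MsC (X : Tree Γ Θ) (S : Finset (Vx Γ Θ)) (c : Γ) (x : Vx Γ Θ) : Prop :=
  (∃ y, x = cr c y) ∨ x = z c ∨ (∃ b, x = t c b) ∨ isA x = true ∨
  ∃ q b, X.par c = some q ∧ x = t q b ∧ Dn S q ∧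
    (X.mg q = false → ¬ okc X (S.erase (t q false)) c ∨ ∀ e, X.par e = some q → e = c)

theorem FrC.of_miss {c : Γ} (hsub : S' ⊆ S) (hw : ¬ Wa S' c) (hL : Lf S')
    (hmiss : ∀ x ∈ S, x ∉ S' → MsC X S c x)
    (hnd : ¬ Dn S c ∨ (Dn S' c ∧ ∀ b, t c b ∈ S → t c b ∈ S')) : FrC X S S' c := by
  refine ⟨hsub, ?_, ?_, ?_, hw, hnd, ?_, hL⟩
  · intro e hec
    refine CoreLe.of_B hsub ?_ ?_
    · intro k hk
      by_contra h
      rcases hmiss _ hk h with ⟨y, h1⟩ | h1 | ⟨b, h1⟩ | h1 | ⟨q, b, -, h1, -⟩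
      · cases h1; exact hec rfl
      · cases h1
      · cases h1
      · cases h1
      · cases h1
    · intro k hk
      by_contra h
      rcases hmiss _ hk h with ⟨y, h1⟩ | h1 | ⟨b, h1⟩ | h1 | ⟨q, b, -, h1, -⟩
      · cases h1; exact hec rfl
      · cases h1
      · cases h1
      · cases h1
      · cases h1
  · intro e hec hk
    by_contra h
    rcases hmiss _ hk h with ⟨y, h1⟩ | h1 | ⟨b, h1⟩ | h1 | ⟨q, b, -, h1, -⟩
    · cases h1
    · cases h1; exact hec rfl
    · cases h1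
    · cases h1
    · cases h1
  · intro e hec hce b hk
    by_contra h
    rcases hmiss _ hk h with ⟨y, h1⟩ | h1 | ⟨b, h1⟩ | h1 | ⟨q, b, hq, h1, -⟩
    · cases h1
    · cases h1
    · cases h1; exact hec rfl
    · cases h1
    · cases h1; exact hce hq
  · intro q hq
    by_cases hall : ∀ b, t q b ∈ S → t q b ∈ S'
    · exact Or.inl hall
    · right
      push Not at hall
      obtain ⟨b, hb, hb'⟩ := hall
      rcases hmiss _ hb hb' with ⟨y, h1⟩ | h1 | ⟨b, h1⟩ | h1 | ⟨q', b, hq', h1, h2⟩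
      · cases h1
      · cases h1
      · cases h1; exact absurd rfl (X.par_ne hq)
      · cases h1
      · cases h1; exact h2

/-- what may be missing in a frame around the merge gadget `c` -/
def MsM (X : Tree Γ Θ) (S : Finset (Vx Γ Θ)) (c : Γ) (x : Vx Γ Θ) : Prop :=
  (∃ y, x = cr c y) ∨ (∃ b, x = t c b) ∨ isA x = true ∨
  (∃ q b, X.par c = some q ∧ x = t q b ∧ okc X (S.erase (t q false)) q) ∨
  ∃ f, X.par f = some c ∧ x = z f ∧ okc X (S.erase (z f)) f

theorem FrM.of_miss {c : Γ} (hsub : S' ⊆ S) (hw : ¬ Wa S' c) (hL : Lf S')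
    (hmiss : ∀ x ∈ S, x ∉ S' → MsM X S c x) (hnd : ¬ Dn S c) : FrM X S S' c := by
  refine ⟨hsub, ?_, ?_, ?_, ?_, ?_, hw, hnd, hL⟩
  · intro e hec
    refine CoreLe.of_B hsub ?_ ?_
    · intro k hk
      by_contra h
      rcases hmiss _ hk h with ⟨y, h1⟩ | ⟨b, h1⟩ | h1 | ⟨q, b, -, h1, -⟩ | ⟨f, -, h1, -⟩
      · cases h1; exact hec rfl
      · cases h1
      · cases h1
      · cases h1
      · cases h1
    · intro k hk
      by_contra h
      rcases hmiss _ hk h with ⟨y, h1⟩ | ⟨b, h1⟩ | h1 | ⟨q, b, -, h1, -⟩ | ⟨f, -, h1, -⟩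
      · cases h1; exact hec rfl
      · cases h1
      · cases h1
      · cases h1
      · cases h1
  · intro e hec hk
    by_contra h
    rcases hmiss _ hk h with ⟨y, h1⟩ | ⟨b, h1⟩ | h1 | ⟨q, b, -, h1, -⟩ | ⟨f, hf, h1, -⟩
    · cases h1
    · cases h1
    · cases h1
    · cases h1
    · cases h1; exact hec hf
  · intro f hf
    by_cases h : z f ∈ S → z f ∈ S'
    · exact Or.inl h
    · right
      push Not at h
      rcases hmiss _ h.1 h.2 with ⟨y, h1⟩ | ⟨b, h1⟩ | h1 | ⟨q, b, -, h1, -⟩ | ⟨f, -, h1, h2⟩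
      · cases h1
      · cases h1
      · cases h1
      · cases h1
      · cases h1; exact h2
  · intro e hec hce b hk
    by_contra h
    rcases hmiss _ hk h with ⟨y, h1⟩ | ⟨b, h1⟩ | h1 | ⟨q, b, hq, h1, -⟩ | ⟨f, -, h1, -⟩
    · cases h1
    · cases h1; exact hec rfl
    · cases h1
    · cases h1; exact hce hq
    · cases h1
  · intro q hq
    by_cases hall : ∀ b, t q b ∈ S → t q b ∈ S'
    · exact Or.inl hall
    · right
      push Not at hall
      obtain ⟨b, hb, hb'⟩ := hall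
      rcases hmiss _ hb hb' with ⟨y, h1⟩ | ⟨b, h1⟩ | h1 | ⟨q', b, hq', h1, h2⟩ | ⟨f, -, h1, -⟩
      · cases h1
      · cases h1; exact absurd rfl (X.par_ne hq)
      · cases h1
      · cases h1; exact h2
      · cases h1

/-- the attacked position `S1`, in a frame around the ordinary gadget `c` -/
structure AtC (X : Tree Γ Θ) (S S1 : Finset (Vx Γ Θ)) (c : Γ) : Prop where
  inv : Inv X S
  mg : X.mg c = false
  nd : ¬ Dn S c
  sub : S1 ⊆ S
  miss : ∀ x ∈ S, x ∉ S1 → MsC X S c x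
  lf : Lf S1

theorem AtC.core {c : Γ} (A : AtC X S S1 c) {e : Γ} (hec : e ≠ c) : CoreLe S S1 e := by
  refine CoreLe.of_B A.sub ?_ ?_
  · intro k hk
    by_contra h
    rcases A.miss _ hk h with ⟨y, h1⟩ | h1 | ⟨b, h1⟩ | h1 | ⟨q, b, -, h1, -⟩
    · cases h1; exact hec rfl
    · cases h1
    · cases h1
    · cases h1
    · cases h1
  · intro k hk
    by_contra h
    rcases A.miss _ hk h with ⟨y, h1⟩ | h1 | ⟨b, h1⟩ | h1 | ⟨q, b, -, h1, -⟩
    · cases h1; exact hec rfl
    · cases h1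
    · cases h1
    · cases h1
    · cases h1

/-- the conditions about the merge child of `c` -/
def HM (X : Tree Γ Θ) (S S1 : Finset (Vx Γ Θ)) (c : Γ) : Prop :=
  (okc X (S.erase (t c false)) c → ∀ b, t c b ∈ S → t c b ∈ S1) ∨
  ((∀ b, t c b ∉ S1) ∧ ∀ M, X.par M = some c → X.mg M = true → okm X S1 M)

/-- the conditions about the merge parent of `c` -/
def HP (X : Tree Γ Θ) (S S1 : Finset (Vx Γ Θ)) (c : Γ) : Prop :=
  (∀ p, X.par c = some p → X.mg p = true → Wa S p → z c ∈ S → okc X (S.erase (z c)) c →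
    z c ∈ S1) ∨
  (z c ∉ S1 ∧ ∀ p, X.par c = some p → X.mg p = true → okm X S1 p)

/-- the position after the reply is closed -/
theorem inv_chain {c : Γ} (A : AtC X S S1 c) {a b : Vx Γ Θ} (hab : Ad X a b)
    (ha : ∃ y, a = cr c y) (hb : MsC X S c b) (hw : ¬ Wa (del S1 a b) c)
    (h1 : okc X (del S1 a b) c)
    (hM : (okc X (S.erase (t c false)) c → (∀ b', t c b' ∈ S → t c b' ∈ del S1 a b) ∧
        okc X ((del S1 a b).erase (t c false)) c) ∨
      ((∀ b', t c b' ∉ S1) ∧ ∀ M, X.par M = some c → X.mg M = true → okm X S1 M) ∨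
      ∀ M, X.par M = some c → X.mg M = false)
    (hP : (∀ p, X.par c = some p → X.mg p = true → Wa S p → z c ∈ S → okc X (S.erase (z c)) c →
        z c ∈ del S1 a b ∧ okc X ((del S1 a b).erase (z c)) c) ∨
      (z c ∉ S1 ∧ ∀ p, X.par c = some p → X.mg p = true → okm X S1 p))
    (h5 : ∀ q, X.par c = some q → X.mg q = false → ¬ Wa S q →
      okc X (S.erase (t q false)) c → okc X ((del S1 a b).erase (t q false)) c) :
    Inv X (del S1 a b) := by
  have hsub : del S1 a b ⊆ S := (del_subset a b).trans A.sub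
  have F : FrC X S (del S1 a b) c := by
    refine FrC.of_miss hsub hw (A.lf.del hab) ?_ (Or.inl A.nd)
    intro x hx hx'
    by_cases hx1 : x ∈ S1
    · rcases not_mem_del hx1 hx' with h | h
      · subst h; exact Or.inl ha
      · subst h; exact hb
    · exact A.miss x hx hx1
  -- from `S1` to the final position
  have hcore : ∀ e, e ≠ c → CoreLe S1 (del S1 a b) e := by
    intro e hec
    refine CoreLe.of_B (del_subset a b) ?_ ?_
    · intro k hk
      by_contra h
      rcases not_mem_del hk h with h | h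
      · obtain ⟨y, rfl⟩ := ha; cases h; exact hec rfl
      · subst h
        rcases hb with ⟨y, h1⟩ | h1 | ⟨b, h1⟩ | h1 | ⟨q, b, -, h1, -⟩
        · cases h1; exact hec rfl
        · cases h1
        · cases h1
        · cases h1
        · cases h1
    · intro k hk
      by_contra h
      rcases not_mem_del hk h with h | h
      · obtain ⟨y, rfl⟩ := ha; cases h; exact hec rfl
      · subst h
        rcases hb with ⟨y, h1⟩ | h1 | ⟨b, h1⟩ | h1 | ⟨q, b, -, h1, -⟩
        · cases h1; exact hec rfl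
        · cases h1
        · cases h1
        · cases h1
        · cases h1
  have hz : ∀ e, e ≠ c → z e ∈ S1 → z e ∈ del S1 a b := by
    intro e hec hk
    by_contra h
    rcases not_mem_del hk h with h | h
    · obtain ⟨y, rfl⟩ := ha; cases h
    · subst h
      rcases hb with ⟨y, h1⟩ | h1 | ⟨b, h1⟩ | h1 | ⟨q, b, -, h1, -⟩
      · cases h1
      · cases h1; exact hec rfl
      · cases h1
      · cases h1
      · cases h1
  have ht : ∀ e, e ≠ c → X.par c ≠ some e → ∀ b', t e b' ∈ S1 → t e b' ∈ del S1 a b := by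
    intro e hec hce b' hk
    by_contra h
    rcases not_mem_del hk h with h | h
    · obtain ⟨y, rfl⟩ := ha; cases h
    · subst h
      rcases hb with ⟨y, h1⟩ | h1 | ⟨b, h1⟩ | h1 | ⟨q, b, hq, h1, -⟩
      · cases h1
      · cases h1
      · cases h1; exact hec rfl
      · cases h1
      · cases h1; exact hce hq
  refine inv_VC A.inv A.mg F h1 ?_ ?_ h5
  · rcases hM with hM | ⟨hM1, hM2⟩ | hM
    · exact hM_of A.inv F hM
    · intro M hMp hmM
      exact hM_of' hMp S1 hM1 (del_subset a b) hcore hz ht (hM2 M hMp hmM)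
    · intro M hMp hmM
      rw [hM M hMp] at hmM; cases hmM
  · rcases hP with hP | ⟨hP1, hP2⟩
    · exact hp_of A.inv F hP
    · intro p hp hmp
      have hpc : p ≠ c := (X.par_ne hp).symm
      rcases F.hq p hp with htp | ⟨hD, -⟩
      · by_cases hall : ∀ b', t p b' ∈ S1 → t p b' ∈ del S1 a b
        · refine okm_transfer (hcore p hpc) hall ?_ ?_ (hP2 p hp hmp)
          · obtain ⟨r, hr, hmr⟩ := X.mg_par p hmp
            have hrc : r ≠ c := (X.par_par_ne hp hr).symm
            have hrp : r ≠ p := (X.par_ne hr).symm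
            have hcr : X.par c ≠ some r := by intro h; rw [hp] at h; cases h; exact hrp rfl
            intro hQ
            rw [Qp_iff hr] at hQ ⊢
            right
            rw [gam_eq hr, gam_eq hr]
            refine ⟨tau_mono (ht r hrc hcr), Tr.okc_erase (isLk_t _ _) ?_ hQ⟩
            refine ⟨hcore r hrc, hz r hrc, ht r hrc hcr, ?_⟩
            intro s hs
            have h1 := X.rk_lt _ _ hs
            have h2 := X.rk_lt _ _ hr
            have h3 := X.rk_lt _ _ hp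
            have hsc : s ≠ c := by rintro rfl; omega
            have hsp : s ≠ p := by rintro rfl; omega
            have hcs : X.par c ≠ some s := by intro h; rw [hp] at h; cases h; exact hsp rfl
            exact Or.inl ⟨ht s hsc hcs, fun hh => del_subset _ _ hh, Dn_mono (hcore s hsc)⟩
          · intro _ hM3
            obtain ⟨f, hf, hzf, -⟩ := hM3
            have : f = c := X.mg_child p f c hmp hf hp
            subst this
            exact absurd hzf hP1
        · exfalso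
          push Not at hall
          obtain ⟨b', hb1, hb2⟩ := hall
          exact hb2 (htp b' (A.sub hb1))
      · exact okm_of_Dn (Dn_mono (F.core p hpc) hD)

/-! ### The replies which make `c` done -/

/-- replies which make `c` done and consume no link -/
theorem good_Dn {c : Γ} (A : AtC X S S1 c) (hHM : HM X S S1 c) (hHP : HP X S S1 c)
    {y y' : Cr} (hab : Ad X (cr c y) (cr c y')) (hy : cr c y ∈ S1) (hy' : cr c y' ∈ S1)
    (hD : Dn (del S1 (cr c y) (cr c y')) c) : Good X S1 := by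
  refine ⟨cr c y, cr c y', hy, hy', hab, ?_⟩
  refine inv_chain A hab ⟨y, rfl⟩ (Or.inl ⟨y', rfl⟩) hD.1 (okc_of_Dn hD) ?_ ?_
    (fun _ _ _ _ _ => okc_erase_of_Dn (isLk_t _ _) hD)
  · rcases hHM with h | h
    · left
      intro h1
      refine ⟨fun b' hb' => ?_, okc_erase_of_Dn (isLk_t _ _) hD⟩
      rw [mem_del]
      exact ⟨by simp, by simp, h h1 b' hb'⟩
    · exact Or.inr (Or.inl h)
  · rcases hHP with h | h
    · left
      intro p hp hmp hW hz h1
      refine ⟨?_, okc_erase_of_Dn (isLk_z _) hD⟩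
      rw [mem_del]
      exact ⟨by simp, by simp, h p hp hmp hW hz h1⟩
    · exact Or.inr h

theorem Dn_of_spare {c : Γ} {k : Fin 5} (hN : NR S c) (hk : cr c (u k) ∉ S) :
    Dn (del S (cr c w) (cr c (p k))) c := by
  constructor
  · unfold Wa; rw [mem_del]; rintro ⟨-, h, -⟩; exact h rfl
  · intro l hl
    rw [mem_del] at hl ⊢
    refine ⟨?_, by simp, hN l hl.2.2⟩
    intro h
    cases h
    exact hk hl.2.2

theorem good_spare {c : Γ} (A : AtC X S S1 c) (hHM : HM X S S1 c) (hHP : HP X S S1 c)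
    (hW : Wa S1 c) (hN : NR S1 c) (hS : Sp S1 c) : Good X S1 := by
  obtain ⟨k, hk1, hk2⟩ := hS
  exact good_Dn A hHM hHP (Ad.wp c k) hW hk2 (Dn_of_spare hN hk1)

theorem Dn_of_Rk {c : Γ} {k : Fin 5} {x : Vx Γ Θ} (hR : Rk S c k) (hx : ∀ l, x ≠ cr c (p l)) :
    Dn (del S (cr c (u k)) x) c := by
  constructor
  · unfold Wa; rw [mem_del]; rintro ⟨-, -, h⟩; exact hR.1 h
  · intro l hl
    rw [mem_del] at hl ⊢
    refine ⟨(hx l).symm, by simp, hR.2.2.2 l ?_ hl.2.2⟩
    rintro rfl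
    exact hl.2.1 rfl

theorem good_T {c : Γ} {k : Fin 5} (A : AtC X S S1 c) (hHM : HM X S S1 c) (hHP : HP X S S1 c)
    (hR : Rk S1 c k) (hT : cr c (T k) ∈ S1) : Good X S1 :=
  good_Dn A hHM hHP (Ad.uT c k) hR.2.1 hT (Dn_of_Rk hR (by simp))

/-- save `u k` by the own trigger vertex -/
theorem good_own_t {c : Γ} {k : Fin 5} (A : AtC X S S1 c) (hHP : HP X S S1 c)
    (hR : Rk S1 c k) {b : Bool} (ht : t c b ∈ S1)
    (hM : ¬ okc X (S.erase (t c false)) c ∨ ∀ M, X.par M = some c → X.mg M = false) :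
    Good X S1 := by
  have hD := Dn_of_Rk (x := t c b) hR (by simp)
  refine ⟨cr c (u k), t c b, hR.2.1, ht, Ad.ut c k b, ?_⟩
  have hHP' : (∀ p, X.par c = some p → X.mg p = true → Wa S p → z c ∈ S →
        okc X (S.erase (z c)) c → z c ∈ del S1 (cr c (u k)) (t c b) ∧
        okc X ((del S1 (cr c (u k)) (t c b)).erase (z c)) c) ∨
      (z c ∉ S1 ∧ ∀ p, X.par c = some p → X.mg p = true → okm X S1 p) := by
    rcases hHP with h | h
    · left
      intro p hp hmp hW hz h1
      refine ⟨?_, okc_erase_of_Dn (isLk_z _) hD⟩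
      rw [mem_del]
      exact ⟨by simp, by simp, h p hp hmp hW hz h1⟩
    · exact Or.inr h
  refine inv_chain A (Ad.ut c k b) ⟨u k, rfl⟩ (Or.inr (Or.inr (Or.inl ⟨b, rfl⟩))) hD.1
    (okc_of_Dn hD) ?_ hHP' (fun _ _ _ _ _ => okc_erase_of_Dn (isLk_t _ _) hD)
  rcases hM with hM | hM
  · exact Or.inl fun h => absurd h hM
  · exact Or.inr (Or.inr hM)

/-- save `u k` by the link `z` -/
theorem good_own_z {c : Γ} {k : Fin 5} (A : AtC X S S1 c) (hHM : HM X S S1 c)
    (hR : Rk S1 c k) (hz : z c ∈ S1)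
    (hP : ∀ p, X.par c = some p → X.mg p = true → Wa S p → ¬ okc X (S.erase (z c)) c) :
    Good X S1 := by
  have hD := Dn_of_Rk (x := z c) hR (by simp)
  refine ⟨cr c (u k), z c, hR.2.1, hz, Ad.uz c k, ?_⟩
  refine inv_chain A (Ad.uz c k) ⟨u k, rfl⟩ (Or.inr (Or.inl rfl)) hD.1 (okc_of_Dn hD) ?_ ?_
    (fun _ _ _ _ _ => okc_erase_of_Dn (isLk_t _ _) hD)
  · rcases hHM with h | h
    · left
      intro h1
      refine ⟨fun b' hb' => ?_, okc_erase_of_Dn (isLk_t _ _) hD⟩
      rw [mem_del]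
      exact ⟨by simp, by simp, h h1 b' hb'⟩
    · exact Or.inr (Or.inl h)
  · left
    intro p hp hmp hW _ h1
    exact absurd h1 (hP p hp hmp hW)

/-- save `u k` by a trigger vertex of the parent -/
theorem good_gam {c q : Γ} {k : Fin 5} (A : AtC X S S1 c) (hHM : HM X S S1 c)
    (hHP : HP X S S1 c) (hR : Rk S1 c k) (hq : X.par c = some q) {b : Bool} (ht : t q b ∈ S1)
    (hDq : Dn S q) (hs : X.mg q = false → ¬ okc X (S.erase (t q false)) c ∨
      ∀ e, X.par e = some q → e = c) : Good X S1 := by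
  have hD := Dn_of_Rk (x := t q b) hR (by simp)
  have hqc : q ≠ c := (X.par_ne hq).symm
  refine ⟨cr c (u k), t q b, hR.2.1, ht, Ad.ug c k q b hq, ?_⟩
  refine inv_chain A (Ad.ug c k q b hq) ⟨u k, rfl⟩
    (Or.inr (Or.inr (Or.inr (Or.inr ⟨q, b, hq, rfl, hDq, hs⟩)))) hD.1 (okc_of_Dn hD) ?_ ?_
    (fun _ _ _ _ _ => okc_erase_of_Dn (isLk_t _ _) hD)
  · rcases hHM with h | h
    · left
      intro h1
      refine ⟨fun b' hb' => ?_, okc_erase_of_Dn (isLk_t _ _) hD⟩
      rw [mem_del]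
      exact ⟨by simp [hqc.symm], by simp, h h1 b' hb'⟩
    · exact Or.inr (Or.inl h)
  · rcases hHP with h | h
    · left
      intro p hp hmp hW hz h1
      refine ⟨?_, okc_erase_of_Dn (isLk_z _) hD⟩
      rw [mem_del]
      exact ⟨by simp, by simp, h p hp hmp hW hz h1⟩
    · exact Or.inr h

/-! ### Neutralising -/

theorem Rk_of_neut {c : Γ} {l : Fin 5} (hN : NR S c) (hF : Fl S c l) :
    Rk (del S (cr c w) (cr c (p l))) c l ∧ cr c (T l) ∈ del S (cr c w) (cr c (p l)) := by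
  refine ⟨⟨?_, ?_, ?_, ?_⟩, ?_⟩
  · unfold Wa; rw [mem_del]; rintro ⟨-, h, -⟩; exact h rfl
  · rw [mem_del]; exact ⟨by simp, by simp, hF.1⟩
  · rw [mem_del]; rintro ⟨h, -, -⟩; exact h rfl
  · intro m hml hm
    rw [mem_del] at hm ⊢
    exact ⟨by simp [hml], by simp, hN m hm.2.2⟩
  · rw [mem_del]; exact ⟨by simp, by simp, hF.2.2⟩

theorem exc_neut {c : Γ} {l : Fin 5} (x : Vx Γ Θ) (hx : isLk x = true) :
    exc X (S.erase x) c ≤ exc X ((del S (cr c w) (cr c (p l))).erase x) c := by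
  refine exc_mono_erase hx ?_ ?_ ?_ ?_
  · intro h; rw [mem_del]; exact ⟨by simp, by simp, h⟩
  · intro b h; rw [mem_del]; exact ⟨by simp, by simp, h⟩
  · intro q _ b h; rw [mem_del]; exact ⟨by simp, by simp, h⟩
  · intro q hq hD
    have hqc : q ≠ c := (X.par_ne hq).symm
    refine Dn_mono (CoreLe.of_B (del_subset _ _) ?_ ?_) hD <;>
    · intro k hk
      rw [mem_del]
      exact ⟨by simp [hqc], by simp [hqc], hk⟩

theorem exc_neut' {c : Γ} {l : Fin 5} :
    exc X S c ≤ exc X (del S (cr c w) (cr c (p l))) c := by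
  refine exc_mono ?_ ?_ ?_ ?_
  · intro h; rw [mem_del]; exact ⟨by simp, by simp, h⟩
  · intro b h; rw [mem_del]; exact ⟨by simp, by simp, h⟩
  · intro q _ b h; rw [mem_del]; exact ⟨by simp, by simp, h⟩
  · intro q hq hD
    have hqc : q ≠ c := (X.par_ne hq).symm
    refine Dn_mono (CoreLe.of_B (del_subset _ _) ?_ ?_) hD <;>
    · intro k hk
      rw [mem_del]
      exact ⟨by simp [hqc], by simp [hqc], hk⟩

/-- neutralise `c` -/
theorem good_neut {c : Γ} {l : Fin 5} (A : AtC X S S1 c) (hW : Wa S1 c) (hN : NR S1 c)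
    (hF : Fl S1 c l) (hE : 1 ≤ exc X S1 c ∨ cr c Om ∉ S1)
    (hM : (okc X (S.erase (t c false)) c → (∀ b, t c b ∈ S → t c b ∈ S1) ∧
        (1 ≤ exc X (S1.erase (t c false)) c ∨ cr c Om ∉ S1)) ∨
      ((∀ b, t c b ∉ S1) ∧ ∀ M, X.par M = some c → X.mg M = true → okm X S1 M))
    (hP : (∀ p, X.par c = some p → X.mg p = true → Wa S p → z c ∈ S →
        okc X (S.erase (z c)) c → z c ∈ S1 ∧ (1 ≤ exc X (S1.erase (z c)) c ∨ cr c Om ∉ S1)) ∨
      (z c ∉ S1 ∧ ∀ p, X.par c = some p → X.mg p = true → okm X S1 p))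
    (h5 : ∀ q, X.par c = some q → X.mg q = false → ¬ Wa S q →
      okc X (S.erase (t q false)) c → 1 ≤ exc X (S1.erase (t q false)) c ∨ cr c Om ∉ S1) :
    Good X S1 := by
  obtain ⟨hR, hT⟩ := Rk_of_neut hN hF
  have hOm : cr c Om ∉ S1 → cr c Om ∉ del S1 (cr c w) (cr c (p l)) :=
    fun h h' => h (del_subset _ _ h')
  refine ⟨cr c w, cr c (p l), hW, hF.2.1, Ad.wp c l, ?_⟩
  refine inv_chain A (Ad.wp c l) ⟨w, rfl⟩ (Or.inl ⟨p l, rfl⟩) hR.1 ?_ ?_ ?_ ?_
  · exact okc_of_Rk hR hT (hE.imp (fun h => h.trans exc_neut') hOm)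
  · rcases hM with h | h
    · left
      intro h1
      refine ⟨fun b' hb' => ?_, okc_erase_of_Rk (isLk_t _ _) hR hT
        ((h h1).2.imp (fun h => h.trans (exc_neut _ (isLk_t _ _))) hOm)⟩
      rw [mem_del]
      exact ⟨by simp, by simp, (h h1).1 b' hb'⟩
    · exact Or.inr (Or.inl h)
  · rcases hP with h | h
    · left
      intro p hp hmp hWp hz h1
      obtain ⟨h2, h3⟩ := h p hp hmp hWp hz h1
      refine ⟨?_, okc_erase_of_Rk (isLk_z _) hR hT
        (h3.imp (fun h => h.trans (exc_neut _ (isLk_z _))) hOm)⟩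
      rw [mem_del]
      exact ⟨by simp, by simp, h2⟩
    · exact Or.inr h
  · intro q hq hmq hWq h1
    exact okc_erase_of_Rk (isLk_t _ _) hR hT
      ((h5 q hq hmq hWq h1).imp (fun h => h.trans (exc_neut _ (isLk_t _ _))) hOm)

end ArcK
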