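import Pool.Agent.ArcK.Resp

/-!
# Replies at a merge gadget
-/

set_option linter.unusedSectionVars false

namespace ArcK

open Vx Cr

variable {Γ Θ : Type} [DecidableEq Γ] [DecidableEq Θ] {X : Tree Γ Θ} {S S1 S' : Finset (Vx Γ Θ)}

/-- the attacked position `S1`, in a frame around the merge gadget `c` -/
structure AtM (X : Tree Γ Θ) (S S1 : Finset (Vx Γ Θ)) (c : Γ) : Prop where
  inv : Inv X S
  mg : X.mg c = true
  nd : ¬ Dn S c
  sub : S1 ⊆ S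
  miss : ∀ x ∈ S, x ∉ S1 → MsM X S c x
  lf : Lf S1

theorem inv_merge {c : Γ} (A : AtM X S S1 c) {a b : Vx Γ Θ} (hab : Ad X a b)
    (ha : ∃ y, a = cr c y) (hb : MsM X S c b) (hw : ¬ Wa (del S1 a b) c)
    (h1 : okm X (del S1 a b) c) : Inv X (del S1 a b) := by
  refine inv_VM A.inv A.mg (FrM.of_miss ((del_subset a b).trans A.sub) hw (A.lf.del hab) ?_ A.nd) h1
  intro x hx hx'
  by_cases hx1 : x ∈ S1
  · rcases not_mem_del hx1 hx' with h | h
    · subst h; exact Or.inl ha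
    · subst h; exact hb
  · exact A.miss x hx hx1

/-- replies which make `c` done -/
theorem goodM_Dn {c : Γ} (A : AtM X S S1 c) {y : Cr} {x : Vx Γ Θ} (hab : Ad X (cr c y) x)
    (hy : cr c y ∈ S1) (hx : x ∈ S1) (hxm : MsM X S c x)
    (hD : Dn (del S1 (cr c y) x) c) : Good X S1 :=
  ⟨cr c y, x, hy, hx, hab, inv_merge A hab ⟨y, rfl⟩ hxm hD.1 (okm_of_Dn hD)⟩

theorem goodM_spare {c : Γ} (A : AtM X S S1 c) (hW : Wa S1 c) (hN : NR S1 c) (hS : Sp S1 c) :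
    Good X S1 := by
  obtain ⟨k, hk1, hk2⟩ := hS
  exact goodM_Dn A (Ad.wp c k) hW hk2 (Or.inl ⟨_, rfl⟩) (Dn_of_spare hN hk1)

theorem goodM_T {c : Γ} {k : Fin 5} (A : AtM X S S1 c) (hR : Rk S1 c k)
    (hT : cr c (T k) ∈ S1) : Good X S1 :=
  goodM_Dn A (Ad.uT c k) hR.2.1 hT (Or.inl ⟨_, rfl⟩) (Dn_of_Rk hR (by simp))

theorem goodM_own_t {c : Γ} {k : Fin 5} (A : AtM X S S1 c) (hR : Rk S1 c k) {b : Bool}
    (ht : t c b ∈ S1) : Good X S1 :=
  goodM_Dn A (Ad.ut c k b) hR.2.1 ht (Or.inr (Or.inl ⟨b, rfl⟩)) (Dn_of_Rk hR (by simp))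

theorem goodM_gam {c q : Γ} {k : Fin 5} (A : AtM X S S1 c) (hR : Rk S1 c k)
    (hq : X.par c = some q) {b : Bool} (ht : t q b ∈ S1)
    (hok : okc X (S.erase (t q false)) q) : Good X S1 :=
  goodM_Dn A (Ad.ug c k q b hq) hR.2.1 ht
    (Or.inr (Or.inr (Or.inr (Or.inl ⟨q, b, hq, rfl, hok⟩)))) (Dn_of_Rk hR (by simp))

/-- the exit -/
theorem goodM_exit {c f : Γ} (A : AtM X S S1 c) (hW : Wa S1 c) (hN : NR S1 c)
    (hf : X.par f = some c) (hz : z f ∈ S1) (hok : okc X (S.erase (z f)) f) : Good X S1 := by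
  refine goodM_Dn A (Ad.wz c f hf) hW hz
    (Or.inr (Or.inr (Or.inr (Or.inr ⟨f, hf, rfl, hok⟩)))) ⟨?_, ?_⟩
  · unfold Wa; rw [mem_del]; rintro ⟨-, h, -⟩; exact h rfl
  · intro l hl
    rw [mem_del] at hl ⊢
    exact ⟨by simp, by simp, hN l hl.2.2⟩

theorem exm_neut {c : Γ} {l : Fin 5} (hmg : X.mg c = true) :
    exm X S c ≤ exm X (del S (cr c w) (cr c (p l))) c := by
  obtain ⟨q, hq, hmq⟩ := X.mg_par c hmg
  have hqc : q ≠ c := (X.par_ne hq).symm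
  have ht : ∀ e b, t e b ∈ S → t e b ∈ del S (cr c w) (cr c (p l)) := by
    intro e b h; rw [mem_del]; exact ⟨by simp, by simp, h⟩
  have hcore : ∀ e, e ≠ c → CoreLe S (del S (cr c w) (cr c (p l))) e := by
    intro e hec
    refine CoreLe.of_B (del_subset _ _) ?_ ?_ <;>
    · intro k hk
      rw [mem_del]
      exact ⟨by simp [hec], by simp [hec], hk⟩
  by_cases h1 : Qp X S c
  · have h2 : Qp X (del S (cr c w) (cr c (p l))) c := by
      rw [Qp_iff hq] at h1 ⊢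
      refine Tr.okc_erase (isLk_t _ _) ⟨hcore q hqc, ?_, ht q, ?_⟩ h1
      · intro h; rw [mem_del]; exact ⟨by simp, by simp, h⟩
      · intro r hr
        have hrc : r ≠ c := (X.par_par_ne hq hr).symm
        exact Or.inl ⟨ht r, fun hh => del_subset _ _ hh, Dn_mono (hcore r hrc)⟩
    rw [exm_of_Qp h1, exm_of_Qp h2, gam_eq hq, gam_eq hq]
    exact Nat.add_le_add (tau_mono (ht c)) (tau_mono (ht q))
  · rw [exm_of_not_Qp h1]
    exact (tau_mono (ht c)).trans (exm_ge c)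

/-- neutralise `c` -/
theorem goodM_neut {c : Γ} {l : Fin 5} (A : AtM X S S1 c) (hW : Wa S1 c) (hN : NR S1 c)
    (hF : Fl S1 c l) (hE : 1 ≤ exm X S1 c ∨ cr c Om ∉ S1) : Good X S1 := by
  obtain ⟨hR, hT⟩ := Rk_of_neut hN hF
  have hOm : cr c Om ∉ S1 → cr c Om ∉ del S1 (cr c w) (cr c (p l)) :=
    fun h h' => h (del_subset _ _ h')
  exact ⟨cr c w, cr c (p l), hW, hF.2.1, Ad.wp c l,
    inv_merge A (Ad.wp c l) ⟨w, rfl⟩ (Or.inl ⟨_, rfl⟩) hR.1
      (okm_of_Rk hR hT (hE.imp (fun h => h.trans (exm_neut A.mg)) hOm))⟩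

end ArcK
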