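import Pool.Agent.ArcK.Frame

/-!
# Tools for the closure of the invariant
-/

set_option linter.unusedSectionVars false

namespace ArcK

open Vx Cr

variable {Γ Θ : Type} [DecidableEq Γ] [DecidableEq Θ] {X : Tree Γ Θ} {S S' : Finset (Vx Γ Θ)}

theorem Lf.of_inv (hI : Inv X S) : Lf S := ⟨hI.omL, hI.tl⟩

theorem Lf.del {a b : Vx Γ Θ} (h : Lf S) (hab : Ad X a b) : Lf (ArcK.del S a b) := by
  constructor
  · intro c hc
    simp only [Finset.mem_erase] at hc ⊢
    refine ⟨?_, ?_, h.omL c hc.2.2⟩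
    · rintro rfl
      cases hab
      exact hc.2.1 rfl
    · rintro rfl
      cases hab
  · intro θ hc
    simp only [Finset.mem_erase] at hc ⊢
    refine ⟨?_, ?_, h.tl θ hc.2.2⟩
    · rintro rfl
      cases hab
      exact hc.2.1 rfl
    · rintro rfl
      cases hab

theorem Lf.erase_link {x : Vx Γ Θ} (h : Lf S) (hx : isLk x = true ∨ isA x = true) :
    Lf (S.erase x) := by
  constructor
  · intro c hc
    rw [Finset.mem_erase] at hc ⊢
    refine ⟨?_, h.omL c hc.2⟩
    rintro rfl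
    rcases hx with hx | hx <;> cases hx
  · intro θ hc
    rw [Finset.mem_erase] at hc ⊢
    refine ⟨?_, h.tl θ hc.2⟩
    rintro rfl
    rcases hx with hx | hx <;> cases hx

theorem mem_del {a b x : Vx Γ Θ} : x ∈ del S a b ↔ x ≠ b ∧ x ≠ a ∧ x ∈ S := by
  simp only [Finset.mem_erase]

theorem del_subset (a b : Vx Γ Θ) : del S a b ⊆ S :=
  (Finset.erase_subset _ _).trans (Finset.erase_subset _ _)

theorem not_mem_del {a b x : Vx Γ Θ} (h : x ∈ S) (h' : x ∉ del S a b) : x = a ∨ x = b := by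
  rw [mem_del] at h'
  by_contra hh
  push Not at hh
  exact h' ⟨hh.2, hh.1, h⟩

theorem not_mem_erase {a x : Vx Γ Θ} (h : x ∈ S) (h' : x ∉ S.erase a) : x = a := by
  by_contra hh
  exact h' (Finset.mem_erase.2 ⟨hh, h⟩)

/-! ### Removing vertices of side `A` -/

/-- only vertices of side `A` are missing from the core -/
theorem CoreLe.of_B {e : Γ} (hs : S' ⊆ S) (hp : ∀ k, cr e (p k) ∈ S → cr e (p k) ∈ S')
    (hT : ∀ k, cr e (T k) ∈ S → cr e (T k) ∈ S') : CoreLe S S' e :=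
  CoreLe.of_sub hs (fun k h => Or.inl (hp k h)) (fun k h => Or.inl (hT k h))

theorem Inv.erase_A (hI : Inv X S) {a : Vx Γ Θ} (ha : isA a = true) : Inv X (S.erase a) := by
  have key : ∀ x, isA x = false → x ∈ S → x ∈ S.erase a := by
    intro x hx h
    rw [Finset.mem_erase]
    refine ⟨?_, h⟩
    rintro rfl
    rw [ha] at hx; cases hx
  exact hI.le (Finset.erase_subset _ _)
    (fun e => CoreLe.of_B (Finset.erase_subset _ _) (fun k => key _ rfl) (fun k => key _ rfl))
    (fun e => key _ rfl) (fun e b => key _ rfl)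
    ((Lf.of_inv hI).erase_link (Or.inr ha))

/-! ### Structure of the safety conditions -/

theorem okc.alive {c : Γ} (h : okc X S c) (hW : Wa S c) : NR S c ∧ ((Sp S c ∧ 1 ≤ exc X S c) ∨
    (F2 S c ∧ ((z c ∈ S ∧ (¬ wpar X S c ∨ 1 ≤ gam X S c + tau S c)) ∨
      (dpar X S c ∧ 2 ≤ exc X S c)))) := by
  rcases h with h | h | ⟨k, h, -⟩
  · exact absurd hW h.1
  · exact h.2
  · exact absurd hW h.1

theorem okm.alive {c : Γ} (h : okm X S c) (hW : Wa S c) : NR S c ∧ ((Sp S c ∧ 1 ≤ exm X S c) ∨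
    (F2 S c ∧ (2 ≤ exm X S c ∨ (1 ≤ exm X S c ∧ M3 X S c)))) := by
  rcases h with h | h | ⟨k, h, -⟩
  · exact absurd hW h.1
  · exact h.2
  · exact absurd hW h.1

theorem okc.exc_pos {c : Γ} (h : okc X S c) (hW : Wa S c) : 1 ≤ exc X S c := by
  rcases (h.alive hW).2 with h | h
  · exact h.2
  · exact condc_exc h.2

theorem okm.exm_pos {c : Γ} (h : okm X S c) (hW : Wa S c) : 1 ≤ exm X S c := by
  rcases (h.alive hW).2 with h | h
  · exact h.2
  · exact condm_exm h.2

theorem Rk_unique {c : Γ} {k l : Fin 5} (h : Rk S c k) (h' : Rk S c l) : k = l := by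
  by_contra hne
  exact h'.2.2.1 (h.2.2.2 l (Ne.symm hne) h'.2.1)

theorem Rk.not_Dn {c : Γ} {k : Fin 5} (h : Rk S c k) : ¬ Dn S c := fun hd =>
  h.2.2.1 (hd.2 k h.2.1)

theorem Wa.not_Dn {c : Γ} (h : Wa S c) : ¬ Dn S c := fun hd => hd.1 h

/-- the state of a safe ordinary gadget without `w` -/
theorem okc.gone {c : Γ} (h : okc X S c) (hW : ¬ Wa S c) : Dn S c ∨ ∃ k, Rk S c k ∧
    ((z c ∈ S ∧ 1 ≤ tau S c) ∨ (cr c (T k) ∈ S ∧ (1 ≤ exc X S c ∨ cr c Om ∉ S))) := by
  rcases h with h | h | h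
  · exact Or.inl h
  · exact absurd h.1 hW
  · exact Or.inr h

theorem okm.gone {c : Γ} (h : okm X S c) (hW : ¬ Wa S c) : Dn S c ∨ ∃ k, Rk S c k ∧
    (2 ≤ tau S c ∨ (cr c (T k) ∈ S ∧ (1 ≤ exm X S c ∨ cr c Om ∉ S))) := by
  rcases h with h | h | h
  · exact Or.inl h
  · exact absurd h.1 hW
  · exact Or.inr h

theorem okc_of_Rk {c : Γ} {k : Fin 5} (h : Rk S c k) (hT : cr c (T k) ∈ S)
    (hE : 1 ≤ exc X S c ∨ cr c Om ∉ S) : okc X S c := Or.inr (Or.inr ⟨k, h, Or.inr ⟨hT, hE⟩⟩)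

theorem okm_of_Rk {c : Γ} {k : Fin 5} (h : Rk S c k) (hT : cr c (T k) ∈ S)
    (hE : 1 ≤ exm X S c ∨ cr c Om ∉ S) : okm X S c := Or.inr (Or.inr ⟨k, h, Or.inr ⟨hT, hE⟩⟩)

theorem okc_erase_of_Rk {c : Γ} {k : Fin 5} {x : Vx Γ Θ} (hx : isLk x = true) (h : Rk S c k)
    (hT : cr c (T k) ∈ S) (hE : 1 ≤ exc X (S.erase x) c ∨ cr c Om ∉ S) :
    okc X (S.erase x) c :=
  okc_of_Rk ((Rk_erase hx).2 h) ((cr_mem_erase hx).2 hT) (by rwa [cr_mem_erase hx])

/-- comparison of the numbers of exclusive locks -/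
theorem exc_mono {c : Γ} (hz : z c ∈ S → z c ∈ S') (ht : ∀ b, t c b ∈ S → t c b ∈ S')
    (hg : ∀ q, X.par c = some q → ∀ b, t q b ∈ S → t q b ∈ S')
    (hD : ∀ q, X.par c = some q → Dn S q → Dn S' q) : exc X S c ≤ exc X S' c := by
  rcases hq : X.par c with _ | q
  · have h1 : ¬ dpar X S c := not_dpar_none hq
    have h2 : ¬ dpar X S' c := not_dpar_none hq
    rw [exc_of_not_dpar h1, exc_of_not_dpar h2]
    exact Nat.add_le_add (n1_mono hz) (tau_mono ht)
  · by_cases h1 : dpar X S c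
    · have h2 : dpar X S' c := (dpar_iff hq).2 (hD q hq ((dpar_iff hq).1 h1))
      rw [exc_of_dpar h1, exc_of_dpar h2, gam_eq hq, gam_eq hq]
      exact Nat.add_le_add (Nat.add_le_add (n1_mono hz) (tau_mono ht)) (tau_mono (hg q hq))
    · rw [exc_of_not_dpar h1]
      exact (Nat.add_le_add (n1_mono hz) (tau_mono ht)).trans (exc_ge c)

theorem exc_mono_erase {c : Γ} {x : Vx Γ Θ} (hx : isLk x = true) (hz : z c ∈ S → z c ∈ S')
    (ht : ∀ b, t c b ∈ S → t c b ∈ S')
    (hg : ∀ q, X.par c = some q → ∀ b, t q b ∈ S → t q b ∈ S')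
    (hD : ∀ q, X.par c = some q → Dn S q → Dn S' q) :
    exc X (S.erase x) c ≤ exc X (S'.erase x) c :=
  exc_mono (mem_erase_both hz) (fun b => mem_erase_both (ht b))
    (fun q hq b => mem_erase_both (hg q hq b))
    (fun q hq => by rw [Dn_erase hx, Dn_erase hx]; exact hD q hq)

theorem tau_erase_t {c : Γ} (htt : t c true ∉ S) : tau (S.erase (t c false)) c = 0 := by
  unfold tau
  rw [n1_zero, n1_zero]
  · exact fun h => htt (Finset.mem_erase.1 h).2
  · exact fun h => (Finset.mem_erase.1 h).1 rfl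

theorem dpar_erase {c : Γ} {x : Vx Γ Θ} (hx : isLk x = true) :
    dpar X (S.erase x) c ↔ dpar X S c := by
  unfold dpar; simp only [Dn_erase hx]

theorem wpar_erase {c : Γ} {x : Vx Γ Θ} (hx : isLk x = true) :
    wpar X (S.erase x) c ↔ wpar X S c := by
  unfold wpar; simp only [Wa_erase hx]

theorem n1_erase_self {x : Vx Γ Θ} : n1 (S.erase x) x = 0 :=
  n1_zero (fun h => (Finset.mem_erase.1 h).1 rfl)

theorem n1_erase_ne {x y : Vx Γ Θ} (h : y ≠ x) : n1 (S.erase x) y = n1 S y := by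
  unfold n1; simp [Finset.mem_erase, h]

theorem tau_erase_ne {c d : Γ} {b : Bool} (h : c ≠ d) : tau (S.erase (t d b)) c = tau S c := by
  unfold tau
  rw [n1_erase_ne, n1_erase_ne] <;> simp [h]

theorem tau_erase_z {c d : Γ} : tau (S.erase (z d)) c = tau S c := by
  unfold tau
  rw [n1_erase_ne, n1_erase_ne] <;> simp

theorem gam_erase_z {c d : Γ} : gam X (S.erase (z d)) c = gam X S c := by
  unfold gam; simp only [tau_erase_z]

theorem gam_erase_self {c : Γ} {b : Bool} : gam X (S.erase (t c b)) c = gam X S c := by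
  rcases hq : X.par c with _ | q
  · rw [gam_none hq, gam_none hq]
  · rw [gam_eq hq, gam_eq hq, tau_erase_ne (X.par_ne hq).symm]

/-! ### The merge child and the merge parent of an ordinary gadget -/

theorem hM_of {c : Γ} (hI : Inv X S) (F : FrC X S S' c)
    (h : okc X (S.erase (t c false)) c →
      (∀ b, t c b ∈ S → t c b ∈ S') ∧ okc X (S'.erase (t c false)) c) :
    ∀ M, X.par M = some c → X.mg M = true → okm X S' M := by
  intro M hM hmM
  have hMc := X.par_ne hM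
  have hcM : X.par c ≠ some M := fun h => X.par_par_ne hM h rfl
  refine okm_transfer (F.core M hMc) (F.ht M hMc hcM) ?_ (fun _ => M3_transfer ?_)
    (hI.okm' M hmM)
  · intro hQ
    rw [Qp_iff hM] at hQ ⊢
    right
    rw [gam_eq hM, gam_eq hM]
    exact ⟨tau_mono (h hQ).1, (h hQ).2⟩
  · intro f hf h1 h2
    have hfM := X.par_ne hf
    have hfc := X.par_par_ne hf hM
    have hcf : X.par c ≠ some f := by
      intro h
      have h1 := X.rk_lt _ _ h
      have h2 := X.rk_lt _ _ hf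
      have h3 := X.rk_lt _ _ hM
      omega
    refine ⟨F.hz f hfc h1, Tr.okc_erase (isLk_z _) ?_ h2⟩
    refine ⟨F.core f hfc, F.hz f hfc, F.ht f hfc hcf, ?_⟩
    intro r hr
    rw [hf] at hr; cases hr
    exact Or.inl ⟨F.ht M hMc hcM, fun hh => F.sub hh, Dn_mono (F.core M hMc)⟩

/-- `M` is safe after the trigger vertex of `c` has been removed, then the reply -/
theorem hM_of' {c M : Γ} (hM : X.par M = some c) (S1 : Finset (Vx Γ Θ))
    (htc : ∀ b, t c b ∉ S1) (hsub : S' ⊆ S1)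
    (hcore : ∀ e, e ≠ c → CoreLe S1 S' e) (hz : ∀ e, e ≠ c → z e ∈ S1 → z e ∈ S')
    (ht : ∀ e, e ≠ c → X.par c ≠ some e → ∀ b, t e b ∈ S1 → t e b ∈ S') (hok : okm X S1 M) :
    okm X S' M := by
  have hMc := X.par_ne hM
  have hcM : X.par c ≠ some M := fun h => X.par_par_ne hM h rfl
  refine okm_transfer (hcore M hMc) (ht M hMc hcM) ?_ (fun _ => M3_transfer ?_) hok
  · intro _
    left
    rw [gam_eq hM]
    unfold tau
    rw [n1_zero (htc _), n1_zero (htc _)]
  · intro f hf h1 h2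
    have hfM := X.par_ne hf
    have hfc := X.par_par_ne hf hM
    have hcf : X.par c ≠ some f := by
      intro h
      have h1 := X.rk_lt _ _ h
      have h2 := X.rk_lt _ _ hf
      have h3 := X.rk_lt _ _ hM
      omega
    refine ⟨hz f hfc h1, Tr.okc_erase (isLk_z _) ?_ h2⟩
    refine ⟨hcore f hfc, hz f hfc, ht f hfc hcf, ?_⟩
    intro r hr
    rw [hf] at hr; cases hr
    exact Or.inl ⟨ht M hMc hcM, fun hh => hsub hh, Dn_mono (hcore M hMc)⟩

theorem hp_of {c : Γ} (hI : Inv X S) (F : FrC X S S' c)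
    (h : ∀ p, X.par c = some p → X.mg p = true → Wa S p → z c ∈ S →
      okc X (S.erase (z c)) c → z c ∈ S' ∧ okc X (S'.erase (z c)) c) :
    ∀ p, X.par c = some p → X.mg p = true → okm X S' p := by
  intro p hp hmp
  have hpc : p ≠ c := (X.par_ne hp).symm
  rcases F.hq p hp with htp | ⟨hD, -⟩
  · refine okm_transfer (F.core p hpc) htp ?_ ?_ (hI.okm' p hmp)
    · obtain ⟨r, hr, hmr⟩ := X.mg_par p hmp
      have hrc : r ≠ c := (X.par_par_ne hp hr).symm
      have hrp : r ≠ p := (X.par_ne hr).symm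
      have hcr : X.par c ≠ some r := by intro h; rw [hp] at h; cases h; exact hrp rfl
      intro hQ
      rw [Qp_iff hr] at hQ ⊢
      right
      rw [gam_eq hr, gam_eq hr]
      refine ⟨tau_mono (F.ht r hrc hcr), Tr.okc_erase (isLk_t _ _) ?_ hQ⟩
      refine ⟨F.core r hrc, F.hz r hrc, F.ht r hrc hcr, ?_⟩
      intro s hs
      have h1 := X.rk_lt _ _ hs
      have h2 := X.rk_lt _ _ hr
      have h3 := X.rk_lt _ _ hp
      have hsc : s ≠ c := by rintro rfl; omega
      have hsp : s ≠ p := by rintro rfl; omega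
      have hcs : X.par c ≠ some s := by intro h; rw [hp] at h; cases h; exact hsp rfl
      exact Or.inl ⟨F.ht s hsc hcs, fun hh => F.sub hh, Dn_mono (F.core s hsc)⟩
    · intro hW
      refine M3_transfer ?_
      intro f hf h1 h2
      have : f = c := X.mg_child p f c hmp hf hp
      subst this
      exact h p hp hmp hW h1 h2
  · exact okm_of_Dn (Dn_mono (F.core p hpc) hD)

end ArcK
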