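import Pool.Agent.ArcK.Defs

/-!
# Trees of gadgets: positions, moves, the invariant of closed positions
-/

namespace ArcK

/-- The core vertices of a gadget.  Critical vertices `u k` with partners `p k` (`k = 0, 1`: the
vertices `a`, without `T`; `k = 2, 3, 4`: the vertices `v`, which have a vertex `T k`), the vertex
`w`, the free vertex `Om` and its leaf. -/
inductive Cr
  | u (k : Fin 5)
  | p (k : Fin 5)
  | T (k : Fin 5)
  | w
  | Om
  | OmL
  deriving DecidableEq

/-- All vertices.  A position is a finite set of vertices, so vertices which do not exist in the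
real graph (such as `T 0`, `T 1`, or `t c true` for an ordinary gadget) are just never present. -/
inductive Vx (Γ Θ : Type)
  | cr (c : Γ) (x : Cr)
  | z (c : Γ)
  | t (c : Γ) (b : Bool)
  | tok (θ : Θ)
  | tl (θ : Θ)
  deriving DecidableEq

open Vx Cr

/-- A tree of gadgets: `par` is the parent, `mg` marks the merge gadgets (the third gadgets of the
blocks), `ta θ c b` says that the token `θ` is adjacent to the trigger vertex `t c b`. -/
structure Tree (Γ Θ : Type) where
  par : Γ → Option Γ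
  mg : Γ → Bool
  ta : Θ → Γ → Bool → Prop
  rk : Γ → ℕ
  rk_lt : ∀ c p, par c = some p → rk p < rk c
  mg_par : ∀ c, mg c = true → ∃ p, par c = some p ∧ mg p = false
  mg_only : ∀ c p e, mg c = true → par c = some p → par e = some p → e = c
  mg_pp : ∀ c p q, mg c = true → par c = some p → par p = some q →
    mg q = false ∧ ∀ e, par e = some q → e = p
  mg_child : ∀ c e f, mg c = true → par e = some c → par f = some c → e = f
  root_uniq : ∀ c c', par c = none → par c' = none → c = c'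

variable {Γ Θ : Type} [DecidableEq Γ] [DecidableEq Θ]

/-- The vertices of the side `A` (each edge has exactly one end in `A`). -/
def isA : Vx Γ Θ → Bool
  | .cr _ (.u _) => true
  | .cr _ .w => true
  | .cr _ .Om => true
  | .tok _ => true
  | _ => false

/-- Adjacency, from side `A` to side `B`. -/
inductive Ad (X : Tree Γ Θ) : Vx Γ Θ → Vx Γ Θ → Prop
  | up (c : Γ) (k : Fin 5) : Ad X (cr c (u k)) (cr c (p k))
  | uT (c : Γ) (k : Fin 5) : Ad X (cr c (u k)) (cr c (T k))
  | uz (c : Γ) (k : Fin 5) : Ad X (cr c (u k)) (z c)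
  | ut (c : Γ) (k : Fin 5) (b : Bool) : Ad X (cr c (u k)) (t c b)
  | ug (c : Γ) (k : Fin 5) (q : Γ) (b : Bool) : X.par c = some q → Ad X (cr c (u k)) (t q b)
  | wp (c : Γ) (k : Fin 5) : Ad X (cr c w) (cr c (p k))
  | wz (c e : Γ) : X.par e = some c → Ad X (cr c w) (z e)
  | wt (c e : Γ) (b : Bool) : X.par e = some c → X.mg e = true → Ad X (cr c w) (t e b)
  | OT (c : Γ) (k : Fin 5) : Ad X (cr c Om) (cr c (T k))
  | OL (c : Γ) : Ad X (cr c Om) (cr c OmL)
  | tt (θ : Θ) : Ad X (tok θ) (tl θ)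
  | ta (θ : Θ) (c : Γ) (b : Bool) : X.ta θ c b → Ad X (tok θ) (t c b)

/-- The graph on all vertices. -/
def gr (X : Tree Γ Θ) : SimpleGraph (Vx Γ Θ) := SimpleGraph.fromRel (Ad X)

/-- deleting the two ends of an edge -/
abbrev del (S : Finset (Vx Γ Θ)) (a b : Vx Γ Θ) : Finset (Vx Γ Θ) := (S.erase a).erase b

/-- number of vertices of side `A` -/
def cA (S : Finset (Vx Γ Θ)) : ℕ := (S.filter (fun x => isA x = true)).card

variable (X : Tree Γ Θ) (S : Finset (Vx Γ Θ))

/-- `w` is present -/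
def Wa (c : Γ) : Prop := cr c w ∈ S

/-- every present `u k` has its partner -/
def NR (c : Γ) : Prop := ∀ k, cr c (u k) ∈ S → cr c (p k) ∈ S

/-- the gadget is done -/
def Dn (c : Γ) : Prop := ¬ Wa S c ∧ NR S c

/-- there is a spare partner -/
def Sp (c : Γ) : Prop := ∃ k, cr c (u k) ∉ S ∧ cr c (p k) ∈ S

/-- `u k, p k, T k` are all present -/
def Fl (c : Γ) (k : Fin 5) : Prop := cr c (u k) ∈ S ∧ cr c (p k) ∈ S ∧ cr c (T k) ∈ S

/-- at least two full triples -/
def F2 (c : Γ) : Prop := ∃ k l, k ≠ l ∧ Fl S c k ∧ Fl S c l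

/-- `w` is gone and `u k` is the only vertex without its partner -/
def Rk (c : Γ) (k : Fin 5) : Prop :=
  ¬ Wa S c ∧ cr c (u k) ∈ S ∧ cr c (p k) ∉ S ∧ ∀ l, l ≠ k → cr c (u l) ∈ S → cr c (p l) ∈ S

/-- indicator of a vertex -/
def n1 (x : Vx Γ Θ) : ℕ := if x ∈ S then 1 else 0

/-- number of own trigger vertices -/
def tau (c : Γ) : ℕ := n1 S (t c false) + n1 S (t c true)

/-- number of trigger vertices of the parent -/
def gam (c : Γ) : ℕ := match X.par c with
  | none => 0
  | some q => tau S q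

/-- the parent has its `w` -/
def wpar (c : Γ) : Prop := ∃ q, X.par c = some q ∧ Wa S q

/-- the parent is done -/
def dpar (c : Γ) : Prop := ∃ q, X.par c = some q ∧ Dn S q

open Classical in
/-- number of exclusive locks of an ordinary gadget -/
noncomputable def exc (c : Γ) : ℕ := n1 S (z c) + tau S c + if dpar X S c then gam X S c else 0

/-- an ordinary gadget is safe -/
def okc (c : Γ) : Prop :=
  Dn S c ∨
  (Wa S c ∧ NR S c ∧ ((Sp S c ∧ 1 ≤ exc X S c) ∨
    (F2 S c ∧ ((z c ∈ S ∧ (¬ wpar X S c ∨ 1 ≤ gam X S c + tau S c)) ∨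
      (dpar X S c ∧ 2 ≤ exc X S c))))) ∨
  ∃ k, Rk S c k ∧ ((z c ∈ S ∧ 1 ≤ tau S c) ∨ (cr c (T k) ∈ S ∧ (1 ≤ exc X S c ∨ cr c Om ∉ S)))

/-- the parent is safe without its trigger vertex -/
def Qp (c : Γ) : Prop := ∃ q, X.par c = some q ∧ okc X (S.erase (t q false)) q

open Classical in
/-- number of exclusive locks of a merge gadget -/
noncomputable def exm (c : Γ) : ℕ := tau S c + if Qp X S c then gam X S c else 0

/-- the child is safe without its link `z` -/
def M3 (c : Γ) : Prop := ∃ e, X.par e = some c ∧ z e ∈ S ∧ okc X (S.erase (z e)) e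

/-- a merge gadget is safe -/
def okm (c : Γ) : Prop :=
  Dn S c ∨
  (Wa S c ∧ NR S c ∧ ((Sp S c ∧ 1 ≤ exm X S c) ∨
    (F2 S c ∧ (2 ≤ exm X S c ∨ (1 ≤ exm X S c ∧ M3 X S c))))) ∨
  ∃ k, Rk S c k ∧ (2 ≤ tau S c ∨ (cr c (T k) ∈ S ∧ (1 ≤ exm X S c ∨ cr c Om ∉ S)))

/-- The invariant of closed positions. -/
structure Inv : Prop where
  okc' : ∀ c, X.mg c = false → okc X S c
  okm' : ∀ c, X.mg c = true → okm X S c
  sib : ∀ c, X.mg c = false → ¬ Wa S c →
    ∃ e0, ∀ e, X.par e = some c → X.mg e = false → e ≠ e0 → okc X (S.erase (t c false)) e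
  tt : ∀ c, X.mg c = false → t c true ∉ S
  zz : ∀ c, X.mg c = true ∨ X.par c = none → z c ∉ S
  omL : ∀ c, cr c Om ∈ S → cr c OmL ∈ S
  tl : ∀ θ, tok θ ∈ S → tl θ ∈ S

/-- a good reply exists -/
def Good : Prop := ∃ a b, a ∈ S ∧ b ∈ S ∧ Ad X a b ∧ Inv X (del S a b)

/-! ### The main line -/

/-- the core is intact -/
def Intact (c : Γ) : Prop :=
  (∀ k, cr c (u k) ∈ S ∧ cr c (p k) ∈ S) ∧ (∀ k : Fin 5, 2 ≤ k.1 → cr c (T k) ∈ S) ∧
  cr c w ∈ S ∧ cr c Om ∈ S ∧ cr c OmL ∈ S

/-- the gadget is untouched -/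
def Fresh (c : Γ) : Prop :=
  Intact S c ∧ t c false ∈ S ∧ (X.mg c = true → t c true ∈ S) ∧
  (X.mg c = false → X.par c ≠ none → z c ∈ S)

/-- The common part of the positions of the main line: the current gadget `c` is intact, has lost
its `z`, all the other gadgets are done or untouched, and the children of the current gadget and of
untouched gadgets are untouched. -/
structure Main (c : Γ) : Prop where
  cur : Intact S c
  zc : z c ∉ S
  oth : ∀ e, e ≠ c → Dn S e ∨ Fresh X S e
  ch : ∀ e, X.par e = some c → Fresh X S e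
  chf : ∀ e f, e ≠ c → Fresh X S e → X.par f = some e → Fresh X S f
  anc : ∀ p, X.par c = some p → Dn S p
  mgf : ∀ e p, X.mg e = true → e ≠ c → X.par e = some p → Dn S p → ¬ Fresh X S e
  tt : ∀ c, X.mg c = false → t c true ∉ S
  zz : ∀ c, X.mg c = true ∨ X.par c = none → z c ∉ S
  omL : ∀ c, cr c Om ∈ S → cr c OmL ∈ S
  tl : ∀ θ, tok θ ∈ S → Vx.tl θ ∈ S
  T01 : ∀ c (k : Fin 5), k.1 < 2 → cr c (T k) ∉ S

/-- The trigger vertices which are locks of `c`: those of `c` and of its parent. -/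
def Lock (c : Γ) (x : Vx Γ Θ) : Prop :=
  (∃ b, x = t c b) ∨ ∃ p b, X.par c = some p ∧ x = t p b

/-- `c` is open: its only lock is `ℓ` (for an ordinary gadget, its own trigger vertex). -/
structure Open (c : Γ) (ℓ : Vx Γ Θ) : Prop extends Main X S c where
  lock : Lock X c ℓ
  own : X.mg c = false → ℓ = t c false
  mem : ℓ ∈ S
  only : ∀ x, Lock X c x → x ∈ S → x = ℓ

/-- `c` is hot: it has no lock. -/
structure Hot (c : Γ) : Prop extends Main X S c where
  nolock : ∀ x, Lock X c x → x ∉ S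

/-- The special positions: the ordinary gadget `c` has been neutralised with `u k`, which still has
`T k` and the trigger vertex of `c`; its merge child `M` is intact and has lost `t M b`. -/
structure Zst (c M : Γ) (b : Bool) (k : Fin 5) : Prop where
  mgM : X.mg M = true
  parM : X.par M = some c
  rkc : Rk S c k
  Tk : cr c (T k) ∈ S
  cur : Intact S M
  zc : z c ∉ S
  tc : t c false ∈ S
  tM : t M b ∉ S
  tM' : t M (!b) ∈ S
  oth : ∀ e, e ≠ c → e ≠ M → Dn S e ∨ Fresh X S e
  ch : ∀ e, X.par e = some M → Fresh X S e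
  chf : ∀ e f, e ≠ M → e ≠ c → Fresh X S e → X.par f = some e → Fresh X S f
  mgf : ∀ e p, X.mg e = true → e ≠ M → X.par e = some p → Dn S p → ¬ Fresh X S e
  tt : ∀ c, X.mg c = false → t c true ∉ S
  zz : ∀ c, X.mg c = true ∨ X.par c = none → z c ∉ S
  omL : ∀ c, cr c Om ∈ S → cr c OmL ∈ S
  tl : ∀ θ, tok θ ∈ S → Vx.tl θ ∈ S
  T01 : ∀ c (k : Fin 5), k.1 < 2 → cr c (T k) ∉ S

/-- the tokens which are present -/
def toks : Set Θ := {θ | tok θ ∈ S}

/-- Abstract strategy for the first player `O`: `H c T` says that `O` wins when `c` is hot, `T` is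
the set of the tokens present, and the other player is to move. -/
structure OStrat (H : Γ → Set Θ → Prop) : Prop where
  chain : ∀ c e T, H c T → X.par e = some c → X.mg e = false →
    ∃ θ ∈ T, X.ta θ e false ∧ H e (T \ {θ})
  merge : ∀ c e T, H c T → X.par e = some c → X.mg e = true →
    ∀ b, ∃ θ ∈ T, X.ta θ e b ∧ H e (T \ {θ})
  push : ∀ c e T, H c T → X.par e = some c → X.mg e = true →
    ∀ b θ, θ ∈ T → X.ta θ e b → H e (T \ {θ})

/-- Abstract strategy for the second player `E`: `W c ℓ T` says that `E` wins when `c` is open with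
the lock `ℓ`, `T` is the set of the tokens present, and the first player is to move. -/
structure EStrat (W : Γ → Vx Γ Θ → Set Θ → Prop) : Prop where
  mono : ∀ c ℓ T T', W c ℓ T → T' ⊆ T → W c ℓ T'
  trig : ∀ c ℓ T θ, W c ℓ T → Lock X c ℓ → θ ∈ T → Ad X (tok θ) ℓ →
    (∃ e, X.par e = some c ∧ X.mg e = false ∧ W e (t e false) (T \ {θ})) ∨
    ∃ e b, X.par e = some c ∧ X.mg e = true ∧ W e (t e b) (T \ {θ})
  z1 : ∀ c e T b θ, W c (t c false) T → X.par e = some c → X.mg e = true → θ ∈ T → X.ta θ e b →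
    W e (t e (!b)) (T \ {θ})
  z2 : ∀ c e T b θ θ', W c (t c false) T → X.par e = some c → X.mg e = true → θ ∈ T →
    X.ta θ e b → θ' ∈ T → X.ta θ' e (!b) → W e (t c false) (T \ {θ, θ'})
  z3 : ∀ c e T, W e (t c false) T → X.par e = some c → X.mg e = true →
    ∃ f, X.par f = some e ∧ X.mg f = false ∧ W f (t f false) T

end ArcK
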